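import Pool.Agent.H13.RG.Defs

/-!
# Project RG (MP_a3214d), RG-A1: the action of the matrix group on points, the values of the
invariants, orbits and monic equations
-/

set_option autoImplicit false

open MvPolynomial NumberField

namespace Pool.Agent.H13.RG

section Basic

variable {R : Type} [CommRing R] {s : ℕ} {G : Type} [Group G] [Fintype G] (I : Inv R s G)
  {D : Type} [CommRing D] {E : Type} [CommRing E]

theorem act_one (φ : R →+* D) (x : Fin s → D) : I.act φ 1 x = x := by
  unfold Inv.act
  rw [map_one, Matrix.map_one φ (map_zero φ) (map_one φ), Matrix.one_mulVec]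

theorem act_mul (φ : R →+* D) (g h : G) (x : Fin s → D) :
    I.act φ (g * h) x = I.act φ g (I.act φ h x) := by
  unfold Inv.act
  rw [map_mul, Matrix.map_mul, Matrix.mulVec_mulVec]

theorem act_add (φ : R →+* D) (g : G) (x y : Fin s → D) :
    I.act φ g (x + y) = I.act φ g x + I.act φ g y := by
  unfold Inv.act
  rw [Matrix.mulVec_add]

theorem act_smul (φ : R →+* D) (g : G) (a : D) (x : Fin s → D) :
    I.act φ g (a • x) = a • I.act φ g x := by
  unfold Inv.act
  rw [Matrix.mulVec_smul]

theorem act_map (φ : R →+* D) (ψ : D →+* E) (g : G) (x : Fin s → D) :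
    (fun i => ψ (I.act φ g x i)) = I.act (ψ.comp φ) g (fun i => ψ (x i)) := by
  unfold Inv.act
  funext i
  rw [RingHom.map_mulVec, Matrix.map_map]
  rfl

theorem fv_map (φ : R →+* D) (ψ : D →+* E) (x : Fin s → D) :
    (fun i => ψ (I.fv φ x i)) = I.fv (ψ.comp φ) (fun i => ψ (x i)) := by
  unfold Inv.fv
  funext i
  exact eval₂_comp_left ψ φ x (I.f i)

theorem fv_act (φ : R →+* D) (g : G) (x : Fin s → D) : I.fv φ (I.act φ g x) = I.fv φ x := by
  funext i
  exact I.inv D φ g x i

theorem eval_smul {P : MvPolynomial (Fin s) R} {e : ℕ} (hP : P.IsHomogeneous e) (φ : R →+* D)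
    (a : D) (x : Fin s → D) : eval₂ φ (a • x) P = a ^ e * eval₂ φ x P := by
  rw [eval₂_eq', eval₂_eq', Finset.mul_sum]
  apply Finset.sum_congr rfl
  intro d hd
  have hde : ∑ i, d i = e := by
    have h1 := hP (mem_support_iff.1 hd)
    rw [← h1, Finsupp.weight_apply, Finsupp.sum_fintype]
    · simp
    · simp
  simp only [Pi.smul_apply, smul_eq_mul, mul_pow]
  rw [Finset.prod_mul_distrib, Finset.prod_pow_eq_pow_sum, hde]
  ring

theorem fv_smul (φ : R →+* D) (a : D) (x : Fin s → D) (i : Fin s) :
    I.fv φ (a • x) i = a ^ I.d i * I.fv φ x i :=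
  eval_smul (I.hom i) φ a x

/-- equal invariants: same orbit (take `y = c · x` in the resolvent over `D[c_1, .., c_s]`) -/
theorem orbit [IsDomain D] (φ : R →+* D) (x y : Fin s → D) (h : I.fv φ x = I.fv φ y) :
    ∃ g, y = I.act φ g x := by
  set φ' : R →+* MvPolynomial (Fin s) D := (C : D →+* MvPolynomial (Fin s) D).comp φ with hφ'
  set Y : MvPolynomial (Fin s) D := ∑ i, X i * C (y i) with hY
  have hv : ∀ z : Fin s → D, (fun i => eval₂ φ' (fun i => C (z i)) (I.f i)) =
      fun i => (C (I.fv φ z i) : MvPolynomial (Fin s) D) := by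
    intro z
    exact (fv_map I φ (C : D →+* MvPolynomial (Fin s) D) z).symm
  have ha : ∀ (g : G) (z : Fin s → D) (i : Fin s),
      (((I.ρ g).map φ').mulVec (fun i => C (z i))) i =
        (C (I.act φ g z i) : MvPolynomial (Fin s) D) := by
    intro g z i
    exact (congrFun (act_map I φ (C : D →+* MvPolynomial (Fin s) D) g z) i).symm
  have h1 := I.res (MvPolynomial (Fin s) D) φ' (fun i => C (y i)) X Y
  have h2 := I.res (MvPolynomial (Fin s) D) φ' (fun i => C (x i)) X Y
  rw [hv] at h1 h2
  rw [h, h1] at h2
  have h3 : ∏ g, (Y - ∑ i, X i * (((I.ρ g).map φ').mulVec (fun i => C (y i))) i) = 0 := by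
    apply Finset.prod_eq_zero (Finset.mem_univ (1 : G))
    rw [hY, sub_eq_zero]
    apply Finset.sum_congr rfl
    intro i _
    rw [ha, act_one]
  rw [h3] at h2
  obtain ⟨g, -, hg⟩ := Finset.prod_eq_zero_iff.1 h2.symm
  refine ⟨g, ?_⟩
  funext j
  rw [sub_eq_zero] at hg
  have hc : ∀ z : Fin s → D, coeff (Finsupp.single j 1)
      (∑ i, X i * C (z i) : MvPolynomial (Fin s) D) = z j := by
    intro z
    rw [coeff_sum, Finset.sum_eq_single j]
    · rw [mul_comm, coeff_C_mul, coeff_X, if_pos rfl, mul_one]
    · intro i _ hij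
      rw [mul_comm, coeff_C_mul, coeff_X, if_neg, mul_zero]
      intro hh
      exact hij (Finsupp.single_left_injective one_ne_zero hh)
    · intro hj
      exact absurd (Finset.mem_univ j) hj
  have h4 := congrArg (coeff (Finsupp.single j 1)) hg
  rw [hY, hc y] at h4
  have h5 : ∑ i, X i * (((I.ρ g).map φ').mulVec (fun i => C (x i))) i =
      (∑ i, X i * C (I.act φ g x i) : MvPolynomial (Fin s) D) := by
    apply Finset.sum_congr rfl
    intro i _
    rw [ha]
  rw [h5, hc] at h4
  exact h4

/-- the coordinates are roots of monic polynomials over `R[f]` (resolvent at `c = e_j`) -/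
theorem exists_root (j : Fin s) : ∃ a : Fin (Fintype.card G) → MvPolynomial (Fin s) R,
    ∀ (D : Type) [CommRing D] (φ : R →+* D) (x : Fin s → D),
      x j ^ Fintype.card G +
        ∑ e : Fin (Fintype.card G), eval₂ φ (I.fv φ x) (a e) * x j ^ (e : ℕ) = 0 := by
  set P : Polynomial (MvPolynomial (Fin s) R) :=
    eval₂ ((Polynomial.C : MvPolynomial (Fin s) R →+* _).comp
      (C : R →+* MvPolynomial (Fin s) R))
      (pt (fun i => Polynomial.C (X i)) (fun i => if i = j then 1 else 0) Polynomial.X) I.T
    with hP
  refine ⟨fun e => P.coeff e, ?_⟩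
  intro D _ φ x
  rcases subsingleton_or_nontrivial D with hD | hD
  · exact Subsingleton.elim _ _
  set θ : MvPolynomial (Fin s) R →+* D := eval₂Hom φ (I.fv φ x) with hθ
  have h1 : P.map θ = ∏ g : G, (Polynomial.X - Polynomial.C (I.act φ g x j)) := by
    have h2 := I.res (Polynomial D) ((Polynomial.C : D →+* Polynomial D).comp φ)
      (fun i => Polynomial.C (x i)) (fun i => if i = j then 1 else 0) Polynomial.X
    have h3 : P.map θ = eval₂ ((Polynomial.C : D →+* Polynomial D).comp φ)
        (pt (fun i => eval₂ ((Polynomial.C : D →+* Polynomial D).comp φ)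
          (fun i => Polynomial.C (x i)) (I.f i)) (fun i => if i = j then 1 else 0)
          Polynomial.X) I.T := by
      rw [← Polynomial.coe_mapRingHom, hP, eval₂_comp_left]
      have e1 : (Polynomial.mapRingHom θ).comp
          ((Polynomial.C : MvPolynomial (Fin s) R →+* _).comp
            (C : R →+* MvPolynomial (Fin s) R)) =
          (Polynomial.C : D →+* Polynomial D).comp φ := by
        ext r
        simp [hθ]
      have e2 : (Polynomial.mapRingHom θ) ∘
          (pt (fun i => Polynomial.C (X i)) (fun i => if i = j then 1 else 0)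
            (Polynomial.X : Polynomial (MvPolynomial (Fin s) R))) =
          pt (fun i => eval₂ ((Polynomial.C : D →+* Polynomial D).comp φ)
            (fun i => Polynomial.C (x i)) (I.f i)) (fun i => if i = j then 1 else 0)
            Polynomial.X := by
        have e3 : (fun i => eval₂ ((Polynomial.C : D →+* Polynomial D).comp φ)
            (fun i => Polynomial.C (x i)) (I.f i)) = fun i => Polynomial.C (I.fv φ x i) :=
          (fv_map I φ (Polynomial.C : D →+* Polynomial D) x).symm
        rw [e3]
        funext t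
        rcases t with (t | t) | t
        · simp [pt, hθ]
        · simp only [pt, Function.comp_apply, Sum.elim_inl, Sum.elim_inr]
          split_ifs <;> simp
        · simp [pt]
      rw [e1, e2]
    rw [h3, h2]
    apply Finset.prod_congr rfl
    intro g _
    congr 1
    rw [Finset.sum_eq_single j]
    · rw [if_pos rfl, one_mul]
      exact (congrFun (act_map I φ (Polynomial.C : D →+* Polynomial D) g x) j).symm
    · intro i _ hij
      rw [if_neg hij, zero_mul]
    · intro hj
      exact absurd (Finset.mem_univ j) hj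
  set Q : Polynomial D := ∏ g : G, (Polynomial.X - Polynomial.C (I.act φ g x j)) with hQ
  have hQm : Q.Monic := Polynomial.monic_prod_of_monic _ _ fun g _ => Polynomial.monic_X_sub_C _
  have hQd : Q.natDegree = Fintype.card G := by
    rw [hQ, Polynomial.natDegree_prod_of_monic _ _ fun g _ => Polynomial.monic_X_sub_C _]
    simp
  have hQ0 : Q.eval (x j) = 0 := by
    rw [hQ, Polynomial.eval_prod]
    apply Finset.prod_eq_zero (Finset.mem_univ (1 : G))
    rw [act_one]
    simp
  have h4 := hQm.as_sum
  have h5 := congrArg (Polynomial.eval (x j)) h4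
  rw [hQ0, hQd] at h5
  simp only [Polynomial.eval_add, Polynomial.eval_pow, Polynomial.eval_X,
    Polynomial.eval_finsetSum, Polynomial.eval_mul, Polynomial.eval_C] at h5
  rw [h5]
  congr 1
  rw [← Fin.sum_univ_eq_sum_range (fun e => Q.coeff e * x j ^ e)]
  apply Finset.sum_congr rfl
  intro e _
  rw [← h1, Polynomial.coeff_map]
  rfl

end Basic

end Pool.Agent.H13.RG
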