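import Pool.Agent.H41.RG.Boxes

/-!
# RG-C4: the number of integers with bounded conjugates
-/

set_option autoImplicit false

open NumberField Pool.Agent.H41.RG

namespace Pool.Agent.H13.RG

theorem rgc4_finite (F : Type) [Field F] [NumberField F] (Y : ℝ) :
    Set.Finite {a : 𝓞 F | ∀ v : F →+* ℂ, ‖v (a : F)‖ ≤ Y} := by
  have h := NumberField.Embeddings.finite_of_norm_le F ℂ Y
  refine Set.Finite.of_finite_image (f := fun a : 𝓞 F => (a : F)) (h.subset ?_) ?_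
  · rintro _ ⟨a, ha, rfl⟩
    exact ⟨a.isIntegral_coe, ha⟩
  · intro a _ b _ hab
    exact RingOfIntegers.ext hab

theorem box_upper (F : Type) [Field F] [NumberField F] : ∃ C : ℝ, 0 < C ∧ ∀ Y : ℝ, 1 ≤ Y →
    Set.Finite {a : 𝓞 F | ∀ v : F →+* ℂ, ‖v (a : F)‖ ≤ Y} ∧
    (Set.ncard {a : 𝓞 F | ∀ v : F →+* ℂ, ‖v (a : F)‖ ≤ Y} : ℝ) ≤
      C * Y ^ Module.finrank ℚ F := by
  refine ⟨3 ^ Module.finrank ℚ F, by positivity, ?_⟩
  intro Y hY
  have hfin := rgc4_finite F Y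
  refine ⟨hfin, ?_⟩
  rw [Set.ncard_eq_toFinset_card _ hfin]
  have h := card_le_of_house F (by linarith : (0 : ℝ) ≤ Y) hfin.toFinset (fun x hx => by
    rw [Set.Finite.mem_toFinset] at hx
    exact hx)
  refine h.trans ?_
  rw [← mul_pow]
  exact pow_le_pow_left₀ (by positivity) (by linarith) _

theorem box_lower (F : Type) [Field F] [NumberField F] (M : ℕ) (hM : 0 < M) (α : 𝓞 F) :
    ∃ (c Y0 : ℝ), 0 < c ∧ 1 ≤ Y0 ∧ ∀ Y : ℝ, Y0 ≤ Y →
      c * Y ^ Module.finrank ℚ F ≤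
        (Set.ncard {a : 𝓞 F | (M : 𝓞 F) ∣ a - α ∧ ∀ v : F →+* ℂ, ‖v (a : F)‖ ≤ Y} : ℝ) := by
  classical
  obtain ⟨C0, hC0, h⟩ := Pool.Agent.H41.RG.box_lower F (s := 1) (fun _ => 1) hM (fun _ => α)
  refine ⟨(1 / C0) ^ Module.finrank ℚ F, max 1 C0, by positivity, le_max_left _ _, ?_⟩
  intro Y hY
  have hY1 : 1 ≤ Y := (le_max_left _ _).trans hY
  have hYC : C0 ≤ Y := (le_max_right _ _).trans hY
  obtain ⟨S, hS, hcard⟩ := h (Y / C0) (by rw [le_div_iff₀ hC0]; linarith)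
  have hfin : Set.Finite {a : 𝓞 F | (M : 𝓞 F) ∣ a - α ∧ ∀ v : F →+* ℂ, ‖v (a : F)‖ ≤ Y} :=
    (rgc4_finite F Y).subset (fun a ha => ha.2)
  rw [Set.ncard_eq_toFinset_card _ hfin]
  have hle : S.card ≤ hfin.toFinset.card := by
    refine Finset.card_le_card_of_injOn (fun u => u 0) ?_ ?_
    · intro u hu
      rw [Finset.mem_coe] at hu ⊢
      rw [Set.Finite.mem_toFinset]
      refine ⟨(hS u hu 0).1, fun v => ?_⟩
      have h1 := (hS u hu 0).2 v
      rwa [pow_one, mul_div_cancel₀ _ hC0.ne'] at h1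
    · intro u _ u' _ huu
      funext i
      rw [Subsingleton.elim i 0]
      exact huu
  calc (1 / C0) ^ Module.finrank ℚ F * Y ^ Module.finrank ℚ F
      = (Y / C0) ^ (Module.finrank ℚ F * ∑ _i : Fin 1, 1) := by
        rw [← mul_pow]
        simp [div_eq_mul_inv, mul_comm]
    _ ≤ (S.card : ℝ) := hcard
    _ ≤ (hfin.toFinset.card : ℝ) := by exact_mod_cast hle

end Pool.Agent.H13.RG
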