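import Pool.Agent.H13.RG.Molien

/-!
# RG-E6: the first two coefficients of the Laurent expansion at `1` of the Molien series

If `|H| C = D (1 - t)^s ∑_{h ∈ H} 1 / det (1 - t ρ(h))` with polynomials `C` and `D`, then
`|H| C(1) = D(1)` and `2 |H| C'(1) = 2 D'(1) - R D(1)`, where `R` is the number of the reflections
of `H`.
-/

set_option autoImplicit false

open MvPolynomial

namespace Pool.Agent.H13.RG

section Expand

variable {s : ℕ}

theorem rge6_rank_map {F K : Type} [Field F] [Field K] (φ : F →+* K)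
    (A : Matrix (Fin s) (Fin s) F) : (A.map φ).rank = A.rank := by
  classical
  obtain ⟨V, U, e, hV, hU, h⟩ := Matrix.exists_rank_normal_form A
  have hV1 : IsUnit (V.map φ).det := by
    rw [← RingHom.mapMatrix_apply, ← RingHom.map_det]
    exact ((Matrix.isUnit_iff_isUnit_det _).1 hV).map φ
  have hU1 : IsUnit (U.map φ).det := by
    rw [← RingHom.mapMatrix_apply, ← RingHom.map_det]
    exact ((Matrix.isUnit_iff_isUnit_det _).1 hU).map φ
  have h1 : V.map φ * A.map φ * U.map φ =
      (Matrix.diagonal (Sum.elim (fun _ => 1) (fun _ => 0) :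
        Fin A.rank ⊕ Fin (Fintype.card (Fin s) - A.rank) → K)).submatrix e e := by
    rw [← Matrix.map_mul, ← Matrix.map_mul, h]
    ext i j
    rw [Matrix.map_apply, Matrix.submatrix_apply, Matrix.submatrix_apply]
    rcases e i with a | a <;> rcases e j with b | b <;>
      simp [Matrix.diagonal_apply, Matrix.one_apply, apply_ite φ]
  have h2 : (V.map φ * A.map φ * U.map φ).rank = (A.map φ).rank := by
    rw [Matrix.rank_mul_eq_left_of_isUnit_det _ _ hU1,
      Matrix.rank_mul_eq_right_of_isUnit_det _ _ hV1]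
  rw [← h2, h1, Matrix.rank_submatrix, Matrix.rank_diagonal]
  have h3 : Fintype.card {i : Fin A.rank ⊕ Fin (Fintype.card (Fin s) - A.rank) //
      (Sum.elim (fun _ => (1 : K)) (fun _ => 0) i) ≠ 0} = Fintype.card (Fin A.rank) := by
    refine Fintype.card_congr ⟨fun x => ?_, fun a => ⟨Sum.inl a, by simp⟩, ?_, ?_⟩
    · rcases x with ⟨x | x, hx⟩
      · exact x
      · exact absurd rfl hx
    · rintro ⟨x | x, hx⟩
      · rfl
      · exact absurd rfl hx
    · intro a
      rfl
  rw [h3, Fintype.card_fin]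

theorem rge6_rank_zero {F : Type} [Field F] (A : Matrix (Fin s) (Fin s) F) (h : A.rank = 0) :
    A = 0 := by
  rw [Matrix.rank, Submodule.finrank_eq_zero, LinearMap.range_eq_bot] at h
  ext i j
  have h1 := congrFun (LinearMap.congr_fun h (Pi.single j 1)) i
  simpa using h1

theorem rge6_factor {F : Type} [Field F] [CharZero F] (A : Matrix (Fin s) (Fin s) F) (r : ℕ)
    (hr : 0 < r) (hA : A ^ r = 1) :
    ∃ Q : Polynomial (AlgebraicClosure F), Q.eval 1 ≠ 0 ∧
      A.charpolyRev.map (algebraMap F (AlgebraicClosure F)) =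
        (1 - Polynomial.X) ^ (s - (A - 1).rank) * Q ∧
      (A - 1).rank ≤ s ∧ ((A - 1).rank = 0 → Q = 1) ∧
      ((A - 1).rank = 1 → Q.eval 1 = 1 - algebraMap F (AlgebraicClosure F) A.det) := by
  classical
  set K := AlgebraicClosure F
  set φ : F →+* K := algebraMap F K
  have : CharZero K := charZero_of_injective_algebraMap (algebraMap F K).injective
  have hA' : (A.map φ) ^ r = 1 := by
    have h1 := congrArg (RingHom.mapMatrix φ) hA
    rw [map_pow, map_one] at h1
    exact h1
  obtain ⟨P, Q, a, hPQ, hQP, hAD⟩ := rge2_exists_diag (A.map φ) r hr hA'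
  have hPdet : IsUnit P.det := by
    refine IsUnit.of_mul_eq_one Q.det ?_
    rw [← Matrix.det_mul, hPQ, Matrix.det_one]
  have hQdet : IsUnit Q.det := by
    refine IsUnit.of_mul_eq_one P.det ?_
    rw [← Matrix.det_mul, hQP, Matrix.det_one]
  -- the characteristic polynomial
  have h1 : A.charpolyRev.map φ = ∏ i, (1 - Polynomial.X * Polynomial.C (a i)) := by
    rw [← rge2_charpolyRev_map, hAD, rge2_charpolyRev_conj P Q _ hPQ hQP, Matrix.charpolyRev,
      Matrix.diagonal_map (map_zero _), ← Matrix.diagonal_smul,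
      ← Matrix.diagonal_one, Matrix.diagonal_sub, Matrix.det_diagonal]
    rfl
  -- the rank
  have h2 : (A - 1).rank = (Finset.univ.filter fun i => a i ≠ 1).card := by
    have h3 : (A - 1).map φ = P * Matrix.diagonal (fun i => a i - 1) * Q := by
      have h4 : (A - 1).map φ = A.map φ - 1 := by
        have h5 := map_sub (RingHom.mapMatrix φ) A 1
        rw [map_one] at h5
        exact h5
      have h6 : Matrix.diagonal (fun i => a i - 1) = Matrix.diagonal a - 1 := by
        rw [← Matrix.diagonal_one, Matrix.diagonal_sub]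
      rw [h4, h6, Matrix.mul_sub, Matrix.sub_mul, ← hAD, Matrix.mul_one, hPQ]
    rw [← rge6_rank_map φ (A - 1), h3, Matrix.rank_mul_eq_left_of_isUnit_det _ _ hQdet,
      Matrix.rank_mul_eq_right_of_isUnit_det _ _ hPdet, Matrix.rank_diagonal,
      Fintype.card_subtype]
    congr 1
    ext i
    simp [sub_eq_zero]
  -- the determinant
  have h3 : φ A.det = ∏ i, a i := by
    rw [RingHom.map_det, RingHom.mapMatrix_apply, hAD, Matrix.det_mul, Matrix.det_mul,
      Matrix.det_diagonal, mul_comm, ← mul_assoc, ← Matrix.det_mul, hQP, Matrix.det_one, one_mul]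
  have h4 : (Finset.univ.filter fun i => a i = 1).card = s - (A - 1).rank := by
    have h5 := Finset.card_filter_add_card_filter_not (s := (Finset.univ : Finset (Fin s)))
      (fun i => a i = 1)
    rw [Finset.card_univ, Fintype.card_fin] at h5
    rw [h2]
    simp only [ne_eq]
    omega
  refine ⟨∏ i ∈ Finset.univ.filter (fun i => a i ≠ 1), (1 - Polynomial.X * Polynomial.C (a i)),
    ?_, ?_, ?_, ?_, ?_⟩
  · rw [Polynomial.eval_prod, Finset.prod_ne_zero_iff]
    intro i hi
    rw [Finset.mem_filter] at hi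
    simp only [Polynomial.eval_sub, Polynomial.eval_one, Polynomial.eval_mul, Polynomial.eval_X,
      Polynomial.eval_C, one_mul]
    exact sub_ne_zero.2 (Ne.symm hi.2)
  · rw [h1, ← h4, ← Finset.prod_const, ← Finset.prod_filter_mul_prod_filter_not Finset.univ
      (fun i => a i = 1)]
    congr 1
    refine Finset.prod_congr rfl fun i hi => ?_
    rw [Finset.mem_filter] at hi
    rw [hi.2, Polynomial.C_1, mul_one]
  · rw [h2]
    exact (Finset.card_le_univ _).trans (by rw [Fintype.card_fin])
  · intro h0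
    rw [h2, Finset.card_eq_zero] at h0
    rw [h0, Finset.prod_empty]
  · intro h0
    rw [h2, Finset.card_eq_one] at h0
    obtain ⟨i0, hi0⟩ := h0
    rw [hi0, Finset.prod_singleton, h3]
    have h5 : ∏ i, a i = a i0 := by
      refine Finset.prod_eq_single i0 ?_ (fun h => absurd (Finset.mem_univ _) h)
      intro i _ hi
      by_contra hne
      have : i ∈ Finset.univ.filter (fun i => a i ≠ 1) :=
        Finset.mem_filter.2 ⟨Finset.mem_univ _, hne⟩
      rw [hi0, Finset.mem_singleton] at this
      exact hi this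
    rw [h5]
    simp

theorem rge6_abstract {K : Type} [Field K] {ι : Type} [Fintype ι] [DecidableEq ι]
    (C D : Polynomial K) (n : K) (Q : ι → Polynomial K) (e : ι → ℕ) (o : ι)
    (hQ : ∀ i, (Q i).eval 1 ≠ 0) (ho : Q o = 1) (he : e o = 0) (hne : ∀ i, i ≠ o → e i ≠ 0)
    (h : Polynomial.C n * C * ∏ i, Q i =
      D * ∑ i, (1 - Polynomial.X) ^ e i * ∏ j ∈ Finset.univ.erase i, Q j) :
    n * C.eval 1 = D.eval 1 ∧
      n * (Polynomial.derivative C).eval 1 = (Polynomial.derivative D).eval 1 -
        D.eval 1 * ∑ i ∈ Finset.univ.filter (fun i => e i = 1), ((Q i).eval 1)⁻¹ := by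
  classical
  set W : Polynomial K := ∏ i, Q i with hW
  have hW0 : W.eval 1 ≠ 0 := by
    rw [hW, Polynomial.eval_prod, Finset.prod_ne_zero_iff]
    exact fun i _ => hQ i
  have hWo : ∏ j ∈ Finset.univ.erase o, Q j = W := by
    rw [hW, ← Finset.mul_prod_erase Finset.univ Q (Finset.mem_univ o), ho, one_mul]
  have hWi : ∀ i, (∏ j ∈ Finset.univ.erase i, Q j).eval 1 = W.eval 1 * ((Q i).eval 1)⁻¹ := by
    intro i
    rw [hW, ← Finset.mul_prod_erase Finset.univ Q (Finset.mem_univ i), Polynomial.eval_mul]
    field_simp [hQ i]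
  -- the sum `S`
  set S : Polynomial K :=
    ∑ i, (1 - Polynomial.X) ^ e i * ∏ j ∈ Finset.univ.erase i, Q j with hS
  have hS1 : S.eval 1 = W.eval 1 := by
    rw [hS, Polynomial.eval_finsetSum, Finset.sum_eq_single o]
    · rw [he, pow_zero, one_mul, hWo]
    · intro i _ hi
      rw [Polynomial.eval_mul, Polynomial.eval_pow, Polynomial.eval_sub, Polynomial.eval_one,
        Polynomial.eval_X, sub_self, zero_pow (hne i hi), zero_mul]
    · intro h; exact absurd (Finset.mem_univ _) h
  have hd : ∀ m : ℕ, m ≠ 0 → (Polynomial.derivative ((1 - Polynomial.X : Polynomial K) ^ m)).eval 1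
      = if m = 1 then -1 else 0 := by
    intro m hm
    rw [Polynomial.derivative_pow, Polynomial.derivative_sub, Polynomial.derivative_one,
      Polynomial.derivative_X]
    simp only [Polynomial.eval_mul, Polynomial.eval_pow, Polynomial.eval_sub, Polynomial.eval_one,
      Polynomial.eval_X, sub_self, zero_sub, Polynomial.eval_C]
    by_cases h1 : m = 1
    · subst h1; simp
    · rw [if_neg h1, zero_pow (by omega), mul_zero, zero_mul]
  have hS2 : (Polynomial.derivative S).eval 1 = (Polynomial.derivative W).eval 1 -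
      W.eval 1 * ∑ i ∈ Finset.univ.filter (fun i => e i = 1), ((Q i).eval 1)⁻¹ := by
    rw [hS, Polynomial.derivative_sum, Polynomial.eval_finsetSum,
      ← Finset.add_sum_erase Finset.univ _ (Finset.mem_univ o), he, pow_zero, one_mul, hWo]
    rw [sub_eq_add_neg (Polynomial.eval 1 (Polynomial.derivative W))]
    congr 1
    rw [Finset.mul_sum, ← Finset.sum_neg_distrib, Finset.sum_filter]
    rw [← Finset.add_sum_erase Finset.univ (fun i => if e i = 1 then
      -(W.eval 1 * ((Q i).eval 1)⁻¹) else 0) (Finset.mem_univ o)]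
    rw [if_neg (by rw [he]; exact zero_ne_one), zero_add]
    refine Finset.sum_congr rfl fun i hi => ?_
    have hi' : e i ≠ 0 := hne i (Finset.ne_of_mem_erase hi)
    rw [Polynomial.derivative_mul, Polynomial.eval_add, Polynomial.eval_mul, Polynomial.eval_mul,
      hd _ hi', hWi, Polynomial.eval_pow, Polynomial.eval_sub, Polynomial.eval_one,
      Polynomial.eval_X, sub_self, zero_pow hi', zero_mul, add_zero]
    by_cases h1 : e i = 1
    · rw [if_pos h1, if_pos h1]; ring
    · rw [if_neg h1, if_neg h1, zero_mul]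
  have h1 : n * C.eval 1 = D.eval 1 := by
    have h2 := congrArg (Polynomial.eval 1) h
    rw [Polynomial.eval_mul, Polynomial.eval_mul, Polynomial.eval_mul, Polynomial.eval_C,
      hS1] at h2
    exact mul_right_cancel₀ hW0 h2
  refine ⟨h1, ?_⟩
  have h2 := congrArg (fun p => Polynomial.eval 1 (Polynomial.derivative p)) h
  simp only [Polynomial.derivative_mul, Polynomial.eval_add, Polynomial.eval_mul,
    Polynomial.eval_C, Polynomial.derivative_C, zero_mul, zero_add] at h2
  rw [hS1, hS2, h1] at h2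
  have h3 : (n * (Polynomial.derivative C).eval 1) * W.eval 1 =
      ((Polynomial.derivative D).eval 1 -
        D.eval 1 * ∑ i ∈ Finset.univ.filter (fun i => e i = 1), ((Q i).eval 1)⁻¹) * W.eval 1 := by
    linear_combination h2
  exact mul_right_cancel₀ hW0 h3

end Expand

section InvTheory

variable {F : Type} [Field F] [CharZero F] {s : ℕ} {G : Type} [Group G] [Fintype G]
  (ρ : G →* Matrix (Fin s) (Fin s) F)

omit [CharZero F] in
theorem rge6_pow_card (g : G) : ρ g ^ Fintype.card G = 1 := by
  rw [← map_pow, pow_card_eq_one, map_one]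

omit [CharZero F] [Fintype G] in
theorem rge6_rank_inv (g : G) : (ρ g⁻¹ - 1).rank = (ρ g - 1).rank := by
  have h1 : ρ g * ρ g⁻¹ = 1 := by rw [← map_mul, mul_inv_cancel, map_one]
  have h2 : ρ g⁻¹ - 1 = -(ρ g⁻¹ * (ρ g - 1)) := by
    rw [mul_sub, ← map_mul, inv_mul_cancel, map_one, mul_one, neg_sub]
  have h3 : IsUnit (ρ g⁻¹).det := by
    refine IsUnit.of_mul_eq_one (ρ g).det ?_
    rw [mul_comm, ← Matrix.det_mul, h1, Matrix.det_one]
  have h4 : -(ρ g⁻¹ * (ρ g - 1)) = (-ρ g⁻¹) * (ρ g - 1) := by rw [neg_mul]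
  have h5 : IsUnit (-ρ g⁻¹).det := by
    rw [Matrix.det_neg]
    exact ((isUnit_one.neg).pow _).mul h3
  rw [h2, h4, Matrix.rank_mul_eq_right_of_isUnit_det _ _ h5]

/-- ### RG-E6 Expand.lean: the expansion at `t = 1` -/
theorem expand (hρ : Function.Injective ρ) (H : Subgroup G) [Fintype H]
    (C D : Polynomial F)
    (h : (Fintype.card H : PowerSeries F) * (C : PowerSeries F) =
      (D : PowerSeries F) * (1 - PowerSeries.X) ^ s *
        ∑ g : H, ((ρ g).charpolyRev : PowerSeries F)⁻¹) :
    (Fintype.card H : F) * C.eval 1 = D.eval 1 ∧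
      2 * (Fintype.card H : F) * (Polynomial.derivative C).eval 1 =
        2 * (Polynomial.derivative D).eval 1 -
          (Nat.card {g : H // (ρ g - 1).rank = 1} : F) * D.eval 1 := by
  classical
  set K := AlgebraicClosure F with hK
  set φ : F →+* K := algebraMap F K with hφ
  have hφi : Function.Injective φ := φ.injective
  choose Q hQ1 hQ2 hQ3 hQ4 hQ5 using fun g : H =>
    rge6_factor (ρ (g : G)) (Fintype.card G) Fintype.card_pos (rge6_pow_card ρ (g : G))
  set e : H → ℕ := fun g => (ρ (g : G) - 1).rank with he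
  -- the constant coefficients
  have hc : ∀ g : H, PowerSeries.constantCoeff ((ρ (g : G)).charpolyRev : PowerSeries F) = 1 := by
    intro g
    rw [Polynomial.constantCoeff_coe, Polynomial.coeff_zero_eq_eval_zero, Matrix.eval_charpolyRev]
  -- the identity in `K[[X]]`
  have key1 : ∀ g : H, ((1 - PowerSeries.X : PowerSeries K) ^ s) *
      PowerSeries.map φ ((ρ (g : G)).charpolyRev : PowerSeries F)⁻¹ * (Q g : PowerSeries K) =
        (1 - PowerSeries.X) ^ e g := by
    intro g
    have h1 : PowerSeries.map φ ((ρ (g : G)).charpolyRev : PowerSeries F) *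
        PowerSeries.map φ ((ρ (g : G)).charpolyRev : PowerSeries F)⁻¹ = 1 := by
      rw [← map_mul, PowerSeries.mul_inv_cancel _ (by rw [hc]; exact one_ne_zero), map_one]
    have h2 : PowerSeries.map φ ((ρ (g : G)).charpolyRev : PowerSeries F) =
        (1 - PowerSeries.X) ^ (s - e g) * (Q g : PowerSeries K) := by
      rw [← Polynomial.polynomial_map_coe, hQ2 g]
      simp [he]
    have h3 : (1 - PowerSeries.X : PowerSeries K) ^ s =
        (1 - PowerSeries.X) ^ e g * (1 - PowerSeries.X) ^ (s - e g) := by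
      rw [← pow_add, Nat.add_sub_cancel' (hQ3 g)]
    rw [h3]
    calc _ = (1 - PowerSeries.X : PowerSeries K) ^ e g *
          (((1 - PowerSeries.X) ^ (s - e g) * (Q g : PowerSeries K)) *
            PowerSeries.map φ ((ρ (g : G)).charpolyRev : PowerSeries F)⁻¹) := by ring
      _ = _ := by rw [← h2, h1, mul_one]
  have key2 : Polynomial.C (Fintype.card H : K) * C.map φ * ∏ g, Q g =
      D.map φ * ∑ g, (1 - Polynomial.X) ^ e g * ∏ j ∈ Finset.univ.erase g, Q j := by
    apply Polynomial.coe_injective K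
    have h1 := congrArg (PowerSeries.map φ) h
    rw [map_mul, map_mul, map_mul, map_sum, map_natCast, map_pow, map_sub, map_one,
      PowerSeries.map_X, ← Polynomial.polynomial_map_coe, ← Polynomial.polynomial_map_coe] at h1
    have h2 : ((Polynomial.C (Fintype.card H : K) * C.map φ * ∏ g, Q g : Polynomial K) :
        PowerSeries K) = (Fintype.card H : PowerSeries K) * (C.map φ : PowerSeries K) *
          ((∏ g, Q g : Polynomial K) : PowerSeries K) := by
      rw [Polynomial.coe_mul, Polynomial.coe_mul, Polynomial.coe_C, map_natCast]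
    have h3 : ((D.map φ * ∑ g, (1 - Polynomial.X) ^ e g * ∏ j ∈ Finset.univ.erase g, Q j :
        Polynomial K) : PowerSeries K) = (D.map φ : PowerSeries K) *
          ∑ g, (1 - PowerSeries.X) ^ e g *
            ((∏ j ∈ Finset.univ.erase g, Q j : Polynomial K) : PowerSeries K) := by
      rw [Polynomial.coe_mul]
      congr 1
      rw [← Polynomial.coeToPowerSeries.ringHom_apply, map_sum]
      refine Finset.sum_congr rfl fun g _ => ?_
      simp
    rw [h2, h3, h1, mul_assoc, mul_assoc]
    congr 1
    rw [Finset.sum_mul, Finset.mul_sum]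
    refine Finset.sum_congr rfl fun g _ => ?_
    rw [← Finset.mul_prod_erase Finset.univ Q (Finset.mem_univ g), Polynomial.coe_mul, ← key1 g]
    ring
  have hne : ∀ g : H, g ≠ 1 → e g ≠ 0 := by
    intro g hg h0
    apply hg
    have h1 : ρ (g : G) - 1 = 0 := rge6_rank_zero _ h0
    have h2 : ρ (g : G) = ρ 1 := by rw [map_one]; exact sub_eq_zero.1 h1
    exact Subtype.ext (hρ h2)
  have he1 : e 1 = 0 := by
    simp [he]
  obtain ⟨r1, r2⟩ := rge6_abstract (C.map φ) (D.map φ) (Fintype.card H : K) Q e 1 hQ1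
    (hQ4 1 he1) he1 hne key2
  -- the sum over the reflections
  set T : Finset H := Finset.univ.filter fun g => e g = 1 with hT
  have hinv : ∀ g ∈ T, g⁻¹ ∈ T := by
    intro g hg
    rw [hT, Finset.mem_filter] at hg ⊢
    refine ⟨Finset.mem_univ _, ?_⟩
    rw [← hg.2]
    exact rge6_rank_inv ρ (g : G)
  have hsum : 2 * ∑ g ∈ T, ((Q g).eval 1)⁻¹ = (T.card : K) := by
    have h1 : ∑ g ∈ T, ((Q g).eval 1)⁻¹ = ∑ g ∈ T, ((Q g⁻¹).eval 1)⁻¹ := by
      refine Finset.sum_bij (fun g _ => g⁻¹) hinv (fun a _ b _ h => inv_injective h)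
        (fun b hb => ⟨b⁻¹, hinv b hb, inv_inv b⟩) (fun a _ => by rw [inv_inv])
    have h2 : ∀ g ∈ T, ((Q g).eval 1)⁻¹ + ((Q g⁻¹).eval 1)⁻¹ = 1 := by
      intro g hg
      have hg' := hinv g hg
      rw [hT, Finset.mem_filter] at hg hg'
      have h3 := hQ5 g hg.2
      have h4 := hQ5 g⁻¹ hg'.2
      have h5 := hQ1 g
      have h6 := hQ1 g⁻¹
      rw [h3] at h5
      rw [h4] at h6
      rw [h3, h4]
      have h7 : φ (ρ (g : G)).det * φ (ρ ((g⁻¹ : H) : G)).det = 1 := by
        rw [← map_mul, ← Matrix.det_mul, ← map_mul, ← Subgroup.coe_mul, mul_inv_cancel,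
          Subgroup.coe_one, map_one, Matrix.det_one, map_one]
      field_simp
      linear_combination -h7
    rw [two_mul]
    nth_rewrite 2 [h1]
    rw [← Finset.sum_add_distrib, Finset.sum_congr rfl h2, Finset.sum_const, nsmul_eq_mul, mul_one]
  have hcard : Nat.card {g : H // (ρ g - 1).rank = 1} = T.card := by
    rw [Nat.card_eq_fintype_card, Fintype.card_subtype]
  have ev : ∀ p : Polynomial F, (p.map φ).eval 1 = φ (p.eval 1) := by
    intro p
    have h1 := Polynomial.eval_map_apply (f := φ) (p := p) 1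
    rw [map_one] at h1
    exact h1
  rw [Polynomial.derivative_map, Polynomial.derivative_map, ev, ev, ev] at r2
  rw [ev, ev] at r1
  constructor
  · apply hφi
    rw [map_mul, map_natCast]
    exact r1
  · apply hφi
    rw [hcard, map_mul, map_mul, map_sub, map_mul, map_mul, map_natCast, map_natCast,
      map_ofNat, ← hsum]
    linear_combination 2 * r2

end InvTheory

end Pool.Agent.H13.RG
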