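import Mathlib

/-!
# Project RG (MP_a3214d): definitions

Lower bounds for Malle's counting function `N(k, G; B)` for every finite reflection group `G`, every
transitive faithful action of `G` and every number field `k`.
-/

set_option autoImplicit false

open MvPolynomial NumberField

namespace Pool.Agent.H13.RG

/-! ### A finite matrix group over a ring, homogeneous invariants and the resolvent -/

/-- The point `(u, c, y)`. -/
def pt {s : ℕ} {D : Type} (u c : Fin s → D) (y : D) : (Fin s ⊕ Fin s) ⊕ Unit → D :=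
  Sum.elim (Sum.elim u c) (fun _ => y)

/-- A finite group of matrices over `R`, homogeneous invariants `f` of degrees `d`, and the
resolvent `T`: `T(f(x), c, y) = ∏ (y - c · ρ(g) x)`. -/
structure Inv (R : Type) [CommRing R] (s : ℕ) (G : Type) [Group G] [Fintype G] where
  ρ : G →* Matrix (Fin s) (Fin s) R
  f : Fin s → MvPolynomial (Fin s) R
  d : Fin s → ℕ
  T : MvPolynomial ((Fin s ⊕ Fin s) ⊕ Unit) R
  d_pos : ∀ i, 0 < d i
  hom : ∀ i, (f i).IsHomogeneous (d i)
  inv : ∀ (D : Type) [CommRing D] (φ : R →+* D) (g : G) (x : Fin s → D) (i : Fin s),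
    eval₂ φ (((ρ g).map φ).mulVec x) (f i) = eval₂ φ x (f i)
  res : ∀ (D : Type) [CommRing D] (φ : R →+* D) (x c : Fin s → D) (y : D),
    eval₂ φ (pt (fun i => eval₂ φ x (f i)) c y) T =
      ∏ g, (y - ∑ i, c i * (((ρ g).map φ).mulVec x) i)

namespace Inv

variable {R : Type} [CommRing R] {s : ℕ} {G : Type} [Group G] [Fintype G] (I : Inv R s G)
  {D : Type} [CommRing D]

/-- The value `f(x)` at a point `x` with coordinates in `D`. -/
noncomputable def fv (φ : R →+* D) (x : Fin s → D) : Fin s → D := fun i => eval₂ φ x (I.f i)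

/-- The action of `G` on the points with coordinates in `D`. -/
def act (φ : R →+* D) (g : G) (x : Fin s → D) : Fin s → D := ((I.ρ g).map φ).mulVec x

end Inv

/-! ### The rings `𝓞_K[1/N]` and their places -/

/-- The subring `𝓞_K[1/N]` of a field `K`. -/
def RN (K : Type) [Field K] (N : ℕ) : Subring K where
  carrier := {a | ∃ j : ℕ, IsIntegral ℤ ((N : K) ^ j * a)}
  mul_mem' := by
    rintro a b ⟨i, hi⟩ ⟨j, hj⟩
    refine ⟨i + j, ?_⟩
    have h : (N : K) ^ (i + j) * (a * b) = ((N : K) ^ i * a) * ((N : K) ^ j * b) := by ring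
    rw [h]
    exact hi.mul hj
  one_mem' := ⟨0, by simpa using isIntegral_one⟩
  add_mem' := by
    rintro a b ⟨i, hi⟩ ⟨j, hj⟩
    refine ⟨i + j, ?_⟩
    have hN : IsIntegral ℤ (N : K) := by
      simpa using (isIntegral_algebraMap (R := ℤ) (A := K) (x := (N : ℤ)))
    have h : (N : K) ^ (i + j) * (a + b) =
        (N : K) ^ j * ((N : K) ^ i * a) + (N : K) ^ i * ((N : K) ^ j * b) := by ring
    rw [h]
    exact ((hN.pow j).mul hi).add ((hN.pow i).mul hj)
  zero_mem' := ⟨0, by simpa using isIntegral_zero⟩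
  neg_mem' := by
    rintro a ⟨i, hi⟩
    refine ⟨i, ?_⟩
    rw [mul_neg]
    exact hi.neg

/-- The inclusion of `𝓞_K` in `𝓞_K[1/N]`. -/
def inO (K : Type) [Field K] (N : ℕ) : 𝓞 K →+* RN K N :=
  (algebraMap (𝓞 K) K).codRestrict (RN K N) (fun a => ⟨0, by
    rw [pow_zero, one_mul]; exact a.isIntegral_coe⟩)

section Places

variable (F : Type) [Field F] (Ω : Type) [Field Ω] [Algebra F Ω] (N : ℕ)

/-- The map `𝓞_F[1/N] → Ω`. -/
def iO : RN F N →+* Ω := (algebraMap F Ω).comp (RN F N).subtype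

/-- The map `𝓞_F[1/N] → 𝓞_Ω[1/N]`. -/
def iN : RN F N →+* RN Ω N :=
  (iO F Ω N).codRestrict (RN Ω N) (by
    rintro ⟨a, j, hj⟩
    refine ⟨j, ?_⟩
    have := hj.map (algebraMap F Ω).toIntAlgHom
    simpa [iO] using this)

end Places

/-! ### The data over a number field -/

/-- A finite group `G` of matrices over `𝓞_F[1/N]`, irreducible over `F`, with algebraically
independent invariants `f`, a transitive action `π` on `n` points, and the covariants
`W i j` (homogeneous of degree `c j`) with `W i j (ρ(g)⁻¹ x) = W (π g i) j (x)`. -/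
structure Core (F : Type) [Field F] (s n : ℕ) (G : Type) [Group G] [Fintype G] where
  N : ℕ
  N_pos : 0 < N
  I : Inv (RN F N) s G
  faithful : ∀ g, I.ρ g = 1 → g = 1
  irred : ∀ U : Submodule F (Fin s → F),
    (∀ g, ∀ v ∈ U, I.act (RN F N).subtype g v ∈ U) → U = ⊥ ∨ U = ⊤
  indep : AlgebraicIndependent F (fun i => MvPolynomial.map (RN F N).subtype (I.f i))
  deg : s < ∑ i, I.d i
  π : G →* Equiv.Perm (Fin n)
  π_trans : MulAction.IsPretransitive π.range (Fin n)
  W : Fin n → Fin n → MvPolynomial (Fin s) (RN F N)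
  c : Fin n → ℕ
  W_hom : ∀ i j, (W i j).IsHomogeneous (c j)
  W_act : ∀ (D : Type) [CommRing D] (φ : RN F N →+* D) (g : G) (x : Fin s → D) (i j : Fin n),
    eval₂ φ (I.act φ g⁻¹ x) (W i j) = eval₂ φ x (W (π g i) j)
  W_det : (Matrix.of W).det ≠ 0
  c_pos : 0 < ∑ j, c j

section Fields

variable {F : Type} [Field F] {Ω : Type} [Field Ω] [Algebra F Ω] {s n : ℕ} {G : Type} [Group G]
  [Fintype G]

/-- `σ x = ρ(h(σ))⁻¹ x` for all `σ`. -/
def Twisted (X : Core F s n G) (h : (Ω ≃ₐ[F] Ω) →* G) (x : Fin s → Ω) : Prop :=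
  ∀ σ : Ω ≃ₐ[F] Ω, (fun i => σ (x i)) = X.I.act (iO F Ω X.N) (h σ)⁻¹ x

/-- The lattice of `h`: points `x` with `M0 x` integral and `σ x = ρ(h(σ))⁻¹ x`. -/
def Lat (X : Core F s n G) (M0 : ℕ) (h : (Ω ≃ₐ[F] Ω) →* G) : Set (Fin s → Ω) :=
  {x | (∀ j, IsIntegral ℤ ((M0 : Ω) * x j)) ∧ Twisted X h x}

/-- A choice of an extension of every complex embedding of `F`. -/
def IsExt (ext : (F →+* ℂ) → (Ω →+* ℂ)) : Prop := ∀ v, (ext v).comp (algebraMap F Ω) = v

/-- The maximum of the chosen absolute values of the coordinates. -/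
noncomputable def nrm [NumberField F] (ext : (F →+* ℂ) → (Ω →+* ℂ)) (x : Fin s → Ω) : ℝ :=
  ‖(fun (p : (F →+* ℂ) × Fin s) => ext p.1 (x p.2))‖

/-- The parameters of level `H`: `u ≡ α` modulo `M`, `|v(u_i)| ≤ H^(d_i)` for all `v`. -/
def Par (X : Core F s n G) (M : ℕ) (α : Fin s → 𝓞 F) (H : ℝ) : Set (Fin s → 𝓞 F) :=
  {u | ∀ i, (M : 𝓞 F) ∣ u i - α i ∧ ∀ v : F →+* ℂ, ‖v (u i : F)‖ ≤ H ^ X.I.d i}

/-- The homomorphisms of level `H`. -/
def Homs (Ω : Type) [Field Ω] [Algebra F Ω] (X : Core F s n G) (M : ℕ) (α : Fin s → 𝓞 F)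
    (H : ℝ) : Set ((Ω ≃ₐ[F] Ω) →* G) :=
  {h | Function.Surjective h ∧ ∃ u ∈ Par X M α H, ∃ x : Fin s → Ω,
    X.I.fv (iO F Ω X.N) x = (fun i => algebraMap F Ω (u i : F)) ∧ Twisted X h x}

/-- The class `α` modulo `M` forces the full group. -/
def Full (Ω : Type) [Field Ω] [Algebra F Ω] (X : Core F s n G) (M : ℕ) (α : Fin s → 𝓞 F) :
    Prop :=
  ∀ u : Fin s → 𝓞 F, (∀ i, (M : 𝓞 F) ∣ u i - α i) → ∀ x : Fin s → Ω,
    X.I.fv (iO F Ω X.N) x = (fun i => algebraMap F Ω (u i : F)) →
    eval₂ (iO F Ω X.N) x (Matrix.of X.W).det ≠ 0 ∧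
      ∃ h : (Ω ≃ₐ[F] Ω) →* G, Function.Surjective h ∧ Twisted X h x

end Fields

/-! ### Invariant theory over a field -/

section InvTheory

/-- The substitution `p(x) ↦ p(A x)`. -/
noncomputable def msub {R : Type} [CommRing R] {s : ℕ} (A : Matrix (Fin s) (Fin s) R) :
    MvPolynomial (Fin s) R →ₐ[R] MvPolynomial (Fin s) R :=
  aeval (fun i => ∑ j, C (A i j) * X j)

theorem msub_homogeneous {R : Type} [CommRing R] {s : ℕ} (A : Matrix (Fin s) (Fin s) R) {m : ℕ}
    {p : MvPolynomial (Fin s) R} (hp : p.IsHomogeneous m) : (msub A p).IsHomogeneous m := by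
  have h := hp.aeval (S := R) (fun i => ∑ j, C (A i j) * X j) (n := 1)
    (fun i => IsHomogeneous.sum _ _ _ fun j _ => isHomogeneous_C_mul_X _ _)
  rwa [one_mul] at h

variable {F : Type} [Field F] {s : ℕ} {G : Type} [Group G]

/-- The action of a matrix on the homogeneous polynomials of degree `m`. -/
noncomputable def homAct (A : Matrix (Fin s) (Fin s) F) (m : ℕ) :
    homogeneousSubmodule (Fin s) F m →ₗ[F] homogeneousSubmodule (Fin s) F m :=
  (msub A).toLinearMap.restrict (fun _ hp => msub_homogeneous A hp)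

/-- `p` is invariant under the subgroup `H`. -/
def IsInv (ρ : G →* Matrix (Fin s) (Fin s) F) (H : Subgroup G) (p : MvPolynomial (Fin s) F) :
    Prop :=
  ∀ h ∈ H, msub (ρ h) p = p

/-- The space of the invariants of `H`. -/
noncomputable def invSub (ρ : G →* Matrix (Fin s) (Fin s) F) (H : Subgroup G) :
    Submodule F (MvPolynomial (Fin s) F) where
  carrier := {p | IsInv ρ H p}
  add_mem' := fun {a b} ha hb h hh => by rw [map_add, ha h hh, hb h hh]
  zero_mem' := fun h _ => map_zero _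
  smul_mem' := fun c a ha h hh => by rw [map_smul, ha h hh]

/-- The Hilbert series of a space of polynomials. -/
noncomputable def hser (S : Submodule F (MvPolynomial (Fin s) F)) : PowerSeries F :=
  PowerSeries.mk fun m => (Module.finrank F (S ⊓ homogeneousSubmodule (Fin s) F m : Submodule F _) : F)

/-- The data of the theorem of Chevalley, Shephard and Todd. -/
structure CST (ρ : G →* Matrix (Fin s) (Fin s) F) where
  f : Fin s → MvPolynomial (Fin s) F
  d : Fin s → ℕ
  d_pos : ∀ i, 0 < d i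
  hom : ∀ i, (f i).IsHomogeneous (d i)
  inv : ∀ i, IsInv ρ ⊤ (f i)
  indep : AlgebraicIndependent F f
  gen : ∀ p, IsInv ρ ⊤ p → p ∈ Algebra.adjoin F (Set.range f)
  chev : ∀ (m : ℕ) (P : Fin m → MvPolynomial (Fin s) F) (e : Fin m → ℕ),
    (∀ j, (P j).IsHomogeneous (e j)) →
    (∀ a : Fin m → F, ∑ j, C (a j) * P j ∈ Ideal.span (Set.range f) → a = 0) →
    ∀ U : Fin m → MvPolynomial (Fin s) F, (∀ j, IsInv ρ ⊤ (U j)) →
      ∑ j, U j * P j = 0 → U = 0

/-- A homogeneous basis of the invariants of `H` over the invariants of `G`. -/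
structure FreeBasis (ρ : G →* Matrix (Fin s) (Fin s) F) (H : Subgroup G) (m : ℕ) where
  ω : Fin m → MvPolynomial (Fin s) F
  c : Fin m → ℕ
  hom : ∀ j, (ω j).IsHomogeneous (c j)
  inv : ∀ j, IsInv ρ H (ω j)
  free : ∀ U : Fin m → MvPolynomial (Fin s) F, (∀ j, IsInv ρ ⊤ (U j)) →
      ∑ j, U j * ω j = 0 → U = 0
  span : ∀ p, IsInv ρ H p → ∃ U : Fin m → MvPolynomial (Fin s) F,
    (∀ j, IsInv ρ ⊤ (U j)) ∧ p = ∑ j, U j * ω j

end InvTheory

/-! ### Reflection groups -/

section Refl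

variable {F : Type} [Field F] {G : Type} [Group G] {V : Type} [AddCommGroup V] [Module F V]

/-- `g` acts as a reflection: `ρ(g) - 1` has rank one. -/
def IsRefl (ρ : Representation F G V) (g : G) : Prop :=
  Module.finrank F (LinearMap.range (ρ g - 1)) = 1

/-- A finite irreducible reflection group: faithful, irreducible, generated by reflections. -/
structure ReflGroup (ρ : Representation F G V) : Prop where
  faithful : Function.Injective ρ
  irred : ∀ U : Submodule F V, (∀ g, ∀ v ∈ U, ρ g v ∈ U) → U = ⊥ ∨ U = ⊤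
  gen : Subgroup.closure {g | IsRefl ρ g} = ⊤

/-- The number of reflections. -/
noncomputable def numRefl (ρ : Representation F G V) : ℕ := Nat.card {g : G // IsRefl ρ g}

/-- The number of pairs (reflection, point moved by it). -/
noncomputable def movRefl (ρ : Representation F G V) {n : ℕ} (π : G →* Equiv.Perm (Fin n)) : ℕ :=
  Nat.card {p : G × Fin n // IsRefl ρ p.1 ∧ π p.1 p.2 ≠ p.2}

end Refl

end Pool.Agent.H13.RG
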