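import Mathlib
import Pool.Agent.H13.RG.Defs

/-!
# Project RG (MP_a3214d), row RG-E5: the Hilbert series of `F[f]` and of a free module
-/

set_option autoImplicit false

open MvPolynomial

namespace Pool.Agent.H13.RG

section

variable {F : Type} [Field F] {s : ℕ} {G : Type} [Group G]

theorem rge5_fd (S : Submodule F (MvPolynomial (Fin s) F)) (m : ℕ) :
    FiniteDimensional F (S ⊓ homogeneousSubmodule (Fin s) F m : Submodule F _) := by
  haveI : FiniteDimensional F (homogeneousSubmodule (Fin s) F m) :=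
    Module.Finite.iff_fg.mpr (homogeneousSubmodule_fg _ _ m)
  exact Submodule.finiteDimensional_of_le inf_le_right

/-- A graded linear map of degree `c` commutes with taking components. -/
theorem rge5_shift (T : MvPolynomial (Fin s) F →ₗ[F] MvPolynomial (Fin s) F) (c : ℕ)
    (hT : ∀ (m : ℕ) (p : MvPolynomial (Fin s) F), p.IsHomogeneous m →
      (T p).IsHomogeneous (m + c)) (m : ℕ) (p : MvPolynomial (Fin s) F) :
    homogeneousComponent (m + c) (T p) = T (homogeneousComponent m p) := by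
  conv_lhs => rw [← sum_homogeneousComponent p]
  rw [map_sum, map_sum]
  have h1 : ∀ i ∈ Finset.range (p.totalDegree + 1),
      homogeneousComponent (m + c) (T (homogeneousComponent i p)) =
        if i = m then T (homogeneousComponent i p) else 0 := by
    intro i _
    rw [homogeneousComponent_of_mem (hT i _ (homogeneousComponent_isHomogeneous i p))]
    by_cases h : i = m
    · subst h; simp
    · rw [if_neg h, if_neg]
      omega
  rw [Finset.sum_congr rfl h1, Finset.sum_ite_eq']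
  split_ifs with h2
  · rfl
  · have h3 : p.totalDegree < m := by
      rw [Finset.mem_range] at h2
      omega
    rw [homogeneousComponent_eq_zero m p h3, map_zero]

/-- The components of small degree of the image of a graded map vanish. -/
theorem rge5_shift0 (T : MvPolynomial (Fin s) F →ₗ[F] MvPolynomial (Fin s) F) (c : ℕ)
    (hT : ∀ (m : ℕ) (p : MvPolynomial (Fin s) F), p.IsHomogeneous m →
      (T p).IsHomogeneous (m + c)) (k : ℕ) (hk : k < c) (p : MvPolynomial (Fin s) F) :
    homogeneousComponent k (T p) = 0 := by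
  conv_lhs => rw [← sum_homogeneousComponent p]
  rw [map_sum, map_sum]
  refine Finset.sum_eq_zero fun i _ => ?_
  rw [homogeneousComponent_of_mem (hT i _ (homogeneousComponent_isHomogeneous i p)), if_neg]
  omega

/-- The components of an invariant are invariant. -/
theorem rge5_inv_comp (ρ : G →* Matrix (Fin s) (Fin s) F) (H : Subgroup G)
    {p : MvPolynomial (Fin s) F} (hp : IsInv ρ H p) (m : ℕ) :
    IsInv ρ H (homogeneousComponent m p) := by
  intro h hh
  have h1 := rge5_shift (msub (ρ h)).toLinearMap 0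
    (fun m p hp => by simpa using msub_homogeneous (ρ h) hp) m p
  have h2 : (msub (ρ h)).toLinearMap p = p := hp h hh
  rw [add_zero, h2] at h1
  exact h1.symm

/-! ### The series of `F[f]` -/

/-- The series `1 / (1 - X ^ d)`. -/
theorem rge5_geom (d : ℕ) (hd : 0 < d) :
    (PowerSeries.mk fun k => if d ∣ k then (1 : F) else 0) *
      (1 - (PowerSeries.X : PowerSeries F) ^ d) = 1 := by
  ext k
  rw [mul_sub, mul_one, map_sub, PowerSeries.coeff_mk, PowerSeries.coeff_mul_X_pow',
    PowerSeries.coeff_one]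
  by_cases hk : d ≤ k
  · rw [if_pos hk, PowerSeries.coeff_mk, if_neg (by omega : ¬ k = 0)]
    have h1 : d ∣ k - d ↔ d ∣ k := by
      obtain ⟨j, rfl⟩ := Nat.exists_eq_add_of_le hk
      rw [Nat.add_sub_cancel_left]
      exact (Nat.dvd_add_right (dvd_refl d)).symm
    by_cases h2 : d ∣ k
    · rw [if_pos h2, if_pos (h1.mpr h2), sub_self]
    · rw [if_neg h2, if_neg (fun h => h2 (h1.mp h)), sub_self]
  · rw [if_neg hk, sub_zero]
    by_cases h0 : k = 0
    · subst h0; simp
    · rw [if_neg h0, if_neg]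
      intro h
      exact hk (Nat.le_of_dvd (Nat.pos_of_ne_zero h0) h)

/-- The exponents `(a_i d_i)` of degree `m`. -/
noncomputable def rge5_K (d : Fin s → ℕ) (m : ℕ) : Finset (Fin s →₀ ℕ) := by
  classical
  exact (Finset.finsuppAntidiag Finset.univ m).filter (fun l => ∀ i, d i ∣ l i)

theorem rge5_mem_K (d : Fin s → ℕ) (m : ℕ) (l : Fin s →₀ ℕ) :
    l ∈ rge5_K d m ↔ ∑ i, l i = m ∧ ∀ i, d i ∣ l i := by
  classical
  simp [rge5_K, Finset.mem_finsuppAntidiag]

theorem rge5_coeff (d : Fin s → ℕ) (m : ℕ) :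
    PowerSeries.coeff m (∏ i, PowerSeries.mk fun k => if d i ∣ k then (1 : F) else 0) =
      ((rge5_K d m).card : F) := by
  classical
  rw [PowerSeries.coeff_prod, rge5_K, Finset.card_filter, Nat.cast_sum]
  refine Finset.sum_congr rfl fun l _ => ?_
  simp only [PowerSeries.coeff_mk]
  rw [Finset.prod_ite_zero]
  simp

variable {ρ : G →* Matrix (Fin s) (Fin s) F}

/-- The monomial in `f` of the exponents `l_i / d_i`. -/
noncomputable def rge5_mon (Y : CST ρ) (l : Fin s →₀ ℕ) : MvPolynomial (Fin s) F :=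
  ∏ i, Y.f i ^ (l i / Y.d i)

theorem rge5_mon_hom (Y : CST ρ) (a : Fin s → ℕ) :
    (∏ i, Y.f i ^ a i).IsHomogeneous (∑ i, Y.d i * a i) :=
  IsHomogeneous.prod _ _ _ fun i _ => (Y.hom i).pow (a i)

theorem rge5_isInv_prod (Y : CST ρ) (a : Fin s → ℕ) : IsInv ρ ⊤ (∏ i, Y.f i ^ a i) := by
  intro h hh
  rw [map_prod]
  refine Finset.prod_congr rfl fun i _ => ?_
  rw [map_pow, Y.inv i h hh]

theorem rge5_mon_indep (Y : CST ρ) (m : ℕ) :
    LinearIndependent F (fun l : rge5_K Y.d m => rge5_mon Y (l : Fin s →₀ ℕ)) := by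
  have h1 := (MvPolynomial.basisMonomials (Fin s) F).linearIndependent
  have h2 : LinearMap.ker (aeval (R := F) Y.f).toLinearMap = ⊥ := by
    rw [LinearMap.ker_eq_bot]
    exact Y.indep
  have h3 := h1.map' _ h2
  have h4 := h3.comp (fun l : rge5_K Y.d m =>
    (Finsupp.equivFunOnFinite.symm (fun i => (l : Fin s →₀ ℕ) i / Y.d i) : Fin s →₀ ℕ)) (by
      rintro ⟨l, hl⟩ ⟨l', hl'⟩ h
      rw [rge5_mem_K] at hl hl'
      have h5 := Finsupp.equivFunOnFinite.symm.injective h
      ext i
      have h6 : l i / Y.d i = l' i / Y.d i := congrFun h5 i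
      show l i = l' i
      rw [← Nat.div_mul_cancel (hl.2 i), ← Nat.div_mul_cancel (hl'.2 i), h6])
  have h5 : (fun l : rge5_K Y.d m => rge5_mon Y (l : Fin s →₀ ℕ)) =
      ((aeval (R := F) Y.f).toLinearMap ∘ basisMonomials (Fin s) F) ∘ fun l : rge5_K Y.d m =>
        (Finsupp.equivFunOnFinite.symm (fun i => (l : Fin s →₀ ℕ) i / Y.d i) : Fin s →₀ ℕ) := by
    funext l
    simp only [Function.comp_apply, coe_basisMonomials, AlgHom.toLinearMap_apply, aeval_monomial,
      map_one, one_mul]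
    rw [Finsupp.prod_fintype _ _ (fun i => pow_zero _)]
    rfl
  rw [h5]
  exact h4

theorem rge5_mon_mem (Y : CST ρ) (m : ℕ) (l : Fin s →₀ ℕ) (hl : l ∈ rge5_K Y.d m) :
    rge5_mon Y l ∈ invSub ρ ⊤ ⊓ homogeneousSubmodule (Fin s) F m := by
  rw [rge5_mem_K] at hl
  refine ⟨rge5_isInv_prod Y _, ?_⟩
  have h1 := rge5_mon_hom Y (fun i => l i / Y.d i)
  have h2 : ∑ i, Y.d i * (l i / Y.d i) = m := by
    rw [← hl.1]
    exact Finset.sum_congr rfl fun i _ => Nat.mul_div_cancel' (hl.2 i)
  rw [h2] at h1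
  exact h1

theorem rge5_mon_span (Y : CST ρ) (m : ℕ) :
    Submodule.span F (Set.range (fun l : rge5_K Y.d m => rge5_mon Y (l : Fin s →₀ ℕ))) =
      invSub ρ ⊤ ⊓ homogeneousSubmodule (Fin s) F m := by
  apply le_antisymm
  · rw [Submodule.span_le]
    rintro _ ⟨⟨l, hl⟩, rfl⟩
    exact rge5_mon_mem Y m l hl
  · rintro p ⟨hp, hpm⟩
    have h1 : p ∈ Algebra.adjoin F (Set.range Y.f) := Y.gen p hp
    rw [Algebra.adjoin_range_eq_range_aeval] at h1
    obtain ⟨q, hq⟩ := h1
    have hq' : aeval Y.f q = p := hq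
    have h2 : homogeneousComponent m p = p := by
      rw [homogeneousComponent_of_mem hpm, if_pos rfl]
    rw [← h2, ← hq', aeval_def, eval₂_eq', map_sum]
    refine Submodule.sum_mem _ fun a _ => ?_
    rw [← Algebra.smul_def, map_smul]
    refine Submodule.smul_mem _ _ ?_
    rw [homogeneousComponent_of_mem (rge5_mon_hom Y a)]
    split_ifs with h3
    · refine Submodule.subset_span ⟨⟨Finsupp.equivFunOnFinite.symm (fun i => Y.d i * a i), ?_⟩, ?_⟩
      · rw [rge5_mem_K]
        exact ⟨h3.symm, fun i => Dvd.intro _ rfl⟩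
      · show rge5_mon Y _ = _
        refine Finset.prod_congr rfl fun i _ => ?_
        show Y.f i ^ (Y.d i * a i / Y.d i) = _
        rw [Nat.mul_div_cancel_left _ (Y.d_pos i)]
    · exact Submodule.zero_mem _

theorem rge5_finrank (Y : CST ρ) (m : ℕ) :
    Module.finrank F (invSub ρ ⊤ ⊓ homogeneousSubmodule (Fin s) F m : Submodule F _) =
      (rge5_K Y.d m).card := by
  rw [← rge5_mon_span Y m, finrank_span_eq_card (rge5_mon_indep Y m)]
  simp

theorem rge5_hser_gen (Y : CST ρ) :
    hser (invSub ρ ⊤) * ∏ i, (1 - (PowerSeries.X : PowerSeries F) ^ Y.d i) = 1 := by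
  have h1 : hser (invSub ρ ⊤) =
      ∏ i, PowerSeries.mk fun k => if Y.d i ∣ k then (1 : F) else 0 := by
    ext m
    rw [rge5_coeff, hser, PowerSeries.coeff_mk, rge5_finrank]
  rw [h1, ← Finset.prod_mul_distrib]
  exact Finset.prod_eq_one fun i _ => rge5_geom _ (Y.d_pos i)

/-! ### The series of a free module -/

/-- The space of the coefficients of degree `m`. -/
noncomputable def rge5_U (ρ : G →* Matrix (Fin s) (Fin s) F) (c m : ℕ) :
    Submodule F (MvPolynomial (Fin s) F) :=
  if c ≤ m then invSub ρ ⊤ ⊓ homogeneousSubmodule (Fin s) F (m - c) else ⊥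

theorem rge5_U_fd (ρ : G →* Matrix (Fin s) (Fin s) F) (c m : ℕ) :
    FiniteDimensional F (rge5_U ρ c m) := by
  unfold rge5_U
  by_cases h : c ≤ m
  · rw [if_pos h]
    exact rge5_fd _ _
  · rw [if_neg h]
    infer_instance

theorem rge5_U_inv {ρ : G →* Matrix (Fin s) (Fin s) F} {c m : ℕ} {p : MvPolynomial (Fin s) F}
    (hp : p ∈ rge5_U ρ c m) : IsInv ρ ⊤ p := by
  unfold rge5_U at hp
  split_ifs at hp
  · exact hp.1
  · rw [Submodule.mem_bot] at hp
    subst hp
    exact (invSub ρ ⊤).zero_mem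

theorem rge5_U_hom {ρ : G →* Matrix (Fin s) (Fin s) F} {c m : ℕ} {p : MvPolynomial (Fin s) F}
    (hp : p ∈ rge5_U ρ c m) {w : MvPolynomial (Fin s) F} (hw : w.IsHomogeneous c) :
    (p * w).IsHomogeneous m := by
  unfold rge5_U at hp
  split_ifs at hp with h
  · have h1 := IsHomogeneous.mul (show p.IsHomogeneous (m - c) from hp.2) hw
    rwa [Nat.sub_add_cancel h] at h1
  · rw [Submodule.mem_bot] at hp
    subst hp
    rw [zero_mul]
    exact isHomogeneous_zero _ _ _

theorem rge5_U_mk {ρ : G →* Matrix (Fin s) (Fin s) F} {c m : ℕ} {p : MvPolynomial (Fin s) F}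
    (hp : IsInv ρ ⊤ p) {w : MvPolynomial (Fin s) F} (hw : w.IsHomogeneous c) :
    ∃ u ∈ rge5_U ρ c m, homogeneousComponent m (p * w) = u * w := by
  have hT : ∀ (k : ℕ) (q : MvPolynomial (Fin s) F), q.IsHomogeneous k →
      (LinearMap.mulRight F w q).IsHomogeneous (k + c) := fun k q hq => hq.mul hw
  unfold rge5_U
  by_cases h : c ≤ m
  · refine ⟨homogeneousComponent (m - c) p, ?_, ?_⟩
    · rw [if_pos h]
      exact ⟨rge5_inv_comp ρ ⊤ hp _, homogeneousComponent_isHomogeneous _ _⟩
    · have h1 := rge5_shift (LinearMap.mulRight F w) c hT (m - c) p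
      rwa [Nat.sub_add_cancel h] at h1
  · refine ⟨0, Submodule.zero_mem _, ?_⟩
    have h1 := rge5_shift0 (LinearMap.mulRight F w) c hT m (by omega) p
    rw [zero_mul]
    exact h1

theorem rge5_U_finrank (ρ : G →* Matrix (Fin s) (Fin s) F) (c m : ℕ) :
    (Module.finrank F (rge5_U ρ c m) : F) =
      PowerSeries.coeff m ((PowerSeries.X : PowerSeries F) ^ c * hser (invSub ρ ⊤)) := by
  rw [PowerSeries.coeff_X_pow_mul']
  unfold rge5_U
  by_cases h : c ≤ m
  · rw [if_pos h, if_pos h, hser, PowerSeries.coeff_mk]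
  · rw [if_neg h, if_neg h, finrank_bot, Nat.cast_zero]

/-- The map `U ↦ ∑ U_j ω_j`. -/
noncomputable def rge5_map {H : Subgroup G} {n : ℕ} (B : FreeBasis ρ H n) (m : ℕ) :
    ((j : Fin n) → rge5_U ρ (B.c j) m) →ₗ[F] MvPolynomial (Fin s) F :=
  ∑ j, (LinearMap.mulRight F (B.ω j)).comp
    ((rge5_U ρ (B.c j) m).subtype.comp (LinearMap.proj j))

theorem rge5_map_apply {H : Subgroup G} {n : ℕ} (B : FreeBasis ρ H n) (m : ℕ)
    (U : (j : Fin n) → rge5_U ρ (B.c j) m) :
    rge5_map B m U = ∑ j, (U j : MvPolynomial (Fin s) F) * B.ω j := by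
  simp [rge5_map]

theorem rge5_map_ker {H : Subgroup G} {n : ℕ} (B : FreeBasis ρ H n) (m : ℕ) :
    LinearMap.ker (rge5_map B m) = ⊥ := by
  rw [LinearMap.ker_eq_bot']
  intro U hU
  rw [rge5_map_apply] at hU
  have h1 := B.free (fun j => (U j : MvPolynomial (Fin s) F)) (fun j => rge5_U_inv (U j).2) hU
  funext j
  exact Subtype.ext (congrFun h1 j)

theorem rge5_isInv_mul {H : Subgroup G} {p q : MvPolynomial (Fin s) F} (hp : IsInv ρ ⊤ p)
    (hq : IsInv ρ H q) : IsInv ρ H (p * q) := by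
  intro h hh
  rw [map_mul, hp h (Subgroup.mem_top h), hq h hh]

theorem rge5_map_range {H : Subgroup G} {n : ℕ} (B : FreeBasis ρ H n) (m : ℕ) :
    LinearMap.range (rge5_map B m) = invSub ρ H ⊓ homogeneousSubmodule (Fin s) F m := by
  apply le_antisymm
  · rintro _ ⟨U, rfl⟩
    rw [rge5_map_apply]
    refine Submodule.sum_mem _ fun j _ => ?_
    exact ⟨rge5_isInv_mul (rge5_U_inv (U j).2) (B.inv j), rge5_U_hom (U j).2 (B.hom j)⟩
  · rintro p ⟨hp, hpm⟩
    obtain ⟨V, hV, hpV⟩ := B.span p hp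
    have h2 : homogeneousComponent m p = p := by
      rw [homogeneousComponent_of_mem hpm, if_pos rfl]
    choose U hU hU' using fun j => rge5_U_mk (m := m) (hV j) (B.hom j)
    refine ⟨fun j => ⟨U j, hU j⟩, ?_⟩
    rw [rge5_map_apply, ← h2, hpV, map_sum]
    exact Finset.sum_congr rfl fun j _ => (hU' j).symm

theorem rge5_hser_free (H : Subgroup G) {m : ℕ} (B : FreeBasis ρ H m) :
    hser (invSub ρ H) = (∑ j, (PowerSeries.X : PowerSeries F) ^ B.c j) * hser (invSub ρ ⊤) := by
  ext k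
  rw [Finset.sum_mul, map_sum, hser, PowerSeries.coeff_mk]
  haveI : ∀ j, FiniteDimensional F (rge5_U ρ (B.c j) k) := fun j => rge5_U_fd ρ _ _
  have h1 := LinearMap.finrank_range_of_inj (LinearMap.ker_eq_bot.mp (rge5_map_ker B k))
  rw [rge5_map_range, Module.finrank_pi_fintype] at h1
  rw [h1, Nat.cast_sum]
  exact Finset.sum_congr rfl fun j _ => rge5_U_finrank ρ _ _

end

section InvTheory

variable {F : Type} [Field F] [CharZero F] {s : ℕ} {G : Type} [Group G] [Fintype G]
  (ρ : G →* Matrix (Fin s) (Fin s) F)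

/-- The Hilbert series of the invariants of `G`. -/
theorem hser_gen (Y : CST ρ) :
    hser (invSub ρ ⊤) * ∏ i, (1 - (PowerSeries.X : PowerSeries F) ^ Y.d i) = 1 :=
  rge5_hser_gen Y

/-- The Hilbert series of the invariants of `H`. -/
theorem hser_free (H : Subgroup G) {m : ℕ} (B : FreeBasis ρ H m) :
    hser (invSub ρ H) = (∑ j, (PowerSeries.X : PowerSeries F) ^ B.c j) * hser (invSub ρ ⊤) :=
  rge5_hser_free H B

end InvTheory

end Pool.Agent.H13.RG
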