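import Pool.Agent.H13.RG.Molien2
import Pool.Agent.H13.RG.Series
import Pool.Agent.H13.RG.Expand

/-!
# Project RG, RG-E7: the sums of the degrees
-/

set_option autoImplicit false

open MvPolynomial

namespace Pool.Agent.H13.RG

section Poly

variable {F : Type} [Field F]

/-- the polynomial `∏ (1 + X + ... + X^(d_i - 1))` -/
noncomputable def rge7_D {s : ℕ} (d : Fin s → ℕ) : Polynomial F :=
  ∏ i, ∑ k ∈ Finset.range (d i), Polynomial.X ^ k

theorem rge7_eval {s : ℕ} (d : Fin s → ℕ) :
    (rge7_D d : Polynomial F).eval 1 = ∏ i, (d i : F) := by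
  unfold rge7_D
  rw [Polynomial.eval_prod]
  refine Finset.prod_congr rfl (fun i _ => ?_)
  rw [Polynomial.eval_finsetSum]
  simp

theorem rge7_one (d : ℕ) :
    2 * (Polynomial.derivative (∑ k ∈ Finset.range d, (Polynomial.X : Polynomial F) ^ k)).eval 1 =
      (d : F) * ((d : F) - 1) := by
  rw [Polynomial.derivative_sum, Polynomial.eval_finsetSum]
  have h1 : ∀ k ∈ Finset.range d,
      (Polynomial.derivative ((Polynomial.X : Polynomial F) ^ k)).eval 1 = (k : F) := by
    intro k _
    rw [Polynomial.derivative_X_pow]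
    simp
  rw [Finset.sum_congr rfl h1]
  induction d with
  | zero => simp
  | succ d ih =>
    rw [Finset.sum_range_succ, mul_add, ih (fun k _ => by
      rw [Polynomial.derivative_X_pow]
      simp)]
    push_cast
    ring

theorem rge7_deriv {s : ℕ} (d : Fin s → ℕ) :
    2 * (Polynomial.derivative (rge7_D d : Polynomial F)).eval 1 =
      (∑ i, ((d i : F) - 1)) * ∏ i, (d i : F) := by
  classical
  unfold rge7_D
  rw [Polynomial.derivative_prod_finset, Polynomial.eval_finsetSum, Finset.mul_sum,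
    Finset.sum_mul]
  refine Finset.sum_congr rfl (fun i _ => ?_)
  rw [Polynomial.eval_mul, Polynomial.eval_prod]
  have h1 : ∀ j, (∑ k ∈ Finset.range (d j), (Polynomial.X : Polynomial F) ^ k).eval 1 = (d j : F) := by
    intro j
    rw [Polynomial.eval_finsetSum]
    simp
  rw [Finset.prod_congr rfl (fun j _ => h1 j), ← Finset.mul_prod_erase Finset.univ (fun j => (d j : F))
    (Finset.mem_univ i)]
  have h2 := rge7_one (F := F) (d i)
  linear_combination (∏ j ∈ Finset.univ.erase i, (d j : F)) * h2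

theorem rge7_coe {s : ℕ} (d : Fin s → ℕ) :
    ((rge7_D d : Polynomial F) : PowerSeries F) * (1 - PowerSeries.X) ^ s =
      ∏ i, (1 - (PowerSeries.X : PowerSeries F) ^ d i) := by
  have h1 : ((rge7_D d : Polynomial F) : PowerSeries F) =
      ∏ i, ∑ k ∈ Finset.range (d i), (PowerSeries.X : PowerSeries F) ^ k := by
    unfold rge7_D
    rw [← Polynomial.coeToPowerSeries.ringHom_apply, map_prod]
    refine Finset.prod_congr rfl (fun i _ => ?_)
    rw [map_sum]
    refine Finset.sum_congr rfl (fun k _ => ?_)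
    rw [map_pow, Polynomial.coeToPowerSeries.ringHom_apply, Polynomial.coe_X]
  have h2 : (1 - (PowerSeries.X : PowerSeries F)) ^ s = ∏ _i : Fin s, (1 - PowerSeries.X) := by
    rw [Finset.prod_const, Finset.card_univ, Fintype.card_fin]
  rw [h1, h2, ← Finset.prod_mul_distrib]
  refine Finset.prod_congr rfl (fun i _ => ?_)
  exact geom_sum_mul_neg _ _

end Poly

section InvTheory

variable {F : Type} [Field F] [CharZero F] {s : ℕ} {G : Type} [Group G] [Fintype G]
  (ρ : G →* Matrix (Fin s) (Fin s) F)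

/-- the hypothesis of `expand` -/
theorem rge7_hyp (Y : CST ρ) (H : Subgroup G) [Fintype H] (C : Polynomial F)
    (hC : hser (invSub ρ H) = (C : PowerSeries F) * hser (invSub ρ ⊤)) :
    (Fintype.card H : PowerSeries F) * (C : PowerSeries F) =
      ((rge7_D Y.d : Polynomial F) : PowerSeries F) * (1 - PowerSeries.X) ^ s *
        ∑ g : H, ((ρ g).charpolyRev : PowerSeries F)⁻¹ := by
  rw [rge7_coe, ← molien ρ H, hC]
  have h := hser_gen ρ Y
  linear_combination -(Fintype.card H : PowerSeries F) * (C : PowerSeries F) * h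

omit [CharZero F] [Fintype G] in
theorem rge7_card_top : Nat.card {g : (⊤ : Subgroup G) // (ρ g - 1).rank = 1} =
    Nat.card {g : G // (ρ g - 1).rank = 1} := by
  refine Nat.card_congr ?_
  exact Subgroup.topEquiv.toEquiv.subtypeEquiv (fun g => Iff.rfl)

theorem rge7_top (hρ : Function.Injective ρ) (Y : CST ρ) :
    (Fintype.card G : F) = ∏ i, (Y.d i : F) ∧
      ∑ i, ((Y.d i : F) - 1) = (Nat.card {g : G // (ρ g - 1).rank = 1} : F) := by
  classical
  have h := expand ρ hρ ⊤ 1 (rge7_D Y.d) (rge7_hyp ρ Y ⊤ 1 (by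
    rw [Polynomial.coe_one, one_mul]))
  rw [rge7_card_top, Polynomial.eval_one, mul_one, rge7_eval, rge7_deriv] at h
  have hc : Fintype.card (⊤ : Subgroup G) = Fintype.card G :=
    Fintype.card_congr Subgroup.topEquiv.toEquiv
  rw [hc] at h
  obtain ⟨h1, h2⟩ := h
  refine ⟨h1, ?_⟩
  rw [Polynomial.derivative_one, Polynomial.eval_zero, mul_zero, ← sub_mul] at h2
  have h3 : (∏ i, (Y.d i : F)) ≠ 0 := by
    rw [← h1]
    exact Nat.cast_ne_zero.mpr Fintype.card_ne_zero
  have h4 := (mul_eq_zero.mp h2.symm).resolve_right h3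
  exact sub_eq_zero.mp h4

theorem sum_degrees (hρ : Function.Injective ρ) (Y : CST ρ) :
    ∑ i, Y.d i = Nat.card {g : G // (ρ g - 1).rank = 1} + s := by
  have h := (rge7_top ρ hρ Y).2
  rw [Finset.sum_sub_distrib, Finset.sum_const, Finset.card_univ, Fintype.card_fin,
    nsmul_eq_mul, mul_one, sub_eq_iff_eq_add] at h
  exact_mod_cast h

theorem free_degrees (hρ : Function.Injective ρ) (Y : CST ρ) (H : Subgroup G) {m : ℕ}
    (B : FreeBasis ρ H m) :
    m = H.index ∧ 2 * ∑ j, B.c j + H.index * Nat.card {g : H // (ρ g - 1).rank = 1} =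
      H.index * Nat.card {g : G // (ρ g - 1).rank = 1} := by
  classical
  let _ : Fintype H := Fintype.ofFinite H
  obtain ⟨t1, t2⟩ := rge7_top ρ hρ Y
  have hC : hser (invSub ρ H) =
      ((∑ j, (Polynomial.X : Polynomial F) ^ B.c j : Polynomial F) : PowerSeries F) *
        hser (invSub ρ ⊤) := by
    rw [hser_free ρ H B]
    congr 1
    rw [← Polynomial.coeToPowerSeries.ringHom_apply, map_sum]
    refine Finset.sum_congr rfl (fun k _ => ?_)
    rw [map_pow, Polynomial.coeToPowerSeries.ringHom_apply, Polynomial.coe_X]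
  obtain ⟨h1, h2⟩ := expand ρ hρ H _ (rge7_D Y.d) (rge7_hyp ρ Y H _ hC)
  rw [rge7_eval, ← t1] at h1
  rw [rge7_eval, rge7_deriv, t2, ← t1] at h2
  have e1 : (∑ j, (Polynomial.X : Polynomial F) ^ B.c j).eval 1 = (m : F) := by
    rw [Polynomial.eval_finsetSum]
    simp
  have e2 : (Polynomial.derivative (∑ j, (Polynomial.X : Polynomial F) ^ B.c j)).eval 1 =
      ((∑ j, B.c j : ℕ) : F) := by
    rw [Polynomial.derivative_sum, Polynomial.eval_finsetSum, Nat.cast_sum]
    refine Finset.sum_congr rfl (fun j _ => ?_)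
    rw [Polynomial.derivative_X_pow]
    simp
  rw [e1] at h1
  rw [e2] at h2
  have hidx : Fintype.card H * H.index = Fintype.card G := by
    rw [← Nat.card_eq_fintype_card, ← Nat.card_eq_fintype_card]
    exact H.card_mul_index
  have hH : (Fintype.card H : F) ≠ 0 := Nat.cast_ne_zero.mpr Fintype.card_ne_zero
  have hidx' : (Fintype.card H : F) * (H.index : F) = (Fintype.card G : F) := by
    exact_mod_cast hidx
  rw [← hidx'] at h1 h2
  have g1 : (m : F) = (H.index : F) := mul_left_cancel₀ hH h1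
  refine ⟨by exact_mod_cast g1, ?_⟩
  have g2 : (2 * ((∑ j, B.c j : ℕ) : F) +
      (H.index : F) * (Nat.card {g : H // (ρ g - 1).rank = 1} : F)) =
      (H.index : F) * (Nat.card {g : G // (ρ g - 1).rank = 1} : F) := by
    apply mul_left_cancel₀ hH
    linear_combination h2
  exact_mod_cast g2

end InvTheory

end Pool.Agent.H13.RG
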