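import Pool.Agent.H13.RG.Free
import Pool.Agent.H13.RG.Degrees

set_option autoImplicit false

/-!
# RG-E8: the covariants and their determinant
-/

open MvPolynomial

namespace Pool.Agent.H13.RG

section InvTheory

variable {F : Type} [Field F] [CharZero F] {s : ℕ} {G : Type} [Group G] [Fintype G]
  (ρ : G →* Matrix (Fin s) (Fin s) F)

omit [CharZero F] [Fintype G] [Group G] in
theorem rge8_msub_msub (A B : Matrix (Fin s) (Fin s) F) (p : MvPolynomial (Fin s) F) :
    msub A (msub B p) = msub (B * A) p := by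
  have h : (msub A).comp (msub B) = msub (B * A) := by
    apply MvPolynomial.algHom_ext
    intro i
    simp only [msub, AlgHom.comp_apply, aeval_X, map_sum, map_mul, algHom_C, algebraMap_eq,
      Matrix.mul_apply, Finset.mul_sum, Finset.sum_mul]
    rw [Finset.sum_comm]
    refine Finset.sum_congr rfl fun j _ => Finset.sum_congr rfl fun k _ => ?_
    ring
  exact DFunLike.congr_fun h p

omit [CharZero F] [Fintype G] in
theorem rge8_msub_mul (g h : G) (p : MvPolynomial (Fin s) F) :
    msub (ρ g) (msub (ρ h) p) = msub (ρ (h * g)) p := by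
  rw [rge8_msub_msub, map_mul]

omit [CharZero F] [Fintype G] [Group G] in
theorem rge8_msub_one (p : MvPolynomial (Fin s) F) : msub (1 : Matrix (Fin s) (Fin s) F) p = p := by
  have h : msub (1 : Matrix (Fin s) (Fin s) F) = AlgHom.id F _ := by
    apply MvPolynomial.algHom_ext
    intro i
    simp [msub, Matrix.one_apply]
  rw [h]; rfl

omit [CharZero F] [Fintype G] [Group G] in
theorem rge8_msub_inj {A B : Matrix (Fin s) (Fin s) F} (h : msub A = msub B) : A = B := by
  ext i j
  have h1 := DFunLike.congr_fun h (X i)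
  simp only [msub, aeval_X] at h1
  have h2 := congrArg (coeff (Finsupp.single j 1)) h1
  simpa [coeff_sum, coeff_C_mul, coeff_X, Finsupp.single_left_inj] using h2

/-- the sum over the group -/
noncomputable def rge8_avg (p : MvPolynomial (Fin s) F) : MvPolynomial (Fin s) F :=
  ∑ g : G, msub (ρ g⁻¹) p

omit [CharZero F] in
theorem rge8_avg_inv (p : MvPolynomial (Fin s) F) : IsInv ρ ⊤ (rge8_avg ρ p) := by
  intro h _
  unfold rge8_avg
  rw [map_sum]
  refine Fintype.sum_equiv (Equiv.mulLeft h⁻¹) _ _ fun g => ?_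
  rw [rge8_msub_mul]
  simp

omit [CharZero F] in
theorem rge8_exists_avg (hρ : Function.Injective ρ) {v : MvPolynomial (Fin s) F} (hv : v ≠ 0) :
    ∃ a, rge8_avg ρ (a * v) ≠ 0 := by
  by_contra hcon
  push Not at hcon
  have hli := linearIndependent_monoidHom (MvPolynomial (Fin s) F) (MvPolynomial (Fin s) F)
  let χ : G → (MvPolynomial (Fin s) F →* MvPolynomial (Fin s) F) := fun g =>
    ((msub (ρ g⁻¹) : MvPolynomial (Fin s) F →ₐ[F] MvPolynomial (Fin s) F) :
      MvPolynomial (Fin s) F →* MvPolynomial (Fin s) F)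
  have hχ : Function.Injective χ := by
    intro g h hgh
    have h1 : msub (ρ g⁻¹) = msub (ρ h⁻¹) := by
      apply AlgHom.ext
      intro p
      exact DFunLike.congr_fun hgh p
    exact inv_injective (hρ (rge8_msub_inj h1))
  have h2 := hli.comp χ hχ
  rw [Fintype.linearIndependent_iff] at h2
  have h3 := h2 (fun g => msub (ρ g⁻¹) v) (by
    funext a
    have := hcon a
    unfold rge8_avg at this
    simp only [Function.comp, Finset.sum_apply, Pi.smul_apply, smul_eq_mul, Pi.zero_apply]
    rw [← this]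
    refine Finset.sum_congr rfl fun g _ => ?_
    rw [map_mul, mul_comm]
    rfl) 1
  simp only [inv_one, map_one, rge8_msub_one] at h3
  exact hv h3

section Count

variable {n : ℕ} (π : G →* Equiv.Perm (Fin n))

omit [CharZero F] [Fintype G] in
theorem rge8_rank_conj (g a : G) : (ρ (a * g * a⁻¹) - 1).rank = (ρ g - 1).rank := by
  have h1 : ρ (a * g * a⁻¹) - 1 = ρ a * (ρ g - 1) * ρ a⁻¹ := by
    rw [map_mul, map_mul, mul_sub, sub_mul, mul_one, ← map_mul ρ a a⁻¹, mul_inv_cancel, map_one]
  have hu : ∀ b : G, IsUnit (ρ b).det := fun b =>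
    (Matrix.isUnit_iff_isUnit_det _).1 ((Group.isUnit b).map ρ)
  rw [h1, Matrix.rank_mul_eq_left_of_isUnit_det _ _ (hu _),
    Matrix.rank_mul_eq_right_of_isUnit_det _ _ (hu _)]

/-- the stabiliser of a point -/
def rge8_stab (i : Fin n) : Subgroup G := (MulAction.stabilizer (Equiv.Perm (Fin n)) i).comap π

omit [Fintype G] in
theorem rge8_mem_stab (i : Fin n) (g : G) : g ∈ rge8_stab π i ↔ π g i = i := Iff.rfl

omit [Fintype G] in
theorem rge8_exists (htr : MulAction.IsPretransitive π.range (Fin n)) (i j : Fin n) :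
    ∃ g : G, π g i = j := by
  obtain ⟨⟨_, g, rfl⟩, h⟩ := htr.exists_smul_eq i j
  exact ⟨g, h⟩

omit [Fintype G] in
theorem rge8_index (htr : MulAction.IsPretransitive π.range (Fin n)) (i : Fin n) :
    (rge8_stab π i).index = n := by
  choose g hg using rge8_exists π htr i
  have e : G ⧸ rge8_stab π i ≃ Fin n :=
    { toFun := Quotient.lift (fun a : G => π a i) (by
        intro a b hab
        have h1 : π (a⁻¹ * b) i = i := QuotientGroup.leftRel_apply.1 hab
        show π a i = π b i
        rw [map_mul, map_inv] at h1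
        have h2 := congrArg (π a) h1
        simpa using h2.symm)
      invFun := fun j => (g j : G)
      left_inv := by
        intro q
        induction q using QuotientGroup.induction_on with
        | H a =>
          apply QuotientGroup.eq.2
          show π ((g (π a i))⁻¹ * a) i = i
          rw [map_mul, map_inv]
          simp only [Equiv.Perm.coe_mul, Function.comp]
          rw [Equiv.Perm.inv_eq_iff_eq, hg]
      right_inv := fun j => hg j }
  rw [Subgroup.index, Nat.card_congr e, Nat.card_fin]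

omit [CharZero F] [Fintype G] in
theorem rge8_card_stab (htr : MulAction.IsPretransitive π.range (Fin n)) (i j : Fin n) :
    Nat.card {g : rge8_stab π i // (ρ g - 1).rank = 1} =
      Nat.card {g : rge8_stab π j // (ρ g - 1).rank = 1} := by
  obtain ⟨a, ha⟩ := rge8_exists π htr i j
  have ha' : (π a)⁻¹ j = i := by rw [Equiv.Perm.inv_eq_iff_eq, ha]
  refine Nat.card_congr
    { toFun := fun g => ⟨⟨a * g.1 * a⁻¹, ?_⟩, ?_⟩
      invFun := fun g => ⟨⟨a⁻¹ * g.1 * a, ?_⟩, ?_⟩
      left_inv := fun g => ?_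
      right_inv := fun g => ?_ }
  · have h := (rge8_mem_stab π i _).1 g.1.2
    rw [rge8_mem_stab, map_mul, map_mul, map_inv]
    simp only [Equiv.Perm.coe_mul, Function.comp, ha', h, ha]
  · show (ρ (a * g.1 * a⁻¹) - 1).rank = 1
    rw [rge8_rank_conj]; exact g.2
  · have h := (rge8_mem_stab π j _).1 g.1.2
    rw [rge8_mem_stab, map_mul, map_mul, map_inv]
    simp only [Equiv.Perm.coe_mul, Function.comp, ha', h, ha]
  · show (ρ (a⁻¹ * g.1 * a) - 1).rank = 1
    have := rge8_rank_conj ρ (g.1 : G) a⁻¹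
    rw [inv_inv] at this
    rw [this]; exact g.2
  · apply Subtype.ext; apply Subtype.ext
    show a⁻¹ * (a * g.1 * a⁻¹) * a = g.1
    group
  · apply Subtype.ext; apply Subtype.ext
    show a * (a⁻¹ * g.1 * a) * a⁻¹ = g.1
    group

omit [CharZero F] in
theorem rge8_card_mov (htr : MulAction.IsPretransitive π.range (Fin n)) (i : Fin n) :
    Nat.card {p : G × Fin n // (ρ p.1 - 1).rank = 1 ∧ π p.1 p.2 ≠ p.2} +
      n * Nat.card {g : rge8_stab π i // (ρ g - 1).rank = 1} =
      n * Nat.card {g : G // (ρ g - 1).rank = 1} := by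
  classical
  have h1 : Nat.card {p : G × Fin n // (ρ p.1 - 1).rank = 1 ∧ π p.1 p.2 = p.2} =
      n * Nat.card {g : rge8_stab π i // (ρ g - 1).rank = 1} := by
    have e : {p : G × Fin n // (ρ p.1 - 1).rank = 1 ∧ π p.1 p.2 = p.2} ≃
        (Σ j : Fin n, {g : rge8_stab π j // (ρ g - 1).rank = 1}) :=
      { toFun := fun p => ⟨p.1.2, ⟨⟨p.1.1, p.2.2⟩, p.2.1⟩⟩
        invFun := fun q => ⟨(q.2.1.1, q.1), q.2.2, q.2.1.2⟩
        left_inv := fun p => rfl
        right_inv := fun q => rfl }
    rw [Nat.card_congr e, Nat.card_sigma]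
    rw [Finset.sum_congr rfl fun j _ => rge8_card_stab ρ π htr j i]
    simp
  have h2 : Nat.card {p : G × Fin n // (ρ p.1 - 1).rank = 1} =
      n * Nat.card {g : G // (ρ g - 1).rank = 1} := by
    have e : {p : G × Fin n // (ρ p.1 - 1).rank = 1} ≃
        {g : G // (ρ g - 1).rank = 1} × Fin n :=
      { toFun := fun p => (⟨p.1.1, p.2⟩, p.1.2)
        invFun := fun q => ⟨(q.1.1, q.2), q.1.2⟩
        left_inv := fun p => rfl
        right_inv := fun q => rfl }
    rw [Nat.card_congr e, Nat.card_prod, Nat.card_fin, mul_comm]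
  rw [← h1, ← h2]
  simp only [Nat.card_eq_fintype_card, Fintype.card_subtype]
  rw [← Finset.card_union_of_disjoint]
  · congr 1
    ext p
    simp only [Finset.mem_union, Finset.mem_filter, Finset.mem_univ, true_and]
    tauto
  · rw [Finset.disjoint_filter]
    tauto

end Count

theorem exists_W (hρ : Function.Injective ρ) (Y : CST ρ) {n : ℕ} (hn : 0 < n)
    (π : G →* Equiv.Perm (Fin n)) (htr : MulAction.IsPretransitive π.range (Fin n)) :
    ∃ (W : Fin n → Fin n → MvPolynomial (Fin s) F) (c : Fin n → ℕ),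
      (∀ i j, (W i j).IsHomogeneous (c j)) ∧ (∀ g i j, msub (ρ g⁻¹) (W i j) = W (π g i) j) ∧
      (Matrix.of W).det ≠ 0 ∧
      2 * ∑ j, c j = Nat.card {p : G × Fin n // (ρ p.1 - 1).rank = 1 ∧ π p.1 p.2 ≠ p.2} := by
  classical
  let i₀ : Fin n := ⟨0, hn⟩
  obtain ⟨m, ⟨B⟩⟩ := exists_freeBasis ρ Y (rge8_stab π i₀)
  obtain ⟨hm, hdeg⟩ := free_degrees ρ hρ Y (rge8_stab π i₀) B
  have hidx := rge8_index π htr i₀
  rw [hidx] at hm hdeg
  subst hm
  choose g hg using rge8_exists π htr i₀
  have hω : ∀ (a b : G) (j : Fin m), π a i₀ = π b i₀ →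
      msub (ρ a⁻¹) (B.ω j) = msub (ρ b⁻¹) (B.ω j) := by
    intro a b j hab
    have h1 : a⁻¹ * b ∈ rge8_stab π i₀ := by
      rw [rge8_mem_stab, map_mul, map_inv]
      simp only [Equiv.Perm.coe_mul, Function.comp]
      rw [Equiv.Perm.inv_eq_iff_eq, hab]
    have h2 := B.inv j _ (inv_mem h1)
    have h3 : msub (ρ a⁻¹) (msub (ρ (a⁻¹ * b)⁻¹) (B.ω j)) = msub (ρ b⁻¹) (B.ω j) := by
      rw [rge8_msub_mul]
      congr 3
      group
    rw [← h3, h2]
  refine ⟨fun i j => msub (ρ (g i)⁻¹) (B.ω j), B.c, fun i j => msub_homogeneous _ (B.hom j), ?_,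
    ?_, ?_⟩
  · intro a i j
    rw [rge8_msub_mul, ← mul_inv_rev]
    apply hω
    rw [map_mul, hg]
    simp [hg]
  · intro hdet
    obtain ⟨v, hv, hv2⟩ := Matrix.exists_mulVec_eq_zero_iff.2 hdet
    obtain ⟨j₀, hj₀⟩ := Function.ne_iff.1 hv
    obtain ⟨a, ha⟩ := rge8_exists_avg ρ hρ hj₀
    apply ha
    have hU := B.free (fun j => rge8_avg ρ (a * v j)) (fun j => rge8_avg_inv ρ _) ?_
    · exact congrFun hU j₀
    -- the relation for all group elements
    have hrel : ∀ b : G, ∑ j, msub (ρ b⁻¹) (a * v j) * B.ω j = 0 := by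
      intro b
      have h1 : ∑ j, msub (ρ (g (π b⁻¹ i₀))⁻¹) (B.ω j) * v j = 0 := congrFun hv2 (π b⁻¹ i₀)
      have h2 := congrArg (fun p => msub (ρ b⁻¹) (a * p)) h1
      simp only [mul_zero, map_zero, Finset.mul_sum, map_sum] at h2
      rw [← h2]
      refine Finset.sum_congr rfl fun j _ => ?_
      have h3 : msub (ρ b⁻¹) (msub (ρ (g (π b⁻¹ i₀))⁻¹) (B.ω j)) = B.ω j := by
        rw [rge8_msub_mul, ← mul_inv_rev]
        have h4 := hω (b * g (π b⁻¹ i₀)) 1 j (by
          rw [map_mul, map_one, Equiv.Perm.mul_apply, hg, map_inv]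
          exact (π b).apply_symm_apply i₀)
        rw [h4, inv_one, map_one, rge8_msub_one]
      calc msub (ρ b⁻¹) (a * v j) * B.ω j
          = msub (ρ b⁻¹) (a * v j) * msub (ρ b⁻¹) (msub (ρ (g (π b⁻¹ i₀))⁻¹) (B.ω j)) := by
            rw [h3]
        _ = _ := by
            rw [← map_mul]
            congr 1
            ring
    unfold rge8_avg
    simp only [Finset.sum_mul]
    rw [Finset.sum_comm]
    exact Finset.sum_eq_zero fun b _ => hrel b
  · have h1 := rge8_card_mov ρ π htr i₀
    omega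

end InvTheory

end Pool.Agent.H13.RG
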