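import Pool.Agent.H13.RG.Defs

/-!
# Project RG, row RG-E9: from the data of Chevalley, Shephard and Todd to `Inv`
-/

set_option autoImplicit false

open MvPolynomial NumberField

namespace Pool.Agent.H13.RG

section

variable {F : Type} [Field F] {s : ℕ} {G : Type} [Group G]

/-- The value of the substituted polynomial. -/
theorem rge9_eval_msub {D : Type} [CommRing D] (φ : F →+* D) (A : Matrix (Fin s) (Fin s) F)
    (x : Fin s → D) (p : MvPolynomial (Fin s) F) :
    eval₂ φ x (msub A p) = eval₂ φ ((A.map φ).mulVec x) p := by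
  have h : (eval₂Hom φ x).comp (msub A).toRingHom = eval₂Hom φ ((A.map φ).mulVec x) := by
    refine MvPolynomial.ringHom_ext (fun r => ?_) (fun i => ?_)
    · simp [msub]
    · simp [msub, Matrix.mulVec, dotProduct]
  exact congrArg (fun k => k p) h

/-- The coordinate `i` of `A x`. -/
noncomputable def rge9_lin (A : Matrix (Fin s) (Fin s) F) (i : Fin s) : MvPolynomial (Fin s) F :=
  ∑ j, C (A i j) * X j

theorem rge9_msub_lin (A B : Matrix (Fin s) (Fin s) F) (i : Fin s) :
    msub B (rge9_lin A i) = rge9_lin (A * B) i := by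
  unfold rge9_lin
  rw [map_sum]
  have h1 : ∀ j, msub B (C (A i j) * X j) = ∑ k, C (A i j * B j k) * X k := by
    intro j
    rw [map_mul]
    have h2 : msub B (C (A i j)) = C (A i j) := by
      rw [← MvPolynomial.algebraMap_eq]; exact AlgHom.commutes _ _
    have h3 : msub B (X j) = ∑ k, C (B j k) * X k := by simp [msub]
    rw [h2, h3, Finset.mul_sum]
    exact Finset.sum_congr rfl fun k _ => by rw [C_mul]; ring
  rw [Finset.sum_congr rfl fun j _ => h1 j, Finset.sum_comm]
  refine Finset.sum_congr rfl fun k _ => ?_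
  rw [← Finset.sum_mul, ← map_sum, Matrix.mul_apply]

theorem rge9_eval_lin {D : Type} [CommRing D] (φ : F →+* D) (A : Matrix (Fin s) (Fin s) F)
    (x : Fin s → D) (i : Fin s) : eval₂ φ x (rge9_lin A i) = (A.map φ).mulVec x i := by
  have h : eval₂Hom φ x (rge9_lin A i) = (A.map φ).mulVec x i := by
    unfold rge9_lin
    rw [map_sum]
    simp [Matrix.mulVec, dotProduct]
  exact h

/-- The factor of the resolvent, a polynomial in `c`, `y` over `F[X]`. -/
noncomputable def rge9_fac (A : Matrix (Fin s) (Fin s) F) :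
    MvPolynomial (Fin s ⊕ Unit) (MvPolynomial (Fin s) F) :=
  X (Sum.inr ()) - ∑ i, X (Sum.inl i) * C (rge9_lin A i)

theorem rge9_map_fac (A B : Matrix (Fin s) (Fin s) F) :
    MvPolynomial.map (msub B).toRingHom (rge9_fac A) = rge9_fac (A * B) := by
  unfold rge9_fac
  rw [map_sub, map_sum, map_X]
  congr 1
  refine Finset.sum_congr rfl fun i _ => ?_
  rw [map_mul, map_X, map_C]
  congr 2
  exact rge9_msub_lin A B i

theorem rge9_eval_fac {D : Type} [CommRing D] (φ : F →+* D) (A : Matrix (Fin s) (Fin s) F)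
    (x c : Fin s → D) (y : D) :
    eval₂ (eval₂Hom φ x) (Sum.elim c fun _ => y) (rge9_fac A) =
      y - ∑ i, c i * (A.map φ).mulVec x i := by
  have h : eval₂Hom (eval₂Hom φ x) (Sum.elim c fun _ => y) (rge9_fac A) =
      y - ∑ i, c i * (A.map φ).mulVec x i := by
    unfold rge9_fac
    rw [map_sub, map_sum, eval₂Hom_X', Sum.elim_inr]
    congr 1
    refine Finset.sum_congr rfl fun i _ => ?_
    rw [map_mul, eval₂Hom_X', Sum.elim_inl, eval₂Hom_C]
    congr 1
    exact rge9_eval_lin φ A x i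
  exact h

end

section InvTheory

variable {F : Type} [Field F] [CharZero F] {s : ℕ} {G : Type} [Group G] [Fintype G]
  (ρ : G →* Matrix (Fin s) (Fin s) F)

omit [CharZero F] in
/-- The coefficients of the product are invariant, hence polynomials in the generators. -/
theorem rge9_exists_Q (Y : CST ρ) :
    ∃ Q : MvPolynomial (Fin s ⊕ Unit) (MvPolynomial (Fin s) F),
      MvPolynomial.map (aeval Y.f : MvPolynomial (Fin s) F →ₐ[F] MvPolynomial (Fin s) F).toRingHom
        Q = ∏ g, rge9_fac (ρ g) := by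
  have h1 : ∀ h : G, MvPolynomial.map (msub (ρ h)).toRingHom (∏ g, rge9_fac (ρ g)) =
      ∏ g, rge9_fac (ρ g) := by
    intro h
    rw [map_prod]
    refine Fintype.prod_equiv (Equiv.mulRight h) _ _ fun g => ?_
    rw [rge9_map_fac, Equiv.coe_mulRight, map_mul]
  have h2 : ∀ m, IsInv ρ ⊤ (coeff m (∏ g, rge9_fac (ρ g))) := by
    intro m h _
    have := congrArg (coeff m) (h1 h)
    rw [coeff_map] at this
    exact this
  have h3 : (∏ g, rge9_fac (ρ g)) ∈ Set.range (MvPolynomial.map (σ := Fin s ⊕ Unit)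
      (aeval Y.f : MvPolynomial (Fin s) F →ₐ[F] MvPolynomial (Fin s) F).toRingHom) := by
    rw [mem_range_map_iff_coeffs_subset]
    intro c hc
    rw [Finset.mem_coe, mem_coeffs_iff] at hc
    obtain ⟨m, _, rfl⟩ := hc
    have h4 := Y.gen _ (h2 m)
    rw [Algebra.adjoin_range_eq_range_aeval] at h4
    obtain ⟨q, hq⟩ := h4
    exact ⟨q, hq⟩
  obtain ⟨Q, hQ⟩ := h3
  exact ⟨Q, hQ⟩

theorem exists_inv (Y : CST ρ) : ∃ I : Inv F s G, I.ρ = ρ ∧ I.f = Y.f ∧ I.d = Y.d := by
  obtain ⟨Q, hQ⟩ := rge9_exists_Q ρ Y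
  refine ⟨{
    ρ := ρ
    f := Y.f
    d := Y.d
    T := eval₂ (rename (fun i => Sum.inl (Sum.inl i)) :
        MvPolynomial (Fin s) F →ₐ[F] MvPolynomial ((Fin s ⊕ Fin s) ⊕ Unit) F).toRingHom
      (Sum.elim (fun i => X (Sum.inl (Sum.inr i))) (fun _ => X (Sum.inr ()))) Q
    d_pos := Y.d_pos
    hom := Y.hom
    inv := ?_
    res := ?_ }, rfl, rfl, rfl⟩
  · intro D _ φ g x i
    rw [← rge9_eval_msub, Y.inv i g (Subgroup.mem_top g)]
  · intro D _ φ x c y
    set u : Fin s → D := fun i => eval₂ φ x (Y.f i) with hu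
    have h1 : ∀ Q' : MvPolynomial (Fin s ⊕ Unit) (MvPolynomial (Fin s) F),
        eval₂Hom φ (pt u c y) (eval₂ (rename (fun i => Sum.inl (Sum.inl i)) :
          MvPolynomial (Fin s) F →ₐ[F] MvPolynomial ((Fin s ⊕ Fin s) ⊕ Unit) F).toRingHom
          (Sum.elim (fun i => X (Sum.inl (Sum.inr i))) (fun _ => X (Sum.inr ()))) Q') =
        eval₂ (eval₂Hom φ u) (Sum.elim c fun _ => y) Q' := by
      intro Q'
      rw [eval₂_comp_left]
      congr 1
      · refine MvPolynomial.ringHom_ext (fun r => ?_) (fun i => ?_)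
        · simp
        · simp [pt]
      · funext i
        rcases i with i | i <;> simp [pt]
    have h2 : eval₂Hom φ u = (eval₂Hom φ x).comp
        (aeval Y.f : MvPolynomial (Fin s) F →ₐ[F] MvPolynomial (Fin s) F).toRingHom := by
      refine MvPolynomial.ringHom_ext (fun r => ?_) (fun i => ?_)
      · simp
      · simp [hu]
    have h3 : eval₂ (eval₂Hom φ u) (Sum.elim c fun _ => y) Q =
        ∏ g, (y - ∑ i, c i * (((ρ g).map φ).mulVec x) i) := by
      rw [h2, ← eval₂_map, hQ]
      have h4 : eval₂Hom (eval₂Hom φ x) (Sum.elim c fun _ => y) (∏ g, rge9_fac (ρ g)) =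
          ∏ g, (y - ∑ i, c i * (((ρ g).map φ).mulVec x) i) := by
        rw [map_prod]
        exact Finset.prod_congr rfl fun g _ => rge9_eval_fac φ (ρ g) x c y
      exact h4
    rw [← h3, ← h1 Q]
    rfl

end InvTheory

end Pool.Agent.H13.RG
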