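import Pool.Agent.H13.RG.Defs

/-!
# RG-E10: finitely many coefficients, common denominator
-/

set_option autoImplicit false

open MvPolynomial NumberField

namespace Pool.Agent.H13.RG

/-- Finitely many elements of a number field lie in `𝓞_F[1/N]` for some `N > 0`. -/
theorem rge10_denom {F : Type} [Field F] [NumberField F] (Z : Finset F) :
    ∃ N : ℕ, 0 < N ∧ ∀ a ∈ Z, a ∈ RN F N := by
  have : Algebra.IsAlgebraic ℤ F :=
    (IsFractionRing.comap_isAlgebraic_iff (A := ℤ) (K := ℚ) (C := F)).mpr inferInstance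
  obtain ⟨y, hy, h⟩ := Algebra.IsAlgebraic.exists_integral_multiples ℤ (A := F) Z
  refine ⟨y.natAbs, Int.natAbs_pos.mpr hy, fun a ha => ⟨1, ?_⟩⟩
  have h1 := h a ha
  rw [zsmul_eq_mul] at h1
  rw [pow_one]
  obtain ⟨m, rfl | rfl⟩ := Int.eq_nat_or_neg y
  · simpa using h1
  · simpa using h1.neg

/-- A polynomial all of whose coefficients lie in a subring. -/
theorem rge10_lift {F : Type} [Field F] {σ : Type} (R : Subring F) (p : MvPolynomial σ F)
    (h : ∀ a ∈ p.coeffs, a ∈ R) :
    ∃ q : MvPolynomial σ R, MvPolynomial.map R.subtype q = p := by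
  have : p ∈ Set.range (MvPolynomial.map R.subtype) := by
    rw [mem_range_map_iff_coeffs_subset]
    intro a ha
    exact ⟨⟨a, h a ha⟩, rfl⟩
  exact this

/-- Naturality of the evaluation. -/
theorem rge10_eval {R D E : Type} [CommRing R] [CommRing D] [CommRing E] {σ : Type}
    (φ : R →+* D) (ψ : D →+* E) (x : σ → D) (P : MvPolynomial σ R) :
    ψ (eval₂ φ x P) = eval₂ (ψ.comp φ) (fun i => ψ (x i)) P := by
  rw [eval₂_comp_left ψ φ x P]
  rfl

/-- Naturality of the action. -/
theorem rge10_mulVec {R D E : Type} [CommRing R] [CommRing D] [CommRing E] {s : ℕ}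
    (φ : R →+* D) (ψ : D →+* E) (A : Matrix (Fin s) (Fin s) R) (x : Fin s → D) (i : Fin s) :
    ψ ((A.map φ).mulVec x i) = (A.map (ψ.comp φ)).mulVec (fun i => ψ (x i)) i := by
  simp only [Matrix.mulVec, dotProduct, map_sum, map_mul, Matrix.map_apply, RingHom.comp_apply]

theorem spread {F : Type} [Field F] [NumberField F] {s n : ℕ} {G : Type} [Group G] [Fintype G]
    (I : Inv F s G) (W : Fin n → Fin n → MvPolynomial (Fin s) F) :
    ∃ (N : ℕ) (I' : Inv (RN F N) s G) (W' : Fin n → Fin n → MvPolynomial (Fin s) (RN F N)),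
      0 < N ∧ I'.d = I.d ∧ (∀ g, (I'.ρ g).map (RN F N).subtype = I.ρ g) ∧
      (∀ i, MvPolynomial.map (RN F N).subtype (I'.f i) = I.f i) ∧
      ∀ i j, MvPolynomial.map (RN F N).subtype (W' i j) = W i j := by
  classical
  obtain ⟨N, hN, hZ⟩ := rge10_denom (F := F)
    ((Finset.univ.biUnion fun g : G => Finset.univ.biUnion fun i : Fin s =>
        Finset.univ.image fun j : Fin s => I.ρ g i j) ∪
      (Finset.univ.biUnion fun i : Fin s => (I.f i).coeffs) ∪ I.T.coeffs ∪
      (Finset.univ.biUnion fun i : Fin n => Finset.univ.biUnion fun j : Fin n => (W i j).coeffs))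
  have hρ : ∀ g i j, I.ρ g i j ∈ RN F N := by
    intro g i j
    apply hZ
    simp only [Finset.mem_union, Finset.mem_biUnion, Finset.mem_univ, Finset.mem_image, true_and]
    exact Or.inl (Or.inl (Or.inl ⟨g, i, j, rfl⟩))
  have hf : ∀ i, ∀ a ∈ (I.f i).coeffs, a ∈ RN F N := by
    intro i a ha
    apply hZ
    simp only [Finset.mem_union, Finset.mem_biUnion, Finset.mem_univ, true_and]
    exact Or.inl (Or.inl (Or.inr ⟨i, ha⟩))
  have hT : ∀ a ∈ I.T.coeffs, a ∈ RN F N := by
    intro a ha
    apply hZ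
    simp only [Finset.mem_union]
    exact Or.inl (Or.inr ha)
  have hW : ∀ i j, ∀ a ∈ (W i j).coeffs, a ∈ RN F N := by
    intro i j a ha
    apply hZ
    simp only [Finset.mem_union, Finset.mem_biUnion, Finset.mem_univ, true_and]
    exact Or.inr ⟨i, j, ha⟩
  choose f' hf' using fun i => rge10_lift (RN F N) (I.f i) (hf i)
  obtain ⟨T', hT'⟩ := rge10_lift (RN F N) I.T hT
  choose W' hW' using fun i j => rge10_lift (RN F N) (W i j) (hW i j)
  set ι : RN F N →+* F := (RN F N).subtype with hι
  have hinj : Function.Injective ι := Subtype.coe_injective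
  -- the matrices
  let A : G → Matrix (Fin s) (Fin s) (RN F N) := fun g => Matrix.of fun i j => ⟨I.ρ g i j, hρ g i j⟩
  have hA : ∀ g, (A g).map ι = I.ρ g := fun g => by
    ext i j
    rfl
  have hmap : Function.Injective
      (fun M : Matrix (Fin s) (Fin s) (RN F N) => M.map ι) := Matrix.map_injective hinj
  let ρ' : G →* Matrix (Fin s) (Fin s) (RN F N) :=
    { toFun := A
      map_one' := by
        apply hmap
        show (A 1).map ι = (1 : Matrix (Fin s) (Fin s) (RN F N)).map ι
        rw [hA, map_one, Matrix.map_one _ (map_zero ι) (map_one ι)]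
      map_mul' := by
        intro g h
        apply hmap
        show (A (g * h)).map ι = (A g * A h).map ι
        rw [hA, map_mul, Matrix.map_mul, hA, hA] }
  have hρ' : ∀ g, (ρ' g).map ι = I.ρ g := hA
  -- the evaluation of `map ι P` along `C` is the evaluation of `P`
  have hinv : ∀ (D : Type) [CommRing D] (φ : RN F N →+* D) (g : G) (x : Fin s → D) (i : Fin s),
      eval₂ φ (((ρ' g).map φ).mulVec x) (f' i) = eval₂ φ x (f' i) := by
    -- generic point
    have gen : ∀ (g : G) (i : Fin s),
        eval₂ (C : RN F N →+* MvPolynomial (Fin s) (RN F N)) (((ρ' g).map C).mulVec X) (f' i) =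
          eval₂ C X (f' i) := by
      intro g i
      apply MvPolynomial.map_injective ι hinj
      have h0 := I.inv (MvPolynomial (Fin s) F) C g X i
      rw [← hf', eval₂_map, eval₂_map] at h0
      rw [rge10_eval C (MvPolynomial.map ι), rge10_eval C (MvPolynomial.map ι)]
      have e1 : (MvPolynomial.map ι).comp (C : RN F N →+* MvPolynomial (Fin s) (RN F N)) =
          C.comp ι := by
        ext a
        simp
      have e2 : (fun j => MvPolynomial.map ι (((ρ' g).map C).mulVec X j)) =
          ((I.ρ g).map C).mulVec (X : Fin s → MvPolynomial (Fin s) F) := by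
        funext j
        rw [rge10_mulVec C (MvPolynomial.map ι), e1, ← hρ' g, Matrix.map_map]
        simp only [map_X]
        rfl
      have e3 : (fun j => MvPolynomial.map ι (X j : MvPolynomial (Fin s) (RN F N))) = X := by
        funext j
        rw [map_X]
      rw [e1, e2, e3]
      exact h0
    intro D _ φ g x i
    have h1 := congrArg (eval₂Hom φ x) (gen g i)
    rw [rge10_eval C (eval₂Hom φ x), rge10_eval C (eval₂Hom φ x)] at h1
    have e1 : (eval₂Hom φ x).comp (C : RN F N →+* MvPolynomial (Fin s) (RN F N)) = φ := by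
      ext a
      simp
    have e2 : (fun j => eval₂Hom φ x (((ρ' g).map C).mulVec X j)) = ((ρ' g).map φ).mulVec x := by
      funext j
      rw [rge10_mulVec C (eval₂Hom φ x), e1]
      simp only [eval₂Hom_X']
    have e3 : (fun j => eval₂Hom φ x (X j : MvPolynomial (Fin s) (RN F N))) = x := by
      funext j
      rw [eval₂Hom_X']
    rw [e1, e2, e3] at h1
    exact h1
  have hres : ∀ (D : Type) [CommRing D] (φ : RN F N →+* D) (x c : Fin s → D) (y : D),
      eval₂ φ (pt (fun i => eval₂ φ x (f' i)) c y) T' =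
        ∏ g, (y - ∑ i, c i * (((ρ' g).map φ).mulVec x) i) := by
    have nat : ∀ {D E : Type} [CommRing D] [CommRing E] (φ : RN F N →+* D) (ψ : D →+* E)
        (x c : Fin s → D) (y : D),
        ψ (eval₂ φ (pt (fun i => eval₂ φ x (f' i)) c y) T') =
          eval₂ (ψ.comp φ) (pt (fun i => eval₂ (ψ.comp φ) (fun i => ψ (x i)) (f' i))
            (fun i => ψ (c i)) (ψ y)) T' ∧
        ψ (∏ g, (y - ∑ i, c i * (((ρ' g).map φ).mulVec x) i)) =
          ∏ g, (ψ y - ∑ i, ψ (c i) * (((ρ' g).map (ψ.comp φ)).mulVec (fun i => ψ (x i))) i) := by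
      intro D E _ _ φ ψ x c y
      constructor
      · rw [rge10_eval φ ψ]
        congr 1
        funext k
        rcases k with (k | k) | k
        · show ψ (eval₂ φ x (f' k)) = eval₂ (ψ.comp φ) (fun i => ψ (x i)) (f' k)
          rw [rge10_eval φ ψ]
        · rfl
        · rfl
      · rw [map_prod]
        refine Finset.prod_congr rfl fun g _ => ?_
        rw [map_sub, map_sum]
        congr 1
        refine Finset.sum_congr rfl fun i _ => ?_
        rw [map_mul, rge10_mulVec φ ψ]
    -- generic point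
    let D0 := MvPolynomial ((Fin s ⊕ Fin s) ⊕ Unit) (RN F N)
    let D1 := MvPolynomial ((Fin s ⊕ Fin s) ⊕ Unit) F
    have gen : eval₂ (C : RN F N →+* D0) (pt (fun i => eval₂ C
          (fun i => (X (Sum.inl (Sum.inl i)) : D0)) (f' i))
          (fun i => X (Sum.inl (Sum.inr i))) (X (Sum.inr ()))) T' =
        ∏ g, ((X (Sum.inr ()) : D0) - ∑ i, X (Sum.inl (Sum.inr i)) *
          (((ρ' g).map C).mulVec (fun i => (X (Sum.inl (Sum.inl i)) : D0))) i) := by
      apply MvPolynomial.map_injective ι hinj
      have h0 := I.res D1 C (fun i => X (Sum.inl (Sum.inl i))) (fun i => X (Sum.inl (Sum.inr i)))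
        (X (Sum.inr ()))
      obtain ⟨n1, n2⟩ := nat (C : RN F N →+* D0) (MvPolynomial.map ι : D0 →+* D1)
        (fun i => X (Sum.inl (Sum.inl i))) (fun i => X (Sum.inl (Sum.inr i))) (X (Sum.inr ()))
      rw [n1, n2]
      have e1 : (MvPolynomial.map ι : D0 →+* D1).comp (C : RN F N →+* D0) =
          (C : F →+* D1).comp ι := by
        ext a
        simp
      rw [e1]
      simp only [map_X]
      rw [← hT', eval₂_map] at h0
      have e2 : (fun i => eval₂ (C : F →+* D1) (fun i => X (Sum.inl (Sum.inl i))) (I.f i)) =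
          fun i => eval₂ ((C : F →+* D1).comp ι) (fun i => X (Sum.inl (Sum.inl i))) (f' i) := by
        funext i
        rw [← hf', eval₂_map]
      rw [e2] at h0
      rw [h0]
      refine Finset.prod_congr rfl fun g _ => ?_
      have e3 : (I.ρ g).map (C : F →+* D1) = (ρ' g).map ((C : F →+* D1).comp ι) := by
        rw [← hρ' g, Matrix.map_map]
        rfl
      rw [e3]
    intro D _ φ x c y
    obtain ⟨n1, n2⟩ := nat (C : RN F N →+* D0) (eval₂Hom φ (pt x c y) : D0 →+* D)
      (fun i => X (Sum.inl (Sum.inl i))) (fun i => X (Sum.inl (Sum.inr i))) (X (Sum.inr ()))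
    have h1 := congrArg (eval₂Hom φ (pt x c y)) gen
    rw [n1, n2] at h1
    have e1 : (eval₂Hom φ (pt x c y) : D0 →+* D).comp (C : RN F N →+* D0) = φ := by
      ext a
      simp
    rw [e1] at h1
    simp only [eval₂Hom_X'] at h1
    exact h1
  refine ⟨N, ⟨ρ', f', I.d, T', I.d_pos, ?_, hinv, hres⟩, W', hN, rfl, hρ', hf', hW'⟩
  intro i
  apply IsHomogeneous.of_map hinj
  rw [hf' i]
  exact I.hom i

end Pool.Agent.H13.RG
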