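import Pool.Agent.H13.RG.Cst
import Pool.Agent.H13.RG.Degrees
import Pool.Agent.H13.RG.Det
import Pool.Agent.H13.RG.MkInv
import Pool.Agent.H13.RG.Spread

/-!
# Project RG (MP_a3214d), row RG-E11: the data of a reflection group
-/

set_option autoImplicit false

open MvPolynomial NumberField

namespace Pool.Agent.H13.RG

section Lemmas

variable {R : Type} [CommRing R] {s : ℕ} {D : Type} [CommRing D]

theorem rge11_map_msub (φ : R →+* D) (A : Matrix (Fin s) (Fin s) R)
    (p : MvPolynomial (Fin s) R) :
    MvPolynomial.map φ (msub A p) = msub (A.map φ) (MvPolynomial.map φ p) := by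
  induction p using MvPolynomial.induction_on with
  | C a => simp [msub]
  | add p q hp hq => rw [map_add, map_add, map_add, map_add, hp, hq]
  | mul_X p i hp =>
    rw [map_mul, map_mul, map_mul, map_mul, hp]
    congr 1
    simp [msub]

theorem rge11_eval_msub (φ : R →+* D) (A : Matrix (Fin s) (Fin s) R)
    (p : MvPolynomial (Fin s) R) (x : Fin s → D) :
    eval₂ φ x (msub A p) = eval₂ φ ((A.map φ).mulVec x) p := by
  induction p using MvPolynomial.induction_on with
  | C a => simp [msub]
  | add p q hp hq => rw [map_add, eval₂_add, eval₂_add, hp, hq]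
  | mul_X p i hp =>
    rw [map_mul, eval₂_mul, eval₂_mul, hp]
    congr 1
    simp [msub, Matrix.mulVec, dotProduct, eval₂_sum]

theorem rge11_homog {φ : R →+* D} (hφ : Function.Injective φ) {p : MvPolynomial (Fin s) R}
    {m : ℕ} (h : (MvPolynomial.map φ p).IsHomogeneous m) : p.IsHomogeneous m := by
  intro d hd
  apply h
  rw [coeff_map]
  intro h0
  exact hd (hφ (by rw [h0, map_zero]))

end Lemmas

section Matrix

variable {F : Type} [Field F] {G : Type} [Group G] {V : Type} [AddCommGroup V] [Module F V]
  [FiniteDimensional F V] (ρ : Representation F G V)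

/-- the matrices of a representation in a basis -/
noncomputable def rge11_mat : G →* Matrix (Fin (Module.finrank F V)) (Fin (Module.finrank F V)) F :=
  ((LinearMap.toMatrixAlgEquiv (Module.finBasis F V) :
    (V →ₗ[F] V) ≃ₐ[F] Matrix (Fin (Module.finrank F V)) (Fin (Module.finrank F V)) F) :
      (V →ₗ[F] V) →* Matrix (Fin (Module.finrank F V)) (Fin (Module.finrank F V)) F).comp ρ

theorem rge11_mat_apply (g : G) : rge11_mat ρ g =
    LinearMap.toMatrix (Module.finBasis F V) (Module.finBasis F V) (ρ g) := rfl

theorem rge11_rank (g : G) :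
    (rge11_mat ρ g - 1).rank = Module.finrank F (LinearMap.range (ρ g - 1)) := by
  rw [Matrix.rank_eq_finrank_range_toLin _ (Module.finBasis F V) (Module.finBasis F V),
    rge11_mat_apply, map_sub, Matrix.toLin_toMatrix, Matrix.toLin_one]
  rfl

theorem rge11_refl (g : G) : IsRefl ρ g ↔ (rge11_mat ρ g - 1).rank = 1 := by
  rw [rge11_rank]; rfl

theorem rge11_mulVec (g : G) (v : V) : (rge11_mat ρ g).mulVec ((Module.finBasis F V).equivFun v) =
    (Module.finBasis F V).equivFun (ρ g v) := by
  rw [rge11_mat_apply]
  exact LinearMap.toMatrix_mulVec_repr _ _ _ _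

end Matrix

theorem exists_core {F : Type} [Field F] [NumberField F] {G : Type} [Group G] [Fintype G]
    {V : Type} [AddCommGroup V] [Module F V] [FiniteDimensional F V]
    (ρ : Representation F G V) (hρ : ReflGroup ρ) {n : ℕ}
    (π : G →* Equiv.Perm (Fin n)) (hmov : 0 < movRefl ρ π)
    (htr : MulAction.IsPretransitive π.range (Fin n)) :
    ∃ X : Core F (Module.finrank F V) n G, X.π = π ∧
      ∑ i, X.I.d i = numRefl ρ + Module.finrank F V ∧ 2 * ∑ j, X.c j = movRefl ρ π ∧
      ∃ B : Module.Basis (Fin (Module.finrank F V)) F V,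
        ∀ g, (X.I.ρ g).map (RN F X.N).subtype = LinearMap.toMatrix B B (ρ g) := by
  -- there is a reflection
  have hex : ∃ r : G, IsRefl ρ r ∧ ∃ i, π r i ≠ i := by
    by_contra hcon
    push Not at hcon
    have hemp : IsEmpty {p : G × Fin n // IsRefl ρ p.1 ∧ π p.1 p.2 ≠ p.2} :=
      ⟨fun p => p.2.2 (hcon p.1.1 p.2.1 p.1.2)⟩
    unfold movRefl at hmov
    rw [Nat.card_of_isEmpty] at hmov
    exact lt_irrefl 0 hmov
  obtain ⟨r, hr1, i0, hi0⟩ := hex
  have hn0 : 0 < n := i0.pos
  set A := rge11_mat ρ with hA
  have hinj : Function.Injective A := by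
    intro g h hgh
    apply hρ.faithful
    exact (LinearMap.toMatrixAlgEquiv (Module.finBasis F V)).injective hgh
  have hgen : Subgroup.closure {g | (A g - 1).rank = 1} = ⊤ := by
    rw [← hρ.gen]
    congr 1
    ext g
    exact (rge11_refl ρ g).symm
  obtain ⟨Y⟩ := exists_cst A hgen
  obtain ⟨I, hI1, hI2, hI3⟩ := exists_inv A Y
  obtain ⟨W, c, hW1, hW2, hW3, hW4⟩ := exists_W A hinj Y hn0 π htr
  obtain ⟨N, I', W', hN, hd, hr, hf, hw⟩ := spread I W
  have hsi : Function.Injective (RN F N).subtype := Subtype.val_injective
  have hmi : Function.Injective (MvPolynomial.map (σ := Fin (Module.finrank F V))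
      (RN F N).subtype) := MvPolynomial.map_injective _ hsi
  have hsum : ∑ i, I'.d i = numRefl ρ + Module.finrank F V := by
    rw [hd, hI3, sum_degrees A hinj Y]
    unfold numRefl
    congr 1
    apply Nat.card_congr
    exact Equiv.subtypeEquivRight fun g => (rge11_refl ρ g).symm
  have hnum : 0 < numRefl ρ := by
    unfold numRefl
    have : Nonempty {g : G // IsRefl ρ g} := ⟨⟨r, hr1⟩⟩
    exact Nat.card_pos
  have hmov2 : 2 * ∑ j, c j = movRefl ρ π := by
    rw [hW4]
    unfold movRefl
    apply Nat.card_congr
    exact Equiv.subtypeEquivRight fun p => by rw [← rge11_refl]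
  refine ⟨{ N := N, N_pos := hN, I := I', faithful := ?_, irred := ?_, indep := ?_, deg := ?_,
            π := π, π_trans := htr, W := W', c := c, W_hom := ?_, W_act := ?_,
            W_det := ?_, c_pos := ?_ }, rfl, hsum, hmov2, Module.finBasis F V, ?_⟩
  · intro g hg
    apply hinj
    rw [map_one, ← hI1, ← hr g, hg]
    simp
  · intro U hU
    have hact : ∀ g (v : Fin (Module.finrank F V) → F),
        I'.act (RN F N).subtype g v = (A g).mulVec v := by
      intro g v
      change ((I'.ρ g).map (RN F N).subtype).mulVec v = _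
      rw [hr g, hI1]
    have h1 := hρ.irred (U.comap (Module.finBasis F V).equivFun.toLinearMap) (by
      intro g v hv
      rw [Submodule.mem_comap] at hv ⊢
      have h2 := hU g _ hv
      rw [hact] at h2
      change (Module.finBasis F V).equivFun (ρ g v) ∈ U
      rw [← rge11_mulVec]
      exact h2)
    rcases h1 with h1 | h1
    · left
      rw [eq_bot_iff]
      intro u hu
      have hu2 : (Module.finBasis F V).equivFun ((Module.finBasis F V).equivFun.symm u) = u :=
        LinearEquiv.apply_symm_apply _ _
      have h2 : (Module.finBasis F V).equivFun.symm u ∈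
          U.comap (Module.finBasis F V).equivFun.toLinearMap := by
        rw [Submodule.mem_comap]
        change (Module.finBasis F V).equivFun ((Module.finBasis F V).equivFun.symm u) ∈ U
        rw [hu2]; exact hu
      rw [h1, Submodule.mem_bot] at h2
      rw [Submodule.mem_bot, ← hu2, h2, map_zero]
    · right
      rw [eq_top_iff]
      intro u _
      have hu2 : (Module.finBasis F V).equivFun ((Module.finBasis F V).equivFun.symm u) = u :=
        LinearEquiv.apply_symm_apply _ _
      have h2 : (Module.finBasis F V).equivFun.symm u ∈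
          U.comap (Module.finBasis F V).equivFun.toLinearMap := by
        rw [h1]; exact Submodule.mem_top
      rw [Submodule.mem_comap] at h2
      change (Module.finBasis F V).equivFun ((Module.finBasis F V).equivFun.symm u) ∈ U at h2
      rwa [hu2] at h2
  · have : (fun i => MvPolynomial.map (RN F N).subtype (I'.f i)) = Y.f := by
      funext i; rw [hf i, hI2]
    rw [this]
    exact Y.indep
  · rw [hsum]; omega
  · intro i j
    apply rge11_homog hsi
    rw [hw i j]
    exact hW1 i j
  · intro D _ φ g x i j
    have h1 : msub (I'.ρ g⁻¹) (W' i j) = W' (π g i) j := by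
      apply hmi
      rw [rge11_map_msub, hw, hw, hr, hI1, hW2]
    rw [← h1, rge11_eval_msub]
    rfl
  · intro h0
    apply hW3
    have h1 : (Matrix.of W) = (MvPolynomial.map (RN F N).subtype).mapMatrix (Matrix.of W') := by
      ext1 i j
      rw [RingHom.mapMatrix_apply, Matrix.map_apply, Matrix.of_apply, Matrix.of_apply, hw]
    rw [h1, ← RingHom.map_det, h0, map_zero]
  · omega
  · intro g
    change (I'.ρ g).map (RN F N).subtype = _
    rw [hr g, hI1]
    rfl

end Pool.Agent.H13.RG
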