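import Pool.Agent.H13.RG.Defs
import Pool.Agent.H80.Hilb.Cst

/-!
# Project RG, RG-E1: the data of the theorem of Chevalley, Shephard and Todd
-/

set_option autoImplicit false

open MvPolynomial NumberField

namespace Pool.Agent.H13.RG

section

variable {F : Type} [Field F] {s : ℕ} {G : Type} [Group G]

theorem rge1_msub_X (A : Matrix (Fin s) (Fin s) F) (i : Fin s) :
    msub A (X i) = ∑ j, C (A i j) * X j := by
  unfold msub
  rw [aeval_X]

theorem rge1_msub_C (A : Matrix (Fin s) (Fin s) F) (c : F) : msub A (C c) = C c := by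
  have h := (msub A).commutes c
  rwa [MvPolynomial.algebraMap_eq] at h

theorem rge1_msub_one (p : MvPolynomial (Fin s) F) :
    msub (1 : Matrix (Fin s) (Fin s) F) p = p := by
  have h : msub (1 : Matrix (Fin s) (Fin s) F) = AlgHom.id F _ := by
    apply MvPolynomial.algHom_ext
    intro i
    rw [rge1_msub_X, AlgHom.id_apply, Finset.sum_eq_single i]
    · rw [Matrix.one_apply_eq, C_1, one_mul]
    · intro j _ hj
      rw [Matrix.one_apply_ne (Ne.symm hj), C_0, zero_mul]
    · intro h
      exact absurd (Finset.mem_univ i) h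
  rw [h, AlgHom.id_apply]

theorem rge1_msub_msub (A B : Matrix (Fin s) (Fin s) F) (p : MvPolynomial (Fin s) F) :
    msub A (msub B p) = msub (B * A) p := by
  have h : (msub A).comp (msub B) = msub (B * A) := by
    apply MvPolynomial.algHom_ext
    intro i
    rw [AlgHom.comp_apply, rge1_msub_X, rge1_msub_X, map_sum]
    have h1 : ∀ j, msub A (C (B i j) * X j) = ∑ l, C (B i j) * (C (A j l) * X l) := by
      intro j
      rw [map_mul, rge1_msub_C, rge1_msub_X, Finset.mul_sum]
    rw [Finset.sum_congr rfl (fun j _ => h1 j), Finset.sum_comm]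
    apply Finset.sum_congr rfl
    intro l _
    rw [Matrix.mul_apply, map_sum, Finset.sum_mul]
    apply Finset.sum_congr rfl
    intro j _
    rw [C_mul, mul_assoc]
  rw [← AlgHom.comp_apply, h]

/-- The action of `G` on the polynomials. -/
@[reducible] noncomputable def rge1_action (ρ : G →* Matrix (Fin s) (Fin s) F) :
    MulSemiringAction G (MvPolynomial (Fin s) F) where
  smul g p := msub (ρ g⁻¹) p
  one_smul p := by
    show msub (ρ 1⁻¹) p = p
    rw [inv_one, map_one, rge1_msub_one]
  mul_smul g h p := by
    show msub (ρ (g * h)⁻¹) p = msub (ρ g⁻¹) (msub (ρ h⁻¹) p)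
    rw [rge1_msub_msub, mul_inv_rev, map_mul]
  smul_zero g := map_zero (msub (ρ g⁻¹))
  smul_add g p q := map_add (msub (ρ g⁻¹)) p q
  smul_one g := map_one (msub (ρ g⁻¹))
  smul_mul g p q := map_mul (msub (ρ g⁻¹)) p q

theorem rge1_inv_iff (ρ : G →* Matrix (Fin s) (Fin s) F) (p : MvPolynomial (Fin s) F) :
    letI := rge1_action ρ
    (∀ g : G, g • p = p) ↔ IsInv ρ ⊤ p := by
  constructor
  · intro h g _
    have h1 := h g⁻¹
    have h2 : msub (ρ g⁻¹⁻¹) p = p := h1
    rwa [inv_inv] at h2
  · intro h g
    exact h g⁻¹ (Subgroup.mem_top _)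

/-- A matrix of rank one. -/
theorem rge1_rank_one {M : Matrix (Fin s) (Fin s) F} (h : M.rank = 1) :
    ∃ v w : Fin s → F, ∀ i j, M i j = v i * w j := by
  have h1 : Module.finrank F (LinearMap.range M.mulVecLin) = 1 := h
  obtain ⟨v, _, hv⟩ := finrank_eq_one_iff'.mp h1
  have h2 : ∀ j : Fin s, ∃ c : F, c • (v : Fin s → F) = M.mulVecLin (Pi.single j 1) := by
    intro j
    obtain ⟨c, hc⟩ := hv ⟨M.mulVecLin (Pi.single j 1), LinearMap.mem_range_self _ _⟩
    exact ⟨c, by simpa using congrArg Subtype.val hc⟩
  choose w hw using h2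
  refine ⟨v, w, fun i j => ?_⟩
  have h3 := congrFun (hw j) i
  rw [Matrix.mulVecLin_apply, Matrix.mulVec_single_one] at h3
  rw [mul_comm]
  exact h3.symm

theorem rge1_refl (ρ : G →* Matrix (Fin s) (Fin s) F) (g : G) (hg : (ρ g - 1).rank = 1) :
    ∃ l : MvPolynomial (Fin s) F, l.IsHomogeneous 1 ∧
      ∀ p : MvPolynomial (Fin s) F, l ∣ msub (ρ g⁻¹) p - p := by
  obtain ⟨v, w, hvw⟩ := rge1_rank_one hg
  have hmul : ρ g⁻¹ * ρ g = 1 := by rw [← map_mul, inv_mul_cancel, map_one]
  -- `ρ g⁻¹ - 1 = - ρ g⁻¹ (ρ g - 1)`
  have hA : ∀ i j, (ρ g⁻¹ - 1) i j = (-((ρ g⁻¹).mulVec v i)) * w j := by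
    intro i j
    have h1 : ρ g⁻¹ - 1 = -(ρ g⁻¹ * (ρ g - 1)) := by
      rw [mul_sub, hmul, mul_one, neg_sub]
    rw [h1, Matrix.neg_apply, Matrix.mul_apply, Matrix.mulVec, dotProduct, neg_mul, Finset.sum_mul]
    congr 1
    apply Finset.sum_congr rfl
    intro l _
    rw [hvw l j, mul_assoc]
  refine ⟨∑ j, C (w j) * X j, IsHomogeneous.sum _ _ _ fun j _ => isHomogeneous_C_mul_X _ _, ?_⟩
  intro p
  induction p using MvPolynomial.induction_on with
  | C a =>
    rw [rge1_msub_C, sub_self]
    exact dvd_zero _
  | add p q hp hq =>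
    rw [map_add, add_sub_add_comm]
    exact dvd_add hp hq
  | mul_X p i hp =>
    rw [map_mul]
    have h2 : msub (ρ g⁻¹) (X i) - X i =
        C (-((ρ g⁻¹).mulVec v i)) * ∑ j, C (w j) * X j := by
      rw [rge1_msub_X, Finset.mul_sum]
      have h3 : ∀ j, C (-((ρ g⁻¹).mulVec v i)) * (C (w j) * X j : MvPolynomial (Fin s) F) =
          C ((ρ g⁻¹) i j) * X j - C ((1 : Matrix (Fin s) (Fin s) F) i j) * X j := by
        intro j
        rw [← mul_assoc, ← C_mul, ← hA i j, Matrix.sub_apply, C_sub, sub_mul]
      rw [Finset.sum_congr rfl (fun j _ => h3 j), Finset.sum_sub_distrib]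
      congr 1
      have h4 := rge1_msub_one (X i : MvPolynomial (Fin s) F)
      rw [rge1_msub_X] at h4
      exact h4.symm
    have h5 : msub (ρ g⁻¹) p * msub (ρ g⁻¹) (X i) - p * X i =
        (msub (ρ g⁻¹) p - p) * msub (ρ g⁻¹) (X i) + p * (msub (ρ g⁻¹) (X i) - X i) := by ring
    rw [h5]
    apply dvd_add
    · exact Dvd.dvd.mul_right hp _
    · rw [h2]
      exact Dvd.dvd.mul_left (Dvd.intro_left _ rfl) _

end

section

variable {F : Type} [Field F] [CharZero F] {s : ℕ} {G : Type} [Group G]
  [MulSemiringAction G (MvPolynomial (Fin s) F)] {α : G →* (F ≃ₐ[F] F)}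

open Pool.Agent.H80.Hilb in
/-- Freeness: elements independent modulo the ideal are independent over the invariants. -/
theorem rge1_chev [Fintype G] (hA : LinAct α (Fin s))
    (hN : ∀ g : G, α g = 1 → g ∈ Subgroup.closure (reflSet α (Fin s))) :
    ∀ (m : ℕ) (P U : Fin m → MvPolynomial (Fin s) F) (e : Fin m → ℕ),
      (∀ j, (U j).IsHomogeneous (e j)) → (∀ (j) (g : G), g • U j = U j) →
      (∀ a : Fin m → F, ∑ j, C (a j) * P j ∈ invIdeal (F1 := F) (m := Fin s) G → a = 0) →
      ∑ j, U j * P j = 0 → U = 0 := by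
  classical
  intro m
  induction m with
  | zero =>
    intro P U e _ _ _ _
    exact Subsingleton.elim _ _
  | succ m ih =>
    intro P U e hU hinv hind hsum
    by_cases hr : ∃ r : Fin (m + 1) → MvPolynomial (Fin s) F, (∀ i, ∀ g : G, g • r i = r i) ∧
        U 0 = ∑ i ∈ Finset.univ.erase 0, r i * U i
    · obtain ⟨r, hrinv, hr0⟩ := hr
      have hr1 : U 0 = ∑ j : Fin m, r j.succ * U j.succ := by
        have h1 := Finset.add_sum_erase Finset.univ (fun i => r i * U i) (Finset.mem_univ 0)
        rw [Fin.sum_univ_succ] at h1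
        rw [hr0]
        exact add_left_cancel h1
      have hU' := ih (fun j => P j.succ + r j.succ * P 0) (fun j => U j.succ)
        (fun j => e j.succ) (fun j => hU j.succ) (fun j g => hinv j.succ g) ?_ ?_
      · have h2 : ∀ j : Fin m, U j.succ = 0 := fun j => congrFun hU' j
        have h3 : U 0 = 0 := by
          rw [hr1]
          apply Finset.sum_eq_zero
          intro j _
          rw [h2 j, mul_zero]
        funext i
        refine Fin.cases ?_ (fun j => ?_) i
        · exact h3
        · exact h2 j
      · intro a ha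
        -- `∑ a_j P_j + (∑ a_j v_j) P_0` is in the ideal
        have hmem : ∑ j : Fin m, C (a j) * P j.succ +
            C (∑ j, a j * constantCoeff (r j.succ)) * P 0 ∈ invIdeal (F1 := F) (m := Fin s) G := by
          have h4 : ∑ j : Fin m, C (a j) * P j.succ +
              C (∑ j, a j * constantCoeff (r j.succ)) * P 0 =
              ∑ j : Fin m, C (a j) * (P j.succ + r j.succ * P 0) -
                ∑ j : Fin m, (C (a j) * P 0) * (r j.succ - C (constantCoeff (r j.succ))) := by
            rw [map_sum, Finset.sum_mul, ← Finset.sum_add_distrib, ← Finset.sum_sub_distrib]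
            apply Finset.sum_congr rfl
            intro j _
            rw [C_mul]
            ring
          rw [h4]
          refine Submodule.sub_mem _ ha (Submodule.sum_mem _ fun j _ => Ideal.mul_mem_left _ _ ?_)
          apply Ideal.subset_span
          refine ⟨fun g => ?_, ?_⟩
          · rw [smul_sub, hrinv, hA.hC]
            have h5 := hA.constantCoeff_smul g (r j.succ)
            rw [hrinv] at h5
            rw [← h5]
          · rw [map_sub, constantCoeff_C, sub_self]
        have h6 := hind (Fin.cons (∑ j, a j * constantCoeff (r j.succ)) a) (by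
          rw [Fin.sum_univ_succ]
          simp only [Fin.cons_zero, Fin.cons_succ]
          rw [add_comm]
          exact hmem)
        funext j
        have h7 := congrFun h6 j.succ
        simpa using h7
      · rw [Fin.sum_univ_succ, hr1] at hsum
        rw [← hsum, Finset.sum_mul, ← Finset.sum_add_distrib]
        apply Finset.sum_congr rfl
        intro j _
        ring
    · exfalso
      have hk := key_lemma hA hN Finset.univ U e (fun i _ => hU i) (fun i _ g => hinv i g) 0
        (Finset.mem_univ 0) hr P (by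
          rw [← hsum]
          apply Finset.sum_congr rfl
          intro j _
          ring)
      have h1 := hind (Pi.single 0 1) (by
        rw [Finset.sum_eq_single (0 : Fin (m + 1))]
        · rw [Pi.single_eq_same, C_1, one_mul]
          exact hk
        · intro j _ hj
          rw [Pi.single_eq_of_ne hj, C_0, zero_mul]
        · intro h
          exact absurd (Finset.mem_univ _) h)
      have h2 := congrFun h1 0
      rw [Pi.single_eq_same] at h2
      exact one_ne_zero h2

end

section

variable {F : Type} [Field F] [CharZero F] {s : ℕ} {G : Type} [Group G] [Fintype G]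
  (ρ : G →* Matrix (Fin s) (Fin s) F)

open Pool.Agent.H80.Hilb in
theorem exists_cst (hgen : Subgroup.closure {g | (ρ g - 1).rank = 1} = ⊤) : Nonempty (CST ρ) := by
  classical
  let act := rge1_action ρ
  let α : G →* (F ≃ₐ[F] F) := 1
  have hsmul : ∀ (g : G) (p : MvPolynomial (Fin s) F), g • p = msub (ρ g⁻¹) p := fun _ _ => rfl
  have hA : LinAct α (Fin s) := by
    refine ⟨fun g c => ?_, fun g i => ?_⟩
    · rw [hsmul, rge1_msub_C]
      rfl
    · rw [hsmul]
      exact msub_homogeneous _ (isHomogeneous_X F i)
  have hα : Function.Surjective α := by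
    intro x
    refine ⟨1, ?_⟩
    apply AlgEquiv.ext
    intro c
    have h1 := x.commutes c
    have h2 : x c = c := h1
    rw [h2]
    rfl
  have hN : ∀ g : G, α g = 1 → g ∈ Subgroup.closure (reflSet α (Fin s)) := by
    intro g _
    have h1 : {g | (ρ g - 1).rank = 1} ⊆ reflSet α (Fin s) := by
      intro x hx
      exact ⟨rfl, rge1_refl ρ x hx⟩
    have h2 := Subgroup.closure_mono h1
    rw [hgen] at h2
    exact h2 (Subgroup.mem_top g)
  obtain ⟨T, hT1, hT2, hT3⟩ := exists_minimal_gens hA
  have hd : ∀ j : T, ∃ d : ℕ, d ≠ 0 ∧ (j.1 : MvPolynomial (Fin s) F).IsHomogeneous d :=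
    fun j => (hT1 j.1 j.2).1
  choose d hd0 hd using hd
  have hinv : ∀ (j : T) (g : G), g • (j.1 : MvPolynomial (Fin s) F) = j.1 :=
    fun j => (hT1 j.1 j.2).2
  have hspan : Ideal.span (Set.range (fun j : T => (j.1 : MvPolynomial (Fin s) F))) =
      invIdeal G := by
    rw [← hT2]
    congr 1
    ext x
    simp
  have hindep : AlgebraicIndependent F (fun j : T => (j.1 : MvPolynomial (Fin s) F)) := by
    apply algebraicIndependent_gens hA hN _ d hd0 hd hinv hspan
    intro k hk
    apply hT3 k.1 k.2
    convert hk using 2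
    ext x
    simp only [Set.mem_sdiff, Finset.mem_coe, Set.mem_singleton_iff, Set.mem_image]
    constructor
    · rintro ⟨hx, hxk⟩
      exact ⟨⟨x, hx⟩, fun h => hxk (congrArg Subtype.val h), rfl⟩
    · rintro ⟨y, hy, rfl⟩
      exact ⟨y.2, fun h => hy (Subtype.ext h)⟩
  have hgens : ∀ p : MvPolynomial (Fin s) F, (∀ g : G, g • p = p) →
      p ∈ Algebra.adjoin F (Set.range (fun j : T => (j.1 : MvPolynomial (Fin s) F))) :=
    fun p hp => adjoin_gens hA hα _ d hd0 hd hinv hspan p hp
  -- the number of generators
  have hcard : Fintype.card T = s := by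
    have hint : Algebra.IsIntegral
        (Algebra.adjoin F (Set.range (fun j : T => (j.1 : MvPolynomial (Fin s) F))))
        (MvPolynomial (Fin s) F) := by
      have : Algebra.IsInvariant
          (Algebra.adjoin F (Set.range (fun j : T => (j.1 : MvPolynomial (Fin s) F))))
          (MvPolynomial (Fin s) F) G := ⟨fun b hb => ⟨⟨b, hgens b hb⟩, rfl⟩⟩
      exact Algebra.IsInvariant.isIntegral _ _ G
    have hbas : IsTranscendenceBasis F (fun j : T => (j.1 : MvPolynomial (Fin s) F)) := by
      rw [isTranscendenceBasis_iff_algebraicIndependent_isAlgebraic]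
      exact ⟨hindep, inferInstance⟩
    have h1 := hbas.cardinalMk_eq_trdeg
    rw [MvPolynomial.trdeg_of_isDomain] at h1
    simpa using h1
  let eq : T ≃ Fin s := Fintype.equivFinOfCardEq hcard
  have hrange : Set.range (fun i : Fin s => ((eq.symm i).1 : MvPolynomial (Fin s) F)) =
      Set.range (fun j : T => (j.1 : MvPolynomial (Fin s) F)) := by
    ext x
    constructor
    · rintro ⟨i, rfl⟩
      exact ⟨eq.symm i, rfl⟩
    · rintro ⟨j, rfl⟩
      exact ⟨eq j, by simp⟩
  refine ⟨⟨fun i => (eq.symm i).1, fun i => d (eq.symm i), ?_, ?_, ?_, ?_, ?_, ?_⟩⟩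
  · intro i
    exact Nat.pos_of_ne_zero (hd0 _)
  · intro i
    exact hd _
  · intro i
    exact (rge1_inv_iff ρ _).mp (hinv (eq.symm i))
  · exact hindep.comp _ eq.symm.injective
  · intro p hp
    rw [hrange]
    exact hgens p ((rge1_inv_iff ρ p).mpr hp)
  · intro m P e hP hind U hU hsum
    have hUinv : ∀ (j) (g : G), g • U j = U j := fun j => (rge1_inv_iff ρ _).mpr (hU j)
    -- the homogeneous component of degree `w`
    have hcomp : ∀ w : ℕ, (fun j => if e j ≤ w then homogeneousComponent (w - e j) (U j) else 0) =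
        (0 : Fin m → MvPolynomial (Fin s) F) := by
      intro w
      apply rge1_chev hA hN m P _ (fun j => w - e j)
      · intro j
        split_ifs
        · exact homogeneousComponent_isHomogeneous _ _
        · exact isHomogeneous_zero _ _ _
      · intro j g
        split_ifs
        · rw [hA.smul_hc, hUinv j g]
        · exact smul_zero g
      · intro a ha
        apply hind a
        rw [hrange, hspan]
        exact ha
      · have h1 := congrArg (homogeneousComponent w) hsum
        rw [map_sum, map_zero] at h1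
        refine Eq.trans (Finset.sum_congr rfl fun j _ => ?_) h1
        rw [hc_mul_right (hP j)]
        split_ifs
        · rfl
        · exact zero_mul _
    funext j
    rw [← sum_homogeneousComponent (U j)]
    apply Finset.sum_eq_zero
    intro i _
    have h2 := congrFun (hcomp (i + e j)) j
    have h3 : (if e j ≤ i + e j then homogeneousComponent (i + e j - e j) (U j) else 0) =
        (0 : MvPolynomial (Fin s) F) := h2
    rw [if_pos (Nat.le_add_left _ _), Nat.add_sub_cancel] at h3
    exact h3

end

end Pool.Agent.H13.RG
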