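import Pool.Agent.H13.RG.Defs
import Pool.Agent.H13.RG.Basic

/-!
# Project RG (MP_a3214d): row RG-D1

The field of a homomorphism: the covariants of one index generate a field of degree `n`, whose
embeddings are numbered compatibly with the action.
-/

set_option autoImplicit false

open MvPolynomial NumberField

namespace Pool.Agent.H13.RG

section Fields

variable {F : Type} [Field F] [NumberField F] {Ω : Type} [Field Ω] [Algebra F Ω]
  [IsAlgClosure F Ω] {s n : ℕ} {G : Type} [Group G] [Fintype G]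

/-- the values of the covariants at `x` -/
noncomputable def rgd1_A (X : Core F s n G) (x : Fin s → Ω) (i j : Fin n) : Ω :=
  eval₂ (iO F Ω X.N) x (X.W i j)

omit [NumberField F] [IsAlgClosure F Ω] in
theorem rgd1_galois (X : Core F s n G) {h : (Ω ≃ₐ[F] Ω) →* G} {x : Fin s → Ω}
    (hx : Twisted X h x) (σ : Ω ≃ₐ[F] Ω) (i j : Fin n) :
    σ (rgd1_A X x i j) = rgd1_A X x (X.π (h σ) i) j := by
  have h1 : (σ : Ω →+* Ω) (eval₂ (iO F Ω X.N) x (X.W i j)) =
      eval₂ ((σ : Ω →+* Ω).comp (iO F Ω X.N)) (fun l => (σ : Ω →+* Ω) (x l)) (X.W i j) :=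
    eval₂_comp_left (σ : Ω →+* Ω) (iO F Ω X.N) x (X.W i j)
  have h2 : (σ : Ω →+* Ω).comp (iO F Ω X.N) = iO F Ω X.N := by
    ext a
    exact σ.commutes (a : F)
  have h3 : (fun l => (σ : Ω →+* Ω) (x l)) = X.I.act (iO F Ω X.N) (h σ)⁻¹ x := hx σ
  rw [h2, h3, X.W_act Ω (iO F Ω X.N) (h σ) x i j] at h1
  exact h1

omit [NumberField F] [IsAlgClosure F Ω] in
theorem rgd1_det (X : Core F s n G) {x : Fin s → Ω}
    (hdet : eval₂ (iO F Ω X.N) x (Matrix.of X.W).det ≠ 0) :
    (Matrix.of (rgd1_A X x)).det ≠ 0 := by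
  have h1 : eval₂ (iO F Ω X.N) x (Matrix.of X.W).det = (Matrix.of (rgd1_A X x)).det := by
    have h2 := RingHom.map_det (eval₂Hom (iO F Ω X.N) x) (Matrix.of X.W)
    rw [coe_eval₂Hom] at h2
    rw [h2]
    rfl
  rwa [← h1]

omit [NumberField F] [IsAlgClosure F Ω] in
theorem rgd1_row_inj (X : Core F s n G) {x : Fin s → Ω}
    (hdet : eval₂ (iO F Ω X.N) x (Matrix.of X.W).det ≠ 0) {i i' : Fin n}
    (hii : ∀ j, rgd1_A X x i j = rgd1_A X x i' j) : i = i' := by
  by_contra hne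
  exact rgd1_det X hdet (Matrix.det_zero_of_row_eq hne (by
    funext j
    exact hii j))

theorem exists_field (X : Core F s n G) (hn : 0 < n) {h : (Ω ≃ₐ[F] Ω) →* G}
    (hh : Function.Surjective h) {x : Fin s → Ω} (hx : Twisted X h x)
    (hdet : eval₂ (iO F Ω X.N) x (Matrix.of X.W).det ≠ 0) :
    ∃ (K : IntermediateField F Ω) (e : (K →ₐ[F] Ω) ≃ Fin n) (w : Fin n → K),
      FiniteDimensional F K ∧ Module.finrank F K = n ∧ LinearIndependent F w ∧
      (∀ (σ : Ω ≃ₐ[F] Ω) (φ : K →ₐ[F] Ω), e (σ.toAlgHom.comp φ) = X.π (h σ) (e φ)) ∧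
      ∀ (φ : K →ₐ[F] Ω) j, φ (w j) = eval₂ (iO F Ω X.N) x (X.W (e φ) j) := by
  classical
  have hac : IsAlgClosed Ω := IsAlgClosure.isAlgClosed F
  have halg : Algebra.IsAlgebraic F Ω := IsAlgClosure.isAlgebraic
  set i0 : Fin n := ⟨0, hn⟩ with hi0
  set K : IntermediateField F Ω :=
    IntermediateField.adjoin F (Set.range fun j => rgd1_A X x i0 j) with hK
  have hwmem : ∀ j, rgd1_A X x i0 j ∈ K := fun j =>
    IntermediateField.subset_adjoin F _ ⟨j, rfl⟩
  set w : Fin n → K := fun j => ⟨rgd1_A X x i0 j, hwmem j⟩ with hw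
  have hfin : FiniteDimensional F K := by
    apply IntermediateField.finiteDimensional_adjoin
    intro y _
    exact (halg.isAlgebraic y).isIntegral
  -- two embeddings which agree at all `w j` are equal
  have hext : ∀ φ ψ : K →ₐ[F] Ω, (∀ j, φ (w j) = ψ (w j)) → φ = ψ := by
    intro φ ψ hφψ
    have h1 : ∀ (y : Ω) (hy : y ∈ K), φ ⟨y, hy⟩ = ψ ⟨y, hy⟩ := by
      intro y hy
      induction hy using IntermediateField.adjoin_induction with
      | mem z hz =>
        obtain ⟨j, rfl⟩ := hz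
        exact hφψ j
      | algebraMap a =>
        have h2 : (⟨algebraMap F Ω a, K.algebraMap_mem a⟩ : K) = algebraMap F K a := rfl
        exact (congrArg φ h2).trans ((φ.commutes a).trans ((ψ.commutes a).symm.trans
          (congrArg ψ h2).symm))
      | add u v hu hv hu' hv' =>
        exact (map_add φ ⟨u, hu⟩ ⟨v, hv⟩).trans ((congrArg₂ (· + ·) hu' hv').trans
          (map_add ψ ⟨u, hu⟩ ⟨v, hv⟩).symm)
      | inv u hu hu' =>
        exact (map_inv₀ φ ⟨u, hu⟩).trans ((congrArg (·⁻¹) hu').trans (map_inv₀ ψ ⟨u, hu⟩).symm)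
      | mul u v hu hv hu' hv' =>
        exact (map_mul φ ⟨u, hu⟩ ⟨v, hv⟩).trans ((congrArg₂ (· * ·) hu' hv').trans
          (map_mul ψ ⟨u, hu⟩ ⟨v, hv⟩).symm)
    ext y
    exact h1 y y.2
  -- every embedding extends to an automorphism
  have hlift : ∀ φ : K →ₐ[F] Ω, ∃ σ : Ω ≃ₐ[F] Ω, ∀ y : K, φ y = σ (y : Ω) := by
    intro φ
    have hnor : Normal F Ω := IsAlgClosure.normal F Ω
    refine ⟨(Algebra.IsAlgebraic.algEquivEquivAlgHom F Ω).symm (φ.liftNormal Ω), fun y => ?_⟩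
    exact (φ.liftNormal_commutes Ω y).symm
  have hex : ∀ φ : K →ₐ[F] Ω, ∃ i : Fin n, ∀ j, φ (w j) = rgd1_A X x i j := by
    intro φ
    obtain ⟨σ, hσ⟩ := hlift φ
    exact ⟨X.π (h σ) i0, fun j => by rw [hσ, ← rgd1_galois X hx]⟩
  choose e he using hex
  have hinj : Function.Injective e := by
    intro φ ψ hφψ
    exact hext φ ψ fun j => by rw [he, he, hφψ]
  have hsurj : Function.Surjective e := by
    intro i
    obtain ⟨⟨_, g, rfl⟩, hg⟩ := X.π_trans.exists_smul_eq i0 i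
    obtain ⟨σ, rfl⟩ := hh g
    refine ⟨σ.toAlgHom.comp K.val, ?_⟩
    apply rgd1_row_inj X hdet
    intro j
    rw [← he]
    change σ (rgd1_A X x i0 j) = _
    rw [rgd1_galois X hx]
    have h1 : X.π (h σ) i0 = i := hg
    rw [h1]
  refine ⟨K, Equiv.ofBijective e ⟨hinj, hsurj⟩, w, hfin, ?_, ?_, ?_, ?_⟩
  · have h1 := AlgHom.card F K Ω
    rw [← h1, Fintype.card_congr (Equiv.ofBijective e ⟨hinj, hsurj⟩), Fintype.card_fin]
  · rw [Fintype.linearIndependent_iff]
    intro c hc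
    have h1 : (Matrix.of (rgd1_A X x)).mulVec (fun j => algebraMap F Ω (c j)) = 0 := by
      funext i
      obtain ⟨φ, hφ⟩ := hsurj i
      have h2 := congrArg φ hc
      rw [map_sum, map_zero] at h2
      rw [Matrix.mulVec, dotProduct, Pi.zero_apply, ← h2]
      apply Finset.sum_congr rfl
      intro j _
      rw [Algebra.smul_def, map_mul, AlgHom.commutes, he, hφ, mul_comm]
      rfl
    have h3 := Matrix.eq_zero_of_mulVec_eq_zero (rgd1_det X hdet) h1
    intro j
    have h4 := congrFun h3 j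
    exact (map_eq_zero (algebraMap F Ω)).mp h4
  · intro σ φ
    change e (σ.toAlgHom.comp φ) = X.π (h σ) (e φ)
    apply rgd1_row_inj X hdet
    intro j
    rw [← he, ← rgd1_galois X hx, ← he]
    rfl
  · intro φ j
    exact he φ j

end Fields

end Pool.Agent.H13.RG
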