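import Pool.Agent.H13.RG.Basic

/-!
# Project RG (MP_a3214d), row A4: integrality up to a constant
-/

set_option autoImplicit false

open MvPolynomial NumberField IsDedekindDomain

namespace Pool.Agent.H13.RG

/-! ### RG-A4 Integ.lean -/

section Integ

variable {F : Type} [Field F] {Ω : Type} [Field Ω] [Algebra F Ω] {N s : ℕ}
  {G : Type} [Group G] [Fintype G]

theorem rga4_natCast (K : Type) [Field K] (m : ℕ) : IsIntegral ℤ (m : K) := by
  simpa using (isIntegral_algebraMap (R := ℤ) (A := K) (x := (m : ℤ)))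

theorem rga4_coeff (a : RN F N) : ∃ J : ℕ, IsIntegral ℤ ((N : Ω) ^ J * iO F Ω N a) := by
  obtain ⟨a, J, hJ⟩ := a
  refine ⟨J, ?_⟩
  have := hJ.map (algebraMap F Ω).toIntAlgHom
  simpa [iO] using this

theorem rga4_poly (P : MvPolynomial (Fin s) (RN F N)) :
    ∃ J : ℕ, ∀ x : Fin s → Ω, (∀ i, IsIntegral ℤ (x i)) →
      IsIntegral ℤ ((N : Ω) ^ J * eval₂ (iO F Ω N) x P) := by
  have hN := rga4_natCast Ω N
  induction P using MvPolynomial.induction_on with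
  | C a =>
    obtain ⟨J, hJ⟩ := rga4_coeff (Ω := Ω) a
    exact ⟨J, fun x _ => by rwa [eval₂_C]⟩
  | add p q hp hq =>
    obtain ⟨J1, h1⟩ := hp
    obtain ⟨J2, h2⟩ := hq
    refine ⟨J1 + J2, fun x hx => ?_⟩
    have h3 : (N : Ω) ^ (J1 + J2) * eval₂ (iO F Ω N) x (p + q) =
        (N : Ω) ^ J2 * ((N : Ω) ^ J1 * eval₂ (iO F Ω N) x p) +
          (N : Ω) ^ J1 * ((N : Ω) ^ J2 * eval₂ (iO F Ω N) x q) := by
      rw [eval₂_add]
      ring
    rw [h3]
    exact ((hN.pow J2).mul (h1 x hx)).add ((hN.pow J1).mul (h2 x hx))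
  | mul_X p i hp =>
    obtain ⟨J, h1⟩ := hp
    refine ⟨J, fun x hx => ?_⟩
    rw [eval₂_mul, eval₂_X, ← mul_assoc]
    exact (h1 x hx).mul (hx i)

/-- a root of a monic polynomial with integral coefficients is integral -/
theorem rga4_root {y : Ω} {g : ℕ} (b : Fin g → Ω) (hb : ∀ e, IsIntegral ℤ (b e))
    (h : y ^ g + ∑ e : Fin g, b e * y ^ (e : ℕ) = 0) : IsIntegral ℤ y := by
  let S := integralClosure ℤ Ω
  let c : Fin g → S := fun e => ⟨b e, hb e⟩
  have h1 : IsIntegral S y := by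
    refine ⟨Polynomial.X ^ g + ∑ e : Fin g, Polynomial.C (c e) * Polynomial.X ^ (e : ℕ), ?_, ?_⟩
    · exact Polynomial.monic_X_pow_add (Polynomial.degree_sum_fin_lt c)
    · rw [← Polynomial.aeval_def, map_add, map_pow, Polynomial.aeval_X, map_sum]
      simp only [map_mul, map_pow, Polynomial.aeval_C, Polynomial.aeval_X]
      exact h
  exact isIntegral_trans y h1

theorem exists_J (hN : 0 < N) (I : Inv (RN F N) s G) :
    ∃ J : ℕ, ∀ x : Fin s → Ω, (∀ i, IsIntegral ℤ (I.fv (iO F Ω N) x i)) →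
      ∀ j, IsIntegral ℤ ((N : Ω) ^ J * x j) := by
  choose a ha using fun j => exists_root I j
  choose J hJ using fun (j : Fin s) (e : Fin (Fintype.card G)) =>
    rga4_poly (Ω := Ω) (a j e)
  refine ⟨∑ j, ∑ e, J j e, fun x hx j => ?_⟩
  set J1 := ∑ j, ∑ e, J j e with hJ1
  have hle : ∀ e, J j e ≤ J1 := fun e =>
    (Finset.single_le_sum (f := fun e => J j e) (fun _ _ => Nat.zero_le _)
      (Finset.mem_univ e)).trans
      (Finset.single_le_sum (f := fun j => ∑ e, J j e) (fun _ _ => Nat.zero_le _)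
        (Finset.mem_univ j))
  have hNi := rga4_natCast Ω N
  have h1 : ∀ e, IsIntegral ℤ ((N : Ω) ^ J1 *
      eval₂ (iO F Ω N) (I.fv (iO F Ω N) x) (a j e)) := by
    intro e
    have h2 : (N : Ω) ^ J1 * eval₂ (iO F Ω N) (I.fv (iO F Ω N) x) (a j e) =
        (N : Ω) ^ (J1 - J j e) * ((N : Ω) ^ J j e *
          eval₂ (iO F Ω N) (I.fv (iO F Ω N) x) (a j e)) := by
      rw [← mul_assoc, ← pow_add, Nat.sub_add_cancel (hle e)]
    rw [h2]
    exact (hNi.pow _).mul (hJ j e _ hx)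
  have h3 := ha j Ω (iO F Ω N) x
  refine rga4_root (g := Fintype.card G)
    (fun e => (N : Ω) ^ (J1 * (Fintype.card G - 1 - (e : ℕ))) * ((N : Ω) ^ J1 *
      eval₂ (iO F Ω N) (I.fv (iO F Ω N) x) (a j e)))
    (fun e => (hNi.pow _).mul (h1 e)) ?_
  have h4 : ((N : Ω) ^ J1) ^ Fintype.card G * (x j ^ Fintype.card G +
        ∑ e : Fin (Fintype.card G), eval₂ (iO F Ω N) (I.fv (iO F Ω N) x) (a j e) *
          x j ^ (e : ℕ)) = 0 := by
    rw [h3, mul_zero]
  rw [mul_add, Finset.mul_sum] at h4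
  rw [← h4, mul_pow]
  congr 1
  refine Finset.sum_congr rfl fun e _ => ?_
  have he : (Fintype.card G - 1 - (e : ℕ)) + 1 + (e : ℕ) = Fintype.card G := by
    have := e.2
    omega
  have h5 : ((N : Ω) ^ J1) ^ Fintype.card G =
      (N : Ω) ^ (J1 * (Fintype.card G - 1 - (e : ℕ))) * (N : Ω) ^ J1 *
        ((N : Ω) ^ J1) ^ (e : ℕ) := by
    rw [← pow_mul, ← pow_mul, ← pow_add, ← pow_add]
    congr 1
    conv_lhs => rw [← he]
    ring
  rw [h5, mul_pow]
  ring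

theorem exists_M1 (hN : 0 < N) (P : MvPolynomial (Fin s) (RN F N)) (M0 : ℕ) (hM0 : 0 < M0) :
    ∃ M1 : ℕ, 0 < M1 ∧ ∀ x : Fin s → Ω, (∀ j, IsIntegral ℤ ((M0 : Ω) * x j)) →
      IsIntegral ℤ ((M1 : Ω) * eval₂ (iO F Ω N) x P) := by
  induction P using MvPolynomial.induction_on with
  | C a =>
    obtain ⟨J, hJ⟩ := rga4_coeff (Ω := Ω) a
    refine ⟨N ^ J, pow_pos hN J, fun x _ => ?_⟩
    rw [eval₂_C]
    push_cast
    exact hJ
  | add p q hp hq =>
    obtain ⟨M1, h01, h1⟩ := hp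
    obtain ⟨M2, h02, h2⟩ := hq
    refine ⟨M1 * M2, Nat.mul_pos h01 h02, fun x hx => ?_⟩
    have h3 : ((M1 * M2 : ℕ) : Ω) * eval₂ (iO F Ω N) x (p + q) =
        (M2 : Ω) * ((M1 : Ω) * eval₂ (iO F Ω N) x p) +
          (M1 : Ω) * ((M2 : Ω) * eval₂ (iO F Ω N) x q) := by
      rw [eval₂_add]
      push_cast
      ring
    rw [h3]
    exact ((rga4_natCast Ω M2).mul (h1 x hx)).add ((rga4_natCast Ω M1).mul (h2 x hx))
  | mul_X p i hp =>
    obtain ⟨M1, h01, h1⟩ := hp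
    refine ⟨M1 * M0, Nat.mul_pos h01 hM0, fun x hx => ?_⟩
    have h3 : ((M1 * M0 : ℕ) : Ω) * eval₂ (iO F Ω N) x (p * X i) =
        ((M1 : Ω) * eval₂ (iO F Ω N) x p) * ((M0 : Ω) * x i) := by
      rw [eval₂_mul, eval₂_X]
      push_cast
      ring
    rw [h3]
    exact (h1 x hx).mul (hx i)

end Integ

end Pool.Agent.H13.RG
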