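import Pool.Agent.H13.RG.Basic

/-!
# Project RG, row RG-A3: archimedean sizes
-/

set_option autoImplicit false

open MvPolynomial NumberField IsDedekindDomain

namespace Pool.Agent.H13.RG

section Size

variable {F : Type} [Field F] [NumberField F] {Ω : Type} [Field Ω] [Algebra F Ω] {N s : ℕ}
  {G : Type} [Group G] [Fintype G]

theorem rga3_coef (c : RN F N) :
    ∃ K : ℝ, 0 < K ∧ ∀ τ : Ω →+* ℂ, ‖τ (iO F Ω N c)‖ ≤ K := by
  refine ⟨1 + ∑ v : F →+* ℂ, ‖v (c : F)‖, ?_, fun τ => ?_⟩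
  · have : 0 ≤ ∑ v : F →+* ℂ, ‖v (c : F)‖ := Finset.sum_nonneg fun v _ => norm_nonneg _
    linarith
  · have h1 : ‖(τ.comp (algebraMap F Ω)) (c : F)‖ ≤ ∑ v : F →+* ℂ, ‖v (c : F)‖ :=
      Finset.single_le_sum (f := fun v : F →+* ℂ => ‖v (c : F)‖)
        (fun v _ => norm_nonneg _) (Finset.mem_univ _)
    have h2 : τ (iO F Ω N c) = (τ.comp (algebraMap F Ω)) (c : F) := rfl
    rw [h2]
    linarith

theorem rga3_coefs {ι : Type} (S : Finset ι) (c : ι → RN F N) :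
    ∃ K : ℝ, 0 < K ∧ ∀ τ : Ω →+* ℂ, ∑ i ∈ S, ‖τ (iO F Ω N (c i))‖ ≤ K := by
  choose K hK0 hK using fun i => rga3_coef (Ω := Ω) (c i)
  refine ⟨1 + ∑ i ∈ S, K i, ?_, fun τ => ?_⟩
  · have : 0 ≤ ∑ i ∈ S, K i := Finset.sum_nonneg fun i _ => (hK0 i).le
    linarith
  · have := Finset.sum_le_sum (s := S) fun i _ => hK i τ
    linarith

theorem rga3_eval (P : MvPolynomial (Fin s) (RN F N)) :
    ∃ C : ℝ, 0 < C ∧ ∀ (τ : Ω →+* ℂ) (z : Fin s → ℂ) (L : ℝ), 0 ≤ L →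
      (∀ m ∈ P.support, ‖∏ i, z i ^ m i‖ ≤ L) →
      ‖eval₂ (τ.comp (iO F Ω N)) z P‖ ≤ C * L := by
  obtain ⟨K, hK0, hK⟩ := rga3_coefs (Ω := Ω) P.support (fun m => P.coeff m)
  refine ⟨K, hK0, fun τ z L hL hz => ?_⟩
  rw [eval₂_eq']
  calc ‖∑ m ∈ P.support, (τ.comp (iO F Ω N)) (P.coeff m) * ∏ i, z i ^ m i‖
      ≤ ∑ m ∈ P.support, ‖τ (iO F Ω N (P.coeff m))‖ * L := by
        refine (norm_sum_le _ _).trans (Finset.sum_le_sum fun m hm => ?_)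
        rw [norm_mul]
        exact mul_le_mul_of_nonneg_left (hz m hm) (norm_nonneg _)
    _ ≤ K * L := by
        rw [← Finset.sum_mul]
        exact mul_le_mul_of_nonneg_right (hK τ) hL

theorem rga3_prod (z : Fin s → ℂ) (L : ℝ) (hz : ∀ i, ‖z i‖ ≤ L) (m : Fin s →₀ ℕ) :
    ‖∏ i, z i ^ m i‖ ≤ L ^ (∑ i, m i) := by
  rw [norm_prod, ← Finset.prod_pow_eq_pow_sum]
  refine Finset.prod_le_prod (fun i _ => norm_nonneg _) (fun i _ => ?_)
  rw [norm_pow]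
  exact pow_le_pow_left₀ (norm_nonneg _) (hz i) _

/-! ### RG-A3 Size.lean -/

theorem poly_le {P : MvPolynomial (Fin s) (RN F N)} {e : ℕ} (hP : P.IsHomogeneous e) :
    ∃ C : ℝ, 0 < C ∧ ∀ (τ : Ω →+* ℂ) (L : ℝ), 0 ≤ L → ∀ x : Fin s → Ω, (∀ j, ‖τ (x j)‖ ≤ L) →
      ‖τ (eval₂ (iO F Ω N) x P)‖ ≤ C * L ^ e := by
  obtain ⟨C, hC0, hC⟩ := rga3_eval (Ω := Ω) P
  refine ⟨C, hC0, fun τ L hL x hx => ?_⟩
  rw [eval₂_comp_left τ (iO F Ω N) x P]
  refine hC τ (τ ∘ x) (L ^ e) (pow_nonneg hL e) (fun m hm => ?_)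
  have h1 : ∑ i, m i = e := by
    have h2 := hP (mem_support_iff.mp hm)
    rw [← h2, Finsupp.weight_apply, Finsupp.sum_fintype]
    · simp
    · intro i
      simp
  rw [← h1]
  exact rga3_prod (τ ∘ x) L hx m

theorem act_le (I : Inv (RN F N) s G) :
    ∃ C : ℝ, 0 < C ∧ ∀ (τ : Ω →+* ℂ) (L : ℝ), 0 ≤ L → ∀ (g : G) (x : Fin s → Ω),
      (∀ j, ‖τ (x j)‖ ≤ L) → ∀ j, ‖τ (I.act (iO F Ω N) g x j)‖ ≤ C * L := by
  obtain ⟨K, hK0, hK⟩ := rga3_coefs (Ω := Ω) (Finset.univ : Finset (G × Fin s × Fin s))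
    (fun p => I.ρ p.1 p.2.1 p.2.2)
  refine ⟨K, hK0, fun τ L hL g x hx j => ?_⟩
  have h1 : I.act (iO F Ω N) g x j = ∑ i, iO F Ω N (I.ρ g j i) * x i := rfl
  rw [h1, map_sum]
  have h2 : ∑ i, ‖τ (iO F Ω N (I.ρ g j i))‖ ≤ K := by
    refine le_trans ?_ (hK τ)
    have hinj : Function.Injective (fun i : Fin s => (g, j, i)) := by
      intro a b hab
      simpa using hab
    have hsum := Finset.sum_le_sum_of_subset_of_nonneg
      (f := fun p : G × Fin s × Fin s => ‖τ (iO F Ω N (I.ρ p.1 p.2.1 p.2.2))‖)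
      (Finset.subset_univ (Finset.univ.map ⟨fun i : Fin s => (g, j, i), hinj⟩))
      (fun p _ _ => norm_nonneg _)
    rw [Finset.sum_map] at hsum
    exact hsum
  calc ‖∑ i, τ (iO F Ω N (I.ρ g j i) * x i)‖
      ≤ ∑ i, ‖τ (iO F Ω N (I.ρ g j i))‖ * L := by
        refine (norm_sum_le _ _).trans (Finset.sum_le_sum fun i _ => ?_)
        rw [map_mul, norm_mul]
        exact mul_le_mul_of_nonneg_left (hx i) (norm_nonneg _)
    _ ≤ K * L := by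
        rw [← Finset.sum_mul]
        exact mul_le_mul_of_nonneg_right h2 hL

theorem rga3_mono (z : ℂ) (g : ℕ) (K : ℝ) (hK : 0 ≤ K) (a : Fin g → ℂ) (ha : ∀ e, ‖a e‖ ≤ K)
    (h : z ^ g + ∑ e : Fin g, a e * z ^ (e : ℕ) = 0) : ‖z‖ ≤ 1 + g * K := by
  by_contra hcon
  have hz : 1 + g * K < ‖z‖ := lt_of_not_ge hcon
  have hz1 : 1 ≤ ‖z‖ := by
    have : 0 ≤ (g : ℝ) * K := by positivity
    linarith
  rcases Nat.eq_zero_or_pos g with hg | hg
  · subst hg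
    simp at h
  · have h1 : z ^ g = - ∑ e : Fin g, a e * z ^ (e : ℕ) := eq_neg_of_add_eq_zero_left h
    have h2 : ‖z‖ ^ g ≤ g * K * ‖z‖ ^ (g - 1) := by
      rw [← norm_pow, h1, norm_neg]
      calc ‖∑ e : Fin g, a e * z ^ (e : ℕ)‖ ≤ ∑ _e : Fin g, K * ‖z‖ ^ (g - 1) := by
            refine (norm_sum_le _ _).trans (Finset.sum_le_sum fun e _ => ?_)
            rw [norm_mul, norm_pow]
            exact mul_le_mul (ha e) (pow_le_pow_right₀ hz1 (by omega)) (by positivity) hK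
        _ = g * K * ‖z‖ ^ (g - 1) := by
            rw [Finset.sum_const, Finset.card_univ, Fintype.card_fin, nsmul_eq_mul, mul_assoc]
    have h3 : ‖z‖ ^ g = ‖z‖ * ‖z‖ ^ (g - 1) := by
      rw [← pow_succ', Nat.sub_add_cancel hg]
    rw [h3] at h2
    have h4 : 0 < ‖z‖ ^ (g - 1) := by positivity
    have h5 := le_of_mul_le_mul_right h2 h4
    linarith

theorem size_le (I : Inv (RN F N) s G) :
    ∃ C : ℝ, 0 < C ∧ ∀ (τ : Ω →+* ℂ) (H : ℝ), 0 < H → ∀ x : Fin s → Ω,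
      (∀ i, ‖τ (I.fv (iO F Ω N) x i)‖ ≤ H ^ I.d i) → ∀ j, ‖τ (x j)‖ ≤ C * H := by
  choose a ha using fun j => exists_root I j
  choose K hK0 hK using fun p : Fin s × Fin (Fintype.card G) => rga3_eval (Ω := Ω) (a p.1 p.2)
  obtain ⟨K', hK'0, hK'⟩ : ∃ K' : ℝ, 0 < K' ∧ ∀ p, K p ≤ K' := by
    refine ⟨1 + ∑ p, K p, ?_, fun p => ?_⟩
    · have : 0 ≤ ∑ p, K p := Finset.sum_nonneg fun p _ => (hK0 p).le
      linarith
    · have := Finset.single_le_sum (f := K) (fun p _ => (hK0 p).le) (Finset.mem_univ p)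
      linarith
  refine ⟨1 + Fintype.card G * K', by positivity, fun τ H hH x hx j => ?_⟩
  set φ : RN F N →+* ℂ := τ.comp (iO F Ω N) with hφ
  set y : Fin s → ℂ := ((H : ℂ)⁻¹) • (fun i => τ (x i)) with hy
  have hHc : (H : ℂ) ≠ 0 := by
    exact_mod_cast hH.ne'
  have hfv : ∀ i, ‖I.fv φ y i‖ ≤ 1 := by
    intro i
    have h1 : I.fv φ y i = ((H : ℂ)⁻¹) ^ I.d i * I.fv φ (fun i => τ (x i)) i :=
      fv_smul I φ _ _ i
    have h2 : I.fv φ (fun i => τ (x i)) i = τ (I.fv (iO F Ω N) x i) :=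
      (congrFun (fv_map I (iO F Ω N) τ x) i).symm
    rw [h1, h2, norm_mul, norm_pow, norm_inv, Complex.norm_real, Real.norm_eq_abs,
      abs_of_pos hH, inv_pow, inv_mul_le_iff₀ (by positivity), mul_one]
    exact hx i
  have hroot := ha j ℂ φ y
  have hb : ‖y j‖ ≤ 1 + Fintype.card G * K' := by
    refine rga3_mono (y j) (Fintype.card G) K' hK'0.le
      (fun e => eval₂ φ (I.fv φ y) (a j e)) (fun e => ?_) hroot
    have h3 := hK (j, e) τ (I.fv φ y) 1 zero_le_one (fun m _ => by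
      refine (rga3_prod (I.fv φ y) 1 hfv m).trans ?_
      rw [one_pow])
    rw [mul_one] at h3
    exact h3.trans (hK' (j, e))
  have h4 : τ (x j) = H * y j := by
    rw [hy, Pi.smul_apply, smul_eq_mul, ← mul_assoc, mul_inv_cancel₀ hHc, one_mul]
  rw [h4, norm_mul, Complex.norm_real, Real.norm_eq_abs, abs_of_pos hH, mul_comm]
  exact mul_le_mul_of_nonneg_right hb hH.le

end Size

end Pool.Agent.H13.RG
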