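import Pool.Agent.H13.RG.Defs
import Pool.Agent.H35.AN.DiscLe
import Pool.Agent.H13.RG.Size
import Pool.Agent.H13.RG.Integ
import Pool.Agent.H13.RG.Field

/-!
# RG-D2: the discriminant of the field of a point
-/

set_option autoImplicit false

open MvPolynomial NumberField IsDedekindDomain

namespace Pool.Agent.H13.RG

section Fields

variable {F : Type} [Field F] [NumberField F] {Ω : Type} [Field Ω] [Algebra F Ω]
  [IsAlgClosure F Ω] {s n : ℕ} {G : Type} [Group G] [Fintype G]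

omit [NumberField F] in
/-- every complex embedding of an intermediate field extends to the algebraic closure -/
theorem rgd2_extend (K : IntermediateField F Ω) (φ : K →+* ℂ) :
    ∃ τ : Ω →+* ℂ, ∀ y : K, τ (y : Ω) = φ y := by
  have hF : Algebra.IsAlgebraic F Ω := IsAlgClosure.isAlgebraic
  have hK : Algebra.IsAlgebraic K Ω := Algebra.IsAlgebraic.tower_top (K := F) K
  let a : Algebra K ℂ := φ.toAlgebra
  let τ : Ω →ₐ[K] ℂ := IsAlgClosed.lift
  exact ⟨τ.toRingHom, fun y => τ.commutes y⟩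

theorem field_disc (X : Core F s n G) (hn : 0 < n) (M : ℕ) (α : Fin s → 𝓞 F)
    (hfull : Full Ω X M α) :
    ∃ C : ℝ, 0 < C ∧ ∀ H : ℝ, 1 ≤ H → ∀ h ∈ Homs Ω X M α H,
      ∃ (K : IntermediateField F Ω) (_ : NumberField K) (e : (K →ₐ[F] Ω) ≃ Fin n),
        Module.finrank F K = n ∧
        (∀ (σ : Ω ≃ₐ[F] Ω) (φ : K →ₐ[F] Ω), e (σ.toAlgHom.comp φ) = X.π (h σ) (e φ)) ∧
        |(NumberField.discr K : ℝ)| ≤ C * H ^ (Module.finrank ℚ F * (2 * ∑ j, X.c j)) := by
  classical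
  obtain ⟨J, hJ⟩ := exists_J (Ω := Ω) X.N_pos X.I
  have hM0 : 0 < X.N ^ J := pow_pos X.N_pos J
  choose m1 hm1 hm1' using fun i j => exists_M1 (Ω := Ω) X.N_pos (X.W i j) (X.N ^ J) hM0
  obtain ⟨Cs, hCs, hsize⟩ := size_le (Ω := Ω) X.I
  choose cp hcp hcp' using fun i j => poly_le (Ω := Ω) (X.W_hom i j)
  obtain ⟨C', hC', hdisc⟩ := Pool.Agent.H35.AN.discr_le_rel F n
  let M1 : ℕ := ∏ i, ∏ j, m1 i j
  have hM1 : 0 < M1 := Finset.prod_pos fun i _ => Finset.prod_pos fun j _ => hm1 i j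
  have hdvd : ∀ i j, m1 i j ∣ M1 := fun i j =>
    (Finset.dvd_prod_of_mem (fun j => m1 i j) (Finset.mem_univ j)).trans
      (Finset.dvd_prod_of_mem (fun i => ∏ j, m1 i j) (Finset.mem_univ i))
  let Cp : ℝ := 1 + ∑ i, ∑ j, cp i j
  have hCp0 : 0 < Cp := by
    have : 0 ≤ ∑ i, ∑ j, cp i j :=
      Finset.sum_nonneg fun i _ => Finset.sum_nonneg fun j _ => (hcp i j).le
    simp only [Cp]; linarith
  have hCp : ∀ i j, cp i j ≤ Cp := by
    intro i j
    have h1 : cp i j ≤ ∑ j, cp i j :=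
      Finset.single_le_sum (f := fun j => cp i j) (fun j _ => (hcp i j).le) (Finset.mem_univ j)
    have h2 : ∑ j, cp i j ≤ ∑ i, ∑ j, cp i j :=
      Finset.single_le_sum (f := fun i => ∑ j, cp i j)
        (fun i _ => Finset.sum_nonneg fun j _ => (hcp i j).le) (Finset.mem_univ i)
    simp only [Cp]; linarith
  refine ⟨C' * (((M1 : ℝ) * Cp) ^ n * Cs ^ (∑ j, X.c j)) ^ (2 * Module.finrank ℚ F),
    by positivity, ?_⟩
  intro H hH h hh
  obtain ⟨hsurj, u, hu, x, hx, htw⟩ := hh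
  have hdet := (hfull u (fun i => (hu i).1) x hx).1
  obtain ⟨K, e, w, hfin, hrank, hli, hcomp, hval⟩ := exists_field X hn hsurj htw hdet
  have hNF : NumberField K := NumberField.of_module_finite F K
  refine ⟨K, hNF, e, hrank, hcomp, ?_⟩
  -- the coordinates of `x`
  have hfv : ∀ (τ : Ω →+* ℂ) i, ‖τ (X.I.fv (iO F Ω X.N) x i)‖ ≤ H ^ X.I.d i := by
    intro τ i
    rw [hx]
    exact (hu i).2 (τ.comp (algebraMap F Ω))
  have hint : ∀ j, IsIntegral ℤ ((X.N : Ω) ^ J * x j) := by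
    refine hJ x fun i => ?_
    rw [hx]
    exact ((u i).isIntegral_coe).map (algebraMap F Ω).toIntAlgHom
  have hint' : ∀ j, IsIntegral ℤ (((X.N ^ J : ℕ) : Ω) * x j) := by
    intro j
    have := hint j
    push_cast
    exact this
  have hWint : ∀ i j, IsIntegral ℤ ((M1 : Ω) * eval₂ (iO F Ω X.N) x (X.W i j)) := by
    intro i j
    obtain ⟨t, ht⟩ := hdvd i j
    have h1 : (M1 : Ω) * eval₂ (iO F Ω X.N) x (X.W i j) =
        (t : Ω) * ((m1 i j : Ω) * eval₂ (iO F Ω X.N) x (X.W i j)) := by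
      rw [ht]; push_cast; ring
    rw [h1]
    refine IsIntegral.mul ?_ (hm1' i j x hint')
    simpa using (isIntegral_algebraMap (R := ℤ) (A := Ω) (x := (t : ℤ)))
  have hWle : ∀ (τ : Ω →+* ℂ) i j, ‖τ (eval₂ (iO F Ω X.N) x (X.W i j))‖ ≤
      Cp * (Cs * H) ^ X.c j := by
    intro τ i j
    have h0 : 0 ≤ Cs * H := by positivity
    refine (hcp' i j τ (Cs * H) h0 x (hsize τ H (by linarith) x (hfv τ))).trans ?_
    exact mul_le_mul_of_nonneg_right (hCp i j) (by positivity)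
  let ω : Fin n → K := fun j => (M1 : K) * w j
  have hωval : ∀ j, ((ω j : K) : Ω) = (M1 : Ω) * eval₂ (iO F Ω X.N) x (X.W (e K.val) j) := by
    intro j
    have h1 : ((w j : K) : Ω) = K.val (w j) := rfl
    simp only [ω]
    push_cast
    rw [h1, hval]
  have hωint : ∀ j, IsIntegral ℤ (ω j) := by
    intro j
    have h1 : IsIntegral ℤ (algebraMap K Ω (ω j)) := by
      have h2 : algebraMap K Ω (ω j) = ((ω j : K) : Ω) := rfl
      rw [h2, hωval]
      exact hWint _ _
    exact (isIntegral_algebraMap_iff (algebraMap K Ω).injective).mp h1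
  have hωli : LinearIndependent F ω := by
    have hne : (M1 : F) ≠ 0 := by exact_mod_cast hM1.ne'
    have h1 := hli.units_smul (fun _ => Units.mk0 (M1 : F) hne)
    have h2 : ω = (fun _ : Fin n => Units.mk0 (M1 : F) hne) • w := by
      funext j
      simp only [ω, Pi.smul_apply', Units.smul_mk0, Algebra.smul_def]
      simp
    rw [h2]
    exact h1
  have hB : ∀ (φ : K →+* ℂ) j, ‖φ (ω j)‖ ≤ (M1 : ℝ) * Cp * (Cs * H) ^ X.c j := by
    intro φ j
    obtain ⟨τ, hτ⟩ := rgd2_extend K φ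
    rw [← hτ, hωval, map_mul, norm_mul, map_natCast]
    rw [Complex.norm_natCast, mul_assoc]
    exact mul_le_mul_of_nonneg_left (hWle τ _ j) (by positivity)
  refine (hdisc K hrank ω hωint hωli _ hB).trans (le_of_eq ?_)
  rw [Finset.prod_mul_distrib, Finset.prod_const, Finset.card_univ, Fintype.card_fin,
    Finset.prod_pow_eq_pow_sum, mul_pow Cs H]
  ring

end Fields

end Pool.Agent.H13.RG
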