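import Pool.Agent.H41.RG.Dyadic

/-!
# RG-C6: the dyadic count
-/

set_option autoImplicit false

namespace Pool.Agent.H13.RG

open scoped Classical in
theorem dyadic_count {s t : ℕ} (hts : t < s) {c1 C1 C2 L0 : ℝ} (hc1 : 0 < c1) (hC1 : 0 < C1)
    (hC2 : 0 < C2) (hL0 : 0 < L0) : ∃ c : ℝ, 0 < c ∧ ∀ (ι κ : Type) (H : ℝ), 0 < H →
      ∀ (A : Finset ι) (S : Finset κ) (r : ι → κ) (P : κ → ℝ → Prop), (∀ a ∈ A, r a ∈ S) →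
      (∀ L : ℝ, L0 ≤ L → ((S.filter (fun g => P g L)).card : ℝ) ≤ C1 * L ^ s) →
      (∀ g ∈ S, ∀ L : ℝ, L < L0 → ¬ P g L) →
      (∀ g ∈ S, ∀ L : ℝ, 0 < L → L ≤ H → ¬ P g L →
        ((A.filter (fun a => r a = g)).card : ℝ) ≤ C2 * (H / L) ^ t) →
      c1 * H ^ s ≤ (A.card : ℝ) → c * H ^ s ≤ (S.card : ℝ) := by
  obtain ⟨c, hc, h⟩ := Pool.Agent.H41.RG.dyadic_count s t hts c1 C1 C2 L0 hc1 hC1 hC2 hL0
  exact ⟨c, hc, fun ι κ H hH A S r P h1 h2 h3 h4 h5 => h H hH ι κ A S r h1 P h2 h3 h4 h5⟩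

end Pool.Agent.H13.RG
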