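import Mathlib
import Pool.Agent.H13.RG.Defs

/-!
# Project RG (MP_a3214d), C3: the norm `nrm ext`
-/

set_option autoImplicit false
set_option linter.unusedSectionVars false
set_option linter.style.haveILetI false

open MvPolynomial NumberField

namespace Pool.Agent.H13.RG

/-- Two embeddings of `Ω` with the same restriction to `F` differ by an automorphism. -/
theorem rgc3_exists_aut {F : Type} [Field F] {Ω : Type} [Field Ω] [Algebra F Ω]
    [IsAlgClosure F Ω] (e τ : Ω →+* ℂ) (h : e.comp (algebraMap F Ω) = τ.comp (algebraMap F Ω)) :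
    ∃ σ : Ω ≃ₐ[F] Ω, ∀ z, τ z = e (σ z) := by
  letI i1 : Algebra F ℂ := (e.comp (algebraMap F Ω)).toAlgebra
  letI i2 : Algebra Ω ℂ := e.toAlgebra
  haveI i3 : IsScalarTower F Ω ℂ := IsScalarTower.of_algebraMap_eq (fun x => rfl)
  haveI i4 : Normal F Ω := IsAlgClosure.normal F Ω
  let φ : Ω →ₐ[F] ℂ := { τ with commutes' := fun r => (RingHom.congr_fun h r).symm }
  refine ⟨φ.restrictNormal' Ω, fun z => ?_⟩
  exact (AlgHom.restrictNormal_commutes φ Ω z).symm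

/-- A bound for the action, uniform in the embedding. -/
theorem rgc3_act_le {F : Type} [Field F] [NumberField F] {Ω : Type} [Field Ω] [Algebra F Ω]
    {N s : ℕ} {G : Type} [Group G] [Fintype G] (I : Inv (RN F N) s G) :
    ∃ C : ℝ, 0 < C ∧ ∀ (τ : Ω →+* ℂ) (L : ℝ), 0 ≤ L → ∀ (g : G) (x : Fin s → Ω),
      (∀ j, ‖τ (x j)‖ ≤ L) → ∀ j, ‖τ (I.act (iO F Ω N) g x j)‖ ≤ C * L := by
  classical
  refine ⟨1 + ∑ v : F →+* ℂ, ∑ g : G, ∑ i, ∑ j, ‖v ((I.ρ g i j : RN F N) : F)‖, ?_, ?_⟩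
  · have : 0 ≤ ∑ v : F →+* ℂ, ∑ g : G, ∑ i, ∑ j, ‖v ((I.ρ g i j : RN F N) : F)‖ := by positivity
    linarith
  · intro τ L hL g x hx i
    have h1 : τ (I.act (iO F Ω N) g x i) =
        ∑ j, (τ.comp (algebraMap F Ω)) ((I.ρ g i j : RN F N) : F) * τ (x j) := by
      simp only [Inv.act, Matrix.mulVec, dotProduct, map_sum, map_mul, Matrix.map_apply]
      rfl
    have h2 : ∑ j, ‖(τ.comp (algebraMap F Ω)) ((I.ρ g i j : RN F N) : F)‖ ≤
        ∑ v : F →+* ℂ, ∑ g : G, ∑ i, ∑ j, ‖v ((I.ρ g i j : RN F N) : F)‖ := by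
      refine le_trans ?_ (Finset.single_le_sum (f := fun v : F →+* ℂ =>
        ∑ g : G, ∑ i, ∑ j, ‖v ((I.ρ g i j : RN F N) : F)‖) (fun v _ => by positivity)
        (Finset.mem_univ (τ.comp (algebraMap F Ω))))
      refine le_trans ?_ (Finset.single_le_sum (f := fun g : G =>
        ∑ i, ∑ j, ‖(τ.comp (algebraMap F Ω)) ((I.ρ g i j : RN F N) : F)‖)
        (fun v _ => by positivity) (Finset.mem_univ g))
      exact Finset.single_le_sum (f := fun i =>
        ∑ j, ‖(τ.comp (algebraMap F Ω)) ((I.ρ g i j : RN F N) : F)‖)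
        (fun v _ => by positivity) (Finset.mem_univ i)
    rw [h1]
    calc ‖∑ j, (τ.comp (algebraMap F Ω)) ((I.ρ g i j : RN F N) : F) * τ (x j)‖
        ≤ ∑ j, ‖(τ.comp (algebraMap F Ω)) ((I.ρ g i j : RN F N) : F) * τ (x j)‖ :=
          norm_sum_le _ _
      _ ≤ ∑ j, ‖(τ.comp (algebraMap F Ω)) ((I.ρ g i j : RN F N) : F)‖ * L := by
          refine Finset.sum_le_sum fun j _ => ?_
          rw [norm_mul]
          exact mul_le_mul_of_nonneg_left (hx j) (norm_nonneg _)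
      _ = (∑ j, ‖(τ.comp (algebraMap F Ω)) ((I.ρ g i j : RN F N) : F)‖) * L := by
          rw [Finset.sum_mul]
      _ ≤ (1 + ∑ v : F →+* ℂ, ∑ g : G, ∑ i, ∑ j, ‖v ((I.ρ g i j : RN F N) : F)‖) * L := by
          refine mul_le_mul_of_nonneg_right ?_ hL
          linarith

/-- A non-zero algebraic integer of an algebraic extension of a number field has an absolute
value at least one. -/
theorem rgc3_exists_one_le (F : Type) [Field F] [NumberField F] {Ω : Type} [Field Ω]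
    [Algebra F Ω] [IsAlgClosure F Ω] {z : Ω} (hz : IsIntegral ℤ z) (hz0 : z ≠ 0) :
    ∃ τ : Ω →+* ℂ, 1 ≤ ‖τ z‖ := by
  haveI : CharZero Ω := charZero_of_injective_algebraMap (algebraMap F Ω).injective
  haveI : Algebra.IsAlgebraic F Ω := IsAlgClosure.isAlgebraic
  haveI : Algebra.IsAlgebraic ℚ Ω := Algebra.IsAlgebraic.trans ℚ F Ω
  have hzQ : IsIntegral ℚ z := hz.tower_top
  let K := IntermediateField.adjoin ℚ {z}
  haveI : FiniteDimensional ℚ K := IntermediateField.adjoin.finiteDimensional hzQ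
  haveI : NumberField K := ⟨⟩
  let w : K := ⟨z, IntermediateField.mem_adjoin_simple_self ℚ z⟩
  have hw : IsIntegral ℤ w := by
    have : IsIntegral ℤ (algebraMap K Ω w) := hz
    exact (isIntegral_algebraMap_iff (algebraMap K Ω).injective).mp this
  have hw0 : (⟨w, hw⟩ : 𝓞 K) ≠ 0 := by
    intro h
    apply hz0
    have : (w : Ω) = 0 := by
      have h2 : (w : K) = 0 := congrArg (fun t : 𝓞 K => (t : K)) h
      rw [h2]; rfl
    exact this
  obtain ⟨σ, hσ⟩ := exists_conjugate_one_le_norm hw0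
  letI : Algebra K ℂ := σ.toAlgebra
  haveI : Algebra.IsAlgebraic K Ω := Algebra.IsAlgebraic.tower_top (K := ℚ) K
  let τ : Ω →ₐ[K] ℂ := IsAlgClosed.lift
  refine ⟨τ, ?_⟩
  have : (τ : Ω →+* ℂ) z = σ w := τ.commutes w
  rw [this]
  exact hσ

section Lattice

variable {F : Type} [Field F] [NumberField F] {Ω : Type} [Field Ω] [Algebra F Ω]
  [IsAlgClosure F Ω] {s n : ℕ} {G : Type} [Group G] [Fintype G]

theorem exists_ext (F Ω : Type) [Field F] [NumberField F] [Field Ω] [Algebra F Ω]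
    [IsAlgClosure F Ω] : ∃ ext : (F →+* ℂ) → (Ω →+* ℂ), IsExt ext := by
  have h : ∀ v : F →+* ℂ, ∃ e : Ω →+* ℂ, e.comp (algebraMap F Ω) = v := by
    intro v
    letI : Algebra F ℂ := v.toAlgebra
    haveI : Algebra.IsAlgebraic F Ω := IsAlgClosure.isAlgebraic
    let τ : Ω →ₐ[F] ℂ := IsAlgClosed.lift
    exact ⟨τ, RingHom.ext fun a => τ.commutes a⟩
  choose ext hext using h
  exact ⟨ext, hext⟩

theorem nrm_le_iff (ext : (F →+* ℂ) → (Ω →+* ℂ)) (x : Fin s → Ω) {L : ℝ} (hL : 0 ≤ L) :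
    nrm ext x ≤ L ↔ ∀ v j, ‖ext v (x j)‖ ≤ L := by
  unfold nrm
  rw [pi_norm_le_iff_of_nonneg hL]
  exact ⟨fun h v j => h (v, j), fun h p => h p.1 p.2⟩

theorem nrm_sub (ext : (F →+* ℂ) → (Ω →+* ℂ)) (x y : Fin s → Ω) :
    nrm ext (x - y) ≤ nrm ext x + nrm ext y := by
  unfold nrm
  have h : (fun (p : (F →+* ℂ) × Fin s) => ext p.1 ((x - y) p.2)) =
      (fun (p : (F →+* ℂ) × Fin s) => ext p.1 (x p.2)) -
        (fun (p : (F →+* ℂ) × Fin s) => ext p.1 (y p.2)) := by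
    ext p
    simp
  rw [h]
  exact norm_sub_le _ _

theorem nrm_nsmul (ext : (F →+* ℂ) → (Ω →+* ℂ)) (N : ℕ) (x : Fin s → Ω) :
    nrm ext (N • x) = N * nrm ext x := by
  unfold nrm
  have h : (fun (p : (F →+* ℂ) × Fin s) => ext p.1 ((N • x) p.2)) =
      (N : ℂ) • (fun (p : (F →+* ℂ) × Fin s) => ext p.1 (x p.2)) := by
    ext p
    simp
  rw [h, norm_smul, Complex.norm_natCast]

/-- all embeddings of `Ω` are controlled by the chosen ones on twisted points -/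
theorem all_le (X : Core F s n G) : ∃ C : ℝ, 0 < C ∧
    ∀ (ext : (F →+* ℂ) → (Ω →+* ℂ)), IsExt ext → ∀ (h : (Ω ≃ₐ[F] Ω) →* G) (x : Fin s → Ω),
      Twisted X h x → ∀ L : ℝ, nrm ext x ≤ L → ∀ (τ : Ω →+* ℂ) j, ‖τ (x j)‖ ≤ C * L := by
  obtain ⟨C, hC, hCle⟩ := rgc3_act_le (Ω := Ω) X.I
  refine ⟨C, hC, fun ext hext h x hx L hxL τ j => ?_⟩
  have hL : 0 ≤ L := (norm_nonneg _).trans hxL
  obtain ⟨σ, hσ⟩ := rgc3_exists_aut (F := F) (ext (τ.comp (algebraMap F Ω))) τ (hext _)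
  rw [hσ]
  have h1 : σ (x j) = X.I.act (iO F Ω X.N) (h σ)⁻¹ x j := congrFun (hx σ) j
  rw [h1]
  exact hCle _ L hL _ x (fun i => (nrm_le_iff ext x hL).mp hxL _ i) j

/-- non-zero lattice points are not short -/
theorem min_le (X : Core F s n G) {M0 : ℕ} (hM0 : 0 < M0) : ∃ L0 : ℝ, 0 < L0 ∧
    ∀ (ext : (F →+* ℂ) → (Ω →+* ℂ)), IsExt ext → ∀ (h : (Ω ≃ₐ[F] Ω) →* G) (x : Fin s → Ω),
      x ∈ Lat X M0 h → x ≠ 0 → L0 ≤ nrm ext x := by
  obtain ⟨C, hC, hCle⟩ := all_le (Ω := Ω) X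
  have hM0' : (0 : ℝ) < M0 := Nat.cast_pos.mpr hM0
  refine ⟨1 / (M0 * C), by positivity, fun ext hext h x hx hx0 => ?_⟩
  haveI : CharZero Ω := charZero_of_injective_algebraMap (algebraMap F Ω).injective
  obtain ⟨j, hj⟩ : ∃ j, x j ≠ 0 := by
    by_contra hne
    push Not at hne
    exact hx0 (funext hne)
  have hz0 : (M0 : Ω) * x j ≠ 0 := mul_ne_zero (Nat.cast_ne_zero.mpr hM0.ne') hj
  obtain ⟨τ, hτ⟩ := rgc3_exists_one_le F (hx.1 j) hz0
  have h1 := hCle ext hext h x hx.2 _ le_rfl τ j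
  rw [map_mul, map_natCast, norm_mul, Complex.norm_natCast] at hτ
  rw [div_le_iff₀ (by positivity)]
  calc (1 : ℝ) ≤ M0 * ‖τ (x j)‖ := hτ
    _ ≤ M0 * (C * nrm ext x) := mul_le_mul_of_nonneg_left h1 hM0'.le
    _ = nrm ext x * (M0 * C) := by ring

end Lattice

end Pool.Agent.H13.RG
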