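import Pool.Agent.H13.RG.Defs

/-!
# Project RG (MP_a3214d), RG-C1: non-zero twisted points are regular
-/

set_option autoImplicit false

open MvPolynomial NumberField

namespace Pool.Agent.H13.RG

section Act

variable {R : Type} [CommRing R] {s : ℕ} {G : Type} [Group G] [Fintype G] (I : Inv R s G)
  {D : Type} [CommRing D] {E : Type} [CommRing E]

theorem rgc1_act_apply (φ : R →+* D) (g : G) (x : Fin s → D) (i : Fin s) :
    I.act φ g x i = ∑ j, φ (I.ρ g i j) * x j := rfl

theorem rgc1_act_one (φ : R →+* D) (x : Fin s → D) : I.act φ 1 x = x := by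
  unfold Inv.act
  rw [map_one, Matrix.map_one φ (map_zero φ) (map_one φ), Matrix.one_mulVec]

theorem rgc1_act_mul (φ : R →+* D) (g h : G) (x : Fin s → D) :
    I.act φ (g * h) x = I.act φ g (I.act φ h x) := by
  unfold Inv.act
  rw [map_mul, Matrix.map_mul, Matrix.mulVec_mulVec]

end Act

section Reg

variable {F : Type} [Field F] {Ω : Type} [Field Ω] [Algebra F Ω] {s n : ℕ} {G : Type} [Group G]
  [Fintype G]

/-- Automorphisms commute with the action. -/
theorem rgc1_alg (X : Core F s n G) (σ : Ω ≃ₐ[F] Ω) (g : G) (x : Fin s → Ω) :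
    (fun i => σ (X.I.act (iO F Ω X.N) g x i)) =
      X.I.act (iO F Ω X.N) g (fun i => σ (x i)) := by
  funext i
  rw [rgc1_act_apply, rgc1_act_apply, map_sum]
  refine Finset.sum_congr rfl fun j _ => ?_
  rw [map_mul]
  congr 1
  exact σ.commutes _

/-- Linear functionals commute with the action. -/
theorem rgc1_dual (X : Core F s n G) (l : Ω →ₗ[F] F) (g : G) (x : Fin s → Ω) :
    (fun i => l (X.I.act (iO F Ω X.N) g x i)) =
      X.I.act (RN F X.N).subtype g (fun i => l (x i)) := by
  funext i
  rw [rgc1_act_apply, rgc1_act_apply, map_sum]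
  refine Finset.sum_congr rfl fun j _ => ?_
  have h : iO F Ω X.N (X.I.ρ g i j) * x j = ((X.I.ρ g i j : RN F X.N) : F) • x j := by
    rw [Algebra.smul_def]
    rfl
  rw [h, map_smul, smul_eq_mul]
  rfl

/-- The stabilizer of a twisted point is normal. -/
theorem rgc1_normal (X : Core F s n G) {h : (Ω ≃ₐ[F] Ω) →* G} (hh : Function.Surjective h)
    {x : Fin s → Ω} (hx : Twisted X h x) {a : G} (ha : X.I.act (iO F Ω X.N) a x = x) (b : G) :
    X.I.act (iO F Ω X.N) (b * a * b⁻¹) x = x := by
  obtain ⟨σ, hσ⟩ := hh b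
  have h1 : (fun i => σ (X.I.act (iO F Ω X.N) a x i)) = fun i => σ (x i) := by
    rw [ha]
  rw [rgc1_alg, hx σ, hσ, ← rgc1_act_mul] at h1
  rw [mul_assoc, rgc1_act_mul, h1, ← rgc1_act_mul, mul_inv_cancel, rgc1_act_one]

theorem regular (X : Core F s n G) {h : (Ω ≃ₐ[F] Ω) →* G} (hh : Function.Surjective h)
    {x : Fin s → Ω} (hx : Twisted X h x) (hx0 : x ≠ 0) (g : G)
    (hg : X.I.act (iO F Ω X.N) g x = x) : g = 1 := by
  let U : Submodule F (Fin s → F) :=
    { carrier := {v | ∀ a : G, X.I.act (iO F Ω X.N) a x = x → X.I.act (RN F X.N).subtype a v = v}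
      add_mem' := by
        intro v w hv hw a ha
        have e : X.I.act (RN F X.N).subtype a (v + w) =
            X.I.act (RN F X.N).subtype a v + X.I.act (RN F X.N).subtype a w := by
          unfold Inv.act
          rw [Matrix.mulVec_add]
        rw [e, hv a ha, hw a ha]
      zero_mem' := by
        intro a _
        unfold Inv.act
        rw [Matrix.mulVec_zero]
      smul_mem' := by
        intro c v hv a ha
        have e : X.I.act (RN F X.N).subtype a (c • v) =
            c • X.I.act (RN F X.N).subtype a v := by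
          unfold Inv.act
          rw [Matrix.mulVec_smul]
        rw [e, hv a ha] }
  have hU : ∀ b, ∀ v ∈ U, X.I.act (RN F X.N).subtype b v ∈ U := by
    intro b v hv a ha
    have h1 := rgc1_normal X hh hx ha b⁻¹
    rw [inv_inv] at h1
    have h2 := hv _ h1
    have h3 : a * b = b * (b⁻¹ * a * b) := by group
    rw [← rgc1_act_mul, h3, rgc1_act_mul, h2]
  rcases X.irred U hU with hbot | htop
  · exfalso
    apply hx0
    funext i
    rw [Pi.zero_apply, ← Module.forall_dual_apply_eq_zero_iff F (x i)]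
    intro l
    have hmem : (fun i => l (x i)) ∈ U := by
      intro a ha
      rw [← rgc1_dual, ha]
    rw [hbot, Submodule.mem_bot] at hmem
    exact congrFun hmem i
  · apply X.faithful
    ext i j
    have hmem : (Pi.single j (1 : F) : Fin s → F) ∈ U := by
      rw [htop]
      exact Submodule.mem_top
    have h1 := congrFun (hmem g hg) i
    rw [rgc1_act_apply] at h1
    have h2 : ∑ k, (RN F X.N).subtype (X.I.ρ g i k) * (Pi.single j (1 : F) : Fin s → F) k =
        (RN F X.N).subtype (X.I.ρ g i j) := by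
      rw [Finset.sum_eq_single j]
      · rw [Pi.single_eq_same, mul_one]
      · intro k _ hk
        rw [Pi.single_eq_of_ne hk, mul_zero]
      · intro hj
        exact absurd (Finset.mem_univ j) hj
    rw [h2] at h1
    have h3 : ((X.I.ρ g i j : RN F X.N) : F) = (Pi.single j (1 : F) : Fin s → F) i := h1
    rw [h3, Matrix.one_apply]
    by_cases hij : i = j
    · subst hij
      simp
    · rw [if_neg hij, Pi.single_eq_of_ne hij]
      rfl

/-- `h` is determined by any non-zero point -/
theorem hom_unique (X : Core F s n G) {h h' : (Ω ≃ₐ[F] Ω) →* G} (hh : Function.Surjective h)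
    {x : Fin s → Ω} (hx : Twisted X h x) (hx' : Twisted X h' x) (hx0 : x ≠ 0) : h = h' := by
  ext σ
  have h1 : X.I.act (iO F Ω X.N) (h σ)⁻¹ x = X.I.act (iO F Ω X.N) (h' σ)⁻¹ x := by
    rw [← hx σ, ← hx' σ]
  have h2 : X.I.act (iO F Ω X.N) (h' σ * (h σ)⁻¹) x = x := by
    rw [rgc1_act_mul, h1, ← rgc1_act_mul, mul_inv_cancel, rgc1_act_one]
  have h3 := regular X hh hx hx0 _ h2
  exact (mul_inv_eq_one.mp h3).symm

end Reg

end Pool.Agent.H13.RG
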