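import Pool.Agent.H13.RG.Basic
import Pool.Agent.H13.RG.Size
import Pool.Agent.H13.RG.Integ
import Pool.Agent.H13.RG.Regular
import Pool.Agent.H13.RG.Norm
import Pool.Agent.H41.RG.Boxes

/-!
# Project RG (MP_a3214d): few homomorphisms with a short vector
-/

set_option autoImplicit false

open MvPolynomial NumberField

namespace Pool.Agent.H13.RG

section Few

variable {F : Type} [Field F] [NumberField F] {Ω : Type} [Field Ω] [Algebra F Ω]
  [IsAlgClosure F Ω] {s n : ℕ} {G : Type} [Group G] [Fintype G]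

/-- The invariants of a twisted point lie in `F`. -/
theorem rgc7_fixed (X : Core F s n G) {h : (Ω ≃ₐ[F] Ω) →* G} {x : Fin s → Ω}
    (hx : Twisted X h x) (i : Fin s) :
    ∃ a : F, algebraMap F Ω a = X.I.fv (iO F Ω X.N) x i := by
  have : Algebra.IsAlgebraic F Ω := IsAlgClosure.isAlgebraic
  have : Algebra.IsSeparable F Ω := Algebra.IsAlgebraic.isSeparable_of_perfectField
  have : Normal F Ω := IsAlgClosure.normal F Ω
  have : IsGalois F Ω := ⟨⟩
  have h1 : X.I.fv (iO F Ω X.N) x i ∈ (⊥ : IntermediateField F Ω) := by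
    rw [InfiniteGalois.mem_bot_iff_fixed]
    intro σ
    have h2 := congrFun (fv_map X.I (iO F Ω X.N) (σ : Ω →+* Ω) x) i
    have h3 : ((σ : Ω →+* Ω).comp (iO F Ω X.N)) = iO F Ω X.N := by
      ext a
      simp [iO]
    rw [h3] at h2
    have h4 : (fun j => (σ : Ω →+* Ω) (x j)) = X.I.act (iO F Ω X.N) (h σ)⁻¹ x := hx σ
    rw [h4, fv_act] at h2
    exact h2
  obtain ⟨a, ha⟩ := IntermediateField.mem_bot.mp h1
  exact ⟨a, ha⟩

theorem few (X : Core F s n G) {M0 : ℕ} (hM0 : 0 < M0) {L0 : ℝ} (hL0 : 0 < L0) :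
    ∃ C : ℝ, 0 < C ∧ ∀ (ext : (F →+* ℂ) → (Ω →+* ℂ)), IsExt ext → ∀ L : ℝ, L0 ≤ L →
      Set.Finite {h : (Ω ≃ₐ[F] Ω) →* G | Function.Surjective h ∧
        ∃ x ∈ Lat X M0 h, x ≠ 0 ∧ nrm ext x ≤ L} ∧
      (Set.ncard {h : (Ω ≃ₐ[F] Ω) →* G | Function.Surjective h ∧
        ∃ x ∈ Lat X M0 h, x ≠ 0 ∧ nrm ext x ≤ L} : ℝ) ≤
        C * L ^ (Module.finrank ℚ F * ∑ i, X.I.d i) := by
  classical
  obtain ⟨C1, hC1, hall⟩ := all_le (Ω := Ω) X
  choose Cp hCp hpol using fun i => poly_le (Ω := Ω) (X.I.hom i)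
  choose M1 hM1 hint using fun i => exists_M1 (Ω := Ω) X.N_pos (X.I.f i) M0 hM0
  set C0 : ℝ := 1 + ∑ i, (M1 i : ℝ) * (Cp i * C1 ^ X.I.d i) with hC0def
  have hterm : ∀ i, 0 ≤ (M1 i : ℝ) * (Cp i * C1 ^ X.I.d i) := fun i => by
    have := hCp i
    positivity
  have hC0 : 0 < C0 := by
    have := Finset.sum_nonneg fun i (_ : i ∈ Finset.univ) => hterm i
    linarith
  have hC0i : ∀ i, (M1 i : ℝ) * (Cp i * C1 ^ X.I.d i) ≤ C0 := fun i => by
    have := Finset.single_le_sum (f := fun i => (M1 i : ℝ) * (Cp i * C1 ^ X.I.d i))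
      (fun i _ => hterm i) (Finset.mem_univ i)
    linarith
  obtain ⟨C, hC, hbox⟩ := Pool.Agent.H41.RG.box_upper F X.I.d hC0
  set m0 : ℝ := min L0 1 with hm0def
  have hm0 : 0 < m0 := lt_min hL0 one_pos
  have hm01 : m0 ≤ 1 := min_le_right _ _
  set E := Module.finrank ℚ F * ∑ i, X.I.d i with hE
  refine ⟨Fintype.card G * (C * m0⁻¹ ^ E), ?_, ?_⟩
  · have : (0 : ℝ) < Fintype.card G := by exact_mod_cast Fintype.card_pos
    positivity
  intro ext hext L hL
  have hLpos : 0 < L := lt_of_lt_of_le hL0 hL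
  set L' : ℝ := m0⁻¹ * L with hL'
  have hL'1 : 1 ≤ L' := by
    rw [hL', ← div_eq_inv_mul, one_le_div hm0]
    exact (min_le_left _ _).trans hL
  have hLL' : L ≤ L' := by
    rw [hL']
    have : 1 ≤ m0⁻¹ := (one_le_inv₀ hm0).mpr hm01
    nlinarith
  set S : Set ((Ω ≃ₐ[F] Ω) →* G) := {h | Function.Surjective h ∧
        ∃ x ∈ Lat X M0 h, x ≠ 0 ∧ nrm ext x ≤ L} with hS
  -- the parameters
  have key : ∀ h : (Ω ≃ₐ[F] Ω) →* G, ∃ (x : Fin s → Ω) (b : Fin s → 𝓞 F), h ∈ S →
      (Twisted X h x ∧ x ≠ 0 ∧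
        (∀ i, algebraMap F Ω (b i : F) = (M1 i : Ω) * X.I.fv (iO F Ω X.N) x i) ∧
        ∀ i, ∀ v : F →+* ℂ, ‖v (b i : F)‖ ≤ C0 * L' ^ X.I.d i) := by
    intro h
    by_cases hh : h ∈ S
    · obtain ⟨_, x, ⟨hxi, hxt⟩, hx0, hxn⟩ := hh
      choose a ha using fun i => rgc7_fixed X hxt i
      have hb : ∀ i, IsIntegral ℤ ((M1 i : F) * a i) := by
        intro i
        have h1 := hint i x hxi
        have h2 : (M1 i : Ω) * eval₂ (iO F Ω X.N) x (X.I.f i) =
            algebraMap F Ω ((M1 i : F) * a i) := by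
          rw [map_mul, map_natCast, ha i]
          rfl
        rw [h2] at h1
        exact (isIntegral_algebraMap_iff (algebraMap F Ω).injective).mp h1
      refine ⟨x, fun i => ⟨(M1 i : F) * a i, hb i⟩, fun _ => ⟨hxt, hx0, ?_, ?_⟩⟩
      · intro i
        show algebraMap F Ω ((M1 i : F) * a i) = _
        rw [map_mul, map_natCast, ha i]
      · intro i v
        show ‖v ((M1 i : F) * a i)‖ ≤ _
        have h3 : v ((M1 i : F) * a i) =
            (M1 i : ℂ) * ext v (eval₂ (iO F Ω X.N) x (X.I.f i)) := by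
          have h4 : v (a i) = ext v (algebraMap F Ω (a i)) := by
            conv_lhs => rw [← hext v]
            rfl
          rw [map_mul, map_natCast, h4, ha i]
          rfl
        rw [h3, norm_mul, Complex.norm_natCast]
        have h5 := hpol i (ext v) (C1 * L) (by positivity) x
          (fun j => hall ext hext h x hxt L hxn (ext v) j)
        calc (M1 i : ℝ) * ‖ext v (eval₂ (iO F Ω X.N) x (X.I.f i))‖
            ≤ (M1 i : ℝ) * (Cp i * (C1 * L) ^ X.I.d i) := by gcongr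
          _ = ((M1 i : ℝ) * (Cp i * C1 ^ X.I.d i)) * L ^ X.I.d i := by rw [mul_pow]; ring
          _ ≤ C0 * L' ^ X.I.d i := by
            have := hC0i i
            gcongr
    · exact ⟨0, 0, fun h' => absurd h' hh⟩
  choose x b hxb using key
  have hfin : ∀ T : Finset ((Ω ≃ₐ[F] Ω) →* G), (T : Set ((Ω ≃ₐ[F] Ω) →* G)) ⊆ S →
      (T.card : ℝ) ≤ Fintype.card G * (C * m0⁻¹ ^ E) * L ^ E := by
    intro T hT
    have h1 : T.card ≤ Fintype.card G * (T.image b).card := by
      apply Finset.card_le_mul_card_image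
      intro u hu
      obtain ⟨h0, hh0, rfl⟩ := Finset.mem_image.mp hu
      have hT0 := hxb h0 (hT hh0)
      have horb : ∀ h : (Ω ≃ₐ[F] Ω) →* G, ∃ g : G, h ∈ T → b h = b h0 →
          x h = X.I.act (iO F Ω X.N) g (x h0) := by
        intro h
        by_cases hc : h ∈ T ∧ b h = b h0
        · have hTh := hxb h (hT hc.1)
          have h2 : X.I.fv (iO F Ω X.N) (x h0) = X.I.fv (iO F Ω X.N) (x h) := by
            funext i
            have h3 := hTh.2.2.1 i
            have h4 := hT0.2.2.1 i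
            rw [hc.2, h4] at h3
            have : CharZero Ω := charZero_of_injective_algebraMap (algebraMap F Ω).injective
            have h5 : (M1 i : Ω) ≠ 0 := by
              exact_mod_cast (hM1 i).ne'
            exact mul_left_cancel₀ h5 h3
          obtain ⟨g, hg⟩ := orbit X.I (iO F Ω X.N) (x h0) (x h) h2
          exact ⟨g, fun _ _ => hg⟩
        · exact ⟨1, fun h2 h3 => absurd ⟨h2, h3⟩ hc⟩
      choose g hg using horb
      refine Finset.card_le_card_of_injOn g (fun _ _ => Finset.mem_coe.mpr (Finset.mem_univ _)) ?_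
      intro h hh h' hh' hgg
      simp only [Finset.coe_filter, Set.mem_ofPred_eq] at hh hh'
      have e1 := hg h hh.1 hh.2
      have e2 := hg h' hh'.1 hh'.2
      rw [hgg, ← e2] at e1
      have p1 := hxb h (hT hh.1)
      have p2 := hxb h' (hT hh'.1)
      refine hom_unique X (hT hh.1).1 p1.1 ?_ p1.2.1
      rw [e1]
      exact p2.1
    have h2 : ((T.image b).card : ℝ) ≤ C * L' ^ E := by
      apply hbox L' hL'1
      intro u hu i v
      obtain ⟨h, hh, rfl⟩ := Finset.mem_image.mp hu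
      exact (hxb h (hT hh)).2.2.2 i v
    calc (T.card : ℝ) ≤ ((Fintype.card G * (T.image b).card : ℕ) : ℝ) := by exact_mod_cast h1
      _ = Fintype.card G * ((T.image b).card : ℝ) := by push_cast; ring
      _ ≤ Fintype.card G * (C * L' ^ E) := by gcongr
      _ = Fintype.card G * (C * m0⁻¹ ^ E) * L ^ E := by rw [hL', mul_pow]; ring
  have hfinite : S.Finite := by
    by_contra hinf
    obtain ⟨T, hT, hc⟩ := Set.Infinite.exists_subset_card_eq hinf
      (⌈(Fintype.card G : ℝ) * (C * m0⁻¹ ^ E) * L ^ E⌉₊ + 1)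
    have h1 := hfin T hT
    rw [hc] at h1
    have h2 := Nat.le_ceil ((Fintype.card G : ℝ) * (C * m0⁻¹ ^ E) * L ^ E)
    push_cast at h1
    linarith
  refine ⟨hfinite, ?_⟩
  rw [Set.ncard_eq_toFinset_card S hfinite]
  exact hfin _ (by simp)

end Few

end Pool.Agent.H13.RG
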