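import Pool.Agent.H13.RG.Defs

/-!
# Project RG (MP_a3214d), RG-C2: descent, the rank is at most `s m`
-/

set_option autoImplicit false

open MvPolynomial NumberField IsDedekindDomain

namespace Pool.Agent.H13.RG

section

variable {F : Type} [Field F] {Ω : Type} [Field Ω] [Algebra F Ω] {s n : ℕ} {G : Type} [Group G]
  [Fintype G]

theorem rgc2_act_add (X : Core F s n G) (g : G) (x y : Fin s → Ω) :
    X.I.act (iO F Ω X.N) g (x + y) = X.I.act (iO F Ω X.N) g x + X.I.act (iO F Ω X.N) g y :=
  Matrix.mulVec_add _ _ _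

theorem rgc2_act_smul (X : Core F s n G) (g : G) (a : Ω) (x : Fin s → Ω) :
    X.I.act (iO F Ω X.N) g (a • x) = a • X.I.act (iO F Ω X.N) g x :=
  Matrix.mulVec_smul _ _ _

theorem rgc2_act_sum (X : Core F s n G) (g : G) {ι : Type} (t : Finset ι) (x : ι → Fin s → Ω) :
    X.I.act (iO F Ω X.N) g (∑ i ∈ t, x i) = ∑ i ∈ t, X.I.act (iO F Ω X.N) g (x i) :=
  map_sum (Matrix.mulVecLin ((X.I.ρ g).map (iO F Ω X.N))) _ _

theorem rgc2_act_inv (X : Core F s n G) (g : G) (x : Fin s → Ω) :
    X.I.act (iO F Ω X.N) g (X.I.act (iO F Ω X.N) g⁻¹ x) = x := by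
  unfold Inv.act
  rw [Matrix.mulVec_mulVec, ← Matrix.map_mul, ← map_mul, mul_inv_cancel, map_one,
    Matrix.map_one _ (map_zero _) (map_one _), Matrix.one_mulVec]

/-- the twisted points, a space over `F` -/
def rgc2_V (X : Core F s n G) (h : (Ω ≃ₐ[F] Ω) →* G) : Submodule F (Fin s → Ω) where
  carrier := {x | Twisted X h x}
  add_mem' := by
    intro x y hx hy σ
    have h1 : (fun i => σ ((x + y) i)) = (fun i => σ (x i)) + (fun i => σ (y i)) := by
      ext i
      simp
    rw [h1, hx σ, hy σ, rgc2_act_add]
  zero_mem' := by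
    intro σ
    have h1 := rgc2_act_smul X (h σ)⁻¹ (0 : Ω) (0 : Fin s → Ω)
    rw [zero_smul, zero_smul] at h1
    rw [h1]
    ext i
    simp
  smul_mem' := by
    intro a x hx σ
    have h1 : (fun i => σ ((a • x) i)) = (algebraMap F Ω a) • (fun i => σ (x i)) := by
      ext i
      simp [Algebra.smul_def]
    have h2 : a • x = (algebraMap F Ω a) • x := by
      ext i
      simp [Algebra.smul_def]
    rw [h1, h2, hx σ, rgc2_act_smul]

theorem rgc2_rel (X : Core F s n G) (h : (Ω ≃ₐ[F] Ω) →* G) {r : ℕ} {v : Fin r → (Fin s → Ω)}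
    (hv : ∀ i, Twisted X h (v i)) (c : Fin r → Ω) (hc : ∑ i, c i • v i = 0) (σ : Ω ≃ₐ[F] Ω) :
    ∑ i, σ (c i) • v i = 0 := by
  have h1 : (fun k => σ ((∑ i, c i • v i) k)) =
      X.I.act (iO F Ω X.N) (h σ)⁻¹ (∑ i, σ (c i) • v i) := by
    rw [rgc2_act_sum]
    ext k
    rw [Finset.sum_apply, map_sum, Finset.sum_apply]
    refine Finset.sum_congr rfl fun i _ => ?_
    rw [rgc2_act_smul, ← hv i σ]
    simp
  have h2 : X.I.act (iO F Ω X.N) (h σ)⁻¹ (∑ i, σ (c i) • v i) = 0 := by
    rw [← h1, hc]
    ext k
    simp
  have h3 := rgc2_act_inv X (h σ) (∑ i, σ (c i) • v i)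
  rw [h2] at h3
  rw [← h3]
  have h4 := rgc2_act_smul X (h σ) (0 : Ω) (0 : Fin s → Ω)
  rwa [zero_smul, zero_smul] at h4

theorem rgc2_descent [IsGalois F Ω] (X : Core F s n G) (h : (Ω ≃ₐ[F] Ω) →* G) {r : ℕ}
    {v : Fin r → (Fin s → Ω)} (hv : ∀ i, Twisted X h (v i)) (hli : LinearIndependent F v) :
    LinearIndependent Ω v := by
  classical
  rw [Fintype.linearIndependent_iff]
  have key : ∀ (N : ℕ) (c : Fin r → Ω), (Finset.univ.filter fun i => c i ≠ 0).card ≤ N →
      ∑ i, c i • v i = 0 → c = 0 := by
    intro N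
    induction N with
    | zero =>
      intro c hc _
      have h1 : (Finset.univ.filter fun i => c i ≠ 0) = ∅ := by
        rw [← Finset.card_eq_zero]
        omega
      ext i
      by_contra hne
      have : i ∈ (Finset.univ.filter fun i => c i ≠ 0) := by
        rw [Finset.mem_filter]
        exact ⟨Finset.mem_univ _, hne⟩
      rw [h1] at this
      simp at this
    | succ N ih =>
      intro c hc hrel
      by_contra hne
      obtain ⟨j, hj⟩ : ∃ j, c j ≠ 0 := by
        by_contra hcon
        push Not at hcon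
        exact hne (funext hcon)
      set c' : Fin r → Ω := fun i => (c j)⁻¹ * c i with hc'
      have hc'j : c' j = 1 := by
        simp only [hc']
        exact inv_mul_cancel₀ hj
      have hrel' : ∑ i, c' i • v i = 0 := by
        have h1 : ∑ i, c' i • v i = (c j)⁻¹ • ∑ i, c i • v i := by
          rw [Finset.smul_sum]
          refine Finset.sum_congr rfl fun i _ => ?_
          rw [smul_smul]
        rw [h1, hrel, smul_zero]
      have hfix : ∀ i, ∀ σ : Ω ≃ₐ[F] Ω, σ (c' i) = c' i := by
        intro i σ
        have h1 := rgc2_rel X h hv c' hrel' σ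
        have h2 : ∑ i, (σ (c' i) - c' i) • v i = 0 := by
          simp only [sub_smul, Finset.sum_sub_distrib]
          rw [h1, hrel', sub_zero]
        have h3 := ih (fun i => σ (c' i) - c' i) ?_ h2
        · have h4 := congrFun h3 i
          simp only [Pi.zero_apply] at h4
          exact sub_eq_zero.mp h4
        · have h5 : (Finset.univ.filter fun i => (σ (c' i) - c' i) ≠ 0) ⊂
              (Finset.univ.filter fun i => c i ≠ 0) := by
            rw [Finset.ssubset_iff_of_subset]
            · refine ⟨j, ?_, ?_⟩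
              · rw [Finset.mem_filter]
                exact ⟨Finset.mem_univ _, hj⟩
              · rw [Finset.mem_filter, hc'j]
                simp
            · intro l hl
              rw [Finset.mem_filter] at hl ⊢
              refine ⟨Finset.mem_univ _, fun h0 => hl.2 ?_⟩
              have : c' l = 0 := by simp only [hc', h0, mul_zero]
              rw [this, map_zero, sub_zero]
          have h6 := Finset.card_lt_card h5
          omega
      have hF : ∀ i, ∃ d : F, algebraMap F Ω d = c' i := by
        intro i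
        have := (InfiniteGalois.mem_range_algebraMap_iff_fixed (k := F) (c' i)).mpr (hfix i)
        exact this
      choose d hd using hF
      have h1 : ∑ i, d i • v i = 0 := by
        rw [← hrel']
        refine Finset.sum_congr rfl fun i _ => ?_
        rw [← hd i]
        ext k
        simp [Algebra.smul_def]
      have h2 := (Fintype.linearIndependent_iff.mp hli) d h1 j
      have h3 := hd j
      rw [h2, map_zero, hc'j] at h3
      exact zero_ne_one h3
  intro c hc i
  rw [key _ c le_rfl hc]
  rfl

end

variable {F : Type} [Field F] [NumberField F] {Ω : Type} [Field Ω] [Algebra F Ω]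
  [IsAlgClosure F Ω] {s n : ℕ} {G : Type} [Group G] [Fintype G]

theorem rank_le (X : Core F s n G) (h : (Ω ≃ₐ[F] Ω) →* G) (r : ℕ) (v : Fin r → (Fin s → Ω))
    (hv : ∀ i, Twisted X h (v i)) (hli : LinearIndependent ℤ v) :
    r ≤ Module.finrank ℚ F * s := by
  have hchar : CharZero Ω := charZero_of_injective_algebraMap (algebraMap F Ω).injective
  have hgal : IsGalois F Ω := inferInstance
  -- the dimension of the space of twisted points
  have h1 : Module.rank F (rgc2_V X h) ≤ s := by
    refine _root_.rank_le fun t ht => ?_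
    let v' : Fin t.card → (Fin s → Ω) := fun i => ((t.equivFin.symm i : rgc2_V X h) : Fin s → Ω)
    have ht' : LinearIndependent F (fun i : Fin t.card => (t.equivFin.symm i : rgc2_V X h)) :=
      ht.comp _ t.equivFin.symm.injective
    have hv' : LinearIndependent F v' :=
      ht'.map' (rgc2_V X h).subtype (Submodule.ker_subtype _)
    have h5 := rgc2_descent X h (v := v') (fun i => (t.equivFin.symm i : rgc2_V X h).2) hv'
    have h6 := h5.fintype_card_le_finrank
    rw [Fintype.card_fin, Module.finrank_fin_fun] at h6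
    exact h6
  have hfin : Module.Finite F (rgc2_V X h) := by
    rw [← Module.rank_lt_aleph0_iff]
    exact h1.trans_lt (Cardinal.nat_lt_aleph0 s)
  have h2 : Module.finrank F (rgc2_V X h) ≤ s := by
    have := Module.finrank_eq_rank F (rgc2_V X h)
    rw [← this] at h1
    exact_mod_cast h1
  have hli' : LinearIndependent ℚ v := (LinearIndependent.iff_fractionRing ℤ ℚ).mp hli
  let w : Fin r → rgc2_V X h := fun i => ⟨v i, hv i⟩
  have hw : LinearIndependent ℚ w := by
    have : LinearIndependent ℚ (fun i => ((w i : rgc2_V X h) : Fin s → Ω)) := hli'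
    exact LinearIndependent.of_comp ((rgc2_V X h).subtype.restrictScalars ℚ) this
  have hfinQ : Module.Finite ℚ (rgc2_V X h) := Module.Finite.trans F _
  have h3 := hw.fintype_card_le_finrank
  rw [Fintype.card_fin] at h3
  have h4 : Module.finrank ℚ F * Module.finrank F (rgc2_V X h) = Module.finrank ℚ (rgc2_V X h) :=
    Module.finrank_mul_finrank ℚ F _
  rw [← h4] at h3
  exact h3.trans (Nat.mul_le_mul_left _ h2)

end Pool.Agent.H13.RG
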