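import Pool.Agent.H13.RG.Basic
import Pool.Agent.H13.RG.Rank
import Pool.Agent.H13.RG.Size
import Pool.Agent.H13.RG.Norm
import Pool.Agent.H41.RG.Pack

/-!
# Project RG (MP_a3214d), RG-C8: multiplicity by packing
-/

set_option autoImplicit false

open MvPolynomial NumberField IsDedekindDomain

namespace Pool.Agent.H13.RG

section Few

variable {F : Type} [Field F] [NumberField F] {Ω : Type} [Field Ω] [Algebra F Ω]
  [IsAlgClosure F Ω] {s n : ℕ} {G : Type} [Group G] [Fintype G]

omit [NumberField F] [IsAlgClosure F Ω] in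
/-- The lattice of `h` as an additive group. -/
def rgc8_lat (X : Core F s n G) (M0 : ℕ) (h : (Ω ≃ₐ[F] Ω) →* G) : AddSubgroup (Fin s → Ω) where
  carrier := Lat X M0 h
  zero_mem' := by
    refine ⟨fun j => ?_, fun σ => ?_⟩
    · simpa using isIntegral_zero
    · funext i
      simp [Inv.act]
  add_mem' := by
    rintro x y ⟨hx, hx'⟩ ⟨hy, hy'⟩
    refine ⟨fun j => ?_, fun σ => ?_⟩
    · rw [Pi.add_apply, mul_add]
      exact (hx j).add (hy j)
    · rw [act_add, ← hx' σ, ← hy' σ]
      funext i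
      simp
  neg_mem' := by
    rintro x ⟨hx, hx'⟩
    refine ⟨fun j => ?_, fun σ => ?_⟩
    · rw [Pi.neg_apply, mul_neg]
      exact (hx j).neg
    · have h1 : -x = (-1 : Ω) • x := by simp
      rw [h1, act_smul, ← hx' σ]
      funext i
      simp

theorem fibre (X : Core F s n G) {M0 : ℕ} (hM0 : 0 < M0)
    (hint : ∀ x : Fin s → Ω, (∀ i, IsIntegral ℤ (X.I.fv (iO F Ω X.N) x i)) →
      ∀ j, IsIntegral ℤ ((M0 : Ω) * x j)) :
    ∃ C : ℝ, 0 < C ∧ ∀ (ext : (F →+* ℂ) → (Ω →+* ℂ)), IsExt ext →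
      ∀ (M : ℕ) (α : Fin s → 𝓞 F) (h : (Ω ≃ₐ[F] Ω) →* G) (H L : ℝ), 0 < L → L ≤ H →
      (∀ x ∈ Lat X M0 h, x ≠ 0 → ¬ nrm ext x ≤ L) → ∀ S : Finset (Fin s → 𝓞 F),
      (∀ u ∈ S, u ∈ Par X M α H ∧ ∃ x : Fin s → Ω,
        X.I.fv (iO F Ω X.N) x = (fun i => algebraMap F Ω (u i : F)) ∧ Twisted X h x) →
      (S.card : ℝ) ≤ C * (H / L) ^ (Module.finrank ℚ F * s) := by
  classical
  obtain ⟨C1, hC1, hsize⟩ := size_le (Ω := Ω) X.I
  refine ⟨(1 + 2 * C1) ^ (Module.finrank ℚ F * s), by positivity, ?_⟩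
  intro ext hext M α h H L hL hLH hlong S hS
  have hH : 0 < H := lt_of_lt_of_le hL hLH
  have hchar : CharZero Ω := charZero_of_injective_algebraMap (algebraMap F Ω).injective
  have hmod : Module ℚ (Fin s → Ω) := inferInstance
  have htf : IsAddTorsionFree (Fin s → Ω) := IsAddTorsionFree.of_module_rat _
  choose hSP xx hxf hxT using hS
  have hxx : ∀ u (hu : u ∈ S), xx u hu ∈ Lat X M0 h ∧ nrm ext (xx u hu) ≤ C1 * H := by
    intro u hu
    refine ⟨⟨?_, hxT u hu⟩, ?_⟩
    · apply hint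
      intro i
      rw [hxf u hu]
      exact ((u i).isIntegral_coe).map (algebraMap F Ω).toIntAlgHom
    · rw [nrm_le_iff ext _ (by positivity)]
      intro v j
      apply hsize (ext v) H hH
      intro i
      rw [hxf u hu]
      have h2 : ext v (algebraMap F Ω (u i : F)) = v (u i : F) := by
        have h3 := hext v
        exact congrArg (fun f : F →+* ℂ => f (u i : F)) h3
      simp only [h2]
      exact (hSP u hu i).2 v
  set S' : Finset (Fin s → Ω) := S.attach.image (fun u => xx u.1 u.2) with hS'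
  have hcard : S'.card = S.card := by
    rw [hS', Finset.card_image_of_injective, Finset.card_attach]
    intro u u' huu
    apply Subtype.ext
    funext i
    have h1 := hxf u.1 u.2
    have h2 := hxf u'.1 u'.2
    rw [show xx u.1 u.2 = xx u'.1 u'.2 from huu, h2] at h1
    exact (RingOfIntegers.coe_injective ((algebraMap F Ω).injective (congrFun h1 i))).symm
  have hcl : AddSubgroup.closure (S' : Set (Fin s → Ω)) ≤ rgc8_lat X M0 h := by
    rw [AddSubgroup.closure_le]
    intro x hx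
    rw [hS', Finset.coe_image] at hx
    obtain ⟨u, -, rfl⟩ := hx
    exact (hxx u.1 u.2).1
  have hpack := Pool.Agent.H41.RG.card_le_pack (nrm ext) (nrm_sub ext) (nrm_nsmul ext)
    hL (T := C1 * H) (by positivity) S'
    (fun x hx hx0 => (not_le.1 (hlong x (hcl hx) hx0)).le)
    (by
      intro x hx
      rw [hS', Finset.mem_image] at hx
      obtain ⟨u, -, rfl⟩ := hx
      exact (hxx u.1 u.2).2)
    (Module.finrank ℚ F * s)
    (fun r v hv hli => rank_le X h r v (fun i => (hcl (hv i)).2) hli)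
  rw [hcard] at hpack
  refine hpack.trans ?_
  rw [← mul_pow]
  apply pow_le_pow_left₀ (by positivity)
  have h1 : 1 ≤ H / L := by
    rw [le_div_iff₀ hL]
    linarith
  have h2 : 2 * (C1 * H) / L = 2 * C1 * (H / L) := by ring
  rw [h2]
  nlinarith

end Few

end Pool.Agent.H13.RG
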