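import Pool.Agent.H13.RG.Defs

/-!
# Project RG, row RG-E4: the invariants of a subgroup are free over the invariants of the group
-/

set_option autoImplicit false

open MvPolynomial

namespace Pool.Agent.H13.RG

section General

variable {F : Type} [Field F] {s : ℕ}

theorem rge4_msub_mul (A B : Matrix (Fin s) (Fin s) F) (p : MvPolynomial (Fin s) F) :
    msub (A * B) p = msub B (msub A p) := by
  induction p using MvPolynomial.induction_on with
  | C a => rw [algHom_C, algHom_C, algebraMap_eq, ← algebraMap_eq, AlgHom.commutes]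
  | add p q hp hq => rw [map_add, map_add, map_add, hp, hq]
  | mul_X p i hp =>
    rw [map_mul, map_mul, map_mul, hp]
    congr 1
    simp only [msub, aeval_X, map_sum, map_mul, Matrix.mul_apply, aeval_C, algebraMap_eq,
      Finset.mul_sum, Finset.sum_mul]
    rw [Finset.sum_comm]
    refine Finset.sum_congr rfl fun j _ => Finset.sum_congr rfl fun l _ => ?_
    ring

theorem rge4_msub_one (p : MvPolynomial (Fin s) F) : msub (1 : Matrix (Fin s) (Fin s) F) p = p := by
  have h : msub (1 : Matrix (Fin s) (Fin s) F) = AlgHom.id F _ := by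
    refine MvPolynomial.algHom_ext fun i => ?_
    simp only [msub, aeval_X, AlgHom.coe_id, id_eq, Matrix.one_apply]
    rw [Finset.sum_eq_single i]
    · simp
    · intro j _ hj
      rw [if_neg (Ne.symm hj)]
      simp
    · intro h
      exact absurd (Finset.mem_univ i) h
  rw [h]
  rfl

/-- The component of a product with a homogeneous factor. -/
theorem rge4_comp_mul (a b : MvPolynomial (Fin s) F) {i : ℕ} (hb : b.IsHomogeneous i) (n : ℕ) :
    homogeneousComponent n (a * b) = if i ≤ n then homogeneousComponent (n - i) a * b else 0 := by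
  have h1 : ∀ k, homogeneousComponent n (homogeneousComponent k a * b) =
      if n = k + i then homogeneousComponent k a * b else 0 := by
    intro k
    exact homogeneousComponent_of_mem (m := n) (n := k + i)
      ((mem_homogeneousSubmodule _ _).2 ((homogeneousComponent_isHomogeneous k a).mul hb))
  conv_lhs => rw [← sum_homogeneousComponent a]
  rw [Finset.sum_mul, map_sum, Finset.sum_congr rfl fun k _ => h1 k]
  by_cases hin : i ≤ n
  · rw [if_pos hin]
    rw [Finset.sum_congr rfl (g := fun k => if n - i = k then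
      homogeneousComponent (n - i) a * b else 0) (fun k _ => by
        by_cases hk : n = k + i
        · rw [if_pos hk, if_pos (by omega), show n - i = k by omega]
        · rw [if_neg hk, if_neg (by omega)])]
    rw [Finset.sum_ite_eq]
    split_ifs with h
    · rfl
    · rw [Finset.mem_range, not_lt] at h
      rw [homogeneousComponent_eq_zero (n - i) a (by omega), zero_mul]
  · rw [if_neg hin]
    refine Finset.sum_eq_zero fun k _ => ?_
    rw [if_neg (by omega)]

theorem rge4_comp_msub (A : Matrix (Fin s) (Fin s) F) (p : MvPolynomial (Fin s) F) (n : ℕ) :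
    homogeneousComponent n (msub A p) = msub A (homogeneousComponent n p) := by
  have h1 : ∀ i, homogeneousComponent n (msub A (homogeneousComponent i p)) =
      if n = i then msub A (homogeneousComponent i p) else 0 := by
    intro i
    have := homogeneousComponent_of_mem (m := n) (n := i)
      (p := msub A (homogeneousComponent i p))
      ((mem_homogeneousSubmodule _ _).2 (msub_homogeneous A
        (homogeneousComponent_isHomogeneous i p)))
    exact this
  conv_lhs => rw [← sum_homogeneousComponent p]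
  rw [map_sum, map_sum, Finset.sum_congr rfl fun i _ => h1 i]
  rw [Finset.sum_ite_eq]
  split_ifs with h
  · rfl
  · rw [Finset.mem_range, not_lt] at h
    rw [homogeneousComponent_eq_zero n p (by omega), map_zero]

end General

section Main

variable {F : Type} [Field F] {s : ℕ} {G : Type} [Group G]
  (ρ : G →* Matrix (Fin s) (Fin s) F)

theorem rge4_inv_comp {H : Subgroup G} {p : MvPolynomial (Fin s) F} (hp : IsInv ρ H p) (n : ℕ) :
    IsInv ρ H (homogeneousComponent n p) := by
  intro h hh
  rw [← rge4_comp_msub, hp h hh]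

theorem rge4_inv_add {H : Subgroup G} {p q : MvPolynomial (Fin s) F} (hp : IsInv ρ H p)
    (hq : IsInv ρ H q) : IsInv ρ H (p + q) := fun h hh => by rw [map_add, hp h hh, hq h hh]

theorem rge4_inv_sub {H : Subgroup G} {p q : MvPolynomial (Fin s) F} (hp : IsInv ρ H p)
    (hq : IsInv ρ H q) : IsInv ρ H (p - q) := fun h hh => by rw [map_sub, hp h hh, hq h hh]

theorem rge4_inv_mul {H : Subgroup G} {p q : MvPolynomial (Fin s) F} (hp : IsInv ρ H p)
    (hq : IsInv ρ H q) : IsInv ρ H (p * q) := fun h hh => by rw [map_mul, hp h hh, hq h hh]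

theorem rge4_inv_C {H : Subgroup G} (a : F) : IsInv ρ H (C a) := fun h _ => by
  rw [algHom_C, algebraMap_eq]

theorem rge4_inv_sum {H : Subgroup G} {ι : Type} (t : Finset ι)
    (p : ι → MvPolynomial (Fin s) F) (hp : ∀ i ∈ t, IsInv ρ H (p i)) :
    IsInv ρ H (∑ i ∈ t, p i) := fun h hh => by
  rw [map_sum]
  exact Finset.sum_congr rfl fun i hi => hp i hi h hh

/-- The average over the subgroup. -/
noncomputable def rge4_avg (H : Subgroup G) [Fintype H] (p : MvPolynomial (Fin s) F) :
    MvPolynomial (Fin s) F :=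
  C ((Fintype.card H : F)⁻¹) * ∑ h : H, msub (ρ h) p

theorem rge4_avg_inv (H : Subgroup G) [Fintype H] (p : MvPolynomial (Fin s) F) :
    IsInv ρ H (rge4_avg ρ H p) := by
  intro h hh
  unfold rge4_avg
  rw [map_mul, map_sum, algHom_C, algebraMap_eq]
  congr 1
  refine Fintype.sum_equiv (Equiv.mulRight (⟨h, hh⟩ : H)) _ _ fun g => ?_
  rw [← rge4_msub_mul, ← map_mul]
  rfl

theorem rge4_avg_of_inv [CharZero F] (H : Subgroup G) [Fintype H] {p : MvPolynomial (Fin s) F}
    (hp : IsInv ρ H p) : rge4_avg ρ H p = p := by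
  unfold rge4_avg
  rw [Finset.sum_congr rfl fun (h : H) _ => hp h h.2, Finset.sum_const, Finset.card_univ,
    nsmul_eq_mul, ← mul_assoc]
  have h0 : (Fintype.card H : F) ≠ 0 := by
    rw [Nat.cast_ne_zero]
    exact Fintype.card_ne_zero
  have h1 : (C ((Fintype.card H : F)⁻¹) : MvPolynomial (Fin s) F) *
      ((Fintype.card H : ℕ) : MvPolynomial (Fin s) F) = 1 := by
    rw [← map_natCast (C : F →+* MvPolynomial (Fin s) F), ← C_mul, inv_mul_cancel₀ h0, C_1]
  rw [h1, one_mul]

theorem rge4_avg_sum (H : Subgroup G) [Fintype H] {ι : Type} (t : Finset ι)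
    (p : ι → MvPolynomial (Fin s) F) :
    rge4_avg ρ H (∑ i ∈ t, p i) = ∑ i ∈ t, rge4_avg ρ H (p i) := by
  unfold rge4_avg
  simp only [map_sum, Finset.mul_sum]
  rw [Finset.sum_comm]

theorem rge4_avg_mul (H : Subgroup G) [Fintype H] (p f : MvPolynomial (Fin s) F)
    (hf : IsInv ρ ⊤ f) : rge4_avg ρ H (p * f) = rge4_avg ρ H p * f := by
  unfold rge4_avg
  rw [mul_assoc, Finset.sum_mul]
  congr 1
  refine Finset.sum_congr rfl fun h _ => ?_
  rw [map_mul, hf (h : G) (Subgroup.mem_top _)]

theorem rge4_avg_hom (H : Subgroup G) [Fintype H] {p : MvPolynomial (Fin s) F} {n : ℕ}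
    (hp : p.IsHomogeneous n) : (rge4_avg ρ H p).IsHomogeneous n := by
  unfold rge4_avg
  refine IsHomogeneous.C_mul ?_ _
  exact IsHomogeneous.sum _ _ _ fun h _ => msub_homogeneous _ hp

/-- An invariant of the group is constant modulo the ideal. -/
theorem rge4_const (Y : CST ρ) {p : MvPolynomial (Fin s) F} (hp : IsInv ρ ⊤ p) :
    ∃ a : F, Ideal.Quotient.mk (Ideal.span (Set.range Y.f)) p =
      algebraMap F (MvPolynomial (Fin s) F ⧸ Ideal.span (Set.range Y.f)) a := by
  have h1 := Y.gen p hp
  have h2 : Ideal.Quotient.mkₐ F (Ideal.span (Set.range Y.f)) p ∈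
      (Algebra.adjoin F (Set.range Y.f)).map (Ideal.Quotient.mkₐ F (Ideal.span (Set.range Y.f))) :=
    ⟨p, h1, rfl⟩
  rw [AlgHom.map_adjoin] at h2
  have h3 : Algebra.adjoin F ((Ideal.Quotient.mkₐ F (Ideal.span (Set.range Y.f))) ''
      Set.range Y.f) ≤ ⊥ := by
    rw [Algebra.adjoin_le_iff]
    rintro _ ⟨x, hx, rfl⟩
    have h4 : Ideal.Quotient.mkₐ F (Ideal.span (Set.range Y.f)) x = 0 := by
      rw [Ideal.Quotient.mkₐ_eq_mk, Ideal.Quotient.eq_zero_iff_mem]
      exact Ideal.subset_span hx
    rw [h4]
    exact zero_mem _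
  have h4 := h3 h2
  rw [Algebra.mem_bot] at h4
  obtain ⟨a, ha⟩ := h4
  exact ⟨a, ha.symm⟩

/-- The quotient by the ideal of the invariants of positive degree is finite. -/
theorem rge4_finite [Fintype G] (Y : CST ρ) :
    Module.Finite F (MvPolynomial (Fin s) F ⧸ Ideal.span (Set.range Y.f)) := by
  classical
  set J := Ideal.span (Set.range Y.f) with hJ
  have hint : Algebra.IsIntegral F (MvPolynomial (Fin s) F ⧸ J) := by
    refine ⟨fun y => ?_⟩
    obtain ⟨x, rfl⟩ := Ideal.Quotient.mk_surjective y
    let P : Polynomial (MvPolynomial (Fin s) F) :=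
      ∏ g : G, (Polynomial.X - Polynomial.C (msub (ρ g) x))
    have hPm : P.Monic := Polynomial.monic_prod_of_monic _ _ fun g _ => Polynomial.monic_X_sub_C _
    have hPx : P.eval x = 0 := by
      rw [Polynomial.eval_prod]
      refine Finset.prod_eq_zero (Finset.mem_univ (1 : G)) ?_
      rw [map_one, rge4_msub_one]
      simp
    have hPinv : ∀ k, IsInv ρ ⊤ (P.coeff k) := by
      intro k h _
      have h1 : P.map (msub (ρ h)).toRingHom = P := by
        rw [Polynomial.map_prod]
        refine Fintype.prod_equiv (Equiv.mulRight h) _ _ fun g => ?_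
        rw [Polynomial.map_sub, Polynomial.map_X, Polynomial.map_C, Equiv.coe_mulRight, map_mul,
          rge4_msub_mul]
        rfl
      have h2 := congrArg (fun Q => Polynomial.coeff Q k) h1
      simp only [Polynomial.coeff_map] at h2
      exact h2
    have hlift : P.map (Ideal.Quotient.mk J) ∈
        Polynomial.lifts (algebraMap F (MvPolynomial (Fin s) F ⧸ J)) := by
      rw [Polynomial.lifts_iff_coeff_lifts]
      intro k
      rw [Polynomial.coeff_map]
      obtain ⟨a, ha⟩ := rge4_const ρ Y (hPinv k)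
      exact ⟨a, ha.symm⟩
    obtain ⟨Q, hQ, _, hQm⟩ := Polynomial.lifts_and_natDegree_eq_and_monic hlift
      (hPm.map _)
    refine ⟨Q, hQm, ?_⟩
    rw [Polynomial.eval₂_eq_eval_map, hQ, Polynomial.eval_map, Polynomial.eval₂_hom, hPx, map_zero]
  exact Algebra.IsIntegral.finite

/-- An element of degree `m` of the ideal is a combination with homogeneous coefficients. -/
theorem rge4_mem (Y : CST ρ) {r : MvPolynomial (Fin s) F} {m : ℕ} (hr : r.IsHomogeneous m)
    (hJ : r ∈ Ideal.span (Set.range Y.f)) :
    ∃ g : Fin s → MvPolynomial (Fin s) F, r = ∑ i, g i * Y.f i ∧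
      ∀ i, (g i = 0 ∨ (Y.d i ≤ m ∧ (g i).IsHomogeneous (m - Y.d i))) := by
  rw [Ideal.mem_span_range_iff_exists_fun] at hJ
  obtain ⟨c, hc⟩ := hJ
  refine ⟨fun i => if Y.d i ≤ m then homogeneousComponent (m - Y.d i) (c i) else 0, ?_, ?_⟩
  · have h1 : homogeneousComponent m r = r := by
      rw [homogeneousComponent_of_mem ((mem_homogeneousSubmodule _ _).2 hr), if_pos rfl]
    rw [← h1, ← hc, map_sum]
    refine Finset.sum_congr rfl fun i _ => ?_
    rw [rge4_comp_mul _ _ (Y.hom i)]
    by_cases h : Y.d i ≤ m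
    · simp only [if_pos h]
    · simp only [if_neg h, zero_mul]
  · intro i
    by_cases h : Y.d i ≤ m
    · right
      refine ⟨h, ?_⟩
      simp only [if_pos h]
      exact homogeneousComponent_isHomogeneous _ _
    · left
      simp only [if_neg h]

/-- The chosen homogeneous invariants. -/
theorem rge4_choice [Fintype G] (Y : CST ρ) (H : Subgroup G) :
    ∃ (m : ℕ) (ω : Fin m → MvPolynomial (Fin s) F) (c : Fin m → ℕ),
      (∀ j, (ω j).IsHomogeneous (c j)) ∧ (∀ j, IsInv ρ H (ω j)) ∧
      (∀ a : Fin m → F, ∑ j, C (a j) * ω j ∈ Ideal.span (Set.range Y.f) → a = 0) ∧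
      (∀ p n, IsInv ρ H p → p.IsHomogeneous n → ∃ a : Fin m → F,
        p - ∑ j, C (a j) * ω j ∈ Ideal.span (Set.range Y.f)) := by
  classical
  have hfin := rge4_finite ρ Y
  set J := Ideal.span (Set.range Y.f) with hJ
  let ι := {p : MvPolynomial (Fin s) F × ℕ // IsInv ρ H p.1 ∧ p.1.IsHomogeneous p.2}
  let v : ι → MvPolynomial (Fin s) F ⧸ J := fun p => Ideal.Quotient.mkₐ F J p.1.1
  obtain ⟨κ, a, _, hsp, hli⟩ := exists_linearIndependent' F v
  have hκ : Finite κ := by
    exact hli.finite
  let e : Fin (Nat.card κ) ≃ κ := (Finite.equivFin κ).symm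
  have hq : ∀ b : Fin (Nat.card κ) → F, Ideal.Quotient.mk J (∑ j, C (b j) * (a (e j)).1.1) =
      ∑ j, b j • (v ∘ a) (e j) := by
    intro b
    rw [map_sum]
    refine Finset.sum_congr rfl fun j _ => ?_
    rw [← smul_eq_C_mul]
    rfl
  refine ⟨Nat.card κ, fun j => (a (e j)).1.1, fun j => (a (e j)).1.2, fun j => (a (e j)).2.2,
    fun j => (a (e j)).2.1, ?_, ?_⟩
  · intro b hb
    have h1 := (Ideal.Quotient.eq_zero_iff_mem).2 hb
    rw [hq] at h1
    have h2 := (hli.comp e e.injective)
    rw [Fintype.linearIndependent_iff] at h2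
    funext j
    exact h2 b h1 j
  · intro p n hp hn
    have h1 : v ⟨(p, n), hp, hn⟩ ∈ Submodule.span F (Set.range (v ∘ a)) := by
      rw [hsp]
      exact Submodule.subset_span ⟨_, rfl⟩
    have h2 : Set.range (v ∘ a) = Set.range (fun j => (v ∘ a) (e j)) := by
      rw [← Function.comp_def (v ∘ a) e, Set.range_comp (v ∘ a) e, e.range_eq_univ,
        Set.image_univ]
    rw [h2, Submodule.mem_span_range_iff_exists_fun] at h1
    obtain ⟨b, hb⟩ := h1
    refine ⟨b, ?_⟩
    rw [← Ideal.Quotient.eq_zero_iff_mem, map_sub, hq, hb, sub_eq_zero]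
    rfl

theorem exists_freeBasis [CharZero F] [Fintype G] (Y : CST ρ) (H : Subgroup G) :
    ∃ m : ℕ, Nonempty (FreeBasis ρ H m) := by
  classical
  obtain ⟨m, ω, c, hhom, hinv, hind, hspan⟩ := rge4_choice ρ Y H
  letI : Fintype H := Fintype.ofFinite H
  have key : ∀ n : ℕ, ∀ p : MvPolynomial (Fin s) F, IsInv ρ H p → p.IsHomogeneous n →
      ∃ U : Fin m → MvPolynomial (Fin s) F, (∀ j, IsInv ρ ⊤ (U j)) ∧ p = ∑ j, U j * ω j := by
    intro n
    induction n using Nat.strong_induction_on with
    | _ n ih =>
      intro p hp hn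
      obtain ⟨a, ha⟩ := hspan p n hp hn
      -- the homogeneous component of degree n
      let b : Fin m → F := fun j => if c j = n then a j else 0
      have hb : homogeneousComponent n (∑ j, C (a j) * ω j) = ∑ j, C (b j) * ω j := by
        rw [map_sum]
        refine Finset.sum_congr rfl fun j _ => ?_
        rw [rge4_comp_mul _ _ (hhom j)]
        by_cases h1 : c j ≤ n
        · rw [if_pos h1]
          by_cases h2 : c j = n
          · have h3 : n - c j = 0 := by omega
            simp only [b, if_pos h2, h3, homogeneousComponent_zero, coeff_zero_C]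
          · have h3 : homogeneousComponent (n - c j) (C (a j) : MvPolynomial (Fin s) F) = 0 := by
              rw [homogeneousComponent_of_mem ((mem_homogeneousSubmodule _ _).2
                (isHomogeneous_C (Fin s) (a j))), if_neg (by omega)]
            simp only [b, if_neg h2, h3, C_0]
        · have h2 : c j ≠ n := by omega
          rw [if_neg h1]
          simp only [b, if_neg h2, C_0, zero_mul]
      set r := p - ∑ j, C (b j) * ω j with hr
      have hrn : r.IsHomogeneous n := by
        refine hn.sub ?_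
        rw [← hb]
        exact homogeneousComponent_isHomogeneous _ _
      have hrinv : IsInv ρ H r := rge4_inv_sub ρ hp
        (rge4_inv_sum ρ _ _ fun j _ => rge4_inv_mul ρ (rge4_inv_C ρ _) (hinv j))
      have hrJ : r ∈ Ideal.span (Set.range Y.f) := by
        rw [Ideal.mem_span_range_iff_exists_fun] at ha ⊢
        obtain ⟨g, hg⟩ := ha
        refine ⟨fun i => if Y.d i ≤ n then homogeneousComponent (n - Y.d i) (g i) else 0, ?_⟩
        have h1 : homogeneousComponent n (p - ∑ j, C (a j) * ω j) = r := by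
          rw [map_sub, hb, homogeneousComponent_of_mem ((mem_homogeneousSubmodule _ _).2 hn),
            if_pos rfl]
        rw [← h1, ← hg, map_sum]
        refine Finset.sum_congr rfl fun i _ => ?_
        rw [rge4_comp_mul _ _ (Y.hom i)]
        by_cases h : Y.d i ≤ n
        · simp only [if_pos h]
        · simp only [if_neg h, zero_mul]
      obtain ⟨g, hg, hgh⟩ := rge4_mem ρ Y hrn hrJ
      have hr2 : r = ∑ i, rge4_avg ρ H (g i) * Y.f i := by
        conv_lhs => rw [← rge4_avg_of_inv ρ H hrinv, hg, rge4_avg_sum]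
        exact Finset.sum_congr rfl fun i _ => rge4_avg_mul ρ H _ _ (Y.inv i)
      have hU : ∀ i, ∃ U : Fin m → MvPolynomial (Fin s) F, (∀ j, IsInv ρ ⊤ (U j)) ∧
          rge4_avg ρ H (g i) = ∑ j, U j * ω j := by
        intro i
        rcases hgh i with h0 | ⟨h1, h2⟩
        · refine ⟨0, fun j h _ => map_zero _, ?_⟩
          rw [h0]
          simp [rge4_avg]
        · have hd := Y.d_pos i
          exact ih (n - Y.d i) (by omega) _ (rge4_avg_inv ρ H _) (rge4_avg_hom ρ H h2)
      choose U hUinv hUeq using hU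
      refine ⟨fun j => C (b j) + ∑ i, U i j * Y.f i, fun j => ?_, ?_⟩
      · exact rge4_inv_add ρ (rge4_inv_C ρ _)
          (rge4_inv_sum ρ _ _ fun i _ => rge4_inv_mul ρ (hUinv i j) (Y.inv i))
      · have h1 : p = ∑ j, C (b j) * ω j + r := by rw [hr]; ring
        rw [h1, hr2]
        simp only [add_mul, Finset.sum_add_distrib]
        congr 1
        simp only [hUeq, Finset.sum_mul]
        rw [Finset.sum_comm]
        refine Finset.sum_congr rfl fun j _ => Finset.sum_congr rfl fun i _ => ?_
        ring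
  refine ⟨m, ⟨{ ω := ω, c := c, hom := hhom, inv := hinv, free := ?_, span := ?_ }⟩⟩
  · exact Y.chev m ω c hhom hind
  · intro p hp
    have h1 : ∀ n, ∃ U : Fin m → MvPolynomial (Fin s) F, (∀ j, IsInv ρ ⊤ (U j)) ∧
        homogeneousComponent n p = ∑ j, U j * ω j := fun n =>
      key n _ (rge4_inv_comp ρ hp n) (homogeneousComponent_isHomogeneous _ _)
    choose U hU1 hU2 using h1
    refine ⟨fun j => ∑ n ∈ Finset.range (p.totalDegree + 1), U n j, fun j =>
      rge4_inv_sum ρ _ _ fun n _ => hU1 n j, ?_⟩
    conv_lhs => rw [← sum_homogeneousComponent p]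
    simp only [hU2, Finset.sum_mul]
    rw [Finset.sum_comm]

end Main

end Pool.Agent.H13.RG
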