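import Pool.Agent.H13.RG.Defs

/-!
# Project RG (MP_a3214d_nt), row RG-B1: points with `x^(q) = M x` avoiding `Q = 0`
-/

set_option autoImplicit false

open MvPolynomial NumberField IsDedekindDomain

namespace Pool.Agent.H13.RG

/-- Values of a homogeneous polynomial at `t w`. -/
theorem rgb1_eval_smul {A : Type} [Field A] {s m : ℕ} {Q : MvPolynomial (Fin s) A}
    (hQ : Q.IsHomogeneous m) (t : A) (w : Fin s → A) :
    eval (fun i => t * w i) Q = t ^ m * eval w Q := by
  rw [eval_eq', eval_eq', Finset.mul_sum]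
  refine Finset.sum_congr rfl fun d hd => ?_
  have h1 : ∑ i, d i = m := by
    have h2 := hQ (mem_support_iff.1 hd)
    rw [← h2, Finsupp.weight_apply, Finsupp.sum_fintype _ _ (by simp)]
    simp
  simp only [mul_pow, Finset.prod_mul_distrib, Finset.prod_pow_eq_pow_sum, h1]
  ring

/-- The polynomials `Z_i = ∑ N^k X^(q^k)`. -/
noncomputable def rgb1Z {A : Type} [Field A] {s : ℕ} (q r : ℕ) (N : Matrix (Fin s) (Fin s) A)
    (i : Fin s) : MvPolynomial (Fin s) A :=
  ∑ k ∈ Finset.range r, ∑ j, C ((N ^ k) i j) * X j ^ (q ^ k)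

/-- The values of `Z`. -/
def rgb1z {A : Type} [Field A] {s : ℕ} (q r : ℕ) (N : Matrix (Fin s) (Fin s) A) (y : Fin s → A)
    (i : Fin s) : A :=
  ∑ k ∈ Finset.range r, ∑ j, (N ^ k) i j * y j ^ (q ^ k)

theorem rgb1_eval_Z {A : Type} [Field A] {s : ℕ} (q r : ℕ) (N : Matrix (Fin s) (Fin s) A)
    (y : Fin s → A) (i : Fin s) : eval y (rgb1Z q r N i) = rgb1z q r N y i := by
  simp [rgb1Z, rgb1z]

theorem rgb1_eval_P {A : Type} [Field A] {s : ℕ} (q r : ℕ) (N : Matrix (Fin s) (Fin s) A)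
    (y : Fin s → A) (Q : MvPolynomial (Fin s) A) :
    eval y (eval₂ C (rgb1Z q r N) Q) = eval (rgb1z q r N y) Q := by
  rw [eval_eq' (rgb1z q r N y) Q, eval₂_eq', map_sum]
  refine Finset.sum_congr rfl fun d _ => ?_
  rw [map_mul, eval_C, map_prod]
  congr 1
  refine Finset.prod_congr rfl fun i _ => ?_
  rw [map_pow, rgb1_eval_Z]

/-- The polynomial `Q(Z)` is not zero. -/
theorem rgb1_ne_zero {A : Type} [Field A] [IsAlgClosed A] {s m r q : ℕ} (hq : 2 ≤ q)
    (N : Matrix (Fin s) (Fin s) A) (hr : 0 < r) (Q : MvPolynomial (Fin s) A)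
    (hQ : Q.IsHomogeneous m) (hQ0 : Q ≠ 0) : eval₂ C (rgb1Z q r N) Q ≠ 0 := by
  obtain ⟨x, hx⟩ : ∃ x, eval x Q ≠ 0 := by
    by_contra hcon
    push Not at hcon
    exact hQ0 (MvPolynomial.funext fun x => by rw [hcon x, map_zero])
  -- the curve `t ↦ w(t)`
  let w : Fin s → Polynomial A := fun i => ∑ k ∈ Finset.range r, ∑ j,
    Polynomial.C ((N ^ k) i j * x j ^ (q ^ k)) * Polynomial.X ^ (q ^ k - 1)
  let G : Polynomial A := eval₂ Polynomial.C w Q
  have hGe : ∀ t : A, G.eval t = eval (fun i => (w i).eval t) Q := by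
    intro t
    show (eval₂ Polynomial.C w Q).eval t = _
    rw [eval_eq', eval₂_eq', Polynomial.eval_finset_sum]
    refine Finset.sum_congr rfl fun d _ => ?_
    rw [Polynomial.eval_mul, Polynomial.eval_C, Polynomial.eval_prod]
    congr 1
    refine Finset.prod_congr rfl fun i _ => ?_
    rw [Polynomial.eval_pow]
  have hw0 : ∀ i, (w i).eval 0 = x i := by
    intro i
    show (∑ k ∈ Finset.range r, ∑ j,
      Polynomial.C ((N ^ k) i j * x j ^ (q ^ k)) * Polynomial.X ^ (q ^ k - 1)).eval 0 = x i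
    obtain ⟨r', rfl⟩ : ∃ r', r = r' + 1 := ⟨r - 1, by omega⟩
    rw [Finset.sum_range_succ', Polynomial.eval_add]
    have h1 : (∑ k ∈ Finset.range r', ∑ j, Polynomial.C ((N ^ (k + 1)) i j * x j ^ (q ^ (k + 1))) *
        Polynomial.X ^ (q ^ (k + 1) - 1)).eval 0 = 0 := by
      rw [Polynomial.eval_finset_sum]
      refine Finset.sum_eq_zero fun k _ => ?_
      rw [Polynomial.eval_finset_sum]
      refine Finset.sum_eq_zero fun j _ => ?_
      have h2 : q ^ (k + 1) - 1 ≠ 0 := by
        have : 2 ≤ q ^ (k + 1) := le_trans hq (Nat.le_self_pow (by omega) q)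
        omega
      simp [h2]
    rw [h1, zero_add, Polynomial.eval_finset_sum]
    simp [Matrix.one_apply]
  have hG0 : G ≠ 0 := by
    intro h0
    have h1 := hGe 0
    rw [h0, Polynomial.eval_zero] at h1
    apply hx
    rw [h1]
    congr 2
    funext i
    exact (hw0 i).symm
  obtain ⟨t, ht⟩ : ∃ t, (Polynomial.X * G).eval t ≠ 0 := by
    by_contra hcon
    push Not at hcon
    exact mul_ne_zero Polynomial.X_ne_zero hG0
      (Polynomial.funext fun t => by rw [hcon t, Polynomial.eval_zero])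
  rw [Polynomial.eval_mul, Polynomial.eval_X] at ht
  have ht0 : t ≠ 0 := left_ne_zero_of_mul ht
  have hGt : G.eval t ≠ 0 := right_ne_zero_of_mul ht
  intro hP
  have h1 := rgb1_eval_P q r N (fun i => t * x i) Q
  rw [hP, map_zero] at h1
  have h2 : rgb1z q r N (fun i => t * x i) = fun i => t * (w i).eval t := by
    funext i
    show ∑ k ∈ Finset.range r, ∑ j, (N ^ k) i j * (t * x j) ^ (q ^ k) = t * Polynomial.eval t
      (∑ k ∈ Finset.range r, ∑ j,
        Polynomial.C ((N ^ k) i j * x j ^ (q ^ k)) * Polynomial.X ^ (q ^ k - 1))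
    rw [Polynomial.eval_finset_sum, Finset.mul_sum]
    refine Finset.sum_congr rfl fun k _ => ?_
    rw [Polynomial.eval_finset_sum, Finset.mul_sum]
    refine Finset.sum_congr rfl fun j _ => ?_
    have h3 : t ^ (q ^ k) = t * t ^ (q ^ k - 1) := by
      rw [← pow_succ']
      congr 1
      have : 0 < q ^ k := Nat.pow_pos (by omega)
      omega
    rw [mul_pow, h3]
    simp only [Polynomial.eval_mul, Polynomial.eval_C, Polynomial.eval_pow, Polynomial.eval_X]
    ring
  rw [h2, rgb1_eval_smul hQ, ← hGe] at h1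
  exact mul_ne_zero (pow_ne_zero _ ht0) hGt h1.symm

/-- The degree in each variable. -/
theorem rgb1_degreeOf {A : Type} [Field A] {s m r q : ℕ} (hq : 2 ≤ q)
    (N : Matrix (Fin s) (Fin s) A) (Q : MvPolynomial (Fin s) A)
    (hQ : Q.IsHomogeneous m) (l : Fin s) :
    (eval₂ C (rgb1Z q r N) Q).degreeOf l ≤ m * q ^ (r - 1) := by
  have hZ : ∀ i, (rgb1Z q r N i).degreeOf l ≤ q ^ (r - 1) := by
    intro i
    unfold rgb1Z
    refine (degreeOf_sum_le _ _ _).trans (Finset.sup_le fun k hk => ?_)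
    refine (degreeOf_sum_le _ _ _).trans (Finset.sup_le fun j _ => ?_)
    refine (degreeOf_C_mul_le _ _ _).trans ?_
    refine (degreeOf_pow_le _ _ _).trans ?_
    have h1 : (X j : MvPolynomial (Fin s) A).degreeOf l ≤ 1 := by
      rw [degreeOf_X]
      split_ifs <;> simp
    calc q ^ k * (X j : MvPolynomial (Fin s) A).degreeOf l ≤ q ^ k * 1 :=
          Nat.mul_le_mul_left _ h1
      _ = q ^ k := mul_one _
      _ ≤ q ^ (r - 1) := Nat.pow_le_pow_right (by omega) (by
          have := Finset.mem_range.1 hk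
          omega)
  rw [eval₂_eq']
  refine (degreeOf_sum_le _ _ _).trans (Finset.sup_le fun d hd => ?_)
  refine (degreeOf_C_mul_le _ _ _).trans ?_
  refine (degreeOf_prod_le _ _ _).trans ?_
  have h1 : ∑ i, d i = m := by
    have h2 := hQ (mem_support_iff.1 hd)
    rw [← h2, Finsupp.weight_apply, Finsupp.sum_fintype _ _ (by simp)]
    simp
  calc ∑ j, (rgb1Z q r N j ^ d j).degreeOf l ≤ ∑ j, d j * q ^ (r - 1) :=
        Finset.sum_le_sum fun j _ => (degreeOf_pow_le _ _ _).trans
          (Nat.mul_le_mul_left _ (hZ j))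
    _ = m * q ^ (r - 1) := by rw [← Finset.sum_mul, h1]

theorem exists_frob_point {A : Type} [Field A] [IsAlgClosed A] (p : ℕ) [Fact p.Prime] [CharP A p]
    {e s m r : ℕ} (he : 0 < e) (M : Matrix (Fin s) (Fin s) A) (hM : ∀ i j, M i j ^ p ^ e = M i j)
    (hr : 0 < r) (hMr : M ^ r = 1) (Q : MvPolynomial (Fin s) A) (hQ : Q.IsHomogeneous m)
    (hQ0 : Q ≠ 0) (hm : m < p ^ e) :
    ∃ x : Fin s → A, (∀ i, x i ^ p ^ e = M.mulVec x i) ∧ eval x Q ≠ 0 := by
  classical
  have hp : p.Prime := Fact.out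
  set q : ℕ := p ^ e with hqdef
  have hq : 2 ≤ q := le_trans hp.two_le (Nat.le_self_pow (by omega) p)
  set N : Matrix (Fin s) (Fin s) A := M ^ (r - 1) with hN
  have hMN : M * N = 1 := by
    rw [hN, ← pow_succ', Nat.sub_add_cancel hr, hMr]
  have hNr : N ^ r = 1 := by
    rw [hN, ← pow_mul, mul_comm, pow_mul, hMr, one_pow]
  let φ : A →+* A := iterateFrobenius A p e
  have hφ : ∀ a, φ a = a ^ q := fun a => iterateFrobenius_def (R := A) (p := p) (n := e) a
  have hMφ : φ.mapMatrix M = M := by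
    ext i j
    rw [RingHom.mapMatrix_apply, Matrix.map_apply, hφ, hM]
  have hNφ : ∀ k i j, φ ((N ^ k) i j) = (N ^ k) i j := by
    intro k i j
    have h1 : φ.mapMatrix (N ^ k) = N ^ k := by
      rw [map_pow, hN, map_pow, hMφ]
    calc φ ((N ^ k) i j) = (φ.mapMatrix (N ^ k)) i j := by
          rw [RingHom.mapMatrix_apply, Matrix.map_apply]
      _ = _ := by rw [h1]
  -- the finite field
  have hqr : 1 < q ^ r := Nat.one_lt_pow (by omega) (by omega)
  set R : Polynomial A := Polynomial.X ^ (q ^ r) - Polynomial.X with hR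
  have hRsep : R.Separable := galois_poly_separable p (q ^ r)
    (dvd_trans (dvd_pow_self p (by omega)) (dvd_pow_self q (by omega)))
  have hRdeg : R.natDegree = q ^ r := by
    rw [hR]
    exact FiniteField.X_pow_card_sub_X_natDegree_eq A hqr
  have hRne : R ≠ 0 := hRsep.ne_zero
  set S : Finset A := R.roots.toFinset with hS
  have hScard : S.card = q ^ r := by
    rw [hS, Multiset.toFinset_card_of_nodup (Polynomial.nodup_roots hRsep),
      IsAlgClosed.card_roots_eq_natDegree, hRdeg]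
  have hSmem : ∀ t ∈ S, t ^ (q ^ r) = t := by
    intro t ht
    rw [hS, Multiset.mem_toFinset, Polynomial.mem_roots hRne, Polynomial.IsRoot.def, hR,
      Polynomial.eval_sub, Polynomial.eval_pow, Polynomial.eval_X, sub_eq_zero] at ht
    exact ht
  obtain ⟨y, hyS, hy⟩ : ∃ y : Fin s → A, (∀ i, y i ∈ S) ∧
      eval y (eval₂ C (rgb1Z q r N) Q) ≠ 0 := by
    by_contra hcon
    push Not at hcon
    refine rgb1_ne_zero hq N hr Q hQ hQ0
      (eq_zero_of_eval_zero_at_prod_finset _ (fun _ => S) (fun l => ?_) hcon)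
    rw [hScard]
    refine (rgb1_degreeOf hq N Q hQ l).trans_lt ?_
    calc m * q ^ (r - 1) < q * q ^ (r - 1) :=
          Nat.mul_lt_mul_of_pos_right hm (Nat.pow_pos (by omega))
      _ = q ^ r := by rw [← pow_succ', Nat.sub_add_cancel hr]
  rw [rgb1_eval_P] at hy
  refine ⟨rgb1z q r N y, fun i => ?_, hy⟩
  -- the Frobenius
  set v : ℕ → Fin s → A := fun k j => y j ^ (q ^ k) with hv
  have hz : rgb1z q r N y = ∑ k ∈ Finset.range r, (N ^ k).mulVec (v k) := by
    funext i
    rw [Finset.sum_apply]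
    rfl
  have hzφ : (fun i => rgb1z q r N y i ^ q) =
      ∑ k ∈ Finset.range r, (N ^ k).mulVec (v (k + 1)) := by
    funext i
    rw [Finset.sum_apply, ← hφ]
    show φ (∑ k ∈ Finset.range r, ∑ j, (N ^ k) i j * y j ^ (q ^ k)) = _
    rw [map_sum]
    refine Finset.sum_congr rfl fun k _ => ?_
    rw [map_sum]
    refine Finset.sum_congr rfl fun j _ => ?_
    rw [map_mul, hNφ, hφ]
    have h6 : (y j ^ q ^ k) ^ q = v (k + 1) j := by
      show (y j ^ q ^ k) ^ q = y j ^ q ^ (k + 1)
      rw [← pow_mul]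
      congr 1
    rw [h6]
  have hMz : M.mulVec (rgb1z q r N y) = ∑ k ∈ Finset.range r, (N ^ k).mulVec (v (k + 1)) := by
    have h1 : ∀ k, (N ^ k).mulVec (v (k + 1)) = M.mulVec ((N ^ (k + 1)).mulVec (v (k + 1))) := by
      intro k
      rw [Matrix.mulVec_mulVec, pow_succ', ← mul_assoc, hMN, one_mul]
    have h2 : (N ^ r).mulVec (v r) = (N ^ 0).mulVec (v 0) := by
      rw [hNr, pow_zero]
      congr 1
      funext j
      show y j ^ (q ^ r) = y j ^ (q ^ 0)
      rw [hSmem _ (hyS j), pow_zero, pow_one]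
    have h3 : ∑ k ∈ Finset.range r, (N ^ (k + 1)).mulVec (v (k + 1)) =
        ∑ k ∈ Finset.range r, (N ^ k).mulVec (v k) := by
      have h4 := Finset.sum_range_succ (fun k => (N ^ k).mulVec (v k)) r
      have h5 := Finset.sum_range_succ' (fun k => (N ^ k).mulVec (v k)) r
      rw [h4] at h5
      rw [h2] at h5
      exact (add_right_cancel h5).symm
    rw [Finset.sum_congr rfl fun k _ => h1 k, ← Matrix.mulVec_sum, h3, hz]
  have := congrFun (hzφ.trans hMz.symm) i
  exact this

end Pool.Agent.H13.RG
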