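import Pool.Agent.H13.RG.Basic

/-!
# Project RG, RG-B5: the homomorphism of a regular point
-/

set_option autoImplicit false

open MvPolynomial NumberField IsDedekindDomain

namespace Pool.Agent.H13.RG

/-- automorphisms over `F` fix the coefficients -/
theorem rgb5_comp {F : Type} [Field F] {Ω : Type} [Field Ω] [Algebra F Ω] {N : ℕ}
    (σ : Ω ≃ₐ[F] Ω) : (σ : Ω →+* Ω).comp (iO F Ω N) = iO F Ω N := by
  ext a
  exact σ.commutes (a : F)

theorem exists_hom {F : Type} [Field F] {Ω : Type} [Field Ω] [Algebra F Ω]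
    {N s : ℕ} {G : Type} [Group G] [Fintype G] (I : Inv (RN F N) s G) (x : Fin s → Ω)
    (hx : ∀ i, ∃ a : F, I.fv (iO F Ω N) x i = algebraMap F Ω a)
    (hreg : ∀ g, I.act (iO F Ω N) g x = x → g = 1) :
    ∃ h : (Ω ≃ₐ[F] Ω) →* G, ∀ σ, (fun i => σ (x i)) = I.act (iO F Ω N) (h σ)⁻¹ x := by
  -- automorphisms commute with the action
  have hact : ∀ (σ : Ω ≃ₐ[F] Ω) (g : G) (y : Fin s → Ω),
      (fun i => σ (I.act (iO F Ω N) g y i)) = I.act (iO F Ω N) g (fun i => σ (y i)) := by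
    intro σ g y
    have h := act_map I (iO F Ω N) (σ : Ω →+* Ω) g y
    rw [rgb5_comp] at h
    exact h
  have hfix : ∀ σ : Ω ≃ₐ[F] Ω, I.fv (iO F Ω N) x = I.fv (iO F Ω N) (fun i => σ (x i)) := by
    intro σ
    have h := fv_map I (iO F Ω N) (σ : Ω →+* Ω) x
    rw [rgb5_comp] at h
    refine Eq.trans ?_ h
    funext i
    obtain ⟨a, ha⟩ := hx i
    change _ = σ (I.fv (iO F Ω N) x i)
    rw [ha, σ.commutes]
  have hex : ∀ σ : Ω ≃ₐ[F] Ω, ∃ g : G, (fun i => σ (x i)) = I.act (iO F Ω N) g⁻¹ x := by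
    intro σ
    obtain ⟨g, hg⟩ := orbit I (iO F Ω N) x (fun i => σ (x i)) (hfix σ)
    exact ⟨g⁻¹, by rw [inv_inv]; exact hg⟩
  choose h hh using hex
  -- uniqueness
  have huniq : ∀ a b : G, I.act (iO F Ω N) a x = I.act (iO F Ω N) b x → a = b := by
    intro a b hab
    have h1 : I.act (iO F Ω N) (b⁻¹ * a) x = x := by
      rw [act_mul, hab, ← act_mul, inv_mul_cancel, act_one]
    have h2 := hreg _ h1
    rwa [inv_mul_eq_one, eq_comm] at h2
  have hmul : ∀ σ τ : Ω ≃ₐ[F] Ω, h (σ * τ) = h σ * h τ := by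
    intro σ τ
    have h1 : I.act (iO F Ω N) (h (σ * τ))⁻¹ x = I.act (iO F Ω N) (h σ * h τ)⁻¹ x := by
      rw [← hh, mul_inv_rev, act_mul, ← hh σ, ← hact, ← hh τ]
      rfl
    exact inv_injective (huniq _ _ h1)
  have hone : h 1 = 1 := by
    have h1 := hmul 1 1
    rw [mul_one] at h1
    exact mul_eq_left.1 h1.symm
  exact ⟨{ toFun := h, map_one' := hone, map_mul' := hmul }, hh⟩

end Pool.Agent.H13.RG
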