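import Pool.Agent.H13.RG.Defs
import Pool.Agent.H41.Rel.Defs

/-!
# Project RG, file B2 (Place): places (ring homomorphisms on the algebraic integers of `Ω`)

`exists_over`: over every prime of `F` there is a place. `exists_embed`: a place over `p` can be
moved to any algebraically closed field containing `𝓞 F / p`. `exists_extN`: extension of a place to
the ring `𝓞_Ω[1/N]`.
-/

set_option autoImplicit false

open MvPolynomial NumberField IsDedekindDomain

namespace Pool.Agent.H13.RG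

section Place

variable {F : Type} [Field F] [NumberField F] {Ω : Type} [Field Ω] [Algebra F Ω]
  [IsAlgClosure F Ω] {N : ℕ}

/-- The inclusion of `𝓞_F` in the ring of the algebraic integers of `Ω`. -/
private def rgb2_emb (F Ω : Type) [Field F] [NumberField F] [Field Ω] [Algebra F Ω] :
    𝓞 F →+* integralClosure ℤ Ω :=
  ((algebraMap F Ω).comp (algebraMap (𝓞 F) F)).codRestrict (integralClosure ℤ Ω)
    (fun a => (a.isIntegral_coe).map (algebraMap F Ω).toIntAlgHom)

omit [IsAlgClosure F Ω] in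
private theorem rgb2_emb_coe (a : 𝓞 F) :
    ((rgb2_emb F Ω a : integralClosure ℤ Ω) : Ω) = algebraMap F Ω (a : F) := rfl

omit [IsAlgClosure F Ω] in
private theorem rgb2_emb_integral : (rgb2_emb F Ω).IsIntegral := by
  have h : ((rgb2_emb F Ω).comp (algebraMap ℤ (𝓞 F))).IsIntegral := by
    have h1 : (rgb2_emb F Ω).comp (algebraMap ℤ (𝓞 F)) =
        algebraMap ℤ (integralClosure ℤ Ω) := RingHom.ext_int _ _
    rw [h1]
    exact algebraMap_isIntegral_iff.mpr inferInstance
  exact RingHom.IsIntegral.tower_top _ _ h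

omit [IsAlgClosure F Ω] in
private theorem rgb2_emb_injective : Function.Injective (rgb2_emb F Ω) := by
  intro a b h
  have h1 : algebraMap F Ω (a : F) = algebraMap F Ω (b : F) := by
    rw [← rgb2_emb_coe, ← rgb2_emb_coe, h]
  exact RingOfIntegers.ext ((algebraMap F Ω).injective h1)

/-- Lifting of a map to an algebraically closed field from `O / m` to `S / P`. -/
private theorem rgb2_lift {O S A : Type} [CommRing O] [CommRing S] [Field A] [IsAlgClosed A]
    (ψ : O →+* S) (hψ : ψ.IsIntegral) (m : Ideal O) (hm : m.IsMaximal) (P : Ideal S)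
    (hP : P.IsPrime) (hc : P.comap ψ = m) (ι : O →+* A) (hι : ∀ a, ι a = 0 ↔ a ∈ m) :
    ∃ r' : S →+* A, (∀ y, r' y = 0 ↔ y ∈ P) ∧ ∀ a, r' (ψ a) = ι a := by
  have hmap : ∀ a : O, a ∈ m → ((Ideal.Quotient.mk P).comp ψ) a = 0 := by
    intro a ha
    rw [RingHom.comp_apply, Ideal.Quotient.eq_zero_iff_mem, ← Ideal.mem_comap, hc]
    exact ha
  let φ : (O ⧸ m) →+* (S ⧸ P) := Ideal.Quotient.lift m ((Ideal.Quotient.mk P).comp ψ) hmap
  let ι' : (O ⧸ m) →+* A := Ideal.Quotient.lift m ι (fun a ha => (hι a).mpr ha)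
  let : Field (O ⧸ m) := Ideal.Quotient.field m
  have hφint : φ.IsIntegral := by
    have h1 : (φ.comp (Ideal.Quotient.mk m)).IsIntegral := by
      have h2 : φ.comp (Ideal.Quotient.mk m) = (Ideal.Quotient.mk P).comp ψ := by
        ext a
        rfl
      rw [h2]
      exact RingHom.IsIntegral.trans _ _ hψ
        (RingHom.isIntegral_of_surjective _ Ideal.Quotient.mk_surjective)
    exact RingHom.IsIntegral.tower_top _ _ h1
  let : Algebra (O ⧸ m) (S ⧸ P) := φ.toAlgebra
  let : Algebra (O ⧸ m) A := ι'.toAlgebra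
  have : Algebra.IsIntegral (O ⧸ m) (S ⧸ P) := algebraMap_isIntegral_iff.mp hφint
  have hL : IsField (S ⧸ P) := isField_of_isIntegral_of_isField' (Field.toIsField (O ⧸ m))
  have hφinj : Function.Injective (algebraMap (O ⧸ m) (S ⧸ P)) := RingHom.injective _
  have hιinj : Function.Injective (algebraMap (O ⧸ m) A) := RingHom.injective _
  have : Module.IsTorsionFree (O ⧸ m) (S ⧸ P) :=
    Module.isTorsionFree_iff_algebraMap_injective.mpr hφinj
  have : Module.IsTorsionFree (O ⧸ m) A :=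
    Module.isTorsionFree_iff_algebraMap_injective.mpr hιinj
  let g : (S ⧸ P) →ₐ[O ⧸ m] A := IsAlgClosed.lift
  have hg : ∀ y : S ⧸ P, g y = 0 ↔ y = 0 := by
    intro y
    refine ⟨fun h => ?_, fun h => by rw [h, map_zero]⟩
    by_contra hy
    obtain ⟨z, hz⟩ := hL.mul_inv_cancel hy
    have h1 : g (y * z) = 1 := by rw [hz, map_one]
    rw [map_mul, h, zero_mul] at h1
    exact zero_ne_one h1
  refine ⟨(g : (S ⧸ P) →+* A).comp (Ideal.Quotient.mk P), ?_, ?_⟩
  · intro y
    rw [← Ideal.Quotient.eq_zero_iff_mem]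
    exact hg _
  · intro a
    exact g.commutes (Ideal.Quotient.mk m a)

theorem exists_over (p : HeightOneSpectrum (𝓞 F)) :
    ∃ (κ : Type) (_ : Field κ) (r : integralClosure ℤ Ω →+* κ), Pool.Agent.H41.Rel.Over p r := by
  let : Algebra (𝓞 F) (integralClosure ℤ Ω) := (rgb2_emb F Ω).toAlgebra
  have : Algebra.IsIntegral (𝓞 F) (integralClosure ℤ Ω) :=
    algebraMap_isIntegral_iff.mp rgb2_emb_integral
  have := p.isMaximal
  obtain ⟨Q, hQ, hQp⟩ := Ideal.exists_ideal_over_maximal_of_isIntegral (S := integralClosure ℤ Ω)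
    p.asIdeal (by
      have : RingHom.ker (algebraMap (𝓞 F) (integralClosure ℤ Ω)) = ⊥ :=
        (RingHom.injective_iff_ker_eq_bot _).mp rgb2_emb_injective
      rw [this]
      exact bot_le)
  let : Field (integralClosure ℤ Ω ⧸ Q) := Ideal.Quotient.field Q
  refine ⟨integralClosure ℤ Ω ⧸ Q, inferInstance, Ideal.Quotient.mk Q, ?_⟩
  intro y z hz
  have h1 : z = rgb2_emb F Ω y := Subtype.ext hz
  rw [Ideal.Quotient.eq_zero_iff_mem, ← hQp, Ideal.mem_comap, h1]
  rfl

/-- a place over `p` can be moved to any algebraically closed field containing `𝓞 F / p` -/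
theorem exists_embed (p : HeightOneSpectrum (𝓞 F)) {κ : Type} [Field κ]
    (r : integralClosure ℤ Ω →+* κ) (hr : Pool.Agent.H41.Rel.Over p r) {A : Type} [Field A]
    [IsAlgClosed A] (ι : 𝓞 F →+* A) (hι : ∀ a : 𝓞 F, ι a = 0 ↔ a ∈ p.asIdeal) :
    ∃ r' : integralClosure ℤ Ω →+* A, (∀ y, r' y = 0 ↔ r y = 0) ∧
      ∀ (a : 𝓞 F) (z : integralClosure ℤ Ω), (z : Ω) = algebraMap F Ω (a : F) → r' z = ι a := by
  have hcomap : (RingHom.ker r).comap (rgb2_emb F Ω) = p.asIdeal := by
    ext a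
    rw [Ideal.mem_comap, RingHom.mem_ker]
    exact hr a (rgb2_emb F Ω a) (rgb2_emb_coe a)
  obtain ⟨r', h1, h2⟩ := rgb2_lift (rgb2_emb F Ω) rgb2_emb_integral p.asIdeal p.isMaximal
    (RingHom.ker r) (RingHom.ker_isPrime r) hcomap ι hι
  refine ⟨r', fun y => (h1 y).trans RingHom.mem_ker, ?_⟩
  intro a z hz
  have hz' : z = rgb2_emb F Ω a := Subtype.ext hz
  rw [hz', h2]

omit [IsAlgClosure F Ω] in
/-- extension to `𝓞_Ω[1/N]` -/
theorem exists_extN {A : Type} [Field A] (r : integralClosure ℤ Ω →+* A) (hN : (N : A) ≠ 0) :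
    ∃ w : RN Ω N →+* A, ∀ (a : integralClosure ℤ Ω) (y : RN Ω N), (y : Ω) = (a : Ω) →
      w y = r a := by
  choose! j hj using fun y : RN Ω N => y.2
  let w₀ : RN Ω N → A := fun y => r ⟨(N : Ω) ^ j y * (y : Ω), hj y⟩ / (N : A) ^ j y
  have key : ∀ (y : RN Ω N) (i : ℕ) (a : integralClosure ℤ Ω), (a : Ω) = (N : Ω) ^ i * (y : Ω) →
      w₀ y = r a / (N : A) ^ i := by
    intro y i a ha
    have h1 : (N : integralClosure ℤ Ω) ^ i * ⟨(N : Ω) ^ j y * (y : Ω), hj y⟩ =
        (N : integralClosure ℤ Ω) ^ j y * a := by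
      apply Subtype.ext
      push_cast
      rw [ha]
      ring
    have h2 := congrArg r h1
    rw [map_mul, map_mul, map_pow, map_pow, map_natCast] at h2
    show r _ / _ = _
    rw [div_eq_div_iff (pow_ne_zero _ hN) (pow_ne_zero _ hN), mul_comm, h2, mul_comm]
  have key' : ∀ (y : RN Ω N), ∃ (i : ℕ) (a : integralClosure ℤ Ω),
      (a : Ω) = (N : Ω) ^ i * (y : Ω) ∧ w₀ y = r a / (N : A) ^ i :=
    fun y => ⟨j y, ⟨_, hj y⟩, rfl, rfl⟩
  have hone : w₀ 1 = 1 := by
    rw [key 1 0 1 (by simp)]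
    simp
  have hzero : w₀ 0 = 0 := by
    rw [key 0 0 0 (by simp)]
    simp
  have hmul : ∀ x y, w₀ (x * y) = w₀ x * w₀ y := by
    intro x y
    obtain ⟨i, a, ha, hwa⟩ := key' x
    obtain ⟨k, b, hb, hwb⟩ := key' y
    rw [hwa, hwb, key (x * y) (i + k) (a * b) (by push_cast; rw [ha, hb]; ring), map_mul, pow_add,
      div_mul_div_comm]
  have hadd : ∀ x y, w₀ (x + y) = w₀ x + w₀ y := by
    intro x y
    obtain ⟨i, a, ha, hwa⟩ := key' x
    obtain ⟨k, b, hb, hwb⟩ := key' y
    rw [hwa, hwb, key (x + y) (i + k) ((N : integralClosure ℤ Ω) ^ k * a + N ^ i * b)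
      (by push_cast; rw [ha, hb]; ring), map_add, map_mul, map_mul, map_pow, map_pow, map_natCast,
      div_add_div _ _ (pow_ne_zero _ hN) (pow_ne_zero _ hN), pow_add]
    congr 1
    ring
  refine ⟨{ toFun := w₀, map_one' := hone, map_mul' := hmul, map_zero' := hzero,
            map_add' := hadd }, ?_⟩
  intro a y hy
  show w₀ y = r a
  rw [key y 0 a (by rw [hy]; simp)]
  simp

end Place

end Pool.Agent.H13.RG
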