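import Pool.Agent.H13.RG.Defs
import Pool.Agent.H13.RG.Basic
import Pool.Agent.H13.RG.Integ
import Pool.Agent.H13.RG.FrobPoint
import Pool.Agent.H13.RG.Place

/-!
# Project RG, row B4: the local lemma

A congruence modulo a good prime forces the conjugacy class of the Frobenius.
-/

set_option autoImplicit false

open MvPolynomial NumberField IsDedekindDomain

namespace Pool.Agent.H13.RG

section Nonsing

variable {R : Type} [CommRing R] {s : ℕ} {G : Type} [Group G] [Fintype G]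

theorem rgb4_eval_msub {E : Type} [CommRing E] (φ : R →+* E) (A : Matrix (Fin s) (Fin s) R)
    (x : Fin s → E) (p : MvPolynomial (Fin s) R) :
    eval₂ φ x (msub A p) = eval₂ φ ((A.map φ).mulVec x) p := by
  have h : (eval₂Hom φ x).comp (msub A).toRingHom = eval₂Hom φ ((A.map φ).mulVec x) := by
    apply MvPolynomial.ringHom_ext
    · intro r
      simp [msub]
    · intro i
      simp [msub, Matrix.mulVec, dotProduct]
  exact congrArg (fun f => f p) h

theorem rgb4_lin {E : Type} [CommRing E] (φ : R →+* E) (A : Matrix (Fin s) (Fin s) R) (i : Fin s)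
    (x : Fin s → E) : eval₂ φ x (∑ j, C (A i j) * X j) = (A.map φ).mulVec x i := by
  simp [Matrix.mulVec, dotProduct]

theorem rgb4_lin_ne (A : Matrix (Fin s) (Fin s) R) (i j : Fin s) (h : A i j ≠ 0) :
    (∑ j', C (A i j') * X j' : MvPolynomial (Fin s) R) ≠ 0 := by
  classical
  intro h0
  have h1 := congrArg (coeff (Finsupp.single j 1)) h0
  simp only [coeff_sum, coeff_C_mul, coeff_X, coeff_zero] at h1
  rw [Finset.sum_eq_single j] at h1
  · rw [if_pos rfl, mul_one] at h1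
    exact h h1
  · intro b _ hb
    rw [if_neg, mul_zero]
    intro h2
    exact hb (Finsupp.single_left_injective one_ne_zero h2)
  · intro h2
    exact absurd (Finset.mem_univ _) h2

theorem rgb4_msub_ne [IsDomain R] (I : Inv R s G) (a : G) {p : MvPolynomial (Fin s) R}
    (hp : p ≠ 0) : msub (I.ρ a) p ≠ 0 := by
  intro h0
  apply hp
  -- evaluate at the point `ρ(a⁻¹) X`
  have h1 : eval₂ (C : R →+* MvPolynomial (Fin s) R) (I.act C a⁻¹ X) (msub (I.ρ a) p) = 0 := by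
    rw [h0, eval₂_zero]
  rw [rgb4_eval_msub] at h1
  have h2 : ((I.ρ a).map (C : R →+* MvPolynomial (Fin s) R)).mulVec (I.act C a⁻¹ X) = X := by
    have := act_mul I (C : R →+* MvPolynomial (Fin s) R) a a⁻¹ X
    rw [mul_inv_cancel, act_one] at this
    exact this.symm
  rw [h2, eval₂_eta] at h1
  exact h1

/-- a homogeneous polynomial whose non-vanishing controls everything -/
theorem rgb4_nonsing [IsDomain R] (I : Inv R s G) (hI : ∀ g, I.ρ g = 1 → g = 1) {m : ℕ}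
    (Q : MvPolynomial (Fin s) R) (hQ : Q.IsHomogeneous m) (hQ0 : Q ≠ 0) :
    ∃ (P : MvPolynomial (Fin s) R) (D : ℕ), P.IsHomogeneous D ∧ P ≠ 0 ∧
      ∀ (E : Type) [Field E] (φ : R →+* E) (x : Fin s → E), eval₂ φ x P ≠ 0 →
        ∀ a : G, eval₂ φ (I.act φ a x) Q ≠ 0 ∧
          ∀ b : G, I.act φ b (I.act φ a x) = I.act φ a x → b = 1 := by
  classical
  have hex : ∀ h : {h : G // h ≠ 1}, ∃ i j, (I.ρ h.1 - 1) i j ≠ 0 := by
    intro h
    by_contra hcon
    push Not at hcon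
    apply h.2
    apply hI
    rw [← sub_eq_zero]
    ext i j
    exact hcon i j
  choose i j hij using hex
  obtain ⟨l, hl⟩ : ∃ l : {h : G // h ≠ 1} → MvPolynomial (Fin s) R,
      ∀ h, l h = ∑ j', C ((I.ρ h.1 - 1) (i h) j') * X j' := ⟨_, fun _ => rfl⟩
  have hlhom : ∀ h, (l h).IsHomogeneous 1 := fun h => by
    rw [hl]
    exact IsHomogeneous.sum _ _ _ fun j' _ => isHomogeneous_C_mul_X _ _
  have hl0 : ∀ h, l h ≠ 0 := by
    intro h
    rw [hl]
    exact rgb4_lin_ne _ _ _ (hij h)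
  have hleval : ∀ (E : Type) [Field E] (φ : R →+* E) (x : Fin s → E) (h : {h : G // h ≠ 1}),
      I.act φ h.1 x = x → eval₂ φ x (l h) = 0 := by
    intro E _ φ x h hx
    rw [hl, rgb4_lin, Matrix.map_sub φ (map_sub φ), Matrix.sub_mulVec, Matrix.map_one φ (map_zero φ) (map_one φ),
      Matrix.one_mulVec, Pi.sub_apply]
    have h1 : ((I.ρ h.1).map φ).mulVec x (i h) = x (i h) := congrFun hx (i h)
    rw [h1, sub_self]
  set P0 : MvPolynomial (Fin s) R := Q * ∏ h, l h with hP0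
  have hP0hom : P0.IsHomogeneous (m + ∑ _h : {h : G // h ≠ 1}, 1) :=
    hQ.mul (IsHomogeneous.prod _ _ _ fun h _ => hlhom h)
  have hP00 : P0 ≠ 0 := mul_ne_zero hQ0 (Finset.prod_ne_zero_iff.mpr fun h _ => hl0 h)
  refine ⟨∏ a, msub (I.ρ a) P0, _, IsHomogeneous.prod _ _ _ fun a _ =>
    msub_homogeneous (I.ρ a) hP0hom, Finset.prod_ne_zero_iff.mpr fun a _ => rgb4_msub_ne I a hP00,
    ?_⟩
  intro E _ φ x hx a
  have h1 : eval₂ φ (I.act φ a x) P0 ≠ 0 := by
    have h2 : eval₂ φ x (msub (I.ρ a) P0) ≠ 0 := by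
      intro h3
      apply hx
      have h4 : eval₂ φ x (∏ a, msub (I.ρ a) P0) = ∏ a, eval₂ φ x (msub (I.ρ a) P0) :=
        map_prod (eval₂Hom φ x) _ _
      rw [h4]
      exact Finset.prod_eq_zero (Finset.mem_univ a) h3
    rwa [rgb4_eval_msub] at h2
  rw [hP0, eval₂_mul] at h1
  refine ⟨left_ne_zero_of_mul h1, fun b hb => ?_⟩
  by_contra hb1
  apply right_ne_zero_of_mul h1
  have h4 : eval₂ φ (I.act φ a x) (∏ h, l h) = ∏ h, eval₂ φ (I.act φ a x) (l h) :=
    map_prod (eval₂Hom φ (I.act φ a x)) _ _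
  rw [h4]
  exact Finset.prod_eq_zero (Finset.mem_univ ⟨b, hb1⟩) (hleval E φ _ ⟨b, hb1⟩ hb)

end Nonsing

section Uniq

variable {F : Type} [Field F] {Ω : Type} [Field Ω] [Algebra F Ω] {N : ℕ}

theorem rgb4_natCast (y : ℕ) : ((y : RN F N) : F) = (y : F) := by
  simp

/-- a ring hom on `𝓞_F[1/N]` is determined by its values on `𝓞_F` -/
theorem rgb4_ext {A : Type} [Field A] (hN : (N : A) ≠ 0) (φ ψ : RN F N →+* A)
    (h : ∀ a : 𝓞 F, φ (inO F N a) = ψ (inO F N a)) : φ = ψ := by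
  ext ⟨a, j, hj⟩
  have h1 : ((N : RN F N) ^ j * ⟨a, j, hj⟩ : RN F N) = inO F N ⟨(N : F) ^ j * a, hj⟩ := by
    apply Subtype.ext
    simp [inO]
  have h2 := h ⟨(N : F) ^ j * a, hj⟩
  rw [← h1, map_mul, map_mul, map_pow, map_pow, map_natCast, map_natCast] at h2
  exact mul_left_cancel₀ (pow_ne_zero _ hN) h2

/-- the Frobenius property extends to `𝓞_Ω[1/N]` -/
theorem rgb4_frob {A : Type} [Field A] (hN : (N : A) ≠ 0) {q : ℕ} (hq : (N : A) ^ q = N)
    (r : integralClosure ℤ Ω →+* A) (w : RN Ω N →+* A)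
    (hw : ∀ (a : integralClosure ℤ Ω) (y : RN Ω N), (y : Ω) = (a : Ω) → w y = r a)
    (σ : Ω ≃ₐ[F] Ω) (hσ : Pool.Agent.H41.Rel.IsFrob r σ q) (y y' : RN Ω N)
    (hy : (y' : Ω) = σ (y : Ω)) : w y' = w y ^ q := by
  obtain ⟨y, j, hj⟩ := y
  simp only at hy
  have hj' : IsIntegral ℤ (σ ((N : Ω) ^ j * y)) := hj.map (σ : Ω →+* Ω).toIntAlgHom
  have h1 := hσ ⟨(N : Ω) ^ j * y, hj⟩ ⟨σ ((N : Ω) ^ j * y), hj'⟩ rfl
  rw [← hw ⟨(N : Ω) ^ j * y, hj⟩ ((N : RN Ω N) ^ j * ⟨y, j, hj⟩) (by simp),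
    ← hw ⟨σ ((N : Ω) ^ j * y), hj'⟩ ((N : RN Ω N) ^ j * y') (by
      simp [hy]), map_mul, map_mul, map_pow, map_natCast, mul_pow, ← pow_mul, mul_comm j q,
      pow_mul, hq] at h1
  exact mul_left_cancel₀ (pow_ne_zero _ hN) h1

theorem rgb4_comp : (RN Ω N).subtype.comp (iN F Ω N) = iO F Ω N := by
  ext a
  rfl

theorem rgb4_inO (a : 𝓞 F) : ((iN F Ω N (inO F N a) : RN Ω N) : Ω) = algebraMap F Ω (a : F) := rfl

end Uniq

/-- elements of `A` fixed by the `q`-Frobenius come from the field with `q` elements -/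
theorem rgb4_fixed {k A : Type} [Field k] [Fintype k] [Field A] (ι : k →+* A) (t : A)
    (ht : t ^ Fintype.card k = t) : ∃ a : k, ι a = t := by
  classical
  have hq : 1 < Fintype.card k := Fintype.one_lt_card
  have h0 : (Polynomial.X ^ Fintype.card k - Polynomial.X : Polynomial k) ≠ 0 :=
    FiniteField.X_pow_card_sub_X_ne_zero k hq
  have h1 : (Polynomial.X ^ Fintype.card k - Polynomial.X : Polynomial k).roots.card =
      (Polynomial.X ^ Fintype.card k - Polynomial.X : Polynomial k).natDegree := by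
    rw [FiniteField.roots_X_pow_card_sub_X, FiniteField.X_pow_card_sub_X_natDegree_eq k hq]
    rfl
  have h2 := Polynomial.C_leadingCoeff_mul_prod_multiset_X_sub_C h1
  rw [FiniteField.roots_X_pow_card_sub_X] at h2
  have h3 := congrArg (Polynomial.eval₂ ι t) h2
  rw [Polynomial.eval₂_mul, Polynomial.eval₂_C] at h3
  have h4 : Polynomial.eval₂ ι t (Multiset.map (fun a => Polynomial.X - Polynomial.C a)
      (Finset.univ : Finset k).val).prod = ∏ a : k, (t - ι a) := by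
    have h5 : (Multiset.map (fun a => Polynomial.X - Polynomial.C a)
      (Finset.univ : Finset k).val).prod = ∏ a : k, (Polynomial.X - Polynomial.C a) := rfl
    rw [h5, Polynomial.eval₂_finset_prod]
    simp
  rw [h4] at h3
  have h6 : Polynomial.eval₂ ι t
      (Polynomial.X ^ Fintype.card k - Polynomial.X : Polynomial k) = 0 := by
    simp [Polynomial.eval₂_sub, ht]
  rw [h6, mul_eq_zero] at h3
  rcases h3 with h3 | h3
  · exact absurd ((map_eq_zero ι).mp h3) (Polynomial.leadingCoeff_ne_zero.mpr h0)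
  · obtain ⟨a, -, ha⟩ := Finset.prod_eq_zero_iff.mp h3
    exact ⟨a, (sub_eq_zero.mp ha).symm⟩

section Prime

variable {F : Type} [Field F] [NumberField F]

theorem rgb4_notMem (b : 𝓞 F) (hb : b ≠ 0) (p : HeightOneSpectrum (𝓞 F))
    (h : Ideal.absNorm (Ideal.span {b}) < Ideal.absNorm p.asIdeal) : b ∉ p.asIdeal := by
  intro hmem
  have h1 : Ideal.span {b} ≤ p.asIdeal := by
    rw [Ideal.span_singleton_le_iff_mem]
    exact hmem
  have h2 := Ideal.absNorm_dvd_absNorm_of_le h1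
  have h3 : 0 < Ideal.absNorm (Ideal.span {b}) := by
    rw [Nat.pos_iff_ne_zero, Ideal.absNorm_ne_zero_iff]
    exact Ring.HasFiniteQuotients.finiteQuotient (by
      rw [Ne, Ideal.span_singleton_eq_bot]
      exact hb)
  exact absurd (Nat.le_of_dvd h3 h2) (not_le.mpr h)

theorem rgb4_finite (K : ℕ) :
    {p : HeightOneSpectrum (𝓞 F) | Ideal.absNorm p.asIdeal ≤ K}.Finite := by
  refine Set.Finite.subset ((Ideal.finite_setOfPred_absNorm_le (S := 𝓞 F) K).preimage
    (f := fun p : HeightOneSpectrum (𝓞 F) => p.asIdeal) ?_) ?_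
  · intro p _ p' _ h
    exact HeightOneSpectrum.ext h
  · intro p hp
    exact hp

end Prime

theorem local_class {F : Type} [Field F] [NumberField F] {Ω : Type} [Field Ω] [Algebra F Ω]
    [IsAlgClosure F Ω] {N s m : ℕ} (hN : 0 < N) {G : Type} [Group G] [Fintype G]
    (I : Inv (RN F N) s G) (hI : ∀ g, I.ρ g = 1 → g = 1) (Q : MvPolynomial (Fin s) (RN F N))
    (hQ : Q.IsHomogeneous m) (hQ0 : Q ≠ 0) :
    ∃ Bad : Finset (HeightOneSpectrum (𝓞 F)), ∀ p ∉ Bad,
      ∀ g : G, ∃ u₀ : Fin s → 𝓞 F, ∀ u : Fin s → 𝓞 F, (∀ i, u i - u₀ i ∈ p.asIdeal) →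
      ∀ x : Fin s → Ω, I.fv (iO F Ω N) x = (fun i => algebraMap F Ω (u i : F)) →
        eval₂ (iO F Ω N) x Q ≠ 0 ∧ (∀ a, I.act (iO F Ω N) a x = x → a = 1) ∧
        ∀ (κ : Type) [Field κ] (r : integralClosure ℤ Ω →+* κ) (σ : Ω ≃ₐ[F] Ω),
          Pool.Agent.H41.Rel.Over p r →
          Pool.Agent.H41.Rel.IsFrob r σ (Ideal.absNorm p.asIdeal) →
            ∃ a : G, (fun i => σ (x i)) = I.act (iO F Ω N) (a * g⁻¹ * a⁻¹) x := by
  classical
  obtain ⟨P, D, hPhom, hP0, hP⟩ := rgb4_nonsing I hI Q hQ hQ0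
  -- a non-zero coefficient
  obtain ⟨t, ht⟩ := MvPolynomial.ne_zero_iff.mp hP0
  obtain ⟨c0, hc0⟩ : ∃ c0 : RN F N, c0 = coeff t P := ⟨_, rfl⟩
  rw [← hc0] at ht
  obtain ⟨c, j, hcj⟩ := c0
  have hc : c ≠ 0 := fun h => ht (Subtype.ext h)
  have hNF : (N : F) ≠ 0 := by exact_mod_cast hN.ne'
  obtain ⟨b, hb⟩ : ∃ b : 𝓞 F, (b : F) = (N : F) ^ j * c := ⟨⟨(N : F) ^ j * c, hcj⟩, rfl⟩
  have hb0 : b ≠ 0 := by
    intro h0
    have h1 : (b : F) = 0 := by rw [h0]; rfl
    rw [hb] at h1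
    exact mul_ne_zero (pow_ne_zero _ hNF) hc h1
  have hN𝓞 : (N : 𝓞 F) ≠ 0 := by exact_mod_cast hN.ne'
  set K : ℕ := D + Ideal.absNorm (Ideal.span {b}) + Ideal.absNorm (Ideal.span {(N : 𝓞 F)}) with hK
  refine ⟨(rgb4_finite (F := F) K).toFinset, fun p hp g => ?_⟩
  rw [Set.Finite.mem_toFinset] at hp
  have hp' : K < Ideal.absNorm p.asIdeal := not_le.mp hp
  have hbp : b ∉ p.asIdeal := rgb4_notMem b hb0 p (by omega)
  have hNp : (N : 𝓞 F) ∉ p.asIdeal := rgb4_notMem _ hN𝓞 p (by omega)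
  have hDq : D < Ideal.absNorm p.asIdeal := by omega
  -- the residue field
  have hmax : p.asIdeal.IsMaximal := p.isMaximal
  let kp : Type := 𝓞 F ⧸ p.asIdeal
  let _ : Field kp := Ideal.Quotient.field p.asIdeal
  have hfin : Finite kp := Ring.HasFiniteQuotients.finiteQuotient p.ne_bot
  let _ : Fintype kp := Fintype.ofFinite kp
  have hcard : Fintype.card kp = Ideal.absNorm p.asIdeal := by
    rw [← Nat.card_eq_fintype_card]
    rfl
  let A : Type := AlgebraicClosure kp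
  let ι : 𝓞 F →+* A := (algebraMap kp A).comp (Ideal.Quotient.mk p.asIdeal)
  have hι : ∀ a : 𝓞 F, ι a = 0 ↔ a ∈ p.asIdeal := by
    intro a
    rw [RingHom.comp_apply, map_eq_zero, Ideal.Quotient.eq_zero_iff_mem]
  set q := Ideal.absNorm p.asIdeal with hq
  have hιq : ∀ a : 𝓞 F, ι a ^ q = ι a := by
    intro a
    rw [RingHom.comp_apply, ← map_pow, ← hcard, FiniteField.pow_card]
  have hNA : (N : A) ≠ 0 := by
    intro h0
    apply hNp
    rw [← hι, map_natCast]
    exact h0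
  have hNq : (N : A) ^ q = N := by
    have := hιq (N : 𝓞 F)
    rwa [map_natCast] at this
  -- places with values in `A`
  have hz : ∀ a : 𝓞 F, IsIntegral ℤ (algebraMap F Ω (a : F)) := fun a =>
    a.isIntegral_coe.map (algebraMap F Ω).toIntAlgHom
  have key : ∀ (κ : Type) [Field κ] (r : integralClosure ℤ Ω →+* κ),
      Pool.Agent.H41.Rel.Over p r → ∃ (r' : integralClosure ℤ Ω →+* A) (w : RN Ω N →+* A),
        (∀ y, r' y = 0 ↔ r y = 0) ∧
        (∀ (a : integralClosure ℤ Ω) (y : RN Ω N), (y : Ω) = (a : Ω) → w y = r' a) ∧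
        ∀ a : 𝓞 F, w (iN F Ω N (inO F N a)) = ι a := by
    intro κ _ r hr
    obtain ⟨r', h1, h2⟩ := exists_embed p r hr ι hι
    obtain ⟨w, hw⟩ := exists_extN (Ω := Ω) (N := N) r' hNA
    refine ⟨r', w, h1, hw, fun a => ?_⟩
    rw [hw ⟨algebraMap F Ω (a : F), hz a⟩ _ rfl]
    exact h2 a _ rfl
  -- the reference place
  obtain ⟨κ₀, _, r₀, hr₀⟩ := exists_over (Ω := Ω) p
  obtain ⟨r₀', w₀, -, -, hw₀⟩ := key κ₀ r₀ hr₀
  obtain ⟨φ, hφ⟩ : ∃ φ : RN F N →+* A, φ = w₀.comp (iN F Ω N) := ⟨_, rfl⟩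
  have hφι : ∀ a : 𝓞 F, φ (inO F N a) = ι a := fun a => by rw [hφ]; exact hw₀ a
  have huniq : ∀ w : RN Ω N →+* A, (∀ a : 𝓞 F, w (iN F Ω N (inO F N a)) = ι a) →
      w.comp (iN F Ω N) = φ := by
    intro w hw
    exact rgb4_ext hNA _ _ fun a => by rw [hφι]; exact hw a
  -- Frobenius on `A`
  obtain ⟨p0, hp0⟩ := CharP.exists kp
  obtain ⟨n, hprime, hn⟩ := FiniteField.card kp p0
  have : Fact p0.Prime := ⟨hprime⟩
  have hchA : CharP A p0 := charP_of_injective_algebraMap (algebraMap kp A).injective p0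
  have hqp : p0 ^ (n : ℕ) = q := by rw [← hn, hcard]
  let Fr : A →+* A := iterateFrobenius A p0 n
  have hFr : ∀ y : A, Fr y = y ^ q := fun y => by
    rw [← hqp]
    exact iterateFrobenius_def p0 n y
  have hFrφ : Fr.comp φ = φ := rgb4_ext hNA _ _ fun a => by
    rw [RingHom.comp_apply, hφι, hFr, hιq]
  have hφq : ∀ a : RN F N, φ a ^ q = φ a := fun a => by
    rw [← hFr]
    exact congrArg (fun f => f a) hFrφ
  -- the special point
  have hmat : ∀ k : ℕ, ((I.ρ g⁻¹).map φ) ^ k = ((I.ρ g⁻¹) ^ k).map φ := fun k =>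
    (map_pow φ.mapMatrix (I.ρ g⁻¹) k).symm
  obtain ⟨xg, hxg, hPxg⟩ := exists_frob_point (A := A) p0 (e := n) (m := D)
    (r := Fintype.card G) n.pos ((I.ρ g⁻¹).map φ)
    (fun i j => by rw [hqp, Matrix.map_apply, hφq]) Fintype.card_pos
    (by
      rw [hmat, ← map_pow, pow_card_eq_one, map_one]
      exact Matrix.map_one φ (map_zero φ) (map_one φ))
    (MvPolynomial.map φ P) (hPhom.map φ)
    (by
      intro h0
      have h1 : coeff t (MvPolynomial.map φ P) = 0 := by rw [h0, coeff_zero]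
      rw [coeff_map, ← hc0] at h1
      have h2 : ((N : RN F N) ^ j * ⟨c, j, hcj⟩ : RN F N) = inO F N b := by
        apply Subtype.ext
        simp [inO, hb]
      have h3 : φ (inO F N b) = 0 := by rw [← h2, map_mul, h1, mul_zero]
      rw [hφι, hι] at h3
      exact hbp h3)
    (by rw [hqp]; exact hDq)
  rw [hqp] at hxg
  have hxg' : (fun i => Fr (xg i)) = I.act φ g⁻¹ xg := by
    funext i
    rw [hFr, hxg]
    rfl
  rw [eval_map] at hPxg
  have hPx := hP A φ xg hPxg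
  -- the residue class
  have hfix : ∀ i, I.fv φ xg i ^ q = I.fv φ xg i := by
    intro i
    rw [← hFr]
    have h1 := congrFun (fv_map I φ Fr xg) i
    rw [hFrφ, hxg', fv_act] at h1
    exact h1
  have hlift : ∀ i, ∃ a : 𝓞 F, ι a = I.fv φ xg i := by
    intro i
    obtain ⟨a, ha⟩ := rgb4_fixed (algebraMap kp A) (I.fv φ xg i) (by rw [hcard]; exact hfix i)
    obtain ⟨a', rfl⟩ := Ideal.Quotient.mk_surjective a
    exact ⟨a', ha⟩
  choose u₀ hu₀ using hlift
  refine ⟨u₀, fun u hu x hx => ?_⟩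
  obtain ⟨J, hJ⟩ := exists_J (Ω := Ω) hN I
  have hxint : ∀ i, x i ∈ RN Ω N := by
    intro i
    refine ⟨J, hJ x (fun i => ?_) i⟩
    rw [hx]
    exact hz (u i)
  obtain ⟨x', hx'⟩ : ∃ x' : Fin s → RN Ω N, ∀ i, (x' i : Ω) = x i :=
    ⟨fun i => ⟨x i, hxint i⟩, fun i => rfl⟩
  have hx'' : (fun i => (RN Ω N).subtype (x' i)) = x := funext hx'
  have hfv : I.fv (iN F Ω N) x' = fun i => iN F Ω N (inO F N (u i)) := by
    funext i
    apply Subtype.ext
    have h1 := congrFun (fv_map I (iN F Ω N) (RN Ω N).subtype x') i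
    rw [rgb4_comp, hx'', hx] at h1
    exact h1
  have main : ∀ w : RN Ω N →+* A, (∀ a : 𝓞 F, w (iN F Ω N (inO F N a)) = ι a) →
      ∃ a : G, (fun i => w (x' i)) = I.act φ a xg := by
    intro w hw
    apply orbit
    have h1 := fv_map I (iN F Ω N) w x'
    rw [huniq w hw, hfv] at h1
    rw [← h1]
    funext i
    simp only
    rw [hw, ← hu₀, ← sub_eq_zero, ← map_sub, hι]
    have := hu i
    rw [← neg_sub]
    exact p.asIdeal.neg_mem this
  have hact : ∀ b : G, I.act (iO F Ω N) b x =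
      fun i => ((I.act (iN F Ω N) b x' i : RN Ω N) : Ω) := by
    intro b
    have h1 := act_map I (iN F Ω N) (RN Ω N).subtype b x'
    rw [rgb4_comp, hx''] at h1
    exact h1.symm
  obtain ⟨a₀, ha₀⟩ := main w₀ hw₀
  refine ⟨?_, ?_, ?_⟩
  · intro h0
    apply (hPx a₀).1
    have h1 : eval₂ φ (fun i => w₀ (x' i)) Q = w₀ (eval₂ (iN F Ω N) x' Q) := by
      rw [hφ]
      exact (MvPolynomial.eval₂_comp_left w₀ (iN F Ω N) x' Q).symm
    rw [← ha₀, h1]
    have h2 : eval₂ (iN F Ω N) x' Q = 0 := by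
      apply Subtype.ext
      have h3 : eval₂ (iO F Ω N) x Q = (RN Ω N).subtype (eval₂ (iN F Ω N) x' Q) := by
        rw [← rgb4_comp (F := F) (Ω := Ω) (N := N), ← hx'']
        exact (MvPolynomial.eval₂_comp_left (RN Ω N).subtype (iN F Ω N) x' Q).symm
      rw [h0] at h3
      exact h3.symm
    rw [h2, map_zero]
  · intro b hb'
    apply (hPx a₀).2 b
    have h1 := act_map I (iN F Ω N) w₀ b x'
    rw [← hφ, ha₀] at h1
    rw [← h1, ← ha₀]
    funext i
    congr 1
    apply Subtype.ext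
    have h2 := congrFun (hact b) i
    rw [hb', ← hx'] at h2
    exact h2.symm
  · intro κ _ r σ hr hσ
    obtain ⟨r', w, hker, hw, hwι⟩ := key κ r hr
    obtain ⟨a, ha⟩ := main w hwι
    refine ⟨a, ?_⟩
    -- Frobenius at `w`
    have hσ' : Pool.Agent.H41.Rel.IsFrob r' σ q := by
      intro y z hyz
      have h1 := hσ y z hyz
      have h2 : r (z - y ^ q) = 0 := by rw [map_sub, map_pow, h1, sub_self]
      rw [← hker, map_sub, map_pow] at h2
      exact sub_eq_zero.mp h2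
    -- the orbit in `Ω`
    have hσx : I.fv (iO F Ω N) (fun i => σ (x i)) = I.fv (iO F Ω N) x := by
      have h1 := fv_map I (iO F Ω N) (σ : Ω →+* Ω) x
      have h2 : (σ : Ω →+* Ω).comp (iO F Ω N) = iO F Ω N := by
        ext a
        simp [iO]
      rw [h2] at h1
      rw [hx] at h1 ⊢
      rw [show (fun i => σ (x i)) = fun i => (σ : Ω →+* Ω) (x i) from rfl, ← h1]
      funext i
      simp
    obtain ⟨b, hb'⟩ := orbit I (iO F Ω N) x (fun i => σ (x i)) hσx.symm
    rw [hb']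
    congr 1
    have h1 : ∀ i, w (I.act (iN F Ω N) b x' i) = w (x' i) ^ q := by
      intro i
      refine rgb4_frob hNA hNq r' w hw σ hσ' (x' i) _ ?_
      have h2 := congrFun (hact b) i
      rw [← hb'] at h2
      rw [← h2, hx']
    have h3 : I.act φ b (I.act φ a xg) = I.act φ (a * g⁻¹ * a⁻¹) (I.act φ a xg) := by
      have h4 := act_map I (iN F Ω N) w b x'
      rw [huniq w hwι, ha] at h4
      rw [← h4]
      funext i
      rw [h1]
      have h5 : w (x' i) = I.act φ a xg i := congrFun ha i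
      rw [h5, ← hFr]
      have h6 := congrFun (act_map I φ Fr a xg) i
      rw [hFrφ, hxg'] at h6
      rw [h6, ← act_mul, ← act_mul, inv_mul_cancel_right]
    have h4 : I.act φ ((a * g⁻¹ * a⁻¹)⁻¹ * b) (I.act φ a xg) = I.act φ a xg := by
      rw [act_mul, h3, ← act_mul, inv_mul_cancel, act_one]
    have h5 := (hPx a).2 _ h4
    rw [inv_mul_eq_one] at h5
    exact h5.symm

end Pool.Agent.H13.RG
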