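import Pool.Agent.H13.RG.Basic
import Pool.Agent.H13.RG.Local
import Pool.Agent.H13.RG.Hom
import Pool.Agent.H41.Rel.Class
import Pool.Agent.H41.Rel.Full

/-!
# Project RG (MP_a3214d), row B6: classes that force the full group
-/

set_option autoImplicit false

open MvPolynomial NumberField IsDedekindDomain

namespace Pool.Agent.H13.RG

/-- The determinant of a matrix with homogeneous columns is homogeneous. -/
theorem rgb6_det_hom {R : Type} [CommRing R] {s n : ℕ}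
    (W : Matrix (Fin n) (Fin n) (MvPolynomial (Fin s) R)) (c : Fin n → ℕ)
    (h : ∀ i j, (W i j).IsHomogeneous (c j)) : W.det.IsHomogeneous (∑ j, c j) := by
  rw [Matrix.det_apply']
  refine IsHomogeneous.sum _ _ _ fun σ _ => ?_
  have h1 : (∏ i, W (σ i) i).IsHomogeneous (∑ j, c j) :=
    IsHomogeneous.prod _ _ _ fun i _ => h _ _
  have h2 : ((Equiv.Perm.sign σ : ℤ) : MvPolynomial (Fin s) R)
      = C (((Equiv.Perm.sign σ : ℤ) : R)) := by simp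
  rw [h2]
  exact h1.C_mul _

/-- A maximal ideal over a prime number. -/
theorem rgb6_exists_over {F : Type} [Field F] [NumberField F] (l : ℕ) (hlp : l.Prime) :
    ∃ p : HeightOneSpectrum (𝓞 F), (l : 𝓞 F) ∈ p.asIdeal := by
  have h1 : Prime (l : ℤ) := Nat.prime_iff_prime_int.mp hlp
  have h2 : (Ideal.span {(l : ℤ)}).IsPrime := (Ideal.span_singleton_prime h1.ne_zero).mpr h1
  have hmax : (Ideal.span {(l : ℤ)}).IsMaximal := h2.isMaximal (by
    rw [Ne, Ideal.span_singleton_eq_bot]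
    exact h1.ne_zero)
  obtain ⟨P, hPm, hPl⟩ := Ideal.exists_maximal_ideal_liesOver_of_isIntegral
    (Ideal.span {(l : ℤ)}) (S := 𝓞 F)
  have hmem : (l : 𝓞 F) ∈ P := by
    have h3 : (l : ℤ) ∈ Ideal.span {(l : ℤ)} := Ideal.mem_span_singleton_self _
    have h4 := (Ideal.mem_of_liesOver P (Ideal.span {(l : ℤ)}) (l : ℤ)).mp h3
    rwa [map_natCast] at h4
  have hbot : P ≠ ⊥ := by
    intro h
    rw [h, Ideal.mem_bot, Nat.cast_eq_zero] at hmem
    exact hlp.ne_zero hmem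
  exact ⟨⟨P, hPm.isPrime, hbot⟩, hmem⟩

/-- There is a prime of `F` outside a given finite set. -/
theorem rgb6_exists_not_mem {F : Type} [Field F] [NumberField F]
    (Bad : Finset (HeightOneSpectrum (𝓞 F))) : ∃ p, p ∉ Bad := by
  obtain ⟨l, hl, hlp⟩ := Nat.exists_infinite_primes
    (∑ p ∈ Bad, Ideal.absNorm p.asIdeal + 1)
  obtain ⟨P, hmem⟩ := rgb6_exists_over (F := F) l hlp
  refine ⟨P, fun hp => ?_⟩
  have hle : Ideal.absNorm P.asIdeal ≤ ∑ p ∈ Bad, Ideal.absNorm p.asIdeal :=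
    Finset.single_le_sum (f := fun p : HeightOneSpectrum (𝓞 F) => Ideal.absNorm p.asIdeal)
      (fun _ _ => Nat.zero_le _) hp
  have hpos : Ideal.absNorm P.asIdeal ≠ 0 := fun h0 => P.ne_bot (Ideal.absNorm_eq_zero_iff.mp h0)
  have hcop : Nat.Coprime (Ideal.absNorm P.asIdeal) l :=
    ((Nat.Prime.coprime_iff_not_dvd hlp).mpr fun hd =>
      absurd (Nat.le_of_dvd (Nat.pos_of_ne_zero hpos) hd)
        (not_le.mpr (lt_of_le_of_lt hle hl))).symm
  obtain ⟨a, b, hab⟩ := Nat.isCoprime_iff_coprime.mpr hcop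
  have h1 : (1 : 𝓞 F) ∈ P.asIdeal := by
    have h3 : (a : 𝓞 F) * ((Ideal.absNorm P.asIdeal : ℕ) : 𝓞 F) + (b : 𝓞 F) * (l : 𝓞 F) = 1 := by
      exact_mod_cast congrArg (Int.cast : ℤ → 𝓞 F) hab
    rw [← h3]
    exact P.asIdeal.add_mem (P.asIdeal.mul_mem_left _ (Ideal.absNorm_mem P.asIdeal))
      (P.asIdeal.mul_mem_left _ hmem)
  exact P.isPrime.ne_top ((Ideal.eq_top_iff_one _).mpr h1)

/-- The full product over the conjugates of `F` over `k`. -/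
theorem exists_full_rel {k F Ω : Type} [Field k] [NumberField k] [Field F] [NumberField F]
    [Field Ω] [Algebra k F] [Algebra k Ω] [Algebra F Ω] [IsScalarTower k F Ω] [IsAlgClosure F Ω]
    {b : ℕ} (t : Fin b → (Ω ≃ₐ[k] Ω))
    (ht : ∀ i j, (∀ x : F, t i (algebraMap F Ω x) = t j (algebraMap F Ω x)) → i = j)
    {s n : ℕ} {G : Type} [Group G] [Fintype G] (X : Core F s n G) :
    ∃ (M : ℕ) (α : Fin s → 𝓞 F), 0 < M ∧ ∀ u : Fin s → 𝓞 F, (∀ i, (M : 𝓞 F) ∣ u i - α i) →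
      ∀ x : Fin s → Ω, X.I.fv (iO F Ω X.N) x = (fun i => algebraMap F Ω (u i : F)) →
        eval₂ (iO F Ω X.N) x (Matrix.of X.W).det ≠ 0 ∧
        ∃ h : (Ω ≃ₐ[F] Ω) →* G, Twisted X h x ∧ ∀ γ : Fin b → G,
          ∃ (σ : Ω ≃ₐ[k] Ω) (τ : Fin b → (Ω ≃ₐ[F] Ω)),
            (∀ i y, σ (t i y) = t i (τ i y)) ∧ ∀ i, h (τ i) = γ i := by
  classical
  -- the local lemma
  obtain ⟨Bad, hBad⟩ := local_class (Ω := Ω) X.N_pos X.I X.faithful (Matrix.of X.W).det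
    (rgb6_det_hom (Matrix.of X.W) X.c X.W_hom) X.W_det
  -- one prime gives regularity
  obtain ⟨p0, hp0⟩ := rgb6_exists_not_mem Bad
  obtain ⟨u0, hu0⟩ := hBad p0 hp0 1
  obtain ⟨M0, hM0, -, α0, -, hα0⟩ := Pool.Agent.H41.Rel.exists_class F Unit (fun _ => p0)
    (fun _ _ _ => rfl) (fun _ => u0) (M₀ := 1) one_pos
    (fun _ h => p0.isPrime.ne_top ((Ideal.eq_top_iff_one _).mpr (by simpa using h))) 0
  have hreg : ∀ u : Fin s → 𝓞 F, (∀ i, (M0 : 𝓞 F) ∣ u i - α0 i) → ∀ x : Fin s → Ω,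
      X.I.fv (iO F Ω X.N) x = (fun i => algebraMap F Ω (u i : F)) →
      eval₂ (iO F Ω X.N) x (Matrix.of X.W).det ≠ 0 ∧
        (∀ a, X.I.act (iO F Ω X.N) a x = x → a = 1) := by
    intro u hu x hx
    have h := hu0 u (fun i => hα0 u hu () i) x hx
    exact ⟨h.1, h.2.1⟩
  -- the homomorphisms
  have hhom : ∀ q : {q : (Fin s → 𝓞 F) × (Fin s → Ω) // (∀ i, (M0 : 𝓞 F) ∣ q.1 i - α0 i) ∧
      X.I.fv (iO F Ω X.N) q.2 = (fun i => algebraMap F Ω (q.1 i : F))},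
      ∃ h : (Ω ≃ₐ[F] Ω) →* G, Twisted X h q.1.2 := by
    rintro ⟨⟨u, x⟩, hu, hx⟩
    exact exists_hom X.I x (fun i => ⟨(u i : F), congrFun hx i⟩) (hreg u hu x hx).2
  choose h hh using hhom
  obtain ⟨M, hM, hMM, α, hα, hfull⟩ := Pool.Agent.H41.Rel.exists_full k F Ω t ht
    (G := G) (m := s)
    {q : (Fin s → 𝓞 F) × (Fin s → Ω) // (∀ i, (M0 : 𝓞 F) ∣ q.1 i - α0 i) ∧
      X.I.fv (iO F Ω X.N) q.2 = (fun i => algebraMap F Ω (q.1 i : F))}
    (fun q => q.1.1) h hM0 α0 Bad (by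
      intro p hp g
      obtain ⟨ug, hug⟩ := hBad p hp g
      refine ⟨ug, ?_⟩
      rintro ⟨⟨u, x⟩, hu, hx⟩ - hup κ _ r τ hsurj hover hfrob
      have hq := hh ⟨(u, x), hu, hx⟩
      obtain ⟨a, ha⟩ := (hug u hup x hx).2.2 κ r τ hover hfrob
      refine ⟨a, ?_⟩
      have h1 : X.I.act (iO F Ω X.N) (h ⟨(u, x), hu, hx⟩ τ)⁻¹ x =
          X.I.act (iO F Ω X.N) (a * g⁻¹ * a⁻¹) x := (hq τ).symm.trans ha
      have h2 : X.I.act (iO F Ω X.N)
          (h ⟨(u, x), hu, hx⟩ τ * (a * g⁻¹ * a⁻¹)) x = x := by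
        rw [act_mul, ← h1, ← act_mul, mul_inv_cancel, act_one]
      have h3 := (hreg u hu x hx).2 _ h2
      rw [mul_eq_one_iff_eq_inv] at h3
      rw [h3]
      group)
  refine ⟨M, α, hM, fun u hu x hx => ?_⟩
  have hu' : ∀ i, (M0 : 𝓞 F) ∣ u i - α0 i := by
    intro i
    have h1 : (M0 : 𝓞 F) ∣ (M : 𝓞 F) := by exact_mod_cast Nat.cast_dvd_cast (α := 𝓞 F) hMM
    have h2 := (h1.trans (hu i)).add (hα i)
    have h3 : u i - α i + (α i - α0 i) = u i - α0 i := by ring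
    rwa [h3] at h2
  exact ⟨(hreg u hu' x hx).1, h ⟨(u, x), hu', hx⟩, hh ⟨(u, x), hu', hx⟩,
    hfull ⟨(u, x), hu', hx⟩ hu⟩

/-- Classes that force the full group. -/
theorem exists_full {F : Type} [Field F] [NumberField F] (Ω : Type) [Field Ω] [Algebra F Ω]
    [IsAlgClosure F Ω] {s n : ℕ} {G : Type} [Group G] [Fintype G] (X : Core F s n G) :
    ∃ (M : ℕ) (α : Fin s → 𝓞 F), 0 < M ∧ Full Ω X M α := by
  obtain ⟨M, α, hM, hu⟩ := exists_full_rel (k := F) (F := F) (Ω := Ω) (b := 1)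
    (fun _ => AlgEquiv.refl) (fun i j _ => Subsingleton.elim i j) X
  refine ⟨M, α, hM, fun u hu' x hx => ?_⟩
  obtain ⟨h1, h, h2, h3⟩ := hu u hu' x hx
  refine ⟨h1, h, fun g => ?_, h2⟩
  obtain ⟨σ, τ, -, hτ⟩ := h3 (fun _ => g)
  exact ⟨τ 0, hτ 0⟩

end Pool.Agent.H13.RG
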