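import Pool.Agent.H13.RG.Defs

/-!
# Project RG (MP_a3214d): row RG-D3

Homomorphisms whose fields are isomorphic to one given field: there are at most `n!` of them.
-/

set_option autoImplicit false

open MvPolynomial NumberField

namespace Pool.Agent.H13.RG

section Fields

variable {F : Type} [Field F] [NumberField F] {Ω : Type} [Field Ω] [Algebra F Ω]
  [IsAlgClosure F Ω] {s n : ℕ} {G : Type} [Group G] [Fintype G]

omit [NumberField F] [IsAlgClosure F Ω] in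
/-- The numbering of the embeddings of `K₀` induced by an isomorphism `K ≃ K₀`. -/
def rgd3_num {K K₀ : IntermediateField F Ω} (ι : K ≃ₐ[F] K₀) (e : (K →ₐ[F] Ω) ≃ Fin n) :
    (K₀ →ₐ[F] Ω) ≃ Fin n where
  toFun φ := e (φ.comp ι.toAlgHom)
  invFun i := (e.symm i).comp ι.symm.toAlgHom
  left_inv φ := by
    ext y
    simp
  right_inv i := by
    have h : ((e.symm i).comp ι.symm.toAlgHom).comp ι.toAlgHom = e.symm i := by
      ext y
      simp
    show e (((e.symm i).comp ι.symm.toAlgHom).comp ι.toAlgHom) = i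
    rw [h, Equiv.apply_symm_apply]

omit [NumberField F] [IsAlgClosure F Ω] [Fintype G] in
theorem rgd3_inj (π : G →* Equiv.Perm (Fin n)) (hπ : Function.Injective π)
    {K K' K₀ : IntermediateField F Ω} (ι : K ≃ₐ[F] K₀) (ι' : K' ≃ₐ[F] K₀)
    (e : (K →ₐ[F] Ω) ≃ Fin n) (e' : (K' →ₐ[F] Ω) ≃ Fin n) (h h' : (Ω ≃ₐ[F] Ω) →* G)
    (he : ∀ (σ : Ω ≃ₐ[F] Ω) (φ : K →ₐ[F] Ω), e (σ.toAlgHom.comp φ) = π (h σ) (e φ))
    (he' : ∀ (σ : Ω ≃ₐ[F] Ω) (φ : K' →ₐ[F] Ω), e' (σ.toAlgHom.comp φ) = π (h' σ) (e' φ))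
    (hn : rgd3_num ι e = rgd3_num ι' e') : h = h' := by
  ext σ
  apply hπ
  ext i
  congr 1
  obtain ⟨φ, rfl⟩ := (rgd3_num ι e).surjective i
  have h1 : rgd3_num ι e (σ.toAlgHom.comp φ) = π (h σ) (rgd3_num ι e φ) :=
    he σ (φ.comp ι.toAlgHom)
  have h2 : rgd3_num ι' e' (σ.toAlgHom.comp φ) = π (h' σ) (rgd3_num ι' e' φ) :=
    he' σ (φ.comp ι'.toAlgHom)
  rw [← h1]
  rw [hn] at h1 ⊢
  exact h2

omit [NumberField F] [IsAlgClosure F Ω] in
theorem card_le_of_iso (π : G →* Equiv.Perm (Fin n)) (hπ : Function.Injective π)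
    (S : Finset ((Ω ≃ₐ[F] Ω) →* G)) (K : ((Ω ≃ₐ[F] Ω) →* G) → IntermediateField F Ω)
    (e : ∀ h, (K h →ₐ[F] Ω) ≃ Fin n)
    (he : ∀ h ∈ S, ∀ (σ : Ω ≃ₐ[F] Ω) (φ : K h →ₐ[F] Ω), e h (σ.toAlgHom.comp φ) = π (h σ) (e h φ))
    (K₀ : IntermediateField F Ω) (hK : ∀ h ∈ S, Nonempty (K h ≃ₐ[F] K₀)) :
    S.card ≤ n.factorial := by
  classical
  rcases S.eq_empty_or_nonempty with rfl | ⟨h0, hh0⟩
  · simp
  let N : S → ((K₀ →ₐ[F] Ω) ≃ Fin n) := fun h => rgd3_num (hK h.1 h.2).some (e h.1)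
  let g : S → Equiv.Perm (Fin n) := fun h => (N ⟨h0, hh0⟩).symm.trans (N h)
  have hg : Function.Injective g := by
    intro a b hab
    have hN : N a = N b := by
      have := congrArg (fun t => (N ⟨h0, hh0⟩).trans t) hab
      simpa [g, ← Equiv.trans_assoc] using this
    exact Subtype.ext (rgd3_inj π hπ _ _ (e a.1) (e b.1) a.1 b.1 (he a.1 a.2) (he b.1 b.2) hN)
  have h1 := Fintype.card_le_of_injective g hg
  rwa [Fintype.card_coe, Fintype.card_perm, Fintype.card_fin] at h1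

end Fields

end Pool.Agent.H13.RG
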