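import Pool.Agent.H13.RG.Defs
import Pool.Agent.H13.RG.Boxes

/-!
# RG-C9: the number of parameters
-/

set_option autoImplicit false

open MvPolynomial NumberField

namespace Pool.Agent.H13.RG

section Few

variable {F : Type} [Field F] [NumberField F] {s n : ℕ} {G : Type} [Group G] [Fintype G]

private theorem rgc9_finite (X : Core F s n G) (M : ℕ) (α : Fin s → 𝓞 F) (H : ℝ) :
    (Par X M α H).Finite := by
  have h : (Set.univ.pi fun i : Fin s =>
      {a : 𝓞 F | ∀ v : F →+* ℂ, ‖v (a : F)‖ ≤ H ^ X.I.d i}).Finite :=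
    Set.Finite.pi (fun i => rgc4_finite F (H ^ X.I.d i))
  refine h.subset ?_
  intro u hu i _
  exact (hu i).2

theorem par_card (X : Core F s n G) (M : ℕ) (hM : 0 < M) (α : Fin s → 𝓞 F) :
    ∃ (c H0 : ℝ), 0 < c ∧ 1 ≤ H0 ∧ ∀ H : ℝ, H0 ≤ H → (Par X M α H).Finite ∧
      c * H ^ (Module.finrank ℚ F * ∑ i, X.I.d i) ≤ ((Par X M α H).ncard : ℝ) := by
  classical
  obtain ⟨C0, hC0, h⟩ := Pool.Agent.H41.RG.box_lower F X.I.d hM α
  set K : ℝ := max 1 C0 with hK
  have hK1 : 1 ≤ K := le_max_left _ _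
  have hK0 : 0 < K := lt_of_lt_of_le one_pos hK1
  have hCK : C0 ≤ K := le_max_right _ _
  refine ⟨(1 / K) ^ (Module.finrank ℚ F * ∑ i, X.I.d i), K, by positivity, hK1, ?_⟩
  intro H hH
  have hH0 : 0 < H := lt_of_lt_of_le hK0 hH
  have hfin := rgc9_finite X M α H
  refine ⟨hfin, ?_⟩
  obtain ⟨S, hS, hcard⟩ := h (H / K) (by rw [le_div_iff₀ hK0]; linarith)
  have hsub : (S : Set (Fin s → 𝓞 F)) ⊆ Par X M α H := by
    intro u hu i
    have h1 := hS u hu i
    refine ⟨h1.1, fun v => (h1.2 v).trans ?_⟩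
    have h2 : C0 ≤ K ^ X.I.d i := by
      refine hCK.trans ?_
      have h3 := X.I.d_pos i
      calc K = K ^ 1 := (pow_one K).symm
        _ ≤ K ^ X.I.d i := pow_le_pow_right₀ hK1 h3
    calc C0 * (H / K) ^ X.I.d i ≤ K ^ X.I.d i * (H / K) ^ X.I.d i :=
          mul_le_mul_of_nonneg_right h2 (by positivity)
      _ = H ^ X.I.d i := by
          rw [← mul_pow, mul_div_cancel₀ _ hK0.ne']
  have hle : S.card ≤ (Par X M α H).ncard := by
    rw [← Set.ncard_coe_finset]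
    exact Set.ncard_le_ncard hsub hfin
  calc (1 / K) ^ (Module.finrank ℚ F * ∑ i, X.I.d i) * H ^ (Module.finrank ℚ F * ∑ i, X.I.d i)
      = (H / K) ^ (Module.finrank ℚ F * ∑ i, X.I.d i) := by
        rw [← mul_pow]
        congr 1
        field_simp
    _ ≤ (S.card : ℝ) := hcard
    _ ≤ ((Par X M α H).ncard : ℝ) := by exact_mod_cast hle

end Few

end Pool.Agent.H13.RG
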