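import Pool.Agent.H13.RG.Basic

/-!
Project RG, RG-A2: every `u` in `F^s` is `f(x)` for a point `x` with coordinates in an
algebraically closed field.
-/

set_option autoImplicit false

open MvPolynomial NumberField IsDedekindDomain

namespace Pool.Agent.H13.RG

section

variable {F : Type} [Field F] {N s : ℕ} {G : Type} [Group G] [Fintype G]

/-- The map `A = F[u] → F[x]`, `u ↦ f(x)`. -/
noncomputable def rga2_g (I : Inv (RN F N) s G) :
    MvPolynomial (Fin s) F →ₐ[F] MvPolynomial (Fin s) F :=
  aeval (fun i => MvPolynomial.map (RN F N).subtype (I.f i))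

theorem rga2_fv (I : Inv (RN F N) s G) :
    I.fv ((C : F →+* MvPolynomial (Fin s) F).comp (RN F N).subtype) X =
      fun i => MvPolynomial.map (RN F N).subtype (I.f i) := by
  funext i
  unfold Inv.fv
  rw [← MvPolynomial.eval₂_map]
  exact (MvPolynomial.eval₂_eta _)

theorem rga2_eval (I : Inv (RN F N) s G) (a : MvPolynomial (Fin s) (RN F N)) :
    eval₂ ((C : F →+* MvPolynomial (Fin s) F).comp (RN F N).subtype)
      (fun i => MvPolynomial.map (RN F N).subtype (I.f i)) a =
      rga2_g I (MvPolynomial.map (RN F N).subtype a) := by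
  rw [← MvPolynomial.eval₂_map]
  rfl

/-- The coordinates are integral over `F[f]`. -/
theorem rga2_X (I : Inv (RN F N) s G) (j : Fin s) :
    (rga2_g I).toRingHom.IsIntegralElem (X j) := by
  obtain ⟨a, ha⟩ := exists_root I j
  have h := ha (MvPolynomial (Fin s) F)
    ((C : F →+* MvPolynomial (Fin s) F).comp (RN F N).subtype) X
  rw [rga2_fv] at h
  refine ⟨Polynomial.X ^ Fintype.card G + ∑ e : Fin (Fintype.card G),
    Polynomial.C (MvPolynomial.map (RN F N).subtype (a e)) * Polynomial.X ^ (e : ℕ),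
    Polynomial.monic_X_pow_add (Polynomial.degree_sum_fin_lt _), ?_⟩
  rw [Polynomial.eval₂_add, Polynomial.eval₂_finsetSum, Polynomial.eval₂_pow,
    Polynomial.eval₂_X, ← h]
  congr 1
  refine Finset.sum_congr rfl fun e _ => ?_
  rw [Polynomial.eval₂_mul, Polynomial.eval₂_C, Polynomial.eval₂_pow, Polynomial.eval₂_X,
    rga2_eval]
  rfl

/-- `F[x]` is integral over `F[f]`. -/
theorem rga2_integral (I : Inv (RN F N) s G) : (rga2_g I).toRingHom.IsIntegral := by
  intro p
  induction p using MvPolynomial.induction_on with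
  | C a =>
    have h : (C a : MvPolynomial (Fin s) F) = (rga2_g I).toRingHom (C a) := by
      show _ = rga2_g I (C a)
      rw [← MvPolynomial.algebraMap_eq, AlgHom.commutes]
    rw [h]
    exact (rga2_g I).toRingHom.isIntegralElem_map
  | add p q hp hq => exact RingHom.IsIntegralElem.add _ hp hq
  | mul_X p j hp => exact RingHom.IsIntegralElem.mul _ hp (rga2_X I j)

end

theorem exists_point {F : Type} [Field F] {Ω : Type} [Field Ω] [Algebra F Ω] [IsAlgClosed Ω]
    {N s : ℕ} {G : Type} [Group G] [Fintype G] (I : Inv (RN F N) s G)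
    (hind : AlgebraicIndependent F (fun i => MvPolynomial.map (RN F N).subtype (I.f i)))
    (u : Fin s → F) :
    ∃ x : Fin s → Ω, I.fv (iO F Ω N) x = fun i => algebraMap F Ω (u i) := by
  have hker : RingHom.ker (rga2_g I).toRingHom = ⊥ :=
    (RingHom.injective_iff_ker_eq_bot _).1 hind
  let ev : MvPolynomial (Fin s) F →ₐ[F] F := aeval u
  have hsurj : Function.Surjective ev := fun a => ⟨C a, by simp [ev]⟩
  have hmax : (RingHom.ker ev.toRingHom).IsMaximal :=
    RingHom.ker_isMaximal_of_surjective _ hsurj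
  obtain ⟨Q, hQmax, hQ⟩ : ∃ Q : Ideal (MvPolynomial (Fin s) F), Q.IsMaximal ∧
      Q.comap (rga2_g I).toRingHom = RingHom.ker ev.toRingHom := by
    let inst := (rga2_g I).toRingHom.toAlgebra
    have hint : @Algebra.IsIntegral (MvPolynomial (Fin s) F) (MvPolynomial (Fin s) F) _ _ inst :=
      ⟨rga2_integral I⟩
    exact @Ideal.exists_ideal_over_maximal_of_isIntegral _ _ _ _ inst hint _ hmax
      (by
        show RingHom.ker (rga2_g I).toRingHom ≤ _
        rw [hker]
        exact bot_le)
  let K := MvPolynomial (Fin s) F ⧸ Q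
  let _ : Field K := Ideal.Quotient.field Q
  have hfin : Module.Finite F K := finite_of_finite_type_of_isJacobsonRing F K
  let e : K →ₐ[F] Ω := IsAlgClosed.lift
  let q : MvPolynomial (Fin s) F →ₐ[F] Ω := e.comp (Ideal.Quotient.mkₐ F Q)
  refine ⟨fun j => q (X j), ?_⟩
  funext i
  have h1 : I.fv (iO F Ω N) (fun j => q (X j)) i =
      q (MvPolynomial.map (RN F N).subtype (I.f i)) := by
    unfold Inv.fv iO
    rw [← MvPolynomial.eval₂_map]
    exact (DFunLike.congr_fun (MvPolynomial.aeval_unique q)
      (MvPolynomial.map (RN F N).subtype (I.f i))).symm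
  rw [h1]
  have h2 : MvPolynomial.map (RN F N).subtype (I.f i) = rga2_g I (X i) := by
    unfold rga2_g
    rw [aeval_X]
  have h3 : X i - C (u i) ∈ Q.comap (rga2_g I).toRingHom := by
    rw [hQ]
    show ev (X i - C (u i)) = 0
    simp [ev]
  have h4 : rga2_g I (X i) - C (u i) ∈ Q := by
    have h5 : rga2_g I (X i - C (u i)) ∈ Q := h3
    rw [map_sub, ← MvPolynomial.algebraMap_eq, AlgHom.commutes] at h5
    exact h5
  rw [h2]
  have h6 : q (rga2_g I (X i) - C (u i)) = 0 := by
    show e (Ideal.Quotient.mk Q _) = 0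
    rw [Ideal.Quotient.eq_zero_iff_mem.2 h4, map_zero]
  rw [map_sub, sub_eq_zero] at h6
  rw [h6, ← MvPolynomial.algebraMap_eq, AlgHom.commutes]

end Pool.Agent.H13.RG
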