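import Pool.Agent.H13.RG.Defs
import Pool.Agent.H13.RG.Point
import Pool.Agent.H13.RG.Size
import Pool.Agent.H13.RG.Integ
import Pool.Agent.H13.RG.Norm
import Pool.Agent.H13.RG.Few
import Pool.Agent.H13.RG.Fibre
import Pool.Agent.H13.RG.Par
import Pool.Agent.H41.RG.Dyadic

/-!
# Project RG (MP_a3214d), row RG-C10: the number of homomorphisms of level `H`
-/

set_option autoImplicit false

open MvPolynomial NumberField IsDedekindDomain

namespace Pool.Agent.H13.RG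

section Level

variable {F : Type} [Field F] [NumberField F] {Ω : Type} [Field Ω] [Algebra F Ω]
  [IsAlgClosure F Ω] {s n : ℕ} {G : Type} [Group G] [Fintype G]

omit [NumberField F] [IsAlgClosure F Ω] in
/-- The determinant of the covariants vanishes at `0`. -/
theorem rgc10_det_zero (X : Core F s n G) :
    eval₂ (iO F Ω X.N) (0 : Fin s → Ω) (Matrix.of X.W).det = 0 := by
  obtain ⟨j, -, hj⟩ : ∃ j ∈ Finset.univ, 0 < X.c j := by
    by_contra hcon
    push Not at hcon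
    have h1 : ∑ j, X.c j = 0 := Finset.sum_eq_zero fun j hj => Nat.le_zero.mp (hcon j hj)
    have := X.c_pos
    omega
  have h2 : eval₂ (iO F Ω X.N) (0 : Fin s → Ω) (Matrix.of X.W).det =
      ((Matrix.of X.W).map (eval₂Hom (iO F Ω X.N) (0 : Fin s → Ω))).det := by
    rw [← RingHom.mapMatrix_apply, ← RingHom.map_det, coe_eval₂Hom]
  rw [h2]
  apply Matrix.det_eq_zero_of_column_eq_zero j
  intro i
  rw [Matrix.map_apply, Matrix.of_apply, coe_eval₂Hom]
  -- the value of a homogeneous polynomial of positive degree at `0`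
  rw [eval₂_eq']
  apply Finset.sum_eq_zero
  intro e he
  have h3 : coeff e (X.W i j) ≠ 0 := mem_support_iff.mp he
  have h4 := X.W_hom i j h3
  have h5 : e ≠ 0 := by
    rintro rfl
    simp at h4
    omega
  obtain ⟨l, hl⟩ : ∃ l, e l ≠ 0 := by
    by_contra hcon
    push Not at hcon
    exact h5 (Finsupp.ext hcon)
  have h6 : ∏ l, (0 : Fin s → Ω) l ^ e l = 0 := by
    apply Finset.prod_eq_zero (Finset.mem_univ l)
    rw [Pi.zero_apply, zero_pow hl]
  rw [h6, mul_zero]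

theorem level (X : Core F s n G) (M : ℕ) (hM : 0 < M) (α : Fin s → 𝓞 F)
    (hfull : Full Ω X M α) :
    ∃ (c H0 : ℝ), 0 < c ∧ 1 ≤ H0 ∧ ∀ H : ℝ, H0 ≤ H → (Homs Ω X M α H).Finite ∧
      c * H ^ (Module.finrank ℚ F * ∑ i, X.I.d i) ≤ ((Homs Ω X M α H).ncard : ℝ) := by
  classical
  have hac : IsAlgClosed Ω := IsAlgClosure.isAlgClosed F
  obtain ⟨ext, hext⟩ := exists_ext F Ω
  obtain ⟨J, hJ⟩ := exists_J (Ω := Ω) X.N_pos X.I
  have hM0 : 0 < X.N ^ J := pow_pos X.N_pos J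
  have hint : ∀ x : Fin s → Ω, (∀ i, IsIntegral ℤ (X.I.fv (iO F Ω X.N) x i)) →
      ∀ j, IsIntegral ℤ (((X.N ^ J : ℕ) : Ω) * x j) := by
    intro x hx j
    rw [Nat.cast_pow]
    exact hJ x hx j
  obtain ⟨L0, hL0, hmin⟩ := min_le (Ω := Ω) X hM0
  obtain ⟨C1, hC1, hfew⟩ := few (Ω := Ω) X hM0 hL0
  obtain ⟨C2, hC2, hfib⟩ := fibre (Ω := Ω) X hM0 hint
  obtain ⟨c1, H0, hc1, hH0, hpar⟩ := par_card X M hM α
  obtain ⟨CS, hCS, hsize⟩ := size_le (Ω := Ω) X.I
  have hm : 0 < Module.finrank ℚ F := Module.finrank_pos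
  have hst : Module.finrank ℚ F * s < Module.finrank ℚ F * ∑ i, X.I.d i :=
    Nat.mul_lt_mul_of_pos_left X.deg hm
  obtain ⟨c, hc, hdy⟩ := Pool.Agent.H41.RG.dyadic_count _ _ hst c1 C1 C2 L0 hc1 hC1 hC2 hL0
  refine ⟨c, H0, hc, hH0, ?_⟩
  intro H hH
  have hH1 : 1 ≤ H := hH0.trans hH
  have hHpos : 0 < H := by linarith
  obtain ⟨hfin, hcard⟩ := hpar H hH
  -- points over parameters
  have hpt : ∀ u ∈ Par X M α H, ∀ x : Fin s → Ω,
      X.I.fv (iO F Ω X.N) x = (fun i => algebraMap F Ω (u i : F)) → x ≠ 0 := by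
    rintro u hu x hx rfl
    exact (hfull u (fun i => (hu i).1) 0 hx).1 (rgc10_det_zero X)
  have hlat : ∀ u ∈ Par X M α H, ∀ (x : Fin s → Ω) (h : (Ω ≃ₐ[F] Ω) →* G),
      X.I.fv (iO F Ω X.N) x = (fun i => algebraMap F Ω (u i : F)) → Twisted X h x →
        x ∈ Lat X (X.N ^ J) h := by
    intro u hu x h hx ht
    refine ⟨hint x ?_, ht⟩
    intro i
    rw [hx]
    exact (u i).isIntegral_coe.map (algebraMap F Ω).toIntAlgHom
  have hnrm : ∀ u ∈ Par X M α H, ∀ x : Fin s → Ω,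
      X.I.fv (iO F Ω X.N) x = (fun i => algebraMap F Ω (u i : F)) → nrm ext x ≤ CS * H := by
    intro u hu x hx
    rw [nrm_le_iff ext x (by positivity)]
    intro v j
    apply hsize (ext v) H hHpos x
    intro i
    rw [hx]
    have h1 : ext v (algebraMap F Ω (u i : F)) = v (u i : F) :=
      RingHom.congr_fun (hext v) (u i : F)
    rw [h1]
    exact (hu i).2 v
  -- finiteness
  have hHfin : (Homs Ω X M α H).Finite := by
    refine Set.Finite.subset (hfew ext hext (max L0 (CS * H)) (le_max_left _ _)).1 ?_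
    rintro h ⟨hh, u, hu, x, hx, ht⟩
    exact ⟨hh, x, hlat u hu x h hx ht, hpt u hu x hx, (hnrm u hu x hx).trans (le_max_right _ _)⟩
  refine ⟨hHfin, ?_⟩
  -- the chosen homomorphism of a parameter
  have hex : ∀ u ∈ Par X M α H, ∃ h : (Ω ≃ₐ[F] Ω) →* G, Function.Surjective h ∧
      ∃ x : Fin s → Ω, X.I.fv (iO F Ω X.N) x = (fun i => algebraMap F Ω (u i : F)) ∧
        Twisted X h x := by
    intro u hu
    obtain ⟨x, hx⟩ := exists_point (Ω := Ω) X.I X.indep (fun i => (u i : F))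
    obtain ⟨-, h, hh, ht⟩ := hfull u (fun i => (hu i).1) x hx
    exact ⟨h, hh, x, hx, ht⟩
  choose! r hr1 hr2 using hex
  have hmain := hdy H hHpos (Fin s → 𝓞 F) ((Ω ≃ₐ[F] Ω) →* G) hfin.toFinset hHfin.toFinset r ?_
    (fun h L => ∃ x ∈ Lat X (X.N ^ J) h, x ≠ 0 ∧ nrm ext x ≤ L) ?_ ?_ ?_ ?_
  · rwa [← Set.ncard_eq_toFinset_card _ hHfin] at hmain
  · intro u hu
    rw [Set.Finite.mem_toFinset] at hu ⊢
    exact ⟨hr1 u hu, u, hu, hr2 u hu⟩
  · intro L hL
    obtain ⟨hf1, hf2⟩ := hfew ext hext L hL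
    refine le_trans ?_ hf2
    rw [← Set.ncard_coe_finset]
    have h1 : ((hHfin.toFinset.filter
        (fun h => ∃ x ∈ Lat X (X.N ^ J) h, x ≠ 0 ∧ nrm ext x ≤ L) : Finset _) : Set _) ⊆
        {h : (Ω ≃ₐ[F] Ω) →* G | Function.Surjective h ∧
          ∃ x ∈ Lat X (X.N ^ J) h, x ≠ 0 ∧ nrm ext x ≤ L} := by
      intro h hmem
      rw [Finset.mem_coe, Finset.mem_filter, Set.Finite.mem_toFinset] at hmem
      exact ⟨hmem.1.1, hmem.2⟩
    exact_mod_cast Set.ncard_le_ncard h1 hf1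
  · rintro h - L hL ⟨x, hx, hx0, hxL⟩
    have := hmin ext hext h x hx hx0
    linarith
  · intro h hh L hLpos hLH hno
    apply hfib ext hext M α h H L hLpos hLH
    · intro x hx hx0 hxL
      exact hno ⟨x, hx, hx0, hxL⟩
    · intro u hu
      rw [Finset.mem_filter, Set.Finite.mem_toFinset] at hu
      obtain ⟨x, hx, ht⟩ := hr2 u hu.1
      rw [hu.2] at ht
      exact ⟨hu.1, x, hx, ht⟩
  · rwa [← Set.ncard_eq_toFinset_card _ hfin]

end Level

end Pool.Agent.H13.RG
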