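import Pool.Agent.H13.RG.Defs

/-!
# Project RG: some reflection moves a point; group elements acting as scalars
-/

set_option autoImplicit false

namespace Pool.Agent.H13.RG

/-- a transitive action on at least two points: some reflection moves a point -/
theorem movRefl_pos {F : Type} [Field F] {G : Type} [Group G] [Finite G]
    {V : Type} [AddCommGroup V] [Module F V] (ρ : Representation F G V) (hρ : ReflGroup ρ)
    {n : ℕ} (hn : 2 ≤ n) (π : G →* Equiv.Perm (Fin n))
    (htr : MulAction.IsPretransitive π.range (Fin n)) : 0 < movRefl ρ π := by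
  by_contra h0
  have h1 : movRefl ρ π = 0 := by omega
  have hemp : IsEmpty {p : G × Fin n // IsRefl ρ p.1 ∧ π p.1 p.2 ≠ p.2} := by
    rcases Nat.card_eq_zero.mp h1 with h | h
    · exact h
    · exact absurd h (not_infinite_iff_finite.mpr inferInstance)
  have hker : Subgroup.closure {g | IsRefl ρ g} ≤ π.ker := by
    rw [Subgroup.closure_le]
    intro g hg
    rw [SetLike.mem_coe, MonoidHom.mem_ker]
    ext i
    by_contra hi
    exact hemp.false ⟨(g, i), hg, fun h => hi (by rw [h]; rfl)⟩
  rw [hρ.gen] at hker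
  obtain ⟨⟨σ, g, rfl⟩, hσ⟩ := htr.exists_smul_eq (⟨0, by omega⟩ : Fin n) ⟨1, by omega⟩
  have hg : π g = 1 := MonoidHom.mem_ker.mp (hker (Subgroup.mem_top g))
  have h2 : (π g) (⟨0, by omega⟩ : Fin n) = ⟨1, by omega⟩ := hσ
  rw [hg] at h2
  have h3 := congrArg Fin.val h2
  simp at h3

end Pool.Agent.H13.RG
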