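import Pool.Agent.H13.RG.Core
import Pool.Agent.H13.RG.MovPos
import Pool.Agent.H41.Rel.RelMain

/-!
# Project RG: the main theorem

Lower bounds for Malle's counting function for all finite irreducible reflection groups, in every
faithful transitive action, and for their wreath products with the group of any extension, over
every number field.
-/

set_option autoImplicit false

open NumberField

namespace Pool.Agent.H13.RG

open Pool.Agent.H35.AN Pool.Agent.H41.Rel

theorem main (k F : Type) [Field k] [NumberField k] [Field F] [NumberField F] [Algebra k F]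
    {b : ℕ} (H : Subgroup (Equiv.Perm (Fin b))) (hF : HasGroup k (AlgebraicClosure k) F H)
    {G V : Type} [Group G] [Finite G] [AddCommGroup V] [Module F V] [FiniteDimensional F V]
    (ρ : Representation F G V) (hρ : ReflGroup ρ) {n : ℕ} (hn : 2 ≤ n)
    (π : G →* Equiv.Perm (Fin n)) (hπ : Function.Injective π)
    (htr : MulAction.IsPretransitive π.range (Fin n)) {N : ℕ} (ε : Fin b × Fin n ≃ Fin N) :
    ∃ c : ℝ, 0 < c ∧ ∀ᶠ B : ℝ in Filter.atTop,
      c * B ^ (((numRefl ρ : ℝ) + Module.finrank F V) / (movRefl ρ π : ℝ)) ≤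
        (malleCount k N (wreath ε π.range H) B : ℝ) := by
  have _ : Fintype G := Fintype.ofFinite G
  obtain ⟨X, hX, hd, hc, _⟩ := exists_core ρ hρ π (movRefl_pos ρ hρ hn π htr) htr
  obtain ⟨c, hc0, h⟩ := rel_core_main k F hn ε H hF X (hX ▸ hπ)
  refine ⟨c, hc0, ?_⟩
  rw [hX, hd, hc] at h
  push_cast at h
  exact h

end Pool.Agent.H13.RG
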