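import Pool.Agent.H13.RG.Main0Aux
import Pool.Agent.H13.RG.Global
import Pool.Agent.H13.RG.Level
import Pool.Agent.H13.RG.Disc
import Pool.Agent.H13.RG.Iso

/-!
# Project RG, RG-D4: the absolute version
-/

set_option autoImplicit false

open MvPolynomial NumberField IsDedekindDomain

namespace Pool.Agent.H13.RG

theorem core_main (F : Type) [Field F] [NumberField F] {s n : ℕ} (hn : 2 ≤ n) {G : Type}
    [Group G] [Fintype G] (X : Core F s n G) (hπ : Function.Injective X.π) :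
    ∃ c : ℝ, 0 < c ∧ ∀ᶠ B : ℝ in Filter.atTop,
      c * B ^ (((∑ i, X.I.d i : ℕ) : ℝ) / ((2 * ∑ j, X.c j : ℕ) : ℝ)) ≤
        (Pool.Agent.H35.AN.malleCount F n X.π.range B : ℝ) := by
  obtain ⟨M, α, hM, hfull⟩ := exists_full (AlgebraicClosure F) X
  obtain ⟨c, H0, hc, hH0, hlev⟩ := level X M hM α hfull
  obtain ⟨C, hC, hdisc⟩ := field_disc X (by omega) M α hfull
  exact rgd4_main F X M α hc hH0 hC hlev hdisc
    (fun S' K e he K₀ hK => card_le_of_iso X.π hπ S' K e he K₀ hK)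

end Pool.Agent.H13.RG
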