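import Pool.Agent.H13.RG.Defs
import Pool.Agent.H35.AN.Count

/-!
# Project RG, RG-D4: the count at one level and the assembly
-/

set_option autoImplicit false

open MvPolynomial NumberField IsDedekindDomain

namespace Pool.Agent.H13.RG

/-- the count at one level -/
theorem rgd4_count (F : Type) [Field F] [NumberField F] {n : ℕ} {G : Type}
    [Group G] (π : G →* Equiv.Perm (Fin n))
    (S : Finset ((AlgebraicClosure F ≃ₐ[F] AlgebraicClosure F) →* G)) (B : ℝ)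
    (hS : ∀ h ∈ S, Function.Surjective h ∧
      ∃ (K : IntermediateField F (AlgebraicClosure F)) (_ : NumberField K)
        (e : (K →ₐ[F] AlgebraicClosure F) ≃ Fin n),
        Module.finrank F K = n ∧
        (∀ (σ : AlgebraicClosure F ≃ₐ[F] AlgebraicClosure F) (φ : K →ₐ[F] AlgebraicClosure F),
          e (σ.toAlgHom.comp φ) = π (h σ) (e φ)) ∧
        |(NumberField.discr K : ℝ)| ≤ B)
    (hcard : ∀ (S' : Finset ((AlgebraicClosure F ≃ₐ[F] AlgebraicClosure F) →* G))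
      (K : ((AlgebraicClosure F ≃ₐ[F] AlgebraicClosure F) →* G) →
        IntermediateField F (AlgebraicClosure F))
      (e : ∀ h, (K h →ₐ[F] AlgebraicClosure F) ≃ Fin n)
      (_ : ∀ h ∈ S', ∀ (σ : AlgebraicClosure F ≃ₐ[F] AlgebraicClosure F)
        (φ : K h →ₐ[F] AlgebraicClosure F), e h (σ.toAlgHom.comp φ) = π (h σ) (e h φ))
      (K₀ : IntermediateField F (AlgebraicClosure F))
      (_ : ∀ h ∈ S', Nonempty (K h ≃ₐ[F] K₀)), S'.card ≤ n.factorial) :
    S.card ≤ n.factorial * Pool.Agent.H35.AN.malleCount F n π.range B := by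
  classical
  rcases S.eq_empty_or_nonempty with rfl | ⟨h₀, hh₀⟩
  · simp
  -- choose the fields
  obtain ⟨-, K₀, -, e₀, -⟩ := hS h₀ hh₀
  have : Nonempty (Σ K : IntermediateField F (AlgebraicClosure F),
      (K →ₐ[F] AlgebraicClosure F) ≃ Fin n) := ⟨⟨K₀, e₀⟩⟩
  have h1 : ∀ h ∈ S, ∃ P : (Σ K : IntermediateField F (AlgebraicClosure F),
      (K →ₐ[F] AlgebraicClosure F) ≃ Fin n), ∃ _ : NumberField P.1,
        Module.finrank F P.1 = n ∧
        (∀ (σ : AlgebraicClosure F ≃ₐ[F] AlgebraicClosure F)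
          (φ : P.1 →ₐ[F] AlgebraicClosure F), P.2 (σ.toAlgHom.comp φ) = π (h σ) (P.2 φ)) ∧
        |(NumberField.discr P.1 : ℝ)| ≤ B := by
    intro h hh
    obtain ⟨-, K, hK, e, h2, h3, h4⟩ := hS h hh
    exact ⟨⟨K, e⟩, hK, h2, h3, h4⟩
  choose! P hP h2 h3 h4 using h1
  have hk1 : (1 : ℝ) ≤ ((|NumberField.discr F| : ℤ) : ℝ) ^ n := by
    refine one_le_pow₀ ?_
    exact_mod_cast Int.one_le_abs (NumberField.discr_ne_zero F)
  have hX : ∀ h ∈ S, Module.finrank F (P h).1 = n ∧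
      (∃ e : ((P h).1 →ₐ[F] AlgebraicClosure F) ≃ Fin n, ∀ p : Equiv.Perm (Fin n),
        p ∈ π.range ↔ ∃ σ : AlgebraicClosure F ≃ₐ[F] AlgebraicClosure F,
          ∀ φ : (P h).1 →ₐ[F] AlgebraicClosure F, e (σ.toAlgHom.comp φ) = p (e φ)) ∧
      ∃ h' : NumberField (P h).1,
        ((|@NumberField.discr (P h).1 _ h'| : ℤ) : ℝ) ≤
          B * ((|NumberField.discr F| : ℤ) : ℝ) ^ n := by
    intro h hh
    refine ⟨h2 h hh, ⟨(P h).2, fun p => ⟨?_, ?_⟩⟩, hP h hh, ?_⟩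
    · rintro ⟨g, rfl⟩
      obtain ⟨σ, rfl⟩ := (hS h hh).1 g
      exact ⟨σ, fun φ => h3 h hh σ φ⟩
    · rintro ⟨σ, hσ⟩
      refine ⟨h σ, Equiv.ext fun i => ?_⟩
      obtain ⟨φ, rfl⟩ := (P h).2.surjective i
      rw [← hσ φ, h3 h hh σ φ]
    · have h5 := h4 h hh
      have h6 : 0 ≤ B := (abs_nonneg _).trans h5
      push_cast
      refine h5.trans ?_
      have h7 := mul_le_mul_of_nonneg_left hk1 h6
      push_cast at h7
      linarith
  let f : {h // h ∈ S} → Pool.Agent.H35.AN.an35_X F n π.range B :=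
    fun z => ⟨(P z.1).1, hX z.1 z.2⟩
  have hfin := Pool.Agent.H35.AN.an35_finite F n π.range B
  have hr : Equivalence (fun L L' : Pool.Agent.H35.AN.an35_X F n π.range B =>
      Nonempty (L.1 ≃ₐ[F] L'.1)) :=
    ⟨fun L => ⟨AlgEquiv.refl⟩, fun ⟨e⟩ => ⟨e.symm⟩, fun ⟨e⟩ ⟨f⟩ => ⟨e.trans f⟩⟩
  have key := Pool.Agent.H35.AN.an35_fibres
    (fun L L' : Pool.Agent.H35.AN.an35_X F n π.range B =>
      Nonempty (L.1 ≃ₐ[F] L'.1)) hr S.attach f n.factorial ?_
  · rw [Finset.card_attach] at key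
    exact key
  · intro z₀ _ S' _ hS'
    have h5 : (S'.image Subtype.val).card = S'.card :=
      Finset.card_image_of_injective _ Subtype.val_injective
    rw [← h5]
    refine hcard _ (fun h => (P h).1) (fun h => (P h).2) ?_ (P z₀.1).1 ?_
    · intro h hh
      obtain ⟨z, hz, rfl⟩ := Finset.mem_image.mp hh
      exact h3 z.1 z.2
    · intro h hh
      obtain ⟨z, hz, rfl⟩ := Finset.mem_image.mp hh
      exact hS' z hz

/-- the assembly from the four inputs -/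
theorem rgd4_main (F : Type) [Field F] [NumberField F] {s n : ℕ} {G : Type}
    [Group G] [Fintype G] (X : Core F s n G) (M : ℕ) (α : Fin s → 𝓞 F) {c H0 C : ℝ}
    (hc : 0 < c) (hH0 : 1 ≤ H0) (hC : 0 < C)
    (hlev : ∀ H : ℝ, H0 ≤ H → (Homs (AlgebraicClosure F) X M α H).Finite ∧
      c * H ^ (Module.finrank ℚ F * ∑ i, X.I.d i) ≤
        ((Homs (AlgebraicClosure F) X M α H).ncard : ℝ))
    (hdisc : ∀ H : ℝ, 1 ≤ H → ∀ h ∈ Homs (AlgebraicClosure F) X M α H,
      ∃ (K : IntermediateField F (AlgebraicClosure F)) (_ : NumberField K)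
        (e : (K →ₐ[F] AlgebraicClosure F) ≃ Fin n),
        Module.finrank F K = n ∧
        (∀ (σ : AlgebraicClosure F ≃ₐ[F] AlgebraicClosure F) (φ : K →ₐ[F] AlgebraicClosure F),
          e (σ.toAlgHom.comp φ) = X.π (h σ) (e φ)) ∧
        |(NumberField.discr K : ℝ)| ≤ C * H ^ (Module.finrank ℚ F * (2 * ∑ j, X.c j)))
    (hcard : ∀ (S' : Finset ((AlgebraicClosure F ≃ₐ[F] AlgebraicClosure F) →* G))
      (K : ((AlgebraicClosure F ≃ₐ[F] AlgebraicClosure F) →* G) →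
        IntermediateField F (AlgebraicClosure F))
      (e : ∀ h, (K h →ₐ[F] AlgebraicClosure F) ≃ Fin n)
      (_ : ∀ h ∈ S', ∀ (σ : AlgebraicClosure F ≃ₐ[F] AlgebraicClosure F)
        (φ : K h →ₐ[F] AlgebraicClosure F), e h (σ.toAlgHom.comp φ) = X.π (h σ) (e h φ))
      (K₀ : IntermediateField F (AlgebraicClosure F))
      (_ : ∀ h ∈ S', Nonempty (K h ≃ₐ[F] K₀)), S'.card ≤ n.factorial) :
    ∃ c : ℝ, 0 < c ∧ ∀ᶠ B : ℝ in Filter.atTop,
      c * B ^ (((∑ i, X.I.d i : ℕ) : ℝ) / ((2 * ∑ j, X.c j : ℕ) : ℝ)) ≤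
        (Pool.Agent.H35.AN.malleCount F n X.π.range B : ℝ) := by
  have hcpos := X.c_pos
  set m := Module.finrank ℚ F with hm
  have hm1 : 0 < m := Module.finrank_pos
  set E : ℕ := 2 * ∑ j, X.c j with hE
  set Sd : ℕ := ∑ i, X.I.d i with hSd
  have hE1 : 0 < E := by omega
  have hD : 0 < m * E := Nat.mul_pos hm1 hE1
  have hD' : (0 : ℝ) < ((m * E : ℕ) : ℝ) := by exact_mod_cast hD
  have hm' : (m : ℝ) ≠ 0 := by exact_mod_cast hm1.ne'
  have hE' : (E : ℝ) ≠ 0 := by exact_mod_cast hE1.ne'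
  have hf : (0 : ℝ) < (n.factorial : ℝ) := by exact_mod_cast n.factorial_pos
  refine ⟨c * (1 / C) ^ ((Sd : ℝ) / (E : ℝ)) / n.factorial, by positivity, ?_⟩
  have hy : Filter.Tendsto (fun B : ℝ => (B / C) ^ (1 / ((m * E : ℕ) : ℝ))) Filter.atTop
      Filter.atTop :=
    (tendsto_rpow_atTop (by positivity)).comp (Filter.tendsto_id.atTop_div_const hC)
  filter_upwards [Filter.eventually_ge_atTop 1, hy.eventually_ge_atTop H0] with B hB hyB
  have hB0 : 0 < B := by linarith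
  set H : ℝ := (B / C) ^ (1 / ((m * E : ℕ) : ℝ)) with hH
  have hBC : 0 ≤ B / C := by positivity
  have hHD : H ^ (m * E) = B / C := by
    rw [hH, ← Real.rpow_natCast, ← Real.rpow_mul hBC, one_div_mul_cancel hD'.ne',
      Real.rpow_one]
  have hHD2 : C * H ^ (m * E) = B := by
    rw [hHD]
    field_simp
  obtain ⟨hfin, hlow⟩ := hlev H hyB
  have h1 := rgd4_count F X.π hfin.toFinset B (fun h hh => by
      rw [Set.Finite.mem_toFinset] at hh
      obtain ⟨K, hK, e, h2, h3, h4⟩ := hdisc H (hH0.trans hyB) h hh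
      rw [hHD2] at h4
      exact ⟨hh.1, K, hK, e, h2, h3, h4⟩)
    hcard
  rw [← Set.ncard_eq_toFinset_card _ hfin] at h1
  have h2 : ((Homs (AlgebraicClosure F) X M α H).ncard : ℝ) ≤
      (n.factorial : ℝ) * (Pool.Agent.H35.AN.malleCount F n X.π.range B : ℝ) := by
    exact_mod_cast h1
  have h3 : H ^ (m * Sd) = (1 / C) ^ ((Sd : ℝ) / (E : ℝ)) * B ^ ((Sd : ℝ) / (E : ℝ)) := by
    rw [← Real.mul_rpow (by positivity) hB0.le, hH, ← Real.rpow_natCast,
      ← Real.rpow_mul hBC]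
    congr 1
    · ring
    · push_cast
      field_simp
  rw [h3] at hlow
  have h4 := hlow.trans h2
  rw [← div_le_iff₀' hf] at h4
  refine le_trans (le_of_eq ?_) h4
  ring

end Pool.Agent.H13.RG
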