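import Pool.Agent.H13.RG.Defs

/-!
# RG-E2: traces on the homogeneous components

For a matrix `A` of finite order the generating function of the traces of `A` on the homogeneous
polynomials of degree `m` is `1 / det (1 - t A)`.
-/

set_option autoImplicit false

open MvPolynomial NumberField

namespace Pool.Agent.H13.RG

section Molien

variable {F : Type} [Field F] {s : ℕ}

/-- The basis of monomials. -/
noncomputable def rge2_basis (F : Type) [Field F] (s m : ℕ) :
    Module.Basis {d : Fin s →₀ ℕ | d.degree = m} F (homogeneousSubmodule (Fin s) F m) :=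
  Module.Basis.ofRepr ((LinearEquiv.ofEq _ _
    (homogeneousSubmodule_eq_finsupp_supported (Fin s) F m)).trans
      (AddMonoidAlgebra.supportedEquivFinsupp _))

theorem rge2_repr (m : ℕ) (p : homogeneousSubmodule (Fin s) F m)
    (d : {d : Fin s →₀ ℕ | d.degree = m}) :
    (rge2_basis F s m).repr p d = coeff (d : Fin s →₀ ℕ) (p : MvPolynomial (Fin s) F) := rfl

theorem rge2_basis_apply (m : ℕ) (d : {d : Fin s →₀ ℕ | d.degree = m}) :
    ((rge2_basis F s m d : homogeneousSubmodule (Fin s) F m) : MvPolynomial (Fin s) F) =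
      monomial (d : Fin s →₀ ℕ) 1 := by
  ext e
  by_cases he : e.degree = m
  · have h1 := rge2_repr m (rge2_basis F s m d) ⟨e, he⟩
    rw [← h1, Module.Basis.repr_self, coeff_monomial, Finsupp.single_apply]
    by_cases hde : d = ⟨e, he⟩
    · rw [if_pos hde, if_pos (by rw [hde])]
    · rw [if_neg hde, if_neg (fun h => hde (Subtype.ext h))]
  · have h1 : coeff e ((rge2_basis F s m d : homogeneousSubmodule (Fin s) F m) :
        MvPolynomial (Fin s) F) = 0 :=
      ((mem_homogeneousSubmodule _ _).1 (rge2_basis F s m d).2).coeff_eq_zero he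
    rw [h1, coeff_monomial, if_neg]
    rintro rfl
    exact he d.2

/-- The exponents of degree `m`. -/
noncomputable def rge2_exp (s m : ℕ) : Finset (Fin s →₀ ℕ) :=
  Finset.finsuppAntidiag Finset.univ m

theorem rge2_mem_exp {m : ℕ} {d : Fin s →₀ ℕ} : d ∈ rge2_exp s m ↔ d.degree = m := by
  rw [rge2_exp, Finset.mem_finsuppAntidiag, Finsupp.degree_eq_sum]
  exact ⟨fun h => h.1, fun h => ⟨h, Finset.subset_univ _⟩⟩

/-- The trace as a sum over the exponents. -/
theorem rge2_trace (A : Matrix (Fin s) (Fin s) F) (m : ℕ) :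
    LinearMap.trace F _ (homAct A m) = ∑ d ∈ rge2_exp s m, coeff d (msub A (monomial d 1)) := by
  classical
  have : Fintype {d : Fin s →₀ ℕ | d.degree = m} :=
    Fintype.ofFinset (rge2_exp s m) (fun d => rge2_mem_exp)
  rw [LinearMap.trace_eq_matrix_trace F (rge2_basis F s m), Matrix.trace]
  have h1 : ∀ d : {d : Fin s →₀ ℕ | d.degree = m},
      Matrix.diag (LinearMap.toMatrix (rge2_basis F s m) (rge2_basis F s m) (homAct A m)) d =
        coeff (d : Fin s →₀ ℕ) (msub A (monomial (d : Fin s →₀ ℕ) 1)) := by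
    intro d
    rw [Matrix.diag_apply, LinearMap.toMatrix_apply, rge2_repr]
    change coeff _ (msub A ((rge2_basis F s m d : homogeneousSubmodule (Fin s) F m) :
      MvPolynomial (Fin s) F)) = _
    rw [rge2_basis_apply]
  rw [Finset.sum_congr rfl fun d _ => h1 d]
  refine Finset.sum_bij (fun d _ => (d : Fin s →₀ ℕ)) ?_ ?_ ?_ ?_
  · intro d _; exact rge2_mem_exp.2 d.2
  · intro d _ d' _ h; exact Subtype.ext h
  · intro d hd; exact ⟨⟨d, rge2_mem_exp.1 hd⟩, Finset.mem_univ _, rfl⟩
  · intro d _; rfl

theorem rge2_msub_map {K : Type} [Field K] (φ : F →+* K) (A : Matrix (Fin s) (Fin s) F)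
    (p : MvPolynomial (Fin s) F) : msub (A.map φ) (map φ p) = map φ (msub A p) := by
  induction p using MvPolynomial.induction_on with
  | C a => rw [map_C, algHom_C, algHom_C, algebraMap_eq, algebraMap_eq, map_C]
  | add p q hp hq => rw [map_add, map_add, map_add, map_add, hp, hq]
  | mul_X p i hp =>
    rw [map_mul, map_mul, map_mul, map_mul, hp]
    congr 1
    rw [map_X]
    simp [msub]

theorem rge2_trace_map {K : Type} [Field K] (φ : F →+* K) (A : Matrix (Fin s) (Fin s) F) (m : ℕ) :
    LinearMap.trace K _ (homAct (A.map φ) m) = φ (LinearMap.trace F _ (homAct A m)) := by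
  rw [rge2_trace, rge2_trace, map_sum]
  refine Finset.sum_congr rfl fun d _ => ?_
  have h1 : monomial d (1 : K) = map φ (monomial d (1 : F)) := by
    rw [map_monomial, map_one φ]
  rw [h1, rge2_msub_map, coeff_map]

theorem rge2_msub_mul (A B : Matrix (Fin s) (Fin s) F) (p : MvPolynomial (Fin s) F) :
    msub (A * B) p = msub B (msub A p) := by
  induction p using MvPolynomial.induction_on with
  | C a => rw [algHom_C, algHom_C, algebraMap_eq, ← algebraMap_eq, AlgHom.commutes]
  | add p q hp hq => rw [map_add, map_add, map_add, hp, hq]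
  | mul_X p i hp =>
    rw [map_mul, map_mul, map_mul, hp]
    congr 1
    simp only [msub, aeval_X, map_sum, map_mul, Matrix.mul_apply, aeval_C, algebraMap_eq,
      Finset.mul_sum, Finset.sum_mul]
    rw [Finset.sum_comm]
    refine Finset.sum_congr rfl fun j _ => Finset.sum_congr rfl fun l _ => ?_
    ring

theorem rge2_homAct_mul (A B : Matrix (Fin s) (Fin s) F) (m : ℕ) :
    homAct (A * B) m = homAct B m * homAct A m := by
  ext p : 2
  exact rge2_msub_mul A B p

theorem rge2_trace_comm (A B : Matrix (Fin s) (Fin s) F) (m : ℕ) :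
    LinearMap.trace F _ (homAct (A * B) m) = LinearMap.trace F _ (homAct (B * A) m) := by
  rw [rge2_homAct_mul, rge2_homAct_mul, LinearMap.trace_mul_comm]

theorem rge2_trace_diag (a : Fin s → F) (m : ℕ) :
    LinearMap.trace F _ (homAct (Matrix.diagonal a) m) =
      ∑ d ∈ rge2_exp s m, ∏ i, a i ^ d i := by
  classical
  rw [rge2_trace]
  refine Finset.sum_congr rfl fun d _ => ?_
  have h1 : ∀ i, ∑ j, (C (Matrix.diagonal a i j) * X j : MvPolynomial (Fin s) F) =
      C (a i) * X i := by
    intro i
    rw [Finset.sum_eq_single i]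
    · rw [Matrix.diagonal_apply_eq]
    · intro j _ hj
      rw [Matrix.diagonal_apply_ne _ (Ne.symm hj), C_0, zero_mul]
    · intro h; exact absurd (Finset.mem_univ i) h
  have h2 : msub (Matrix.diagonal a) (monomial d 1) = monomial d (∏ i, a i ^ d i) := by
    rw [msub, aeval_monomial, map_one, one_mul, Finsupp.prod_fintype _ _ (fun i => pow_zero _)]
    simp only [h1, mul_pow, Finset.prod_mul_distrib]
    rw [monomial_eq, map_prod, Finsupp.prod_fintype _ _ (fun i => pow_zero _)]
    simp only [map_pow]
  rw [h2, coeff_monomial, if_pos rfl]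

theorem rge2_series_diag (a : Fin s → F) :
    (PowerSeries.mk fun m => LinearMap.trace F _ (homAct (Matrix.diagonal a) m)) *
      ((Matrix.diagonal a).charpolyRev : PowerSeries F) = 1 := by
  classical
  have h1 : (PowerSeries.mk fun m => LinearMap.trace F _ (homAct (Matrix.diagonal a) m)) =
      ∏ i, PowerSeries.mk fun n => a i ^ n := by
    ext m
    rw [PowerSeries.coeff_mk, rge2_trace_diag, PowerSeries.coeff_prod]
    refine Finset.sum_congr rfl fun d _ => Finset.prod_congr rfl fun i _ => ?_
    rw [PowerSeries.coeff_mk]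
  have h2 : (Matrix.diagonal a).charpolyRev =
      ∏ i, (1 - Polynomial.X * Polynomial.C (a i)) := by
    rw [Matrix.charpolyRev, Matrix.diagonal_map (map_zero _), ← Matrix.diagonal_smul,
      ← Matrix.diagonal_one, Matrix.diagonal_sub, Matrix.det_diagonal]
    rfl
  have h3 : ((∏ i, (1 - Polynomial.X * Polynomial.C (a i)) : Polynomial F) : PowerSeries F) =
      ∏ i, (1 - PowerSeries.X * PowerSeries.C (a i)) := by
    rw [← Polynomial.coeToPowerSeries.ringHom_apply, map_prod]
    refine Finset.prod_congr rfl fun i _ => ?_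
    simp
    exact mul_comm _ _
  rw [h1, h2, h3, ← Finset.prod_mul_distrib]
  refine Finset.prod_eq_one fun i _ => ?_
  ext n
  rw [mul_sub, mul_one, map_sub, PowerSeries.coeff_mk]
  cases n with
  | zero => simp
  | succ n =>
    rw [← mul_assoc, PowerSeries.coeff_mul_C, PowerSeries.coeff_succ_mul_X,
      PowerSeries.coeff_mk, PowerSeries.coeff_one, if_neg (Nat.succ_ne_zero n)]
    ring

/-- Matrices of finite order over an algebraically closed field of characteristic zero are
diagonalizable. -/
theorem rge2_exists_diag {K : Type} [Field K] [IsAlgClosed K] [CharZero K]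
    (A : Matrix (Fin s) (Fin s) K) (r : ℕ) (hr : 0 < r) (hA : A ^ r = 1) :
    ∃ (P Q : Matrix (Fin s) (Fin s) K) (a : Fin s → K), P * Q = 1 ∧ Q * P = 1 ∧
      A = P * Matrix.diagonal a * Q := by
  classical
  set f : Module.End K (Fin s → K) := Matrix.toLin' A with hf
  have hfr : f ^ r = 1 := by
    rw [hf, ← Matrix.toLin'_pow, hA, Matrix.toLin'_one]
    rfl
  have hsep : (Polynomial.X ^ r - 1 : Polynomial K).Separable := by
    have h1 := Polynomial.separable_X_pow_sub_C (1 : K) (n := r)
      (by exact_mod_cast hr.ne') one_ne_zero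
    rwa [Polynomial.C_1] at h1
  have hss : f.IsSemisimple := by
    refine Module.End.isSemisimple_of_squarefree_aeval_eq_zero hsep.squarefree ?_
    rw [map_sub, map_pow, Polynomial.aeval_X, map_one, hfr, sub_self]
  have htop : ⨆ μ : K, f.eigenspace μ = ⊤ := by
    have h1 := Module.End.iSup_maxGenEigenspace_eq_top f
    rw [← h1]
    exact iSup_congr fun μ => (hss.isFinitelySemisimple.maxGenEigenspace_eq_eigenspace μ).symm
  have hind : iSupIndep f.eigenspace := Module.End.eigenspaces_iSupIndep f
  have hint : DirectSum.IsInternal f.eigenspace :=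
    DirectSum.isInternal_submodule_of_iSupIndep_of_iSup_eq_top hind htop
  let v : ∀ μ : K, Module.Basis (Module.Free.ChooseBasisIndex K (f.eigenspace μ)) K
    (f.eigenspace μ) := fun μ => Module.Free.chooseBasis K _
  let b0 := hint.collectedBasis v
  let e := b0.indexEquiv (Pi.basisFun K (Fin s))
  let b := b0.reindex e
  have hb : ∀ i, ∃ μ : K, f (b i) = μ • b i := by
    intro i
    refine ⟨(e.symm i).1, ?_⟩
    have h1 : b i = v (e.symm i).1 (e.symm i).2 := by
      rw [Module.Basis.reindex_apply, DirectSum.IsInternal.collectedBasis_coe]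
    rw [h1]
    exact Module.End.mem_eigenspace_iff.1 (v (e.symm i).1 (e.symm i).2).2
  choose a ha using hb
  refine ⟨(Pi.basisFun K (Fin s)).toMatrix b, b.toMatrix (Pi.basisFun K (Fin s)), a,
    Module.Basis.toMatrix_mul_toMatrix_flip _ _, Module.Basis.toMatrix_mul_toMatrix_flip _ _, ?_⟩
  set P := (Pi.basisFun K (Fin s)).toMatrix b with hP
  set Q := b.toMatrix (Pi.basisFun K (Fin s)) with hQ
  have hPQ : P * Q = 1 := Module.Basis.toMatrix_mul_toMatrix_flip _ _
  have hAP : A * P = P * Matrix.diagonal a := by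
    ext i j
    rw [Matrix.mul_diagonal]
    have h1 := congrFun (ha j) i
    rw [hf, Matrix.toLin'_apply, Pi.smul_apply, smul_eq_mul, mul_comm] at h1
    exact h1
  rw [← hAP, Matrix.mul_assoc, hPQ, Matrix.mul_one]

theorem rge2_charpolyRev_conj {K : Type} [Field K] (P Q B : Matrix (Fin s) (Fin s) K)
    (hPQ : P * Q = 1) (hQP : Q * P = 1) : (P * B * Q).charpolyRev = B.charpolyRev := by
  rw [← Matrix.reverse_charpoly, ← Matrix.reverse_charpoly]
  have h1 := Matrix.charpoly_units_conj (⟨P, Q, hPQ, hQP⟩ : (Matrix (Fin s) (Fin s) K)ˣ) B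
  have h2 : (P : Matrix (Fin s) (Fin s) K)⁻¹ = Q := Matrix.inv_eq_right_inv hPQ
  rw [← h1]
  change (P * B * Q).charpoly.reverse = (P * B * P⁻¹).charpoly.reverse
  rw [h2]

theorem rge2_charpolyRev_map {K : Type} [Field K] (φ : F →+* K) (A : Matrix (Fin s) (Fin s) F) :
    (A.map φ).charpolyRev = A.charpolyRev.map φ := by
  rw [Matrix.charpolyRev, Matrix.charpolyRev, ← Polynomial.coe_mapRingHom, RingHom.map_det]
  congr 1
  ext i j : 2
  simp [Matrix.one_apply, apply_ite (Polynomial.map φ)]

/-- ### RG-E2 Molien.lean: traces on the homogeneous components -/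
theorem trace_series [CharZero F] (A : Matrix (Fin s) (Fin s) F) (r : ℕ) (hr : 0 < r)
    (hA : A ^ r = 1) :
    (PowerSeries.mk fun m => LinearMap.trace F _ (homAct A m)) *
      (A.charpolyRev : PowerSeries F) = 1 := by
  classical
  set K := AlgebraicClosure F
  let φ : F →+* K := algebraMap F K
  have : CharZero K := charZero_of_injective_algebraMap (algebraMap F K).injective
  have hA' : (A.map φ) ^ r = 1 := by
    have h1 := congrArg (RingHom.mapMatrix φ) hA
    rw [map_pow, map_one] at h1
    exact h1
  obtain ⟨P, Q, a, hPQ, hQP, hAD⟩ := rge2_exists_diag (A.map φ) r hr hA'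
  have hinj : Function.Injective (PowerSeries.map φ) := PowerSeries.map_injective φ φ.injective
  apply hinj
  rw [map_mul, map_one]
  have h1 : PowerSeries.map φ (PowerSeries.mk fun m => LinearMap.trace F _ (homAct A m)) =
      PowerSeries.mk fun m => LinearMap.trace K _ (homAct (Matrix.diagonal a) m) := by
    ext m
    rw [PowerSeries.coeff_map, PowerSeries.coeff_mk, PowerSeries.coeff_mk, ← rge2_trace_map, hAD,
      rge2_trace_comm, ← Matrix.mul_assoc, hQP, Matrix.one_mul]
  have h2 : PowerSeries.map φ (A.charpolyRev : PowerSeries F) =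
      ((Matrix.diagonal a).charpolyRev : PowerSeries K) := by
    rw [← Polynomial.polynomial_map_coe]
    congr 1
    rw [← rge2_charpolyRev_conj P Q (Matrix.diagonal a) hPQ hQP, ← hAD, rge2_charpolyRev_map]
  rw [h1, h2]
  exact rge2_series_diag a

end Molien

end Pool.Agent.H13.RG
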