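import Pool.Agent.H13.RG.Molien

/-!
# Project RG (MP_a3214d), RG-E3: Molien's formula
-/

set_option autoImplicit false

open MvPolynomial NumberField IsDedekindDomain

namespace Pool.Agent.H13.RG

section InvTheory

variable {F : Type} [Field F] [CharZero F] {s : ℕ} {G : Type} [Group G] [Fintype G]
  (ρ : G →* Matrix (Fin s) (Fin s) F)

omit [CharZero F] in
theorem rge3_msub_mul (A B : Matrix (Fin s) (Fin s) F) (p : MvPolynomial (Fin s) F) :
    msub (A * B) p = msub B (msub A p) := by
  have h : msub (A * B) = (msub B).comp (msub A) := by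
    apply MvPolynomial.algHom_ext
    intro i
    simp only [msub, AlgHom.comp_apply, aeval_X, map_sum, map_mul, algHom_C,
      Matrix.mul_apply, Finset.sum_mul, Finset.mul_sum]
    rw [Finset.sum_comm]
    refine Finset.sum_congr rfl fun j _ => Finset.sum_congr rfl fun k _ => ?_
    rw [← MvPolynomial.algebraMap_eq, mul_assoc]
  rw [h]
  rfl

/-- the space of the invariants inside the homogeneous polynomials -/
noncomputable def rge3_inv (H : Subgroup G) (m : ℕ) :
    Submodule F (homogeneousSubmodule (Fin s) F m) :=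
  (invSub ρ H).comap (homogeneousSubmodule (Fin s) F m).subtype

/-- the average over the group -/
noncomputable def rge3_avg (H : Subgroup G) [Fintype H] (m : ℕ) :
    homogeneousSubmodule (Fin s) F m →ₗ[F] homogeneousSubmodule (Fin s) F m :=
  ((Fintype.card H : F)⁻¹) • ∑ h : H, homAct (ρ h) m

omit [Fintype G] in
theorem rge3_isProj (H : Subgroup G) [Fintype H] (m : ℕ) :
    LinearMap.IsProj (rge3_inv ρ H m) (rge3_avg ρ H m) := by
  have hc : (Fintype.card H : F) ≠ 0 := by
    exact_mod_cast Fintype.card_ne_zero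
  refine ⟨fun p => ?_, fun p hp => ?_⟩
  · show IsInv ρ H ((rge3_avg ρ H m p : homogeneousSubmodule (Fin s) F m) :
      MvPolynomial (Fin s) F)
    intro g hg
    have hval : ((rge3_avg ρ H m p : homogeneousSubmodule (Fin s) F m) :
        MvPolynomial (Fin s) F) =
          ((Fintype.card H : F)⁻¹) • ∑ h : H, msub (ρ h) (p : MvPolynomial (Fin s) F) := by
      simp [rge3_avg, homAct]
    rw [hval, map_smul, map_sum]
    congr 1
    refine Fintype.sum_equiv (Equiv.mulRight (⟨g, hg⟩ : H)) _ _ fun h => ?_
    rw [Equiv.coe_mulRight, ← rge3_msub_mul, ← map_mul]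
    rfl
  · have hp' : IsInv ρ H (p : MvPolynomial (Fin s) F) := hp
    apply Subtype.ext
    have hval : ((rge3_avg ρ H m p : homogeneousSubmodule (Fin s) F m) :
        MvPolynomial (Fin s) F) =
          ((Fintype.card H : F)⁻¹) • ∑ h : H, msub (ρ h) (p : MvPolynomial (Fin s) F) := by
      simp [rge3_avg, homAct]
    rw [hval, Finset.sum_congr rfl (fun (h : H) _ => hp' h h.2), Finset.sum_const,
      Finset.card_univ, ← Nat.cast_smul_eq_nsmul F, smul_smul, inv_mul_cancel₀ hc, one_smul]

omit [CharZero F] in
theorem rge3_proj_trace {M : Type} [AddCommGroup M] [Module F M] [FiniteDimensional F M]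
    {p : Submodule F M} {f : M →ₗ[F] M} (h : LinearMap.IsProj p f) :
    LinearMap.trace F M f = (Module.finrank F p : F) := h.trace

omit [Fintype G] in
theorem rge3_trace (H : Subgroup G) [Fintype H] (m : ℕ) :
    ∑ h : H, LinearMap.trace F _ (homAct (ρ h) m) =
      (Fintype.card H : F) * (Module.finrank F
        ((invSub ρ H) ⊓ homogeneousSubmodule (Fin s) F m : Submodule F _) : F) := by
  have hc : (Fintype.card H : F) ≠ 0 := by
    exact_mod_cast Fintype.card_ne_zero
  have hfin : Module.Finite F (homogeneousSubmodule (Fin s) F m) :=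
    Module.Finite.iff_fg.mpr (homogeneousSubmodule_fg _ _ _)
  have h1 := rge3_proj_trace (rge3_isProj ρ H m)
  have h2 : LinearMap.trace F _ (rge3_avg ρ H m) =
      (Fintype.card H : F)⁻¹ * ∑ h : H, LinearMap.trace F _ (homAct (ρ h) m) := by
    rw [rge3_avg, map_smul, map_sum, smul_eq_mul]
  have h3 : Module.finrank F (rge3_inv ρ H m) = Module.finrank F
        ((invSub ρ H) ⊓ homogeneousSubmodule (Fin s) F m : Submodule F _) := by
    rw [← Submodule.finrank_map_subtype_eq, rge3_inv, Submodule.map_comap_subtype, inf_comm]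
  rw [← h3, ← h1, h2, mul_inv_cancel_left₀ hc]

theorem molien (H : Subgroup G) [Fintype H] :
    (Fintype.card H : PowerSeries F) * hser (invSub ρ H) =
      ∑ h : H, ((ρ h).charpolyRev : PowerSeries F)⁻¹ := by
  have h1 : ∀ h : H, ((ρ h).charpolyRev : PowerSeries F)⁻¹ =
      PowerSeries.mk fun m => LinearMap.trace F _ (homAct (ρ h) m) := by
    intro h
    have h2 := trace_series (ρ h) (orderOf (h : G)) (orderOf_pos _) (by
      rw [← map_pow, pow_orderOf_eq_one, map_one])
    have h3 : PowerSeries.constantCoeff ((ρ h).charpolyRev : PowerSeries F) ≠ 0 := by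
      rw [← PowerSeries.coeff_zero_eq_constantCoeff_apply, Polynomial.coeff_coe,
        Polynomial.coeff_zero_eq_eval_zero, Matrix.eval_charpolyRev]
      exact one_ne_zero
    exact ((PowerSeries.eq_inv_iff_mul_eq_one h3).2 h2).symm
  rw [Finset.sum_congr rfl (fun h _ => h1 h)]
  ext m
  rw [map_sum]
  simp only [PowerSeries.coeff_mk]
  rw [rge3_trace ρ H m]
  have h4 : (Fintype.card H : PowerSeries F) = PowerSeries.C (Fintype.card H : F) := by
    rw [map_natCast]
  rw [h4, PowerSeries.coeff_C_mul, hser, PowerSeries.coeff_mk]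

end InvTheory

end Pool.Agent.H13.RG
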