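import Pool.Agent.H41.RG.Pack

/-!
# RG-C5: packing
-/

set_option autoImplicit false

namespace Pool.Agent.H13.RG

theorem packing {V : Type} [AddCommGroup V] [Module ℚ V] (nrm : V → ℝ)
    (hsub : ∀ x y, nrm (x - y) ≤ nrm x + nrm y) (hsmul : ∀ (N : ℕ) x, nrm (N • x) = N * nrm x)
    (A : AddSubgroup V) {R : ℕ}
    (hR : ∀ (r : ℕ) (v : Fin r → V), (∀ i, v i ∈ A) → LinearIndependent ℤ v → r ≤ R)
    {lam T : ℝ} (hlam : 0 < lam) (hT : 0 ≤ T) (hmin : ∀ x ∈ A, x ≠ 0 → lam ≤ nrm x)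
    (S : Finset V) (hS : ∀ x ∈ S, x ∈ A ∧ nrm x ≤ T) :
    (S.card : ℝ) ≤ (1 + 2 * T / lam) ^ R := by
  have htf : IsAddTorsionFree V := IsAddTorsionFree.of_module_rat V
  have hcl : AddSubgroup.closure (S : Set V) ≤ A := by
    rw [AddSubgroup.closure_le]
    intro x hx
    exact (hS x hx).1
  exact Pool.Agent.H41.RG.card_le_pack nrm hsub hsmul hlam hT S
    (fun x hx => hmin x (hcl hx)) (fun x hx => (hS x hx).2) R
    (fun r v hv => hR r v (fun i => hcl (hv i)))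

end Pool.Agent.H13.RG
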