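import Pool.Agent.H13.RG.Defs

/-!
# Project RG (MP_a3214d): the symmetric group as a reflection group
-/

set_option autoImplicit false

open Equiv

namespace Pool.Agent.H13.RG

/-- The vectors with coordinate sum zero. -/
def symSpace (F : Type) [Field F] (n : ℕ) : Submodule F (Fin n → F) where
  carrier := {v | ∑ i, v i = 0}
  add_mem' := fun {v w} hv hw => by
    simp only [Set.mem_setOf_eq, Pi.add_apply, Finset.sum_add_distrib] at *
    rw [hv, hw, add_zero]
  zero_mem' := by simp
  smul_mem' := fun c v hv => by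
    simp only [Set.mem_setOf_eq, Pi.smul_apply, smul_eq_mul, ← Finset.mul_sum] at *
    rw [hv, mul_zero]

/-- The permutation action on the vectors with coordinate sum zero. -/
def symRep (F : Type) [Field F] (n : ℕ) :
    Representation F (Equiv.Perm (Fin n)) (symSpace F n) where
  toFun σ :=
    { toFun := fun v => ⟨fun i => v.1 (σ⁻¹ i), by
        have h := v.2
        change ∑ i, v.1 (σ⁻¹ i) = 0
        rw [Equiv.sum_comp σ⁻¹ v.1]
        exact h⟩
      map_add' := fun v w => rfl
      map_smul' := fun c v => rfl }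
  map_one' := rfl
  map_mul' σ τ := by
    ext v i
    simp [mul_inv_rev]

section

variable {F : Type} [Field F] {n : ℕ}

theorem rgg1_fin1 {V : Type} [AddCommGroup V] [Module F V] (U : Submodule F V)
    (h : Module.finrank F U = 1) : ∃ v : V, ∀ w ∈ U, ∃ c : F, c • v = w := by
  obtain ⟨v, _, h2⟩ := (finrank_eq_one_iff' (K := F) (V := U)).mp h
  refine ⟨v, fun w hw => ?_⟩
  obtain ⟨c, hc⟩ := h2 ⟨w, hw⟩
  exact ⟨c, congrArg Subtype.val hc⟩

theorem rgg1_mem {x : Fin n → F} : x ∈ symSpace F n ↔ ∑ i, x i = 0 := Iff.rfl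

theorem rgg1_apply (g : Perm (Fin n)) (x : symSpace F n) (i : Fin n) :
    ((symRep F n g x : symSpace F n) : Fin n → F) i = (x : Fin n → F) (g⁻¹ i) := rfl

/-- the vector `e_i - e_j` -/
def rgg1_ev (F : Type) [Field F] {n : ℕ} (i j : Fin n) : symSpace F n :=
  ⟨Pi.single i 1 - Pi.single j 1, by
    rw [rgg1_mem]
    simp [Finset.sum_sub_distrib]⟩

theorem rgg1_ev_apply (i j l : Fin n) : ((rgg1_ev F i j : symSpace F n) : Fin n → F) l =
    (if l = i then 1 else 0) - (if l = j then 1 else 0) := by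
  simp [rgg1_ev, Pi.single_apply]

theorem rgg1_rep_ev (g : Perm (Fin n)) (i j : Fin n) :
    symRep F n g (rgg1_ev F i j) = rgg1_ev F (g i) (g j) := by
  apply Subtype.ext
  funext l
  rw [rgg1_apply, rgg1_ev_apply, rgg1_ev_apply]
  simp only [Perm.inv_eq_iff_eq]

theorem rgg1_ev_ne_zero {i j : Fin n} (h : i ≠ j) : (rgg1_ev F i j : symSpace F n) ≠ 0 := by
  intro h0
  have h1 : ((rgg1_ev F i j : symSpace F n) : Fin n → F) i = 0 := by rw [h0]; rfl
  rw [rgg1_ev_apply, if_pos rfl, if_neg h, sub_zero] at h1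
  exact one_ne_zero h1

/-- the differences `e_i - e_j` span -/
theorem rgg1_span (U : Submodule F (symSpace F n)) (i₀ : Fin n)
    (hU : ∀ i, rgg1_ev F i i₀ ∈ U) : U = ⊤ := by
  rw [eq_top_iff]
  intro x _
  have h : x = ∑ i, (x : Fin n → F) i • rgg1_ev F i i₀ := by
    apply Subtype.ext
    funext l
    have hx := rgg1_mem.mp x.2
    have h1 : ((∑ i, (x : Fin n → F) i • rgg1_ev F i i₀ : symSpace F n) : Fin n → F) l =
        ∑ i, (x : Fin n → F) i * ((if l = i then 1 else 0) - (if l = i₀ then 1 else 0)) := by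
      rw [Submodule.coe_sum, Finset.sum_apply]
      apply Finset.sum_congr rfl
      intro i _
      rw [Submodule.coe_smul, Pi.smul_apply, rgg1_ev_apply, smul_eq_mul]
    rw [h1]
    simp only [mul_sub, Finset.sum_sub_distrib, ← Finset.sum_mul, hx]
    simp
  rw [h]
  exact Submodule.sum_mem _ (fun i _ => U.smul_mem _ (hU i))

theorem rgg1_swap_sub (i j : Fin n) (x : symSpace F n) :
    symRep F n (swap i j) x - x =
      (((x : Fin n → F) j) - (x : Fin n → F) i) • rgg1_ev F i j := by
  apply Subtype.ext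
  funext l
  rw [Submodule.coe_sub, Pi.sub_apply, rgg1_apply, Submodule.coe_smul, Pi.smul_apply,
    rgg1_ev_apply, smul_eq_mul, swap_inv]
  by_cases h1 : l = i
  · subst h1
    rw [swap_apply_left]
    by_cases h2 : l = j
    · subst h2
      simp
    · simp [h2]
  · by_cases h2 : l = j
    · subst h2
      rw [swap_apply_right]
      simp [h1]
    · rw [swap_apply_of_ne_of_ne h1 h2]
      simp [h1, h2]

/-- the difference vectors generate: one of them in a stable subspace gives everything -/
theorem rgg1_gen (U : Submodule F (symSpace F n)) (hU : ∀ g, ∀ v ∈ U, symRep F n g v ∈ U)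
    {i j : Fin n} (hij : i ≠ j) (h : rgg1_ev F i j ∈ U) : U = ⊤ := by
  apply rgg1_span U j
  intro l
  by_cases hl : l = j
  · subst hl
    have h1 : (rgg1_ev F l l : symSpace F n) = 0 := by
      apply Subtype.ext
      funext m
      rw [rgg1_ev_apply, sub_self]
      rfl
    rw [h1]
    exact U.zero_mem
  · have h1 := hU (swap i l) _ h
    rw [rgg1_rep_ev, swap_apply_left, swap_apply_of_ne_of_ne (Ne.symm hij) (Ne.symm hl)] at h1
    exact h1

theorem rgg1_irred [CharZero F] (U : Submodule F (symSpace F n))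
    (hU : ∀ g, ∀ v ∈ U, symRep F n g v ∈ U) : U = ⊥ ∨ U = ⊤ := by
  by_cases h0 : U = ⊥
  · exact Or.inl h0
  right
  obtain ⟨x, hx, hx0⟩ := Submodule.exists_mem_ne_zero_of_ne_bot h0
  -- two different coordinates
  obtain ⟨i, j, hij⟩ : ∃ i j, (x : Fin n → F) i ≠ (x : Fin n → F) j := by
    by_contra hcon
    push Not at hcon
    apply hx0
    apply Subtype.ext
    funext l
    have h1 := rgg1_mem.mp x.2
    have h2 : ∑ i, (x : Fin n → F) i = n * (x : Fin n → F) l := by
      rw [Finset.sum_congr rfl (fun i _ => hcon i l)]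
      simp
    rw [h2, mul_eq_zero] at h1
    rcases h1 with h1 | h1
    · have h3 : n = 0 := by exact_mod_cast h1
      subst h3
      exact l.elim0
    · exact h1
  have hne : i ≠ j := fun h => hij (by rw [h])
  have h1 : symRep F n (swap i j) x - x ∈ U := U.sub_mem (hU _ _ hx) hx
  rw [rgg1_swap_sub] at h1
  have h2 : rgg1_ev F i j ∈ U := by
    have h3 := U.smul_mem (((x : Fin n → F) j) - (x : Fin n → F) i)⁻¹ h1
    rwa [smul_smul, inv_mul_cancel₀ (sub_ne_zero.mpr (Ne.symm hij)), one_smul] at h3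
  exact rgg1_gen U hU hne h2

theorem rgg1_faithful [CharZero F] : Function.Injective (symRep F n) := by
  rw [injective_iff_map_eq_one]
  intro g hg
  apply Equiv.ext
  intro i
  by_contra hi
  rw [Perm.one_apply] at hi
  have h1 : symRep F n g (rgg1_ev F i (g i)) = rgg1_ev F i (g i) := by rw [hg]; rfl
  rw [rgg1_rep_ev] at h1
  have h2 := congrFun (congrArg Subtype.val h1) i
  rw [rgg1_ev_apply, rgg1_ev_apply, if_neg (Ne.symm hi), if_pos rfl] at h2
  by_cases h3 : i = g (g i)
  · rw [if_pos h3] at h2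
    norm_num at h2
  · rw [if_neg h3] at h2
    norm_num at h2

theorem rgg1_isRefl_swap [CharZero F] {i j : Fin n} (hij : i ≠ j) :
    IsRefl (symRep F n) (swap i j) := by
  unfold IsRefl
  have h : LinearMap.range (symRep F n (swap i j) - 1) = Submodule.span F {rgg1_ev F i j} := by
    apply le_antisymm
    · rintro _ ⟨x, rfl⟩
      rw [LinearMap.sub_apply, Module.End.one_apply, rgg1_swap_sub]
      exact Submodule.smul_mem _ _ (Submodule.mem_span_singleton_self _)
    · rw [Submodule.span_singleton_le_iff_mem]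
      refine ⟨(2 : F)⁻¹ • rgg1_ev F j i, ?_⟩
      rw [LinearMap.sub_apply, Module.End.one_apply, rgg1_swap_sub]
      rw [Submodule.coe_smul, Pi.smul_apply, Pi.smul_apply, rgg1_ev_apply, rgg1_ev_apply,
        if_pos rfl, if_neg (Ne.symm hij), if_neg hij, if_pos rfl]
      have h2 : (2 : F)⁻¹ • ((1 : F) - 0) - (2 : F)⁻¹ • ((0 : F) - 1) = 1 := by
        simp only [smul_eq_mul]
        have h3 : (2 : F) ≠ 0 := two_ne_zero
        field_simp
        ring
      rw [h2, one_smul]
  rw [h]
  exact finrank_span_singleton (rgg1_ev_ne_zero hij)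

/-- the vector `n e_b - (1, ..., 1)` -/
def rgg1_bv (F : Type) [Field F] {n : ℕ} (b : Fin n) : symSpace F n :=
  ⟨fun l => (if l = b then (n : F) else 0) - 1, by
    rw [rgg1_mem]
    simp [Finset.sum_sub_distrib]⟩

/-- only the transpositions are reflections -/
theorem rgg1_isSwap [CharZero F] (g : Perm (Fin n))
    (hg : IsRefl (symRep F n) g) : g.IsSwap := by
  unfold IsRefl at hg
  have hg1 : g ≠ 1 := by
    rintro rfl
    have h1 : symRep F n 1 - 1 = 0 := by
      rw [map_one]
      exact sub_self (1 : Module.End F (symSpace F n))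
    rw [h1, LinearMap.range_zero, finrank_bot] at hg
    exact zero_ne_one hg
  obtain ⟨i, hi⟩ : ∃ i, g i ≠ i := by
    by_contra hcon
    push Not at hcon
    exact hg1 (Equiv.ext hcon)
  obtain ⟨v, hv⟩ := rgg1_fin1 _ hg
  have hc : ∀ x : symSpace F n, ∃ c : F, ∀ l, c * (v : Fin n → F) l =
      (x : Fin n → F) (g⁻¹ l) - (x : Fin n → F) l := by
    intro x
    obtain ⟨c, h1⟩ := hv ((symRep F n g - 1) x) ⟨x, rfl⟩
    refine ⟨c, fun l => ?_⟩
    have h2 := congrArg (fun w : symSpace F n => (w : Fin n → F) l) h1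
    exact h2
  have hn0 : (n : F) ≠ 0 := by
    have : 0 < n := Fin.pos i
    exact_mod_cast this.ne'
  -- `v` does not vanish at `g i`
  have hvb : (v : Fin n → F) (g i) ≠ 0 := by
    intro h0
    obtain ⟨c, hcx⟩ := hc (rgg1_bv F (g i))
    have h1 := hcx (g i)
    rw [h0, mul_zero, show g⁻¹ (g i) = i from g.symm_apply_apply i] at h1
    simp only [rgg1_bv, if_neg (Ne.symm hi), if_true] at h1
    apply hn0
    linear_combination h1
  -- all moved points are `i` and `g i`
  have hmove : ∀ l, g l ≠ l → l = i ∨ l = g i := by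
    intro l hl
    by_contra hcon
    push Not at hcon
    obtain ⟨c, hcx⟩ := hc (rgg1_bv F l)
    have h1 := hcx (g i)
    rw [show g⁻¹ (g i) = i from g.symm_apply_apply i] at h1
    simp only [rgg1_bv, if_neg (Ne.symm hcon.1), if_neg (Ne.symm hcon.2), sub_self] at h1
    have hc0 : c = 0 := (mul_eq_zero.mp h1).resolve_right hvb
    have h2 := hcx l
    have hl' : g⁻¹ l ≠ l := fun h => hl (by rw [Perm.inv_eq_iff_eq] at h; exact h.symm)
    rw [hc0, zero_mul] at h2
    simp only [rgg1_bv, if_neg hl', if_true] at h2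
    apply hn0
    linear_combination h2
  have hgi : g (g i) = i := by
    have h1 : g (g i) ≠ g i := fun h => hi (g.injective h)
    rcases hmove (g (g i)) (fun h => h1 (g.injective h)) with h | h
    · exact h
    · exact absurd h h1
  refine ⟨i, g i, Ne.symm hi, ?_⟩
  apply Equiv.ext
  intro l
  by_cases h1 : l = i
  · rw [h1, swap_apply_left]
  · by_cases h2 : l = g i
    · rw [h2, swap_apply_right, hgi]
    · rw [swap_apply_of_ne_of_ne h1 h2]
      by_contra h3
      rcases hmove l h3 with h4 | h4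
      · exact h1 h4
      · exact h2 h4

theorem rgg1_iff [CharZero F] (g : Perm (Fin n)) :
    IsRefl (symRep F n) g ↔ g.IsSwap := by
  refine ⟨rgg1_isSwap g, ?_⟩
  rintro ⟨i, j, hij, rfl⟩
  exact rgg1_isRefl_swap hij

/-- two transpositions that move `i` to the same place are equal -/
theorem rgg1_swap_eq {g : Perm (Fin n)} (hg : g.IsSwap) {i : Fin n} (hi : g i ≠ i) :
    g = swap i (g i) := by
  obtain ⟨a, b, hab, rfl⟩ := hg
  by_cases h1 : i = a
  · subst h1
    rw [swap_apply_left]
  · by_cases h2 : i = b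
    · subst h2
      rw [swap_apply_right, swap_comm]
    · exact absurd (swap_apply_of_ne_of_ne h1 h2) hi

/-- pairs (transposition, moved point) and ordered pairs of different points -/
def rgg1_equiv : {p : Perm (Fin n) × Fin n // p.1.IsSwap ∧ p.1 p.2 ≠ p.2} ≃
    {q : Fin n × Fin n // q.1 ≠ q.2} where
  toFun p := ⟨(p.1.2, p.1.1 p.1.2), Ne.symm p.2.2⟩
  invFun q := ⟨(swap q.1.1 q.1.2, q.1.1), ⟨q.1.1, q.1.2, q.2, rfl⟩, by
    rw [swap_apply_left]
    exact Ne.symm q.2⟩
  left_inv := by
    rintro ⟨⟨g, i⟩, hg, hi⟩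
    apply Subtype.ext
    exact Prod.ext (rgg1_swap_eq hg hi).symm rfl
  right_inv := by
    rintro ⟨⟨i, j⟩, h⟩
    apply Subtype.ext
    exact Prod.ext rfl (swap_apply_left i j)

theorem rgg1_card_pairs : Nat.card {q : Fin n × Fin n // q.1 ≠ q.2} = n * (n - 1) := by
  rw [Nat.card_eq_fintype_card, Fintype.card_subtype]
  have h : (Finset.univ.filter fun q : Fin n × Fin n => q.1 ≠ q.2) =
      (Finset.univ : Finset (Fin n)).offDiag := by
    ext q
    simp
  rw [h, Finset.offDiag_card, Finset.card_univ, Fintype.card_fin, Nat.mul_sub_one]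

end

variable (F : Type) [Field F] [CharZero F] {n : ℕ} (hn : 2 ≤ n)

include hn

theorem finrank_symSpace : Module.finrank F (symSpace F n) = n - 1 := by
  have h0 : symSpace F n = LinearMap.ker (∑ i, LinearMap.proj i : (Fin n → F) →ₗ[F] F) := by
    ext x
    rw [LinearMap.mem_ker, rgg1_mem]
    simp
  have h1 := LinearMap.finrank_range_add_finrank_ker
    (∑ i, LinearMap.proj i : (Fin n → F) →ₗ[F] F)
  have h2 : LinearMap.range (∑ i, LinearMap.proj i : (Fin n → F) →ₗ[F] F) = ⊤ := by
    rw [LinearMap.range_eq_top]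
    intro c
    refine ⟨Pi.single ⟨0, by omega⟩ c, ?_⟩
    simp
  rw [h2, finrank_top, Module.finrank_self, Module.finrank_fin_fun] at h1
  rw [h0]
  omega

theorem isRefl_symRep (g : Equiv.Perm (Fin n)) : IsRefl (symRep F n) g ↔ g.IsSwap := rgg1_iff g

theorem reflGroup_symRep : ReflGroup (symRep F n) where
  faithful := rgg1_faithful
  irred := rgg1_irred
  gen := by
    have h : {g | IsRefl (symRep F n) g} = {g : Perm (Fin n) | g.IsSwap} := by
      ext g
      exact rgg1_iff g
    rw [h]
    exact Perm.closure_isSwap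

theorem movRefl_symRep : movRefl (symRep F n) (MonoidHom.id (Equiv.Perm (Fin n))) =
    n * (n - 1) := by
  unfold movRefl
  rw [← rgg1_card_pairs (n := n)]
  have e : {p : Perm (Fin n) × Fin n // IsRefl (symRep F n) p.1 ∧
      (MonoidHom.id (Perm (Fin n))) p.1 p.2 ≠ p.2} ≃
      {p : Perm (Fin n) × Fin n // p.1.IsSwap ∧ p.1 p.2 ≠ p.2} :=
    Equiv.subtypeEquivRight (fun p => by rw [rgg1_iff]; rfl)
  exact Nat.card_congr (e.trans rgg1_equiv)

theorem numRefl_symRep : 2 * numRefl (symRep F n) = n * (n - 1) := by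
  classical
  unfold numRefl
  have e : {g : Perm (Fin n) // IsRefl (symRep F n) g} ≃ {g : Perm (Fin n) // g.IsSwap} :=
    Equiv.subtypeEquivRight (fun g => rgg1_iff g)
  rw [Nat.card_congr e, ← rgg1_card_pairs (n := n), ← Nat.card_congr rgg1_equiv]
  -- the pairs are a sum over the transpositions
  have e2 : {p : Perm (Fin n) × Fin n // p.1.IsSwap ∧ p.1 p.2 ≠ p.2} ≃
      Σ g : {g : Perm (Fin n) // g.IsSwap}, {i : Fin n // g.1 i ≠ i} :=
    { toFun := fun p => ⟨⟨p.1.1, p.2.1⟩, ⟨p.1.2, p.2.2⟩⟩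
      invFun := fun q => ⟨(q.1.1, q.2.1), q.1.2, q.2.2⟩
      left_inv := fun p => rfl
      right_inv := fun q => rfl }
  rw [Nat.card_congr e2, Nat.card_sigma]
  have h2 : ∀ g : {g : Perm (Fin n) // g.IsSwap}, Nat.card {i : Fin n // g.1 i ≠ i} = 2 := by
    rintro ⟨g, hg⟩
    rw [Nat.card_eq_fintype_card, Fintype.card_subtype]
    exact (Perm.card_support_eq_two.mpr hg)
  rw [Finset.sum_congr rfl (fun g _ => h2 g), Finset.sum_const, Finset.card_univ,
    Nat.card_eq_fintype_card, smul_eq_mul, mul_comm]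

end Pool.Agent.H13.RG
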